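import Pool.Agent.Matlis.Defs

/-!
# Elementary properties of the action of a pencil
-/

set_option autoImplicit false

open scoped TensorProduct DirectSum
open Module

namespace Pool.Agent.Matlis

namespace Act

variable {k : Type} [Field k] {X : Type}
variable {D' D D1' D1 V W : Type} [AddCommGroup D'] [Module k D'] [AddCommGroup D] [Module k D]
  [AddCommGroup D1'] [Module k D1'] [AddCommGroup D1] [Module k D1]
  [AddCommGroup V] [Module k V] [AddCommGroup W] [Module k W]

theorem mem_pre (b : Pencil k X D' D) (S : Submodule k D) (d : D') :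
    d ∈ pre b S ↔ ∀ o, b o d ∈ S := by
  simp [pre, Submodule.mem_iInf]

theorem act_apply (x : X → Module.End k V) (b : Pencil k X D' D) (w : D →ₗ[k] V) (d : D') :
    act x b w d = b.sum (fun o f => opt x o (w (f d))) := by
  change val x (ev b w d) = _
  change (Finsupp.lsum k (fun o => opt x o)) (b.mapRange (fun f => w (f d)) (by simp)) = _
  rw [Finsupp.lsum_apply, Finsupp.sum_mapRange_index]
  intro o
  exact map_zero _

/-- `act` only depends on the values `w (b_o d)`. -/
theorem act_congr (x : X → Module.End k V) (b : Pencil k X D' D) (w : D →ₗ[k] V) (d : D')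
    (b1 : Pencil k X D1' D1) (w1 : D1 →ₗ[k] V) (d1 : D1')
    (h : ∀ o, w (b o d) = w1 (b1 o d1)) : act x b w d = act x b1 w1 d1 := by
  change val x (ev b w d) = val x (ev b1 w1 d1)
  congr 1
  ext o
  rw [ev_apply, ev_apply, h]

theorem act_eq_val (x : X → Module.End k V) (b : Pencil k X D' D) (w : D →ₗ[k] V) (d : D') :
    act x b w d = val x (ev b w d) := rfl

theorem act_zero (x : X → Module.End k V) (b : Pencil k X D' D) :
    act x b (0 : D →ₗ[k] V) = 0 := by
  ext d
  rw [act_apply]
  simp

theorem act_add (x : X → Module.End k V) (b : Pencil k X D' D) (w w' : D →ₗ[k] V) :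
    act x b (w + w') = act x b w + act x b w' := by
  ext d
  rw [LinearMap.add_apply, act_apply, act_apply, act_apply, ← Finsupp.sum_add]
  refine Finsupp.sum_congr fun o _ => ?_
  rw [LinearMap.add_apply, map_add]

theorem act_smul (x : X → Module.End k V) (b : Pencil k X D' D) (c : k) (w : D →ₗ[k] V) :
    act x b (c • w) = c • act x b w := by
  ext d
  rw [LinearMap.smul_apply, act_apply, act_apply, Finsupp.smul_sum]
  refine Finsupp.sum_congr fun o _ => ?_
  rw [LinearMap.smul_apply, map_smul]

/-- `act` as a linear map -/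
noncomputable def actL (x : X → Module.End k V) (b : Pencil k X D' D) :
    (D →ₗ[k] V) →ₗ[k] (D' →ₗ[k] V) where
  toFun := act x b
  map_add' := act_add x b
  map_smul' := act_smul x b

@[simp] theorem actL_apply (x : X → Module.End k V) (b : Pencil k X D' D) (w : D →ₗ[k] V) :
    actL x b w = act x b w := rfl

theorem act_sub (x : X → Module.End k V) (b : Pencil k X D' D) (w w' : D →ₗ[k] V) :
    act x b (w - w') = act x b w - act x b w' := map_sub (actL x b) w w'

theorem act_neg (x : X → Module.End k V) (b : Pencil k X D' D) (w : D →ₗ[k] V) :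
    act x b (-w) = -act x b w := map_neg (actL x b) w

theorem act_add_left (x : X → Module.End k V) (b b' : Pencil k X D' D) (w : D →ₗ[k] V) :
    act x (b + b') w = act x b w + act x b' w := by
  classical
  ext d
  rw [LinearMap.add_apply, act_apply, act_apply, act_apply]
  refine Finsupp.sum_add_index' (fun o => ?_) (fun o f g => ?_)
  · simp
  · simp

theorem act_single (x : X → Module.End k V) (o : Option X) (f : D' →ₗ[k] D) (w : D →ₗ[k] V) :
    act x (Finsupp.single o f) w = opt x o ∘ₗ w ∘ₗ f := by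
  ext d
  rw [act_apply, Finsupp.sum_single_index]
  · rfl
  · simp

theorem act_single_none (x : X → Module.End k V) (f : D' →ₗ[k] D) (w : D →ₗ[k] V) :
    act x (Finsupp.single none f) w = w ∘ₗ f := by
  rw [act_single]
  rfl

theorem act_mapRange (x : X → Module.End k V) (b : Pencil k X D' D)
    (p : D →ₗ[k] D1) (q : D1' →ₗ[k] D') (h) (w : D1 →ₗ[k] V) :
    act x (Finsupp.mapRange (fun f => p ∘ₗ f ∘ₗ q) h b) w = act x b (w ∘ₗ p) ∘ₗ q := by
  ext d
  rw [LinearMap.comp_apply]
  refine act_congr x _ w d b (w ∘ₗ p) (q d) fun o => ?_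
  rw [Finsupp.mapRange_apply]
  rfl

/-- naturality in the module -/
theorem act_nat (x : X → Module.End k V) (x' : X → Module.End k W) (φ : V →ₗ[k] W)
    (hφ : ∀ t v, φ (x t v) = x' t (φ v)) (b : Pencil k X D' D) (w : D →ₗ[k] V) :
    act x' b (φ ∘ₗ w) = φ ∘ₗ act x b w := by
  ext d
  rw [LinearMap.comp_apply, act_apply, act_apply, map_finsuppSum]
  refine Finsupp.sum_congr fun o _ => ?_
  cases o with
  | none => rfl
  | some t => exact (hφ t _).symm

/-- restriction to a subspace -/
theorem act_resP (x : X → Module.End k V) (b : Pencil k X D' D) (S : Submodule k D)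
    (w : D →ₗ[k] V) (d : pre b S) :
    act x (resP b S) (w ∘ₗ S.subtype) d = act x b w d :=
  act_congr x _ _ _ _ _ _ fun _ => rfl

/-- maps which vanish on a subspace -/
theorem act_quoP (x : X → Module.End k V) (b : Pencil k X D' D) (S : Submodule k D)
    (w : (D ⧸ S) →ₗ[k] V) :
    act x b (w ∘ₗ S.mkQ) = act x (quoP b S) w ∘ₗ (pre b S).mkQ := by
  ext d
  exact act_congr x _ _ _ _ _ _ fun _ => rfl

theorem act_tri {D₁' D₁ D₂' D₂ : Type}
    [AddCommGroup D₁'] [Module k D₁'] [AddCommGroup D₁] [Module k D₁]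
    [AddCommGroup D₂'] [Module k D₂'] [AddCommGroup D₂] [Module k D₂]
    (x : X → Module.End k V)
    (b₁ : Pencil k X D₁' D₁) (b₂ : Pencil k X D₂' D₂) (g : Pencil k X D₂' D₁)
    (w : (D₁ × D₂) →ₗ[k] V) (d₁ : D₁') (d₂ : D₂') :
    act x (tri b₁ b₂ g) w (d₁, d₂) =
      act x b₁ (w ∘ₗ LinearMap.inl k D₁ D₂) d₁ + act x b₂ (w ∘ₗ LinearMap.inr k D₁ D₂) d₂ +
        act x g (w ∘ₗ LinearMap.inl k D₁ D₂) d₂ := by
  unfold tri
  rw [act_add_left, act_add_left, act_mapRange, act_mapRange, act_mapRange]
  rfl

theorem act_bord (x : X → Module.End k V) (b : Pencil k X D' D) (c : D) (d : D' →ₗ[k] k)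
    (w : (D × k) →ₗ[k] V) (d' : D') (κ : k) :
    act x (bord b c d) w (d', κ) =
      act x b (w ∘ₗ LinearMap.inl k D k) d' + κ • w (c, 0) - d d' • w (0, 1) := by
  unfold bord
  rw [act_add_left, act_mapRange, act_single_none, LinearMap.add_apply]
  have h1 : (LinearMap.inl k D k ∘ₗ (LinearMap.snd k D' k).smulRight c -
      LinearMap.inr k D k ∘ₗ d ∘ₗ LinearMap.fst k D' k) (d', κ) = κ • (c, 0) - d d' • (0, 1) := by
    simp
  rw [LinearMap.comp_apply, LinearMap.comp_apply, h1, map_sub, map_smul, map_smul, add_sub_assoc]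
  rfl

theorem bord_none (b : Pencil k X D' D) (c : D) (d : D' →ₗ[k] k) (d' : D') (κ : k) :
    bord b c d none (d', κ) = (b none d' + κ • c, - d d') := by
  simp [bord]

theorem bord_some (b : Pencil k X D' D) (c : D) (d : D' →ₗ[k] k) (t : X) (d' : D') (κ : k) :
    bord b c d (some t) (d', κ) = (b (some t) d', 0) := by
  simp [bord]

end Act

end Pool.Agent.Matlis
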