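import Pool.Agent.Matlis.Fullness

/-!
# Matlis' problem: coefficients of endomorphisms of `M₀` (`Stmt_Coef`)
-/

set_option autoImplicit false

open scoped TensorProduct DirectSum
open Module

namespace Pool.Agent.Matlis

namespace Cusp

section coefs

variable {k : Type} [Field k]

theorem Nm_congr {c c' : Finset ℕ → k} {n m : ℕ} (h : ∀ p ∈ AF m n, c p = c' p) (z : Z0)
    (f : (Irep k n).N z) : Nm c n m z f = Nm c' n m z f := by
  apply ex_ext
  intro q hq
  rw [ex_Nm c n m z f hq, ex_Nm c' n m z f hq]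
  exact Finset.sum_congr rfl (fun p hp => by rw [h p hp])

/-- component of an endomorphism of `M₀` -/
noncomputable def cmp (G : GenSys k Z0 (Option Q0.Arr)) (T : M0 G →ₗ[↥(R0 G)] M0 G) (n m : ℕ) :
    EE G n →ₗ[↥(R0 G)] EE G m :=
  DirectSum.component ↥(R0 G) ℕ (fun n => EE G n) m ∘ₗ T ∘ₗ
    DirectSum.lof ↥(R0 G) ℕ (fun n => EE G n) n

theorem cmp_apply (G : GenSys k Z0 (Option Q0.Arr)) (T : M0 G →ₗ[↥(R0 G)] M0 G) (n m : ℕ)
    (y : EE G n) : cmp G T n m y = (T (DirectSum.of (fun n => EE G n) n y)) m := rfl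

theorem min_max_of_adm {m n : ℕ} {p : Finset ℕ} (h : Adm (Z0.nat m) n p) (hp : p.Nonempty) :
    p.min' hp = n ∧ p.max' hp = m := by
  constructor
  · apply le_antisymm
    · exact p.min'_le n h.1
    · exact (h.2.2.1 _ (p.min'_mem hp)).1
  · apply le_antisymm
    · exact (h.2.2.1 _ (p.max'_mem hp)).2
    · exact p.le_max' m h.2.1

theorem coef_eq (G : GenSys k Z0 (Option Q0.Arr)) (T : M0 G →ₗ[↥(R0 G)] M0 G) {n m : ℕ}
    {p : Finset ℕ} (h : Adm (Z0.nat m) n p) : coef G T p = tcoef G n m (cmp G T n m) p := by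
  have hp : p.Nonempty := ⟨n, h.1⟩
  obtain ⟨h1, h2⟩ := min_max_of_adm h hp
  unfold coef tcoef
  rw [dif_pos ⟨hp, h.2.2.2⟩, cmp_apply, h1, h2]

theorem coef_card_two (G : GenSys k Z0 (Option Q0.Arr)) (T : M0 G →ₗ[↥(R0 G)] M0 G)
    {p : Finset ℕ} (h : p.card = 2) : coef G T p = 0 := by
  unfold coef
  rw [dif_neg]
  exact fun h' => h'.2 h

theorem coef_empty (G : GenSys k Z0 (Option Q0.Arr)) (T : M0 G →ₗ[↥(R0 G)] M0 G) :
    coef G T ∅ = 0 := by
  unfold coef
  rw [dif_neg]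
  simp

/-- The key formula for endomorphisms of `M₀` on the elements `f ⊗ v0`. -/
theorem key (hRm : Stmt_Rmem) (hD : Stmt_Dens) (G : GenSys k Z0 (Option Q0.Arr))
    (T : M0 G →ₗ[↥(R0 G)] M0 G) (n m : ℕ) (z : Z0) (f : (Irep k n).N z) :
    (T (DirectSum.of (fun n => EE G n) n (inE G n z (f ⊗ₜ[k] G.v0 z)))) m =
      inE G m z (Nm (coef G T) n m z f ⊗ₜ[k] G.v0 z) := by
  rw [← cmp_apply, fullness hRm hD]
  rw [Nm_congr (fun p hp => (coef_eq G T (mem_AF.1 hp)).symm)]

/-- `M₀` elements with bounded support -/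
theorem M0_sum (G : GenSys k Z0 (Option Q0.Arr)) (y : M0 G) (l : ℕ) (h : ∀ i, l < i → y i = 0) :
    y = ∑ i ∈ Finset.range (l + 1), DirectSum.of (fun n => EE G n) i (y i) := by
  classical
  apply DFinsupp.ext
  intro j
  rw [DFinsupp.finsetSum_apply]
  by_cases hj : j ≤ l
  · rw [Finset.sum_eq_single j]
    · exact (DirectSum.of_eq_same (β := fun n => EE G n) j (y j)).symm
    · intro i _ hij
      exact DirectSum.of_eq_of_ne (β := fun n => EE G n) i j (y i) (Ne.symm hij)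
    · intro h'; exact absurd (Finset.mem_range.2 (by omega)) h'
  · rw [h j (by omega), Finset.sum_eq_zero]
    intro i hi
    have := Finset.mem_range.1 hi
    exact DirectSum.of_eq_of_ne (β := fun n => EE G n) i j (y i) (by omega)

theorem irep_empty {n m : ℕ} (h : m < n) (f : (Irep k n).N (Z0.nat m)) : f = 0 := by
  apply ex_ext
  intro s hs
  have h1 := hs.2.2.1 n hs.1
  omega

theorem conv_card_two {c c' : Finset ℕ → k} (hc : ∀ p : Finset ℕ, p.card = 2 → c p = 0)
    (hc' : ∀ p : Finset ℕ, p.card = 2 → c' p = 0) {p : Finset ℕ} (hp : p.card = 2) :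
    _root_.Matlis.conv c c' p = 0 := by
  unfold _root_.Matlis.conv
  refine Finset.sum_eq_zero (fun x hx => ?_)
  have h1 := card_union (p := p.filter (fun y => y ≤ x)) (q := p.filter (fun y => x ≤ y)) (m := x)
    (fun y hy => (Finset.mem_filter.1 hy).2) (Finset.mem_filter.2 ⟨hx, le_refl x⟩)
    (Finset.mem_filter.2 ⟨hx, le_refl x⟩) (fun y hy => (Finset.mem_filter.1 hy).2)
  rw [union_filter, hp] at h1
  have h2 : 0 < (p.filter (fun y => y ≤ x)).card :=
    Finset.card_pos.2 ⟨x, Finset.mem_filter.2 ⟨hx, le_refl x⟩⟩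
  have h3 : 0 < (p.filter (fun y => x ≤ y)).card :=
    Finset.card_pos.2 ⟨x, Finset.mem_filter.2 ⟨hx, le_refl x⟩⟩
  have h4 : (p.filter (fun y => y ≤ x)).card = 2 ∨ (p.filter (fun y => x ≤ y)).card = 2 := by
    omega
  rcases h4 with h4 | h4
  · rw [hc _ h4, zero_mul]
  · rw [hc' _ h4, mul_zero]

theorem adm_of_ne_two {p : Finset ℕ} (hp : p.Nonempty) (h2 : p.card ≠ 2) :
    Adm (Z0.nat (p.max' hp)) (p.min' hp) p :=
  ⟨p.min'_mem hp, p.max'_mem hp, fun x hx => ⟨p.min'_le x hx, p.le_max' x hx⟩, h2⟩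

theorem sum_AF_ind (n m : ℕ) (c : Finset ℕ → k) {p : Finset ℕ} (hp : Adm (Z0.nat m) n p) :
    ex (Nm c n m (Z0.nat m) (ind k n m p)) {m} = c p := by
  have hadm : Adm (Z0.nat m) m {m} := by simp [Adm]
  rw [ex_Nm _ _ _ _ _ hadm, Finset.sum_eq_single p]
  · rw [Finset.union_eq_left.2 (by simpa using hp.2.1), ex_ind n m p p hp, if_pos rfl, mul_one]
  · intro p' hp' hne
    have h1 := mem_AF.1 hp'
    rw [Finset.union_eq_left.2 (by simpa using h1.2.1), ex_ind n m p p' h1, if_neg hne, mul_zero]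
  · intro h; exact absurd (mem_AF.2 hp) h

theorem coef_comp (hRm : Stmt_Rmem) (hD : Stmt_Dens) (G : GenSys k Z0 (Option Q0.Arr))
    (S T : M0 G →ₗ[↥(R0 G)] M0 G) (p : Finset ℕ) (hp : p.Nonempty) :
    coef G (S ∘ₗ T) p = _root_.Matlis.conv (coef G T) (coef G S) p := by
  classical
  by_cases h2 : p.card = 2
  · rw [coef_card_two G _ h2, conv_card_two (fun p h => coef_card_two G T h)
      (fun p h => coef_card_two G S h) h2]
  have hadm := adm_of_ne_two hp h2
  obtain ⟨n, hn⟩ : ∃ n, n = p.min' hp := ⟨_, rfl⟩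
  obtain ⟨m, hm⟩ : ∃ m, m = p.max' hp := ⟨_, rfl⟩
  rw [← hn, ← hm] at hadm
  rw [coef_eq G (S ∘ₗ T) hadm]
  unfold tcoef
  rw [cmp_apply, LinearMap.comp_apply]
  obtain ⟨y, hy⟩ : ∃ y : M0 G, y = T (DirectSum.of (fun n => EE G n) n (pstar G n m p)) :=
    ⟨_, rfl⟩
  rw [← hy]
  have hyi : ∀ i, y i = inE G i (Z0.nat m)
      (Nm (coef G T) n i (Z0.nat m) (ind k n m p) ⊗ₜ[k] G.v0 (Z0.nat m)) := by
    intro i
    rw [hy, pstar_eq]
    exact key hRm hD G T n i (Z0.nat m) (ind k n m p)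
  have hy0 : ∀ i, m < i → y i = 0 := by
    intro i hi
    rw [hyi, irep_empty hi (Nm (coef G T) n i (Z0.nat m) (ind k n m p)),
      TensorProduct.zero_tmul, map_zero]
  have h3 := M0_sum G y m hy0
  have h4 : (S y) m = ∑ i ∈ Finset.range (m + 1),
      (S (DirectSum.of (fun n => EE G n) i (y i))) m := by
    conv_lhs => rw [h3]
    rw [map_sum, DFinsupp.finsetSum_apply]
  have h5 : (S y) m = inE G m (Z0.nat m) ((Nm (_root_.Matlis.conv (coef G T) (coef G S)) n m
      (Z0.nat m) (ind k n m p)) ⊗ₜ[k] G.v0 (Z0.nat m)) := by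
    rw [h4, ← Nm_comp (coef G T) (coef G S) (fun p h => coef_card_two G T h)
      (fun p h => coef_card_two G S h), TensorProduct.sum_tmul, map_sum]
    refine Finset.sum_congr rfl (fun i _ => ?_)
    rw [hyi]
    exact key hRm hD G S i m (Z0.nat m) _
  rw [h5, chi_v0, sum_AF_ind n m _ hadm]

theorem coef_wfs (hRm : Stmt_Rmem) (hD : Stmt_Dens) (G : GenSys k Z0 (Option Q0.Arr))
    (T : M0 G →ₗ[↥(R0 G)] M0 G) : WFS (coef G T) := by
  classical
  intro H hH
  by_contra hcon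
  push Not at hcon
  choose P hP1 hP2 using hcon
  have hmem : ∀ J, ∀ a ≤ J, H a ∈ P J := by
    intro J a ha
    have : H a ∈ (P J).filter (fun y => y ≤ H J) := by
      rw [hP1]; exact Finset.mem_image_of_mem _ (Finset.mem_range.2 (by omega))
    exact (Finset.mem_filter.1 this).1
  have hlow : ∀ J, ∀ x ∈ P J, x ≤ H J → ∃ a, a ≤ J ∧ H a = x := by
    intro J x hx hxJ
    have : x ∈ (Finset.range (J + 1)).image H := by
      rw [← hP1 J]; exact Finset.mem_filter.2 ⟨hx, hxJ⟩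
    obtain ⟨a, ha, hax⟩ := Finset.mem_image.1 this
    have := Finset.mem_range.1 ha
    exact ⟨a, by omega, hax⟩
  have hmin : ∀ J, ∀ x ∈ P J, H 0 ≤ x := by
    intro J x hx
    by_contra hlt
    obtain ⟨a, _, hax⟩ := hlow J x hx (by have := hH.monotone (Nat.zero_le J); omega)
    have := hH.monotone (Nat.zero_le a)
    omega
  let Mx : Finset ℕ → ℕ := fun s => s.sup id
  have hMx : ∀ (s : Finset ℕ), ∀ x ∈ s, x ≤ Mx s := fun s x hx => Finset.le_sup (f := id) hx
  have hMxmem : ∀ J, Mx (P J) ∈ P J := by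
    intro J
    have hne : (P J).Nonempty := ⟨_, hmem J 0 (Nat.zero_le _)⟩
    obtain ⟨x, hx, hxe⟩ := Finset.exists_mem_eq_sup (P J) hne id
    simp only [Mx]
    rw [hxe]; exact hx
  let J : ℕ → ℕ := fun i => Nat.rec 0 (fun _ j => Mx (P j) + 1) i
  have Js : ∀ i, J (i + 1) = Mx (P (J i)) + 1 := fun i => rfl
  have hHJ : ∀ j, j ≤ H j := fun j => hH.id_le j
  have hMJ : ∀ j, H j ≤ Mx (P j) := fun j => hMx _ _ (hmem j j (le_refl _))
  have hJi : ∀ i, i ≤ J i := by
    intro i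
    induction i with
    | zero => exact Nat.zero_le _
    | succ i ih =>
      rw [Js]
      have := hHJ (J i)
      have := hMJ (J i)
      omega
  let M : ℕ → ℕ := fun i => Mx (P (J i))
  have hMdef : ∀ i, M i = Mx (P (J i)) := fun i => rfl
  have hMmono : StrictMono M := by
    apply strictMono_nat_of_lt_succ
    intro i
    have h1 := Js i
    have h2 := hHJ (J (i + 1))
    have h3 := hMJ (J (i + 1))
    have h4 := hMdef i
    have h5 := hMdef (i + 1)
    omega
  let φ : ℕ → ℕ := fun x => max (H (x + 1)) ((Finset.range (x + 1)).sup M)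
  have hcard : ∀ j, (P j).card ≠ 2 := fun j h => hP2 j (coef_card_two G T h)
  have hbdd : ∀ i, Bdd φ (P (J i)) := by
    intro i x hx y hy hxy
    by_cases hix : i ≤ x
    · refine ⟨y, hy, hxy, ?_⟩
      have h1 : y ≤ M i := hMx _ _ hy
      have h2 : M i ≤ (Finset.range (x + 1)).sup M :=
        Finset.le_sup (Finset.mem_range.2 (by omega))
      exact (h1.trans h2).trans (le_max_right _ _)
    · have h1 := hJi i
      have h2 := hHJ (J i)
      obtain ⟨a, ha, hax⟩ := hlow (J i) x hx (by omega)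
      have h3 := hHJ a
      have haJ : a + 1 ≤ J i := by omega
      refine ⟨H (a + 1), hmem _ _ haJ, ?_, ?_⟩
      · rw [← hax]; exact hH (by omega)
      · exact (hH.monotone (by omega : a + 1 ≤ x + 1)).trans (le_max_left _ _)
  have hadmφ : ∀ i, Adm (Z0.fn φ) (H 0) (P (J i)) := fun i =>
    ⟨hmem _ 0 (Nat.zero_le _), hmin _, hbdd i⟩
  have hadmN : ∀ i, Adm (Z0.nat (M i)) (H 0) (P (J i)) := fun i =>
    ⟨hmem _ 0 (Nat.zero_le _), hMxmem _, fun x hx => ⟨hmin _ x hx, hMx _ x hx⟩, hcard _⟩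
  let f : (Irep k (H 0)).N (Z0.fn φ) :=
    (fun s : {s : Finset ℕ // Adm (Z0.fn φ) (H 0) s} => if ∃ i, s.1 = P (J i) then (1 : k) else 0)
  have hf : ∀ s, Adm (Z0.fn φ) (H 0) s → ex f s = if ∃ i, s = P (J i) then (1 : k) else 0 := by
    intro s hs
    rw [ex_of _ hs]
  obtain ⟨y, hy⟩ : ∃ y : M0 G, y = T (DirectSum.of (fun n => EE G n) (H 0)
    (inE G (H 0) (Z0.fn φ) (f ⊗ₜ[k] G.v0 (Z0.fn φ)))) := ⟨_, rfl⟩
  have hyne : ∀ i, y (M i) ≠ 0 := by
    intro i hzero
    rw [hy, key hRm hD] at hzero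
    have h1 := congrArg (rdE G (M i) (Z0.fn φ)) hzero
    rw [rdE_v0, map_zero] at h1
    have hadm1 : Adm (Z0.fn φ) (M i) {M i} := by
      refine ⟨Finset.mem_singleton_self _, ?_, ?_⟩
      · intro x hx; rw [Finset.mem_singleton.1 hx]
      · intro x hx y hy hxy
        rw [Finset.mem_singleton.1 hx, Finset.mem_singleton.1 hy] at hxy
        exact absurd hxy (lt_irrefl _)
    have h2 : ex (Nm (coef G T) (H 0) (M i) (Z0.fn φ) f) {M i} = 0 := by
      rw [h1, ex_of _ hadm1]; rfl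
    rw [ex_Nm _ _ _ _ _ hadm1, Finset.sum_eq_single (P (J i))] at h2
    · rw [Finset.union_eq_left.2 (by simpa using (hadmN i).2.1), hf _ (hadmφ i),
        if_pos ⟨i, rfl⟩, mul_one] at h2
      exact hP2 _ h2
    · intro p hp hne
      have hp' := mem_AF.1 hp
      rw [Finset.union_eq_left.2 (by simpa using hp'.2.1)]
      by_cases hap : Adm (Z0.fn φ) (H 0) p
      · rw [hf p hap, if_neg, mul_zero]
        rintro ⟨i', rfl⟩
        apply hne
        have h3 : M i' = M i := by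
          apply le_antisymm
          · exact (hp'.2.2.1 _ (hMxmem (J i'))).2
          · exact hMx _ _ hp'.2.1
        rw [hMmono.injective h3]
      · rw [ex_not _ hap, mul_zero]
    · intro h3; exact absurd (mem_AF.2 (hadmN i)) h3
  have hfin : {m | y m ≠ 0}.Finite := by
    refine (DFinsupp.support (β := fun n => EE G n) y).finite_toSet.subset ?_
    intro m hm
    exact (DFinsupp.mem_support_iff (β := fun n => EE G n)).2 hm
  exact Set.infinite_of_injective_forall_mem hMmono.injective hyne hfin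

end coefs

end Cusp

theorem coef_proof (hRm : Stmt_Rmem) (hD : Stmt_Dens) : Stmt_Coef := by
  intro k _ G
  exact ⟨fun T => Cusp.coef_wfs hRm hD G T, fun S T p hp => Cusp.coef_comp hRm hD G S T p hp⟩

end Pool.Agent.Matlis
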