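import Mathlib

set_option autoImplicit false

/-!
Section 6 of the Matlis counterexample (MP_504466_al): the convolution algebra of functions on
finite sets of natural numbers, and the ultrafilter contradiction.
-/

namespace Matlis

open Finset

/-! ## A generic sequence for a locally constant colouring -/

/-- `s` is an initial segment of the sequence `H`. -/
def Init (s : Finset ℕ) (H : ℕ → ℕ) : Prop := ∃ k, s = (range k).image H

theorem init_unique {H H' : ℕ → ℕ} (hH : StrictMono H) (hH' : StrictMono H') {k k' : ℕ}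
    (h : (range k).image H = (range k').image H') : k = k' ∧ ∀ i < k, H i = H' i := by
  have hk : k = k' := by
    have := congrArg Finset.card h
    rwa [card_image_of_injective _ hH.injective, card_image_of_injective _ hH'.injective,
      card_range, card_range] at this
  subst hk
  refine ⟨rfl, ?_⟩
  intro i
  induction i using Nat.strong_induction_on with
  | _ i ih =>
    intro hi
    have h1 : H i ∈ (range k).image H' := by
      rw [← h]; exact mem_image_of_mem _ (mem_range.2 hi)
    have h2 : H' i ∈ (range k).image H := by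
      rw [h]; exact mem_image_of_mem _ (mem_range.2 hi)
    obtain ⟨a, ha, ha'⟩ := mem_image.1 h1
    obtain ⟨b, hb, hb'⟩ := mem_image.1 h2
    have hai : i ≤ a := by
      by_contra hlt
      push Not at hlt
      have := ih a hlt (mem_range.1 ha)
      have h3 : H a = H i := by rw [this, ha']
      exact absurd (hH.injective h3) (by omega)
    have hbi : i ≤ b := by
      by_contra hlt
      push Not at hlt
      have := ih b hlt (mem_range.1 hb)
      have h3 : H' b = H' i := by rw [← this, hb']
      exact absurd (hH'.injective h3) (by omega)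
    have h4 : H' i ≤ H i := by rw [← ha']; exact hH'.monotone hai
    have h5 : H i ≤ H' i := by rw [← hb']; exact hH.monotone hbi
    omega

theorem exists_init (s : Finset ℕ) : ∃ H : ℕ → ℕ, StrictMono H ∧ Init s H := by
  refine Finset.induction_on_max s ?_ ?_
  · exact ⟨id, strictMono_id, 0, by simp⟩
  · intro a s ha ih
    obtain ⟨H, hH, k, hk⟩ := ih
    refine ⟨fun n => if n < k then H n else a + (n - k), ?_, k + 1, ?_⟩
    · intro m n hmn
      simp only
      by_cases hn : n < k
      · have hm : m < k := by omega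
        simp only [hn, hm, if_true]
        exact hH hmn
      · by_cases hm : m < k
        · simp only [hn, hm, if_true, if_false]
          have : H m < a := ha _ (by rw [hk]; exact mem_image_of_mem _ (mem_range.2 hm))
          omega
        · simp only [hn, hm, if_false]
          omega
    · rw [range_add_one, image_insert]
      have h1 : (range k).image (fun n => if n < k then H n else a + (n - k))
          = (range k).image H := by
        apply image_congr
        intro x hx
        have : x < k := by simpa using hx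
        simp [this]
      rw [h1, ← hk]
      simp

/-- The inductive predicate: generically true along the filter `U`. -/
inductive Gen (U : Filter ℕ) (T : Finset ℕ → Prop) : Finset ℕ → Prop
  | base (s : Finset ℕ) : T s → Gen U T s
  | step (s : Finset ℕ) (S : Set ℕ) : S ∈ U → (∀ x ∈ S, Gen U T (insert x s)) → Gen U T s

/-- choose the next element -/
theorem exists_seq (U : Ultrafilter ℕ) (hU : ∀ n : ℕ, ∀ᶠ x in (U : Filter ℕ), n < x)
    (P : Finset ℕ → Prop) (h0 : P ∅) (hP : ∀ s, P s → ∀ᶠ x in (U : Filter ℕ), P (insert x s)) :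
    ∃ H : ℕ → ℕ, StrictMono H ∧ ∀ i j, P ((range j).image (fun n => H (i + n))) := by
  classical
  -- a good list: every initial part (most recent elements first) is in P
  have hnext : ∀ L : List ℕ, ∃ x : ℕ, (∀ y ∈ L, y < x) ∧
      ((∀ j, P (L.take j).toFinset) → ∀ j, P ((x :: L).take j).toFinset) := by
    intro L
    have e1 : ∀ᶠ x in (U : Filter ℕ), ∀ y ∈ L, y < x := by
      have : ∀ᶠ x in (U : Filter ℕ), ∀ y ∈ L.toFinset, y < x := by
        rw [Filter.eventually_all_finset]
        intro y _
        exact hU y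
      exact this.mono (fun x hx y hy => hx y (by simpa using hy))
    by_cases hg : ∀ j, P (L.take j).toFinset
    · have e2 : ∀ᶠ x in (U : Filter ℕ), ∀ j ∈ range (L.length + 1),
          P (insert x (L.take j).toFinset) := by
        rw [Filter.eventually_all_finset]
        intro j _
        exact hP _ (hg j)
      obtain ⟨x, hx1, hx2⟩ := (e1.and e2).exists
      refine ⟨x, hx1, fun _ j => ?_⟩
      rcases j with _ | j
      · simpa using h0
      · rw [List.take_succ_cons, List.toFinset_cons]
        by_cases hj : j ≤ L.length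
        · exact hx2 j (mem_range.2 (by omega))
        · have : L.take j = L.take L.length := by
            rw [List.take_of_length_le (by omega), List.take_length]
          rw [this]
          exact hx2 _ (mem_range.2 (by omega))
    · obtain ⟨x, hx⟩ := e1.exists
      exact ⟨x, hx, fun h => absurd h hg⟩
  choose nx hnx1 hnx2 using hnext
  let Ls : ℕ → List ℕ := fun n => Nat.rec [] (fun _ L => nx L :: L) n
  have Ls0 : Ls 0 = [] := rfl
  have Lss : ∀ n, Ls (n + 1) = nx (Ls n) :: Ls n := fun n => rfl
  let H : ℕ → ℕ := fun n => nx (Ls n)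
  have Hdef : ∀ n, H n = nx (Ls n) := fun n => rfl
  have hgood : ∀ n, ∀ j, P ((Ls n).take j).toFinset := by
    intro n
    induction n with
    | zero => intro j; simpa [Ls0] using h0
    | succ n ih => rw [Lss]; exact hnx2 _ ih
  have hmono : StrictMono H := by
    apply strictMono_nat_of_lt_succ
    intro n
    rw [Hdef (n + 1)]
    apply hnx1
    rw [Lss]
    simp [Hdef]
  have htake : ∀ j i, ((Ls (i + j)).take j).toFinset = (range j).image (fun n => H (i + n)) := by
    intro j
    induction j with
    | zero => intro i; simp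
    | succ j ih =>
      intro i
      rw [← Nat.add_assoc, Lss, List.take_succ_cons, List.toFinset_cons, ih i, range_add_one,
        image_insert]
  refine ⟨H, hmono, fun i j => ?_⟩
  rw [← htake]
  exact hgood _ _

/-- A locally constant colouring of increasing sequences admits a sequence all of whose tails
have the same colour. -/
theorem generic (c : (ℕ → ℕ) → Prop)
    (hc : ∀ H : ℕ → ℕ, StrictMono H → ∃ k, ∀ H' : ℕ → ℕ, StrictMono H' →
      (∀ i < k, H' i = H i) → (c H' ↔ c H)) :
    ∃ H : ℕ → ℕ, StrictMono H ∧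
      ((∀ i, c (fun n => H (i + n))) ∨ (∀ i, ¬ c (fun n => H (i + n)))) := by
  classical
  let U : Ultrafilter ℕ := Filter.hyperfilter ℕ
  have hU : ∀ n : ℕ, ∀ᶠ x in (U : Filter ℕ), n < x := by
    intro n
    have h1 : (U : Filter ℕ) ≤ Filter.atTop := by
      rw [← Nat.cofinite_eq_atTop]
      exact Filter.hyperfilter_le_cofinite
    exact h1 (Filter.eventually_gt_atTop n)
  let T : Finset ℕ → Prop := fun s => ∀ H : ℕ → ℕ, StrictMono H → Init s H → c H
  have hTins : ∀ s, T s → ∀ᶠ x in (U : Filter ℕ), T (insert x s) := by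
    intro s hs
    have e1 : ∀ᶠ x in (U : Filter ℕ), ∀ y ∈ s, y < x := by
      rw [Filter.eventually_all_finset]
      intro y _
      exact hU y
    refine e1.mono (fun x hx H hH hI => hs H hH ?_)
    obtain ⟨k, hk⟩ := hI
    obtain ⟨H1, hH1, k1, hk1⟩ := exists_init s
    have h2 : insert x s = (range (k1 + 1)).image
        (fun n => if n < k1 then H1 n else x + (n - k1)) := by
      rw [range_add_one, image_insert]
      have h1 : (range k1).image (fun n => if n < k1 then H1 n else x + (n - k1))
          = (range k1).image H1 := by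
        apply image_congr
        intro y hy
        have : y < k1 := by simpa using hy
        simp [this]
      rw [h1, ← hk1]
      simp
    have h3 : StrictMono (fun n => if n < k1 then H1 n else x + (n - k1)) := by
      intro m n hmn
      simp only
      by_cases hn : n < k1
      · have hm : m < k1 := by omega
        simp only [hn, hm, if_true]
        exact hH1 hmn
      · by_cases hm : m < k1
        · simp only [hn, hm, if_true, if_false]
          have : H1 m < x := hx _ (by rw [hk1]; exact mem_image_of_mem _ (mem_range.2 hm))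
          omega
        · simp only [hn, hm, if_false]
          omega
    rw [hk] at h2
    obtain ⟨hkk, hag⟩ := init_unique hH h3 h2
    refine ⟨k1, ?_⟩
    rw [hk1]
    apply image_congr
    intro y hy
    have hy' : y < k1 := by simpa using hy
    have := hag y (by omega)
    simp only [hy', if_true] at this
    exact this.symm
  have hTF : ∀ s, Gen U T s → ¬ (∀ H : ℕ → ℕ, StrictMono H → Init s H → ¬ c H) := by
    intro s hs
    induction hs with
    | base s hs =>
      intro hF
      obtain ⟨H, hH, hI⟩ := exists_init s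
      exact hF H hH hI (hs H hH hI)
    | step s S hS _ ih =>
      intro hF
      have e1 : ∀ᶠ x in (U : Filter ℕ), ∀ y ∈ s, y < x := by
        rw [Filter.eventually_all_finset]
        intro y _
        exact hU y
      obtain ⟨x, hx1, hx2⟩ := (e1.and hS).exists
      apply ih x hx2
      intro H hH hI
      apply hF H hH
      obtain ⟨k, hk⟩ := hI
      have hxk : x ∈ (range k).image H := by rw [← hk]; simp
      obtain ⟨a, ha, hax⟩ := mem_image.1 hxk
      have hak : a + 1 = k := by
        by_contra hne
        have ha' := mem_range.1 ha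
        have h1 : H (a + 1) ∈ insert x s := by
          rw [hk]; exact mem_image_of_mem _ (mem_range.2 (by omega))
        rcases mem_insert.1 h1 with h2 | h2
        · rw [← hax] at h2
          exact absurd (hH.injective h2) (by omega)
        · have h3 := hx1 _ h2
          have h4 : H a < H (a + 1) := hH (by omega)
          omega
      refine ⟨a, ?_⟩
      ext y
      constructor
      · intro hy
        have h1 : y ∈ (range k).image H := by rw [← hk]; exact mem_insert_of_mem hy
        obtain ⟨b, hb, hby⟩ := mem_image.1 h1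
        have hyx := hx1 y hy
        have : b < a := by
          by_contra hba
          have := hH.monotone (show a ≤ b by omega)
          omega
        exact mem_image.2 ⟨b, mem_range.2 this, hby⟩
      · intro hy
        obtain ⟨b, hb, hby⟩ := mem_image.1 hy
        have hb' := mem_range.1 hb
        have h1 : y ∈ insert x s := by
          rw [hk]; exact mem_image.2 ⟨b, mem_range.2 (by omega), hby⟩
        rcases mem_insert.1 h1 with h2 | h2
        · rw [← hax, ← hby] at h2
          exact absurd (hH.injective h2) (by omega)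
        · exact h2
  by_cases hg : Gen U T ∅
  · obtain ⟨H, hH, hseg⟩ := exists_seq U hU (Gen U T) hg (by
      intro s hs
      cases hs with
      | base _ h => exact (hTins s h).mono (fun x hx => Gen.base _ hx)
      | step _ S hS h => exact Filter.mem_of_superset hS (fun x hx => h x hx))
    refine ⟨H, hH, Or.inl fun i => ?_⟩
    have hHi : StrictMono (fun n => H (i + n)) := fun a b hab => hH (by omega)
    obtain ⟨k, hk⟩ := hc _ hHi
    by_contra hcon
    refine hTF _ (hseg i k) ?_
    intro H' hH' hI hcH'
    obtain ⟨k', hk'⟩ := hI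
    obtain ⟨_, hag⟩ := init_unique hHi hH' hk'
    exact hcon ((hk H' hH' (fun j hj => (hag j hj).symm)).1 hcH')
  · obtain ⟨H, hH, hseg⟩ := exists_seq U hU (fun s => ¬ Gen U T s) hg (by
      intro s hs
      by_contra hcon
      have h1 : ∀ᶠ x in (U : Filter ℕ), Gen U T (insert x s) := by
        have := Ultrafilter.eventually_not.not.1 hcon
        exact not_not.1 this
      exact hs (Gen.step s _ h1 (fun x hx => hx)))
    refine ⟨H, hH, Or.inr fun i => ?_⟩
    have hHi : StrictMono (fun n => H (i + n)) := fun a b hab => hH (by omega)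
    obtain ⟨k, hk⟩ := hc _ hHi
    intro hcH
    apply hseg i k
    apply Gen.base
    intro H' hH' hI
    obtain ⟨k', hk'⟩ := hI
    obtain ⟨_, hag⟩ := init_unique hHi hH' hk'
    exact (hk H' hH' (fun j hj => (hag j hj).symm)).2 hcH

/-! ## Convolution -/

section conv
variable {k : Type*} [Ring k]

/-- convolution of functions on finite sets of natural numbers -/
def conv (A B : Finset ℕ → k) (p : Finset ℕ) : k :=
  ∑ x ∈ p, A (p.filter (fun y => y ≤ x)) * B (p.filter (fun y => x ≤ y))

theorem conv_empty (A B : Finset ℕ → k) : conv A B ∅ = 0 := by simp [conv]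

theorem conv_assoc (A B C : Finset ℕ → k) : conv (conv A B) C = conv A (conv B C) := by
  funext p
  unfold conv
  simp only [Finset.sum_mul, Finset.mul_sum]
  have hL : ∀ x ∈ p, ∑ i ∈ p.filter (fun y => y ≤ x),
      A ((p.filter (fun y => y ≤ x)).filter (fun y => y ≤ i)) *
        B ((p.filter (fun y => y ≤ x)).filter (fun y => i ≤ y)) *
        C (p.filter (fun y => x ≤ y))
      = ∑ i ∈ p, if i ≤ x then A (p.filter (fun y => y ≤ i)) *
        B (p.filter (fun y => i ≤ y ∧ y ≤ x)) * C (p.filter (fun y => x ≤ y)) else 0 := by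
    intro x _
    rw [Finset.sum_filter]
    refine Finset.sum_congr rfl (fun i _ => ?_)
    by_cases hix : i ≤ x
    · simp only [hix, if_true, Finset.filter_filter]
      congr 3
      · ext y; simp only [Finset.mem_filter]; constructor
        · rintro ⟨h1, _, h3⟩; exact ⟨h1, h3⟩
        · rintro ⟨h1, h3⟩; exact ⟨h1, by omega, h3⟩
      · ext y; simp only [Finset.mem_filter]; constructor
        · rintro ⟨h1, h2, h3⟩; exact ⟨h1, h3, h2⟩
        · rintro ⟨h1, h2, h3⟩; exact ⟨h1, h3, h2⟩
    · simp [hix]
  have hR : ∀ i ∈ p, ∑ x ∈ p.filter (fun y => i ≤ y), A (p.filter (fun y => y ≤ i)) *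
      (B ((p.filter (fun y => i ≤ y)).filter (fun y => y ≤ x)) *
        C ((p.filter (fun y => i ≤ y)).filter (fun y => x ≤ y)))
      = ∑ x ∈ p, if i ≤ x then A (p.filter (fun y => y ≤ i)) *
        B (p.filter (fun y => i ≤ y ∧ y ≤ x)) * C (p.filter (fun y => x ≤ y)) else 0 := by
    intro i _
    rw [Finset.sum_filter]
    refine Finset.sum_congr rfl (fun x _ => ?_)
    by_cases hix : i ≤ x
    · simp only [hix, if_true, Finset.filter_filter, mul_assoc]
      congr 3
      ext y; simp only [Finset.mem_filter]; constructor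
      · rintro ⟨h1, h2, h3⟩; exact ⟨h1, h3⟩
      · rintro ⟨h1, h3⟩; exact ⟨h1, by omega, h3⟩
    · simp [hix]
  rw [Finset.sum_congr rfl hL, Finset.sum_congr rfl hR, Finset.sum_comm]

theorem conv_add (A B C : Finset ℕ → k) : conv A (B + C) = conv A B + conv A C := by
  funext p; simp [conv, mul_add, Finset.sum_add_distrib]

theorem add_conv (A B C : Finset ℕ → k) : conv (A + B) C = conv A C + conv B C := by
  funext p; simp [conv, add_mul, Finset.sum_add_distrib]

/-- indicator of cardinality one -/
def cone : Finset ℕ → k := fun p => if p.card = 1 then 1 else 0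

/-- indicator of cardinality two -/
def cS : Finset ℕ → k := fun p => if p.card = 2 then 1 else 0

theorem filter_le_max {p : Finset ℕ} {M : ℕ} (hM : ∀ y ∈ p, y < M) :
    (insert M p).filter (fun y => M ≤ y) = {M} := by
  ext y; simp only [mem_filter, mem_insert, mem_singleton]
  constructor
  · rintro ⟨h1 | h1, h2⟩
    · exact h1
    · exact absurd (hM y h1) (by omega)
  · rintro rfl; exact ⟨Or.inl rfl, le_refl _⟩

theorem filter_le_insert {p : Finset ℕ} {M x : ℕ} (hM : ∀ y ∈ p, y < M) (hx : x ∈ p) :
    (insert M p).filter (fun y => y ≤ x) = p.filter (fun y => y ≤ x) := by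
  have := hM x hx
  rw [filter_insert, if_neg (by omega)]

theorem filter_ge_insert {p : Finset ℕ} {M x : ℕ} (hM : ∀ y ∈ p, y < M) (hx : x ∈ p) :
    (insert M p).filter (fun y => x ≤ y) = insert M (p.filter (fun y => x ≤ y)) := by
  have := hM x hx
  rw [filter_insert, if_pos (by omega)]

theorem conv_cone_right (A : Finset ℕ → k) (p : Finset ℕ) (hp : p.Nonempty) :
    conv A cone p = A p := by
  unfold conv
  rw [Finset.sum_eq_single (p.max' hp)]
  · have h1 : p.filter (fun y => y ≤ p.max' hp) = p := by
      rw [filter_true_of_mem]; intro y hy; exact p.le_max' y hy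
    have h2 : p.filter (fun y => p.max' hp ≤ y) = {p.max' hp} := by
      ext y; simp only [mem_filter, mem_singleton]; constructor
      · rintro ⟨h1, h2⟩; exact le_antisymm (p.le_max' y h1) h2
      · rintro rfl; exact ⟨p.max'_mem hp, le_refl _⟩
    rw [h1, h2]; simp [cone]
  · intro x hx hne
    have hlt : x < p.max' hp := lt_of_le_of_ne (p.le_max' x hx) hne
    have : 1 < (p.filter (fun y => x ≤ y)).card := by
      rw [Finset.one_lt_card]
      exact ⟨x, by simp [hx], p.max' hp, by simp [p.max'_mem hp, hlt.le], hne⟩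
    simp only [cone]
    rw [if_neg (by omega), mul_zero]
  · intro h; exact absurd (p.max'_mem hp) h

theorem conv_cone_left (A : Finset ℕ → k) (p : Finset ℕ) (hp : p.Nonempty) :
    conv cone A p = A p := by
  unfold conv
  rw [Finset.sum_eq_single (p.min' hp)]
  · have h1 : p.filter (fun y => p.min' hp ≤ y) = p := by
      rw [filter_true_of_mem]; intro y hy; exact p.min'_le y hy
    have h2 : p.filter (fun y => y ≤ p.min' hp) = {p.min' hp} := by
      ext y; simp only [mem_filter, mem_singleton]; constructor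
      · rintro ⟨h1, h2⟩; exact le_antisymm h2 (p.min'_le y h1)
      · rintro rfl; exact ⟨p.min'_mem hp, le_refl _⟩
    rw [h1, h2]; simp [cone]
  · intro x hx hne
    have hlt : p.min' hp < x := lt_of_le_of_ne (p.min'_le x hx) (Ne.symm hne)
    have : 1 < (p.filter (fun y => y ≤ x)).card := by
      rw [Finset.one_lt_card]
      exact ⟨x, by simp [hx], p.min' hp, by simp [p.min'_mem hp, hlt.le], hne⟩
    simp only [cone]
    rw [if_neg (by omega), zero_mul]
  · intro h; exact absurd (p.min'_mem hp) h

/-- Right multiplication by `cS` removes the last element. -/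
theorem conv_cS_right (A : Finset ℕ → k) (p : Finset ℕ) (M : ℕ) (hM : ∀ y ∈ p, y < M)
    (hp : p.Nonempty) : conv A cS (insert M p) = A p := by
  unfold conv
  rw [Finset.sum_insert (fun h => absurd (hM M h) (by omega)), filter_le_max hM]
  simp only [cS, card_singleton, OfNat.one_ne_ofNat, if_false, mul_zero, zero_add]
  rw [← conv_cone_right A p hp]
  unfold conv
  refine Finset.sum_congr rfl (fun x hx => ?_)
  rw [filter_le_insert hM hx, filter_ge_insert hM hx]
  have h1 : M ∉ p.filter (fun y => x ≤ y) := fun h => absurd (hM M (mem_filter.1 h).1) (by omega)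
  rw [card_insert_of_notMem h1]
  simp [cone]

theorem conv_cS_right_single (A : Finset ℕ → k) (M : ℕ) : conv A cS {M} = 0 := by
  simp [conv, cS, Finset.filter_singleton]

/-- Left multiplication by `cS` removes the first element. -/
theorem conv_cS_left (A : Finset ℕ → k) (p : Finset ℕ) (m : ℕ) (hm : ∀ y ∈ p, m < y)
    (hp : p.Nonempty) : conv cS A (insert m p) = A p := by
  unfold conv
  have e1 : (insert m p).filter (fun y => y ≤ m) = {m} := by
    ext y; simp only [mem_filter, mem_insert, mem_singleton]
    constructor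
    · rintro ⟨h1 | h1, h2⟩
      · exact h1
      · exact absurd (hm y h1) (by omega)
    · rintro rfl; exact ⟨Or.inl rfl, le_refl _⟩
  rw [Finset.sum_insert (fun h => absurd (hm m h) (by omega)), e1]
  simp only [cS, card_singleton, OfNat.one_ne_ofNat, if_false, zero_mul, zero_add]
  rw [← conv_cone_left A p hp]
  unfold conv
  refine Finset.sum_congr rfl (fun x hx => ?_)
  have hmx := hm x hx
  have e2 : (insert m p).filter (fun y => y ≤ x) = insert m (p.filter (fun y => y ≤ x)) := by
    rw [filter_insert, if_pos (by omega)]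
  have e3 : (insert m p).filter (fun y => x ≤ y) = p.filter (fun y => x ≤ y) := by
    rw [filter_insert, if_neg (by omega)]
  have h1 : m ∉ p.filter (fun y => y ≤ x) := fun h => absurd (hm m (mem_filter.1 h).1) (by omega)
  rw [e2, e3, card_insert_of_notMem h1]
  simp [cone]

/-! ### The ring of functions vanishing at the empty set -/

/-- functions on finite sets vanishing at the empty set -/
def CvSub (k : Type*) [Ring k] : AddSubgroup (Finset ℕ → k) where
  carrier := {A | A ∅ = 0}
  add_mem' := by intro a b ha hb; simp only [Set.mem_ofPred_eq, Pi.add_apply] at *; simp [ha, hb]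
  zero_mem' := by simp
  neg_mem' := by intro a ha; simp only [Set.mem_ofPred_eq, Pi.neg_apply] at *; simp [ha]

/-- the convolution ring -/
abbrev Cv (k : Type*) [Ring k] := ↥(CvSub k)

instance : Mul (Cv k) := ⟨fun A B => ⟨conv A.1 B.1, conv_empty _ _⟩⟩
instance : One (Cv k) := ⟨⟨cone, by simp [CvSub, cone]⟩⟩

theorem Cv.mul_val (A B : Cv k) : (A * B).1 = conv A.1 B.1 := rfl
theorem Cv.one_val : (1 : Cv k).1 = cone := rfl

instance : Ring (Cv k) :=
  { (inferInstance : AddCommGroup (Cv k)), (inferInstance : Mul (Cv k)),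
    (inferInstance : One (Cv k)) with
    left_distrib := fun A B C => Subtype.ext (conv_add A.1 B.1 C.1)
    right_distrib := fun A B C => Subtype.ext (add_conv A.1 B.1 C.1)
    mul_assoc := fun A B C => Subtype.ext (conv_assoc A.1 B.1 C.1)
    zero_mul := fun A => Subtype.ext (by funext p; simp [Cv.mul_val, conv])
    mul_zero := fun A => Subtype.ext (by funext p; simp [Cv.mul_val, conv])
    one_mul := fun A => Subtype.ext (by
      funext p
      rcases p.eq_empty_or_nonempty with rfl | hp
      · rw [Cv.mul_val, conv_empty]; exact A.2.symm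
      · exact conv_cone_left A.1 p hp)
    mul_one := fun A => Subtype.ext (by
      funext p
      rcases p.eq_empty_or_nonempty with rfl | hp
      · rw [Cv.mul_val, conv_empty]; exact A.2.symm
      · exact conv_cone_right A.1 p hp) }

/-- the element `s` -/
def Cv.S (k : Type*) [Ring k] : Cv k := ⟨cS, by simp [CvSub, cS]⟩

theorem Cv.S_pow (j : ℕ) (p : Finset ℕ) :
    ((Cv.S k) ^ j).1 p = if p.card = j + 1 then 1 else 0 := by
  induction j generalizing p with
  | zero => rw [pow_zero]; rfl
  | succ j ih =>
    rw [pow_succ, Cv.mul_val]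
    change conv _ cS p = _
    rcases p.eq_empty_or_nonempty with rfl | hp
    · rw [conv_empty]; simp
    · have hM : ∀ y ∈ p.erase (p.max' hp), y < p.max' hp := by
        intro y hy
        exact lt_of_le_of_ne (p.le_max' y (mem_of_mem_erase hy)) (ne_of_mem_erase hy)
      have hins : insert (p.max' hp) (p.erase (p.max' hp)) = p :=
        insert_erase (p.max'_mem hp)
      rcases (p.erase (p.max' hp)).eq_empty_or_nonempty with he | he
      · rw [he] at hins
        rw [← hins]
        have := conv_cS_right_single ((Cv.S k) ^ j).1 (p.max' hp)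
        rw [insert_empty_eq] at *
        rw [this]; simp
      · have hc : p.card = (p.erase (p.max' hp)).card + 1 := by
          rw [card_erase_of_mem (p.max'_mem hp)]
          have := card_pos.2 hp; omega
        conv_lhs => rw [← hins]
        rw [conv_cS_right _ _ _ hM he, ih, hc]
        simp

/-! ### Property (W) -/

/-- Property (W): along every increasing sequence the function vanishes on all finite sets
having a long enough initial segment of the sequence as an initial segment. -/
def WF (A : Finset ℕ → k) : Prop :=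
  ∀ H : ℕ → ℕ, StrictMono H → ∃ J, ∀ p : Finset ℕ,
    p.filter (fun y => y ≤ H J) = (range (J + 1)).image H → A p = 0

theorem init_down {H : ℕ → ℕ} (hH : StrictMono H) {J J' : ℕ} (hJ : J ≤ J') {p : Finset ℕ}
    (hp : p.filter (fun y => y ≤ H J') = (range (J' + 1)).image H) :
    p.filter (fun y => y ≤ H J) = (range (J + 1)).image H := by
  ext y
  simp only [mem_filter, mem_image, mem_range]
  constructor
  · rintro ⟨h1, h2⟩
    have h3 : y ∈ (range (J' + 1)).image H := by
      rw [← hp, mem_filter]; exact ⟨h1, h2.trans (hH.monotone hJ)⟩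
    obtain ⟨a, ha, hay⟩ := mem_image.1 h3
    refine ⟨a, ?_, hay⟩
    rw [← hay] at h2
    have := hH.le_iff_le.1 h2
    omega
  · rintro ⟨a, ha, hay⟩
    have h3 : y ∈ p.filter (fun y => y ≤ H J') := by
      rw [hp, mem_image]; exact ⟨a, mem_range.2 (by omega), hay⟩
    refine ⟨(mem_filter.1 h3).1, ?_⟩
    rw [← hay]; exact hH.monotone (by omega)

theorem WF.add {A B : Finset ℕ → k} (hA : WF A) (hB : WF B) : WF (A + B) := by
  intro H hH
  obtain ⟨J, hJ⟩ := hA H hH
  obtain ⟨J', hJ'⟩ := hB H hH
  refine ⟨max J J', fun p hp => ?_⟩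
  rw [Pi.add_apply, hJ p (init_down hH (le_max_left _ _) hp),
    hJ' p (init_down hH (le_max_right _ _) hp), add_zero]

theorem WF.neg {A : Finset ℕ → k} (hA : WF A) : WF (-A) := by
  intro H hH
  obtain ⟨J, hJ⟩ := hA H hH
  refine ⟨J, fun p hp => ?_⟩
  rw [Pi.neg_apply, hJ p hp, neg_zero]

theorem WF.mul_S {A : Finset ℕ → k} (hA : WF A) : WF (conv A cS) := by
  intro H hH
  obtain ⟨J, hJ⟩ := hA H hH
  refine ⟨J + 1, fun p hp => ?_⟩
  have hmem : ∀ a ≤ J + 1, H a ∈ p := by
    intro a ha
    have : H a ∈ p.filter (fun y => y ≤ H (J + 1)) := by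
      rw [hp]; exact mem_image_of_mem _ (mem_range.2 (by omega))
    exact (mem_filter.1 this).1
  have hpn : p.Nonempty := ⟨_, hmem 0 (by omega)⟩
  have hM1 : H (J + 1) ≤ p.max' hpn := p.le_max' _ (hmem _ (le_refl _))
  have hJ1 : H J < H (J + 1) := hH (by omega)
  have hM : ∀ y ∈ p.erase (p.max' hpn), y < p.max' hpn := by
    intro y hy
    exact lt_of_le_of_ne (p.le_max' y (mem_of_mem_erase hy)) (ne_of_mem_erase hy)
  have hins : insert (p.max' hpn) (p.erase (p.max' hpn)) = p :=
    insert_erase (p.max'_mem hpn)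
  have he : (p.erase (p.max' hpn)).Nonempty :=
    ⟨H J, mem_erase.2 ⟨by omega, hmem J (by omega)⟩⟩
  rw [← hins, conv_cS_right _ _ _ hM he]
  apply hJ
  rw [← init_down hH (show J ≤ J + 1 by omega) hp]
  ext y
  simp only [mem_filter, mem_erase]
  constructor
  · rintro ⟨⟨_, h2⟩, h3⟩; exact ⟨h2, h3⟩
  · rintro ⟨h2, h3⟩; exact ⟨⟨by omega, h2⟩, h3⟩

theorem WF.S_mul {A : Finset ℕ → k} (hA : WF A) : WF (conv cS A) := by
  intro H hH
  obtain ⟨J, hJ⟩ := hA (fun n => H (n + 1)) (fun a b hab => hH (by omega))
  refine ⟨J + 1, fun p hp => ?_⟩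
  have hmem : ∀ a ≤ J + 1, H a ∈ p := by
    intro a ha
    have : H a ∈ p.filter (fun y => y ≤ H (J + 1)) := by
      rw [hp]; exact mem_image_of_mem _ (mem_range.2 (by omega))
    exact (mem_filter.1 this).1
  have hmin : ∀ y ∈ p, H 0 ≤ y := by
    intro y hy
    by_contra hlt
    have h1 : y ∈ (range (J + 1 + 1)).image H := by
      rw [← hp, mem_filter]
      exact ⟨hy, by have := hH.monotone (Nat.zero_le (J + 1)); omega⟩
    obtain ⟨a, _, ha⟩ := mem_image.1 h1
    have := hH.monotone (Nat.zero_le a)
    omega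
  have hins : insert (H 0) (p.erase (H 0)) = p := insert_erase (hmem 0 (by omega))
  have hm : ∀ y ∈ p.erase (H 0), H 0 < y := by
    intro y hy
    have h1 := hmin y (mem_of_mem_erase hy)
    have h2 := ne_of_mem_erase hy
    omega
  have he : (p.erase (H 0)).Nonempty :=
    ⟨H 1, mem_erase.2 ⟨by have : H 0 < H 1 := hH (by omega)
                          omega, hmem 1 (by omega)⟩⟩
  rw [← hins, conv_cS_left _ _ _ hm he]
  apply hJ
  ext y
  simp only [mem_filter, mem_erase, mem_image, mem_range]
  constructor
  · rintro ⟨⟨h1, h2⟩, h3⟩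
    have h4 : y ∈ (range (J + 1 + 1)).image H := by
      rw [← hp, mem_filter]; exact ⟨h2, h3⟩
    obtain ⟨a, ha, hay⟩ := mem_image.1 h4
    have ha' := mem_range.1 ha
    rcases a with _ | a
    · exact absurd hay.symm h1
    · exact ⟨a, by omega, hay⟩
  · rintro ⟨a, ha, hay⟩
    have h5 : H 0 < H (a + 1) := hH (by omega)
    refine ⟨⟨by omega, ?_⟩, ?_⟩
    · rw [← hay]; exact hmem _ (by omega)
    · rw [← hay]; exact hH.monotone (by omega)

/-! ### The contradiction -/

/-- The segment `{H i, ..., H j}`. -/
def seg (H : ℕ → ℕ) (i j : ℕ) : Finset ℕ := (Icc i j).image H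

theorem conv_seg {H : ℕ → ℕ} (hH : StrictMono H) (A B : Finset ℕ → k) (l : ℕ) :
    conv A B (seg H 0 l) = ∑ j ∈ Icc 0 l, A (seg H 0 j) * B (seg H j l) := by
  unfold conv
  conv_lhs => rw [seg]
  rw [Finset.sum_image (fun a _ b _ hab => hH.injective hab)]
  refine Finset.sum_congr rfl (fun j hj => ?_)
  have hj' := mem_Icc.1 hj
  congr 2
  · ext y
    simp only [seg, mem_filter, mem_image, mem_Icc]
    constructor
    · rintro ⟨⟨a, ha, rfl⟩, h2⟩
      exact ⟨a, ⟨by omega, hH.le_iff_le.1 h2⟩, rfl⟩
    · rintro ⟨a, ha, rfl⟩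
      exact ⟨⟨a, ⟨by omega, by omega⟩, rfl⟩, hH.monotone ha.2⟩
  · ext y
    simp only [seg, mem_filter, mem_image, mem_Icc]
    constructor
    · rintro ⟨⟨a, ha, rfl⟩, h2⟩
      exact ⟨a, ⟨hH.le_iff_le.1 h2, by omega⟩, rfl⟩
    · rintro ⟨a, ha, rfl⟩
      exact ⟨⟨a, ⟨by omega, by omega⟩, rfl⟩, hH.monotone ha.1⟩

theorem WF.seg_zero {A : Finset ℕ → k} (hA : WF A) {H : ℕ → ℕ} (hH : StrictMono H) (i : ℕ) :
    ∃ J, ∀ H' : ℕ → ℕ, StrictMono H' → (∀ n ≤ J, H' n = H n) → ∀ j ≥ J, A (seg H' i j) = 0 := by
  obtain ⟨J, hJ⟩ := hA (fun n => H (i + n)) (fun a b hab => hH (by omega))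
  refine ⟨i + J, fun H' hH' hag j hj => hJ _ ?_⟩
  ext y
  simp only [seg, mem_filter, mem_image, mem_Icc, mem_range]
  constructor
  · rintro ⟨⟨a, ha, rfl⟩, h2⟩
    rw [← hag (i + J) (le_refl _), hH'.le_iff_le] at h2
    exact ⟨a - i, by omega, by rw [← hag (i + (a - i)) (by omega)]; congr 1; omega⟩
  · rintro ⟨a, ha, rfl⟩
    refine ⟨⟨i + a, ⟨by omega, by omega⟩, hag _ (by omega)⟩, hH.monotone (by omega)⟩

/-- the last index `j ≥ i` such that `B {H i, ..., H j}` is not zero -/
noncomputable def lastIdx (B : Finset ℕ → k) (H : ℕ → ℕ) (i : ℕ) : ℕ :=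
  sSup {j | i ≤ j ∧ B (seg H i j) ≠ 0}

theorem lastIdx_spec {B : Finset ℕ → k} (hB : WF B) (h1 : ∀ n, B {n} ≠ 0) {H : ℕ → ℕ}
    (hH : StrictMono H) (i : ℕ) :
    i ≤ lastIdx B H i ∧ B (seg H i (lastIdx B H i)) ≠ 0 ∧
      ∀ j > lastIdx B H i, B (seg H i j) = 0 := by
  obtain ⟨J, hJ⟩ := hB.seg_zero hH i
  have hbdd : BddAbove {j | i ≤ j ∧ B (seg H i j) ≠ 0} := by
    refine ⟨J, fun j hj => ?_⟩
    by_contra hlt
    exact hj.2 (hJ H hH (fun _ _ => rfl) j (by omega))
  have hne : {j | i ≤ j ∧ B (seg H i j) ≠ 0}.Nonempty := by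
    refine ⟨i, le_refl i, ?_⟩
    simpa [seg] using h1 (H i)
  have hmem := Nat.sSup_mem hne hbdd
  refine ⟨hmem.1, hmem.2, fun j hj => ?_⟩
  by_contra hcon
  have h3 : j ≤ sSup {j | i ≤ j ∧ B (seg H i j) ≠ 0} :=
    le_csSup hbdd ⟨hmem.1.trans (le_of_lt hj), hcon⟩
  exact absurd hj (by unfold lastIdx; omega)

theorem seg_shift (H : ℕ → ℕ) (i a b : ℕ) :
    seg (fun n => H (i + n)) a b = seg H (i + a) (i + b) := by
  ext y
  simp only [seg, mem_image, mem_Icc]
  constructor
  · rintro ⟨c, hc, rfl⟩; exact ⟨i + c, by omega, rfl⟩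
  · rintro ⟨c, hc, rfl⟩; exact ⟨c - i, by omega, by congr 1; omega⟩

theorem lastIdx_shift {B : Finset ℕ → k} (hB : WF B) (h1 : ∀ n, B {n} ≠ 0) {H : ℕ → ℕ}
    (hH : StrictMono H) (i a : ℕ) :
    i + lastIdx B (fun n => H (i + n)) a = lastIdx B H (i + a) := by
  have hHi : StrictMono (fun n => H (i + n)) := fun a b hab => hH (by omega)
  obtain ⟨s1, s2, s3⟩ := lastIdx_spec hB h1 hH (i + a)
  obtain ⟨t1, t2, t3⟩ := lastIdx_spec hB h1 hHi a
  rw [seg_shift] at t2
  apply le_antisymm
  · by_contra hlt
    exact t2 (s3 _ (by omega))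
  · by_contra hlt
    have := t3 (lastIdx B H (i + a) - i) (by omega)
    rw [seg_shift] at this
    have e : i + (lastIdx B H (i + a) - i) = lastIdx B H (i + a) := by omega
    rw [e] at this
    exact s2 this

theorem seg_congr {H H' : ℕ → ℕ} {i j : ℕ} (h : ∀ n ≤ j, H n = H' n) : seg H i j = seg H' i j := by
  unfold seg
  apply image_congr
  intro y hy
  have : y ≤ j := by
    have := (mem_Icc.1 (by exact_mod_cast hy)).2
    exact this
  exact h y this

theorem lastIdx_local {B : Finset ℕ → k} (hB : WF B) (h1 : ∀ n, B {n} ≠ 0) {H : ℕ → ℕ}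
    (hH : StrictMono H) (i : ℕ) : ∃ J, ∀ H' : ℕ → ℕ, StrictMono H' → (∀ n < J, H' n = H n) →
      lastIdx B H' i = lastIdx B H i := by
  obtain ⟨J, hJ⟩ := hB.seg_zero hH i
  obtain ⟨s1, s2, s3⟩ := lastIdx_spec hB h1 hH i
  have hlt : lastIdx B H i < J := by
    by_contra hcon
    exact s2 (hJ H hH (fun _ _ => rfl) _ (by omega))
  refine ⟨J + 1, fun H' hH' hag => ?_⟩
  obtain ⟨t1, t2, t3⟩ := lastIdx_spec hB h1 hH' i
  have hlt' : lastIdx B H' i < J := by
    by_contra hcon
    exact t2 (hJ H' hH' (fun n hn => hag n (by omega)) _ (by omega))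
  rw [seg_congr (H := H') (H' := H) (fun n hn => hag n (by omega))] at t2
  rw [seg_congr (H := H) (H' := H') (fun n hn => (hag n (by omega)).symm)] at s2
  apply le_antisymm
  · by_contra hcon
    exact t2 (s3 _ (by omega))
  · by_contra hcon
    exact s2 (t3 _ (by omega))

/-- The combinatorial contradiction. -/
theorem ultra_core [NoZeroDivisors k] [Nontrivial k] (α β : Finset ℕ → k) (Wα : WF α)
    (Wβ : WF β) (h1 : conv α β = cone) (h2 : ∀ n m, n < m → α {n, m} ≠ 0) : False := by
  have hβ : ∀ n, β {n} ≠ 0 := by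
    intro n hn
    have := congrFun h1 {n}
    simp [conv, cone, Finset.filter_singleton, hn] at this
  let c : (ℕ → ℕ) → Prop := fun H => lastIdx β H 0 < lastIdx β H 1
  obtain ⟨H, hH, hcase⟩ := generic c (by
    intro H hH
    obtain ⟨J, hJ⟩ := lastIdx_local Wβ hβ hH 0
    obtain ⟨J', hJ'⟩ := lastIdx_local Wβ hβ hH 1
    refine ⟨max J J', fun H' hH' hag => ?_⟩
    simp only [c]
    rw [hJ H' hH' (fun n hn => hag n (lt_of_lt_of_le hn (le_max_left _ _))),
      hJ' H' hH' (fun n hn => hag n (lt_of_lt_of_le hn (le_max_right _ _)))])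
  have hc : ∀ i, c (fun n => H (i + n)) ↔ lastIdx β H i < lastIdx β H (i + 1) := by
    intro i
    simp only [c]
    have e0 := lastIdx_shift Wβ hβ hH i 0
    have e1 := lastIdx_shift Wβ hβ hH i 1
    rw [Nat.add_zero] at e0
    rw [← e0, ← e1]
    omega
  rcases hcase with hc1 | hc2
  · have hmono : StrictMono (lastIdx β H) := by
      apply strictMono_nat_of_lt_succ
      intro i
      exact (hc i).1 (hc1 i)
    -- the last index for α
    have hαne : α (seg H 0 1) ≠ 0 := by
      have : seg H 0 1 = {H 0, H 1} := by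
        ext y; simp only [seg, mem_image, mem_Icc, mem_insert, mem_singleton]
        constructor
        · rintro ⟨a, ha, rfl⟩
          have : a = 0 ∨ a = 1 := by omega
          rcases this with rfl | rfl <;> simp
        · rintro (rfl | rfl)
          · exact ⟨0, by omega, rfl⟩
          · exact ⟨1, by omega, rfl⟩
      rw [this]; exact h2 _ _ (hH (by omega))
    obtain ⟨J, hJ⟩ := Wα.seg_zero hH 0
    have hbdd : BddAbove {j | α (seg H 0 j) ≠ 0} := by
      refine ⟨J, fun j hj => ?_⟩
      by_contra hlt
      exact hj (hJ H hH (fun _ _ => rfl) j (by omega))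
    have hne : {j | α (seg H 0 j) ≠ 0}.Nonempty := ⟨1, hαne⟩
    obtain ⟨d, hd⟩ : ∃ d, d = sSup {j | α (seg H 0 j) ≠ 0} := ⟨_, rfl⟩
    have hd1 : α (seg H 0 d) ≠ 0 := by rw [hd]; exact Nat.sSup_mem hne hbdd
    have hd2 : 1 ≤ d := by rw [hd]; exact le_csSup hbdd hαne
    have hd3 : ∀ j > d, α (seg H 0 j) = 0 := by
      intro j hj
      by_contra hcon
      have : j ≤ d := by rw [hd]; exact le_csSup hbdd hcon
      omega
    obtain ⟨s1, s2, s3⟩ := lastIdx_spec Wβ hβ hH d
    have hval := congrFun h1 (seg H 0 (lastIdx β H d))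
    rw [conv_seg hH, Finset.sum_eq_single d] at hval
    · have hcard : (seg H 0 (lastIdx β H d)).card = lastIdx β H d + 1 := by
        rw [seg, card_image_of_injective _ hH.injective, Nat.card_Icc]; omega
      rw [cone, hcard, if_neg (by omega)] at hval
      exact (mul_ne_zero hd1 s2) hval
    · intro j hj hjd
      rcases lt_or_gt_of_ne hjd with hlt | hgt
      · rw [(lastIdx_spec Wβ hβ hH j).2.2 _ (hmono hlt), mul_zero]
      · rw [hd3 j hgt, zero_mul]
    · intro hcon
      exact absurd (mem_Icc.2 ⟨Nat.zero_le _, s1⟩) hcon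
  · have hanti : ∀ i, lastIdx β H i ≤ lastIdx β H 0 := by
      intro i
      induction i with
      | zero => exact le_refl _
      | succ i ih =>
        have h3 : ¬ (lastIdx β H i < lastIdx β H (i + 1)) := fun h => hc2 i ((hc i).2 h)
        omega
    have h4 := (lastIdx_spec Wβ hβ hH (lastIdx β H 0 + 1)).1
    have h5 := hanti (lastIdx β H 0 + 1)
    omega

/-- **Section 6.**  The cusp matrix has no factorisation over the algebra of functions with
property (W).  (`G_b`, `H_b` are the coefficient functions of `g_b`, `h_b`; composition `S ∘ T`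
corresponds to `conv T S`.) -/
theorem ultra [NoZeroDivisors k] [Nontrivial k] (G0 G1 H0 H1 : Finset ℕ → k)
    (zG0 : G0 ∅ = 0) (zG1 : G1 ∅ = 0) (zH0 : H0 ∅ = 0) (zH1 : H1 ∅ = 0)
    (tG0 : ∀ p : Finset ℕ, p.card = 2 → G0 p = 0)
    (wG0 : WF G0) (wG1 : WF G1) (wH0 : WF H0) (wH1 : WF H1)
    (hg : ∀ p : Finset ℕ, conv G0 H0 p + conv G1 H1 p = if p.card = 1 then 1 else 0)
    (e00 : ∀ p : Finset ℕ, conv H0 G0 p =
      (if p.card = 1 then 1 else 0) - (if p.card = 5 then 1 else 0))
    (e01 : ∀ p : Finset ℕ, conv H1 G0 p =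
      (if p.card = 3 then 1 else 0) + (if p.card = 4 then 1 else 0) +
      (if p.card = 5 then 1 else 0) + (if p.card = 6 then 1 else 0))
    (e10 : ∀ p : Finset ℕ, conv H0 G1 p =
      (if p.card = 3 then 1 else 0) - (if p.card = 4 then 1 else 0))
    (e11 : ∀ p : Finset ℕ, conv H1 G1 p = if p.card = 5 then 1 else 0) : False := by
  let g0 : Cv k := ⟨G0, zG0⟩
  let g1 : Cv k := ⟨G1, zG1⟩
  let h0 : Cv k := ⟨H0, zH0⟩
  let h1 : Cv k := ⟨H1, zH1⟩
  let s : Cv k := Cv.S k
  have hs : ∀ j p, (s ^ j).1 p = if p.card = j + 1 then (1 : k) else 0 := Cv.S_pow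
  have r0 : g0 * h0 + g1 * h1 = 1 := by
    apply Subtype.ext; funext p
    exact hg p
  have r00 : h0 * g0 = 1 - s ^ 4 := by
    apply Subtype.ext; funext p
    have := e00 p
    rw [← hs 4 p] at this
    exact this
  have r01 : h1 * g0 = s ^ 2 + s ^ 3 + s ^ 4 + s ^ 5 := by
    apply Subtype.ext; funext p
    have := e01 p
    rw [← hs 2 p, ← hs 3 p, ← hs 4 p, ← hs 5 p] at this
    exact this
  have r10 : h0 * g1 = s ^ 2 - s ^ 3 := by
    apply Subtype.ext; funext p
    have := e10 p
    rw [← hs 2 p, ← hs 3 p] at this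
    exact this
  have r11 : h1 * g1 = s ^ 4 := by
    apply Subtype.ext; funext p
    have := e11 p
    rw [← hs 4 p] at this
    exact this
  let α : Cv k := g0 - g0 * s + g1 * s * s
  let β : Cv k := h0 + s * h0 + s * (s * h0) + s * (s * (s * h0)) + s * (s * h1)
  have key : α * β = 1 := by
    have : α * β = g0 * (1 - s ^ 4) * h0 + g0 * (s ^ 2 - s ^ 3) * h1 +
        g1 * (s ^ 2 + s ^ 3 + s ^ 4 + s ^ 5) * h0 + g1 * s ^ 4 * h1 := by
      simp only [α, β]; noncomm_ring
    rw [this, ← r00, ← r01, ← r10, ← r11]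
    have : g0 * (h0 * g0) * h0 + g0 * (h0 * g1) * h1 + g1 * (h1 * g0) * h0 +
        g1 * (h1 * g1) * h1 = (g0 * h0 + g1 * h1) * (g0 * h0 + g1 * h1) := by noncomm_ring
    rw [this, r0, one_mul]
  have hα : α.1 = G0 + -(conv G0 cS) + conv (conv G1 cS) cS := by
    have : α = g0 + -(g0 * s) + g1 * s * s := by simp only [α]; rw [sub_eq_add_neg]
    rw [this]; rfl
  have hβ : β.1 = H0 + conv cS H0 + conv cS (conv cS H0) + conv cS (conv cS (conv cS H0)) +
      conv cS (conv cS H1) := rfl
  apply ultra_core α.1 β.1
  · rw [hα]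
    exact (wG0.add wG0.mul_S.neg).add wG1.mul_S.mul_S
  · rw [hβ]
    exact (((wH0.add wH0.S_mul).add wH0.S_mul.S_mul).add wH0.S_mul.S_mul.S_mul).add
      wH1.S_mul.S_mul
  · exact congrArg Subtype.val key
  · intro n m hnm
    have hG : G0 {n} ≠ 0 := by
      intro h0
      have := e00 {n}
      simp [conv, Finset.filter_singleton, h0] at this
    have hins : ({n, m} : Finset ℕ) = insert m {n} := by
      ext y; simp only [mem_insert, mem_singleton]; tauto
    have h5 : conv G0 cS ({n, m} : Finset ℕ) = G0 {n} := by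
      rw [hins]; exact conv_cS_right G0 {n} m (by simpa using hnm) (by simp)
    have h6 : conv (conv G1 cS) cS ({n, m} : Finset ℕ) = 0 := by
      rw [hins, conv_cS_right (conv G1 cS) {n} m (by simpa using hnm) (by simp)]
      exact conv_cS_right_single G1 n
    have h7 : G0 ({n, m} : Finset ℕ) = 0 := tG0 _ (card_pair (by omega))
    rw [hα]
    simp only [Pi.add_apply, Pi.neg_apply, h5, h6, h7, zero_add, add_zero]
    exact neg_ne_zero.2 hG

end conv

end Matlis
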