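import Pool.Agent.Matlis.Defs
import Pool.Agent.Matlis.Ultra

/-!
# Matlis' problem: the combinatorial contradiction (`Stmt_Comb`)
-/

set_option autoImplicit false

open Finset

namespace Pool.Agent.Matlis

theorem comb_proof : Stmt_Comb := by
  classical
  intro k _ G H hG hH hc hg he
  let G' : Bool → Finset ℕ → k := fun b p => if p = ∅ then 0 else G b p
  let H' : Bool → Finset ℕ → k := fun b p => if p = ∅ then 0 else H b p
  have wG : ∀ b, _root_.Matlis.WF (G' b) := by
    intro b K hK
    obtain ⟨J, hJ⟩ := hG b K hK
    refine ⟨J, fun p hp => ?_⟩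
    by_cases h0 : p = ∅
    · simp [G', h0]
    · simp only [G', h0, if_false]; exact hJ p hp
  have wH : ∀ b, _root_.Matlis.WF (H' b) := by
    intro b K hK
    obtain ⟨J, hJ⟩ := hH b K hK
    refine ⟨J, fun p hp => ?_⟩
    by_cases h0 : p = ∅
    · simp [H', h0]
    · simp only [H', h0, if_false]; exact hJ p hp
  have e1 : ∀ (p : Finset ℕ) (x : ℕ), x ∈ p → p.filter (fun y => y ≤ x) ≠ ∅ := by
    intro p x hx h
    have : x ∈ p.filter (fun y => y ≤ x) := mem_filter.2 ⟨hx, le_refl _⟩
    rw [h] at this; simp at this
  have e2 : ∀ (p : Finset ℕ) (x : ℕ), x ∈ p → p.filter (fun y => x ≤ y) ≠ ∅ := by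
    intro p x hx h
    have : x ∈ p.filter (fun y => x ≤ y) := mem_filter.2 ⟨hx, le_refl _⟩
    rw [h] at this; simp at this
  have cGH : ∀ b b' (p : Finset ℕ), _root_.Matlis.conv (G' b) (H' b') p =
      ∑ x ∈ p, G b (p.filter (fun y => y ≤ x)) * H b' (p.filter (fun y => x ≤ y)) := by
    intro b b' p
    unfold _root_.Matlis.conv
    refine Finset.sum_congr rfl (fun x hx => ?_)
    simp only [G', H', e1 p x hx, e2 p x hx, if_false]
  have cHG : ∀ b b' (p : Finset ℕ), _root_.Matlis.conv (H' b') (G' b) p =
      ∑ x ∈ p, H b' (p.filter (fun y => y ≤ x)) * G b (p.filter (fun y => x ≤ y)) := by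
    intro b b' p
    unfold _root_.Matlis.conv
    refine Finset.sum_congr rfl (fun x hx => ?_)
    simp only [G', H', e1 p x hx, e2 p x hx, if_false]
  have hcard : ∀ p : Finset ℕ, p.Nonempty → ∃ c, p.card = c + 1 := by
    intro p hp
    exact ⟨p.card - 1, by have := card_pos.2 hp; omega⟩
  refine _root_.Matlis.ultra (G' false) (G' true) (H' false) (H' true) (by simp [G']) (by simp [G'])
    (by simp [H']) (by simp [H']) ?_ (wG false) (wG true) (wH false) (wH true) ?_ ?_ ?_ ?_ ?_
  · intro p hp
    simp only [G']
    split_ifs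
    · rfl
    · exact (hc false p hp).1
  · intro p
    rcases p.eq_empty_or_nonempty with rfl | hp
    · simp [_root_.Matlis.conv_empty]
    · have := hg p hp
      rw [Fintype.sum_bool] at this
      rw [cGH, cGH, add_comm]
      exact this
  · intro p
    rcases p.eq_empty_or_nonempty with rfl | hp
    · simp [_root_.Matlis.conv_empty]
    · have := he false false p hp
      rw [cHG, this]
      obtain ⟨c, hc⟩ := hcard p hp
      simp [eent, hc]
  · intro p
    rcases p.eq_empty_or_nonempty with rfl | hp
    · simp [_root_.Matlis.conv_empty]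
    · have := he false true p hp
      rw [cHG, this]
      obtain ⟨c, hc⟩ := hcard p hp
      simp only [eent, hc]
      by_cases h2 : c = 2
      · subst h2; simp
      by_cases h3 : c = 3
      · subst h3; simp
      by_cases h4 : c = 4
      · subst h4; simp
      by_cases h5 : c = 5
      · subst h5; simp
      have g2 : ¬ (c + 1 = 3) := by omega
      have g3 : ¬ (c + 1 = 4) := by omega
      have g4 : ¬ (c + 1 = 5) := by omega
      have g5 : ¬ (c + 1 = 6) := by omega
      simp [h2, h3, h4, h5]
  · intro p
    rcases p.eq_empty_or_nonempty with rfl | hp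
    · simp [_root_.Matlis.conv_empty]
    · have := he true false p hp
      rw [cHG, this]
      obtain ⟨c, hc⟩ := hcard p hp
      simp [eent, hc]
  · intro p
    rcases p.eq_empty_or_nonempty with rfl | hp
    · simp [_root_.Matlis.conv_empty]
    · have := he true true p hp
      rw [cHG, this]
      obtain ⟨c, hc⟩ := hcard p hp
      simp [eent, hc]

end Pool.Agent.Matlis
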