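import Pool.Agent.Matlis.HatK
import Pool.Agent.Matlis.Ultra

/-!
# Matlis' problem: natural maps between the representations `I_n`
-/

set_option autoImplicit false

open scoped TensorProduct DirectSum
open Module

namespace Pool.Agent.Matlis

namespace Cusp

/-! ### Combinatorics of admissible sets -/

theorem filter_union_le {p q : Finset ℕ} {m : ℕ} (hp : ∀ x ∈ p, x ≤ m) (hm : m ∈ p)
    (hq : ∀ x ∈ q, m ≤ x) : (p ∪ q).filter (fun y => y ≤ m) = p := by
  ext y
  simp only [Finset.mem_filter, Finset.mem_union]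
  constructor
  · rintro ⟨h1 | h1, h2⟩
    · exact h1
    · have : y = m := le_antisymm h2 (hq y h1)
      rw [this]; exact hm
  · intro h; exact ⟨Or.inl h, hp y h⟩

theorem filter_union_ge {p q : Finset ℕ} {m : ℕ} (hp : ∀ x ∈ p, x ≤ m) (hm : m ∈ q)
    (hq : ∀ x ∈ q, m ≤ x) : (p ∪ q).filter (fun y => m ≤ y) = q := by
  ext y
  simp only [Finset.mem_filter, Finset.mem_union]
  constructor
  · rintro ⟨h1 | h1, h2⟩
    · have : y = m := le_antisymm (hp y h1) h2
      rw [this]; exact hm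
    · exact h1
  · intro h; exact ⟨Or.inr h, hq y h⟩

theorem union_filter (s : Finset ℕ) (m : ℕ) :
    s.filter (fun y => y ≤ m) ∪ s.filter (fun y => m ≤ y) = s := by
  ext y
  simp only [Finset.mem_filter, Finset.mem_union]
  constructor
  · rintro (h | h) <;> exact h.1
  · intro h
    rcases le_total y m with h1 | h1
    · exact Or.inl ⟨h, h1⟩
    · exact Or.inr ⟨h, h1⟩

theorem card_union {p q : Finset ℕ} {m : ℕ} (hp : ∀ x ∈ p, x ≤ m) (hmp : m ∈ p) (hmq : m ∈ q)
    (hq : ∀ x ∈ q, m ≤ x) : (p ∪ q).card + 1 = p.card + q.card := by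
  have h1 : p ∩ q = {m} := by
    ext y
    simp only [Finset.mem_inter, Finset.mem_singleton]
    constructor
    · rintro ⟨h1, h2⟩; exact le_antisymm (hp y h1) (hq y h2)
    · rintro rfl; exact ⟨hmp, hmq⟩
  have h2 := Finset.card_union_add_card_inter p q
  rw [h1, Finset.card_singleton] at h2
  exact h2

theorem adm_nat {m n : ℕ} {s : Finset ℕ} : Adm (Z0.nat m) n s ↔
    n ∈ s ∧ m ∈ s ∧ (∀ x ∈ s, n ≤ x ∧ x ≤ m) ∧ s.card ≠ 2 := Iff.rfl

theorem adm_fn {φ : ℕ → ℕ} {n : ℕ} {s : Finset ℕ} : Adm (Z0.fn φ) n s ↔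
    n ∈ s ∧ (∀ x ∈ s, n ≤ x) ∧ Bdd φ s := Iff.rfl

theorem adm_mem {z : Z0} {n : ℕ} {s : Finset ℕ} (h : Adm z n s) : n ∈ s := by
  rcases z with m | φ
  · exact h.1
  · exact h.1

theorem adm_le {z : Z0} {n : ℕ} {s : Finset ℕ} (h : Adm z n s) : ∀ x ∈ s, n ≤ x := by
  rcases z with m | φ
  · exact fun x hx => (h.2.2.1 x hx).1
  · exact h.2.1

theorem adm_comp_nat {l m n : ℕ} {p q : Finset ℕ} (hp : Adm (Z0.nat m) n p)
    (hq : Adm (Z0.nat l) m q) : Adm (Z0.nat l) n (p ∪ q) := by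
  obtain ⟨p1, p2, p3, p4⟩ := hp
  obtain ⟨q1, q2, q3, q4⟩ := hq
  refine ⟨Finset.mem_union_left _ p1, Finset.mem_union_right _ q2, ?_, ?_⟩
  · intro x hx
    rcases Finset.mem_union.1 hx with h | h
    · exact ⟨(p3 x h).1, (p3 x h).2.trans (q3 m q1).2⟩
    · exact ⟨(p3 m p2).1.trans (q3 x h).1, (q3 x h).2⟩
  · have h1 := card_union (fun x hx => (p3 x hx).2) p2 q1 (fun x hx => (q3 x hx).1)
    have h2 : 0 < p.card := Finset.card_pos.2 ⟨n, p1⟩
    have h3 : 0 < q.card := Finset.card_pos.2 ⟨m, q1⟩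
    omega

theorem bdd_ge {φ : ℕ → ℕ} {s : Finset ℕ} (h : Bdd φ s) (m : ℕ) :
    Bdd φ (s.filter (fun y => m ≤ y)) := by
  intro x hx y hy hxy
  obtain ⟨y', h1, h2, h3⟩ := h x (Finset.mem_filter.1 hx).1 y (Finset.mem_filter.1 hy).1 hxy
  exact ⟨y', Finset.mem_filter.2 ⟨h1, (Finset.mem_filter.1 hx).2.trans h2.le⟩, h2, h3⟩

theorem bdd_le {φ : ℕ → ℕ} {s : Finset ℕ} (h : Bdd φ s) (m : ℕ) (hm : m ∈ s) :
    Bdd φ (s.filter (fun y => y ≤ m)) := by
  intro x hx y hy hxy
  obtain ⟨y', h1, h2, h3⟩ := h x (Finset.mem_filter.1 hx).1 y (Finset.mem_filter.1 hy).1 hxy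
  rcases le_total y' m with h4 | h4
  · exact ⟨y', Finset.mem_filter.2 ⟨h1, h4⟩, h2, h3⟩
  · exact ⟨m, Finset.mem_filter.2 ⟨hm, le_refl m⟩, lt_of_lt_of_le hxy (Finset.mem_filter.1 hy).2,
      h4.trans h3⟩

/-- If `p ∪ q` is admissible and `q` is a composite of admissible sets then `q` is admissible. -/
theorem adm_right {z : Z0} {n m l : ℕ} {p p' q : Finset ℕ} (hp : Adm (Z0.nat m) n p)
    (hp' : Adm (Z0.nat l) m p') (hq : Adm z l q) (h : Adm z n (p ∪ (p' ∪ q))) :
    Adm z m (p' ∪ q) := by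
  rcases z with m0 | φ
  · exact adm_comp_nat hp' hq
  · refine ⟨Finset.mem_union_left _ (adm_mem hp'), ?_, ?_⟩
    · intro x hx
      rcases Finset.mem_union.1 hx with h1 | h1
      · exact adm_le hp' x h1
      · exact (adm_le hp' l hp'.2.1).trans (adm_le hq x h1)
    · have h1 := bdd_ge h.2.2 m
      rwa [filter_union_ge (fun x hx => (hp.2.2.1 x hx).2)
        (Finset.mem_union_left _ (adm_mem hp'))] at h1
      intro x hx
      rcases Finset.mem_union.1 hx with h1 | h1
      · exact adm_le hp' x h1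
      · exact (adm_le hp' l hp'.2.1).trans (adm_le hq x h1)

variable {k : Type} [Field k]

open Classical in
/-- extension by zero -/
noncomputable def ex {z : Z0} {n : ℕ} (f : (Irep k n).N z) (s : Finset ℕ) : k :=
  if h : Adm z n s then (f : {s : Finset ℕ // Adm z n s} → k) ⟨s, h⟩ else 0

theorem ex_of {z : Z0} {n : ℕ} (f : (Irep k n).N z) {s : Finset ℕ} (h : Adm z n s) :
    ex f s = (f : {s : Finset ℕ // Adm z n s} → k) ⟨s, h⟩ := by simp [ex, h]

theorem ex_not {z : Z0} {n : ℕ} (f : (Irep k n).N z) {s : Finset ℕ} (h : ¬ Adm z n s) :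
    ex f s = 0 := by simp [ex, h]

theorem ex_add {z : Z0} {n : ℕ} (f g : (Irep k n).N z) (s : Finset ℕ) :
    ex (f + g) s = ex f s + ex g s := by
  by_cases h : Adm z n s
  · rw [ex_of _ h, ex_of _ h, ex_of _ h]; rfl
  · rw [ex_not _ h, ex_not _ h, ex_not _ h, add_zero]

theorem ex_smul {z : Z0} {n : ℕ} (c : k) (f : (Irep k n).N z) (s : Finset ℕ) :
    ex (c • f) s = c * ex f s := by
  by_cases h : Adm z n s
  · rw [ex_of _ h, ex_of _ h]; rfl
  · rw [ex_not _ h, ex_not _ h, mul_zero]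

theorem ex_ext {z : Z0} {n : ℕ} (f g : (Irep k n).N z)
    (h : ∀ s, Adm z n s → ex f s = ex g s) : f = g := by
  funext s
  have := h s.1 s.2
  rwa [ex_of _ s.2, ex_of _ s.2] at this

/-- the structure map of `I_n` -/
noncomputable def mapA (k : Type) [Field k] (n : ℕ) (a : Arr0) :
    (Irep k n).N a.s →ₗ[k] (Irep k n).N (Z0.nat a.t) :=
  (Irep k n).map a

/-- the action of an arrow on the extension by zero -/
theorem ex_map {n : ℕ} (a : Arr0) (f : (Irep k n).N a.s) {p : Finset ℕ}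
    (hp : Adm (Z0.nat a.t) n p) : ex (mapA k n a f) p = ex f (p ∪ a.q) := by
  classical
  rw [ex_of _ hp]
  change ((if h : Adm a.s n (p ∪ a.q) then
      LinearMap.proj (R := k) (φ := fun _ : {s : Finset ℕ // Adm a.s n s} => k) ⟨p ∪ a.q, h⟩
    else 0 : ({s : Finset ℕ // Adm a.s n s} → k) →ₗ[k] k)) f = _
  by_cases h : Adm a.s n (p ∪ a.q)
  · rw [ex_of _ h, dif_pos h]
    rfl
  · rw [ex_not _ h, dif_neg h]
    rfl

open Classical in
/-- the finite set of admissible sets `m → n` -/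
noncomputable def AF (m n : ℕ) : Finset (Finset ℕ) :=
  (Finset.range (m + 1)).powerset.filter (fun s => Adm (Z0.nat m) n s)

theorem mem_AF {m n : ℕ} {s : Finset ℕ} : s ∈ AF m n ↔ Adm (Z0.nat m) n s := by
  classical
  unfold AF
  rw [Finset.mem_filter, Finset.mem_powerset]
  constructor
  · exact fun h => h.2
  · intro h
    refine ⟨fun x hx => Finset.mem_range.2 ?_, h⟩
    have := (h.2.2.1 x hx).2
    omega

/-- the natural map `I_n → I_m` with coefficient function `c` -/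
noncomputable def Nm (c : Finset ℕ → k) (n m : ℕ) (z : Z0) :
    (Irep k n).N z →ₗ[k] (Irep k m).N z where
  toFun f := fun q : {s : Finset ℕ // Adm z m s} => ∑ p ∈ AF m n, c p * ex f (p ∪ q.1)
  map_add' f g := by
    funext q
    change ∑ p ∈ AF m n, c p * ex (f + g) (p ∪ q.1) =
      ∑ p ∈ AF m n, c p * ex f (p ∪ q.1) + ∑ p ∈ AF m n, c p * ex g (p ∪ q.1)
    rw [← Finset.sum_add_distrib]
    exact Finset.sum_congr rfl (fun p _ => by rw [ex_add, mul_add])
  map_smul' a f := by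
    funext q
    change ∑ p ∈ AF m n, c p * ex (a • f) (p ∪ q.1) = a * ∑ p ∈ AF m n, c p * ex f (p ∪ q.1)
    rw [Finset.mul_sum]
    exact Finset.sum_congr rfl (fun p _ => by rw [ex_smul]; ring)

theorem ex_Nm (c : Finset ℕ → k) (n m : ℕ) (z : Z0) (f : (Irep k n).N z) {q : Finset ℕ}
    (hq : Adm z m q) : ex (Nm c n m z f) q = ∑ p ∈ AF m n, c p * ex f (p ∪ q) := by
  rw [ex_of _ hq]; rfl

/-- naturality -/
theorem Nm_nat (c : Finset ℕ → k) (n m : ℕ) (a : Arr0) (f : (Irep k n).N a.s) :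
    mapA k m a (Nm c n m a.s f) = Nm c n m (Z0.nat a.t) (mapA k n a f) := by
  apply ex_ext
  intro q hq
  rw [ex_map a _ hq, ex_Nm c n m _ _ hq]
  by_cases h : Adm a.s m (q ∪ a.q)
  · rw [ex_Nm c n m _ _ h]
    refine Finset.sum_congr rfl (fun p hp => ?_)
    have hp' := mem_AF.1 hp
    rw [ex_map a f (adm_comp_nat hp' hq), Finset.union_assoc]
  · rw [ex_not _ h]
    symm
    refine Finset.sum_eq_zero (fun p hp => ?_)
    have hp' := mem_AF.1 hp
    rw [ex_map a f (adm_comp_nat hp' hq), Finset.union_assoc, ex_not, mul_zero]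
    intro h'
    exact h (adm_right hp' hq a.adm h')

/-- composition is convolution -/
theorem Nm_comp (c c' : Finset ℕ → k) (hc : ∀ p : Finset ℕ, p.card = 2 → c p = 0)
    (hc' : ∀ p : Finset ℕ, p.card = 2 → c' p = 0) (n l : ℕ) (z : Z0) (f : (Irep k n).N z) :
    ∑ m ∈ Finset.range (l + 1), Nm c' m l z (Nm c n m z f) =
      Nm (_root_.Matlis.conv c c') n l z f := by
  classical
  apply ex_ext
  intro q hq
  have e0 : ex (∑ m ∈ Finset.range (l + 1), Nm c' m l z (Nm c n m z f)) q =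
      ∑ m ∈ Finset.range (l + 1), ex (Nm c' m l z (Nm c n m z f)) q := by
    induction (Finset.range (l + 1)) using Finset.induction_on with
    | empty => simp only [Finset.sum_empty]; rw [ex_of _ hq]; rfl
    | insert a s ha ih => rw [Finset.sum_insert ha, Finset.sum_insert ha, ex_add, ih]
  rw [e0, ex_Nm _ n l z f hq]
  have e1 : ∀ m ∈ Finset.range (l + 1), ex (Nm c' m l z (Nm c n m z f)) q =
      ∑ p'' ∈ AF l n, if m ∈ p'' then c (p''.filter (fun y => y ≤ m)) *
        c' (p''.filter (fun y => m ≤ y)) * ex f (p'' ∪ q) else 0 := by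
    intro m _
    rw [ex_Nm c' m l z _ hq]
    have e2 : ∀ p' ∈ AF l m, c' p' * ex (Nm c n m z f) (p' ∪ q) =
        ∑ p ∈ AF m n, c p * c' p' * ex f ((p ∪ p') ∪ q) := by
      intro p' hp'
      have hp1 := mem_AF.1 hp'
      by_cases h : Adm z m (p' ∪ q)
      · rw [ex_Nm c n m z f h, Finset.mul_sum]
        refine Finset.sum_congr rfl (fun p _ => ?_)
        rw [Finset.union_assoc]; ring
      · rw [ex_not _ h, mul_zero]
        symm
        refine Finset.sum_eq_zero (fun p hp => ?_)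
        rw [Finset.union_assoc, ex_not, mul_zero]
        intro h'
        exact h (adm_right (mem_AF.1 hp) hp1 hq h')
    rw [Finset.sum_congr rfl e2, ← Finset.sum_product', ← Finset.sum_filter]
    refine Finset.sum_bij_ne_zero (fun x _ _ => x.2 ∪ x.1) ?_ ?_ ?_ ?_
    · rintro ⟨p', p⟩ hx _
      obtain ⟨h1, h2⟩ := Finset.mem_product.1 hx
      have h1' := mem_AF.1 h1
      have h2' := mem_AF.1 h2
      refine Finset.mem_filter.2 ⟨mem_AF.2 (adm_comp_nat h2' h1'), ?_⟩
      exact Finset.mem_union_right _ (adm_mem h1')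
    · rintro ⟨p', p⟩ hx _ ⟨r', r⟩ hy _ hxy
      obtain ⟨h1, h2⟩ := Finset.mem_product.1 hx
      obtain ⟨h3, h4⟩ := Finset.mem_product.1 hy
      have h1' := mem_AF.1 h1
      have h2' := mem_AF.1 h2
      have h3' := mem_AF.1 h3
      have h4' := mem_AF.1 h4
      have e3 := congrArg (fun s : Finset ℕ => s.filter (fun y => y ≤ m)) hxy
      have e4 := congrArg (fun s : Finset ℕ => s.filter (fun y => m ≤ y)) hxy
      simp only at e3 e4
      rw [filter_union_le (fun x hx => (h2'.2.2.1 x hx).2) h2'.2.1 (adm_le h1'),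
        filter_union_le (fun x hx => (h4'.2.2.1 x hx).2) h4'.2.1 (adm_le h3')] at e3
      rw [filter_union_ge (fun x hx => (h2'.2.2.1 x hx).2) (adm_mem h1') (adm_le h1'),
        filter_union_ge (fun x hx => (h4'.2.2.1 x hx).2) (adm_mem h3') (adm_le h3')] at e4
      exact Prod.ext e4 e3
    · intro p'' hp'' hne
      obtain ⟨h1, hm⟩ := Finset.mem_filter.1 hp''
      have h1' := mem_AF.1 h1
      have hcard1 : (p''.filter (fun y => y ≤ m)).card ≠ 2 := by
        intro h; rw [hc _ h, zero_mul, zero_mul] at hne; exact hne rfl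
      have hcard2 : (p''.filter (fun y => m ≤ y)).card ≠ 2 := by
        intro h; rw [hc' _ h, mul_zero, zero_mul] at hne; exact hne rfl
      have a1 : Adm (Z0.nat m) n (p''.filter (fun y => y ≤ m)) := by
        refine ⟨Finset.mem_filter.2 ⟨h1'.1, (h1'.2.2.1 m hm).1⟩,
          Finset.mem_filter.2 ⟨hm, le_refl m⟩, ?_, hcard1⟩
        intro x hx
        exact ⟨(h1'.2.2.1 x (Finset.mem_filter.1 hx).1).1, (Finset.mem_filter.1 hx).2⟩
      have a2 : Adm (Z0.nat l) m (p''.filter (fun y => m ≤ y)) := by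
        refine ⟨Finset.mem_filter.2 ⟨hm, le_refl m⟩,
          Finset.mem_filter.2 ⟨h1'.2.1, (h1'.2.2.1 m hm).2⟩, ?_, hcard2⟩
        intro x hx
        exact ⟨(Finset.mem_filter.1 hx).2, (h1'.2.2.1 x (Finset.mem_filter.1 hx).1).2⟩
      refine ⟨(p''.filter (fun y => m ≤ y), p''.filter (fun y => y ≤ m)),
        Finset.mem_product.2 ⟨mem_AF.2 a2, mem_AF.2 a1⟩, ?_, ?_⟩
      · simp only
        rw [union_filter]; exact hne
      · exact union_filter p'' m
    · rintro ⟨p', p⟩ hx _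
      obtain ⟨h1, h2⟩ := Finset.mem_product.1 hx
      have h1' := mem_AF.1 h1
      have h2' := mem_AF.1 h2
      simp only
      rw [filter_union_le (fun x hx => (h2'.2.2.1 x hx).2) h2'.2.1 (adm_le h1'),
        filter_union_ge (fun x hx => (h2'.2.2.1 x hx).2) (adm_mem h1') (adm_le h1')]
  rw [Finset.sum_congr rfl e1, Finset.sum_comm]
  refine Finset.sum_congr rfl (fun p'' hp'' => ?_)
  have h1 := mem_AF.1 hp''
  rw [← Finset.sum_filter]
  have h2 : (Finset.range (l + 1)).filter (fun m => m ∈ p'') = p'' := by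
    ext x
    rw [Finset.mem_filter, Finset.mem_range]
    constructor
    · exact fun h => h.2
    · intro h
      have := (h1.2.2.1 x h).2
      exact ⟨by omega, h⟩
  rw [h2, _root_.Matlis.conv, Finset.sum_mul]

end Cusp

end Pool.Agent.Matlis
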