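import Mathlib

set_option autoImplicit false

/-!
Section 5 of the Matlis counterexample (MP_504466_al): abstract identification of the summand.
If `N = range e` is a direct sum of indecomposables then `e` factors through `⨁ n, E n`.
-/

namespace Matlis

open scoped DirectSum

section Ident

variable {R : Type} [Ring R] {E : ℕ → Type} [∀ n, AddCommGroup (E n)] [∀ n, Module R (E n)]
  {M : Type} [AddCommGroup M] [Module R M]

theorem ident (σ : ∀ n, E n) (inn : ∀ n, E n →ₗ[R] M) (e : M →ₗ[R] M)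
    (he : ∀ x, e (e x) = e x)
    (hinj : ∀ n, Module.Injective R (E n))
    (hσ : ∀ n (A : Submodule R (E n)), A ≠ ⊥ → σ n ∈ A)
    (hs0 : ∀ n, inn n (σ n) ≠ 0)
    (hes : ∀ n, e (inn n (σ n)) = inn n (σ n))
    (hsoc : ∀ A : Submodule R M, A ≠ ⊥ → A ≤ LinearMap.range e → ∃ n, inn n (σ n) ∈ A)
    (hidem : ∀ T : M →ₗ[R] M, (∀ x, T (T x) = T x) → (∀ x, e (T x) = T x) →
      ∀ n, T (inn n (σ n)) = 0 ∨ T (inn n (σ n)) = inn n (σ n))
    (hdist : ∀ n m, ∀ r : R, inn n (σ n) = r • inn m (σ m) → n = m)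
    (κ : Type) (F : κ → Submodule R M) (hF : iSupIndep F) (hsup : (⨆ j, F j) = LinearMap.range e)
    (hind : ∀ j, Nontrivial ↥(F j) ∧ ∀ A B : Submodule R ↥(F j), IsCompl A B → A = ⊥ ∨ B = ⊥) :
    ∃ (g : (⨁ n, E n) →ₗ[R] M) (h : M →ₗ[R] (⨁ n, E n)),
      (∀ x, h (g x) = x) ∧ ∀ x, g (h x) = e x := by
  classical
  have hFN : ∀ j, F j ≤ LinearMap.range e := fun j => by rw [← hsup]; exact le_iSup F j
  have heN : ∀ x ∈ LinearMap.range e, e x = x := by
    rintro x ⟨y, rfl⟩; exact he y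
  -- the decomposition
  let Φ : (⨁ j, F j) →ₗ[R] M := DirectSum.coeLinearMap F
  have hΦinj : Function.Injective Φ := hF.dfinsupp_lsum_injective
  have hΦlof : ∀ j (x : F j), Φ (DirectSum.lof R κ (fun j => F j) j x) = x := by
    intro j x; exact DirectSum.coeLinearMap_lof F j x
  have hΦrange : LinearMap.range Φ = LinearMap.range e := by
    rw [← hsup]
    exact DirectSum.range_coeLinearMap
  let Φe : (⨁ j, F j) ≃ₗ[R] LinearMap.range Φ := LinearEquiv.ofInjective Φ hΦinj
  let ρ : M →ₗ[R] (⨁ j, F j) := Φe.symm.toLinearMap ∘ₗ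
    (e.codRestrict (LinearMap.range Φ) (fun x => by rw [hΦrange]; exact ⟨x, rfl⟩))
  have hΦρ : ∀ x, Φ (ρ x) = e x := by
    intro x
    have h1 : (Φe (ρ x) : M) = Φ (ρ x) := rfl
    rw [← h1]
    simp only [ρ, LinearMap.comp_apply, LinearEquiv.coe_coe, LinearEquiv.apply_symm_apply]
    rfl
  have hρF : ∀ j (x : F j), ρ (x : M) = DirectSum.lof R κ (fun j => F j) j x := by
    intro j x
    apply hΦinj
    rw [hΦρ, hΦlof, heN _ (hFN j x.2)]
  have hρρ : ∀ x, ρ (e x) = ρ x := by
    intro x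
    apply hΦinj
    rw [hΦρ, hΦρ, he]
  let π : ∀ j, M →ₗ[R] F j := fun j => DirectSum.component R κ (fun j => F j) j ∘ₗ ρ
  have hπ : ∀ j x, π j x = (ρ x) j := fun j x => rfl
  have hπF : ∀ j (x : F j), π j (x : M) = x := by
    intro j x
    rw [hπ, hρF]
    exact DirectSum.component.lof_self (M := fun j => F j) R j x
  have hπF' : ∀ j i (x : F i), i ≠ j → π j (x : M) = 0 := by
    intro j i x hij
    rw [hπ, hρF]
    have := DirectSum.component.of (M := fun j => F j) R j i x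
    rw [dif_neg hij] at this
    exact this
  let πM : ∀ j, M →ₗ[R] M := fun j => (F j).subtype ∘ₗ π j
  have hπM : ∀ j x, πM j x = (π j x : M) := fun j x => rfl
  have hcase : ∀ j n, πM j (inn n (σ n)) = 0 ∨ πM j (inn n (σ n)) = inn n (σ n) := by
    intro j n
    apply hidem
    · intro x; rw [hπM, hπM, hπF]
    · intro x; rw [hπM]; exact heN _ (hFN j (π j x).2)
  -- uniqueness
  have huniq : ∀ n j i, inn n (σ n) ∈ F j → inn n (σ n) ∈ F i → i = j := by
    intro n j i hj hi
    by_contra hij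
    have h1 := hπF j ⟨_, hj⟩
    have h2 := hπF' j i ⟨_, hi⟩ hij
    have h3 : (⟨inn n (σ n), hj⟩ : F j) = 0 := h1.symm.trans h2
    exact hs0 n (congrArg Subtype.val h3)
  -- existence
  have hex : ∀ n, ∃ j, inn n (σ n) ∈ F j := by
    intro n
    by_contra hcon
    push Not at hcon
    have h1 : ∀ j, (ρ (inn n (σ n))) j = 0 := by
      intro j
      rcases hcase j n with h | h
      · exact Subtype.ext h
      · exact absurd (by rw [← h]; exact (π j (inn n (σ n))).2) (hcon j)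
    have h2 : ρ (inn n (σ n)) = 0 := DFinsupp.ext h1
    have h3 := hΦρ (inn n (σ n))
    rw [h2, map_zero, hes] at h3
    exact hs0 n h3.symm
  -- the isomorphisms
  have hiso : ∀ n j, inn n (σ n) ∈ F j →
      Function.Bijective (π j ∘ₗ inn n : E n →ₗ[R] F j) := by
    intro n j hj
    have hval : (π j ∘ₗ inn n : E n →ₗ[R] F j) (σ n) = ⟨_, hj⟩ := hπF j ⟨_, hj⟩
    have hi : Function.Injective (π j ∘ₗ inn n : E n →ₗ[R] F j) := by
      rw [← LinearMap.ker_eq_bot]
      by_contra hne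
      have h1 : σ n ∈ LinearMap.ker (π j ∘ₗ inn n : E n →ₗ[R] F j) := hσ n _ hne
      rw [LinearMap.mem_ker, hval] at h1
      exact hs0 n (congrArg Subtype.val h1)
    obtain ⟨r, hr⟩ := (hinj n).out (π j ∘ₗ inn n : E n →ₗ[R] F j) hi LinearMap.id
    have hcompl : IsCompl (LinearMap.range (π j ∘ₗ inn n : E n →ₗ[R] F j)) (LinearMap.ker r) := by
      constructor
      · rw [Submodule.disjoint_def]
        rintro x ⟨y, rfl⟩ hx
        rw [LinearMap.mem_ker, hr] at hx
        have : y = 0 := hx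
        rw [this, map_zero]
      · rw [codisjoint_iff, eq_top_iff]
        intro x _
        rw [Submodule.mem_sup]
        refine ⟨(π j ∘ₗ inn n : E n →ₗ[R] F j) (r x), ⟨r x, rfl⟩,
          x - (π j ∘ₗ inn n : E n →ₗ[R] F j) (r x), ?_, by simp⟩
        rw [LinearMap.mem_ker, map_sub, hr, LinearMap.id_apply, sub_self]
    refine ⟨hi, ?_⟩
    rw [← LinearMap.range_eq_top]
    rcases (hind j).2 _ _ hcompl with h | h
    · exfalso
      have : (π j ∘ₗ inn n : E n →ₗ[R] F j) (σ n) ∈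
          LinearMap.range (π j ∘ₗ inn n : E n →ₗ[R] F j) := ⟨_, rfl⟩
      rw [h, Submodule.mem_bot, hval] at this
      exact hs0 n (congrArg Subtype.val this)
    · have := hcompl.sup_eq_top
      rwa [h, sup_bot_eq] at this
  -- injectivity of n ↦ j
  have hjinj : ∀ n m j, inn n (σ n) ∈ F j → inn m (σ m) ∈ F j → n = m := by
    intro n m j hn hm
    let B : Submodule R (E n) :=
      (Submodule.span R {(⟨_, hm⟩ : F j)}).comap (π j ∘ₗ inn n : E n →ₗ[R] F j)
    have hB : B ≠ ⊥ := by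
      intro hbot
      obtain ⟨y, hy⟩ := (hiso n j hn).2 ⟨_, hm⟩
      have h1 : y ∈ B := by
        change (π j ∘ₗ inn n : E n →ₗ[R] F j) y ∈ Submodule.span R {(⟨_, hm⟩ : F j)}
        rw [hy]; exact Submodule.mem_span_singleton_self _
      rw [hbot, Submodule.mem_bot] at h1
      rw [h1, map_zero] at hy
      exact hs0 m (congrArg Subtype.val hy.symm)
    have h2 : σ n ∈ B := hσ n B hB
    have h3 : (π j ∘ₗ inn n : E n →ₗ[R] F j) (σ n) ∈ Submodule.span R {(⟨_, hm⟩ : F j)} := h2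
    have hval : (π j ∘ₗ inn n : E n →ₗ[R] F j) (σ n) = ⟨_, hn⟩ := hπF j ⟨_, hn⟩
    rw [hval, Submodule.mem_span_singleton] at h3
    obtain ⟨r, hr⟩ := h3
    have h4 : r • inn m (σ m) = inn n (σ n) := congrArg Subtype.val hr
    exact hdist n m r h4.symm
  -- surjectivity
  have hsurj : ∀ j, ∃ n, inn n (σ n) ∈ F j := by
    intro j
    apply hsoc (F j) _ (hFN j)
    intro hbot
    exact (Submodule.nontrivial_iff_ne_bot.1 (hind j).1) hbot
  choose nj hnj using hsurj
  let εj : ∀ j, E (nj j) ≃ₗ[R] F j := fun j =>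
    LinearEquiv.ofBijective (π j ∘ₗ inn (nj j)) (hiso _ j (hnj j))
  have hεj : ∀ j x, εj j x = π j (inn (nj j) x) := fun j x => rfl
  choose jn hjn using hex
  have hjnnj : ∀ j, jn (nj j) = j := fun j => huniq (nj j) j _ (hnj j) (hjn _)
  have hnjjn : ∀ n, nj (jn n) = n := fun n => hjinj _ _ (jn n) (hnj _) (hjn _)
  let g : (⨁ n, E n) →ₗ[R] M :=
    DirectSum.toModule R ℕ M (fun n => πM (jn n) ∘ₗ inn n)
  let h : M →ₗ[R] (⨁ n, E n) :=
    (DirectSum.toModule R κ (⨁ n, E n) (fun j => DirectSum.lof R ℕ E (nj j) ∘ₗ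
      (εj j).symm.toLinearMap)) ∘ₗ ρ
  have hhF : ∀ j (x : F j), h (x : M) = DirectSum.lof R ℕ E (nj j) ((εj j).symm x) := by
    intro j x
    simp only [h, LinearMap.comp_apply]
    rw [hρF, DirectSum.toModule_lof]
    rfl
  refine ⟨g, h, ?_, ?_⟩
  · intro x
    have : h ∘ₗ g = LinearMap.id := by
      apply DirectSum.linearMap_ext
      intro n
      ext x
      simp only [LinearMap.comp_apply, LinearMap.id_apply, g, DirectSum.toModule_lof]
      rw [hπM, hhF]
      obtain ⟨j, rfl⟩ : ∃ j, n = nj j := ⟨jn n, (hnjjn n).symm⟩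
      rw [hjnnj j, ← hεj, LinearEquiv.symm_apply_apply]
    exact LinearMap.congr_fun this x
  · intro x
    have h1 : ∀ y : ⨁ j, F j, g ((DirectSum.toModule R κ (⨁ n, E n)
        (fun j => DirectSum.lof R ℕ E (nj j) ∘ₗ (εj j).symm.toLinearMap)) y) = Φ y := by
      intro y
      have : g ∘ₗ (DirectSum.toModule R κ (⨁ n, E n)
        (fun j => DirectSum.lof R ℕ E (nj j) ∘ₗ (εj j).symm.toLinearMap)) = Φ := by
        apply DirectSum.linearMap_ext
        intro j
        ext x
        simp only [LinearMap.comp_apply, DirectSum.toModule_lof, g]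
        rw [hΦlof]
        simp only [LinearEquiv.coe_coe, hπM, hjnnj]
        rw [← hεj, LinearEquiv.apply_symm_apply]
      exact LinearMap.congr_fun this y
    change g ((DirectSum.toModule R κ (⨁ n, E n)
        (fun j => DirectSum.lof R ℕ E (nj j) ∘ₗ (εj j).symm.toLinearMap)) (ρ x)) = e x
    rw [h1, hΦρ]

end Ident
end Matlis
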