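import Pool.Agent.Matlis.Defs
import Pool.Agent.Matlis.Ident

/-!
# Matlis' problem: abstract decomposition lemma (`Stmt_Decomp`)
-/

set_option autoImplicit false

open scoped DirectSum

namespace Pool.Agent.Matlis

theorem decomp_proof : Stmt_Decomp := by
  classical
  intro k _ R _ _ E _ _ s e hinj hs0 hess hee hT hsoc hes _ hF
  obtain ⟨κ, F, hF1, hF2, hF3⟩ := hF
  let inn : ∀ n, E n →ₗ[R] (⨁ i : ℕ × Bool, E i.1) := fun n =>
    DirectSum.lof R (ℕ × Bool) (fun i => E i.1) (n, false)
  have hinn : ∀ n x, inn n x = DirectSum.of (fun i : ℕ × Bool => E i.1) (n, false) x :=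
    fun n x => rfl
  have hinninj : ∀ n x, inn n x = 0 → x = 0 := by
    intro n x hx
    rw [hinn] at hx
    exact (DirectSum.of_injective (β := fun i : ℕ × Bool => E i.1) (n, false))
      (hx.trans (map_zero _).symm)
  have hne : ∀ n, inn n (s n) ≠ 0 := fun n h => hs0 n (hinninj n _ h)
  have a1 : ∀ n (A : Submodule R (E n)), A ≠ ⊥ → s n ∈ A := by
    intro n A hA
    obtain ⟨y, hyA, hy0⟩ := Submodule.exists_mem_ne_zero_of_ne_bot hA
    obtain ⟨r, hr⟩ := hess n y hy0
    rw [← hr]; exact A.smul_mem r hyA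
  have a2 : ∀ A : Submodule R (⨁ i : ℕ × Bool, E i.1), A ≠ ⊥ → A ≤ LinearMap.range e →
      ∃ n, inn n (s n) ∈ A := by
    intro A hA hAe
    obtain ⟨y, hyA, hy0⟩ := Submodule.exists_mem_ne_zero_of_ne_bot hA
    obtain ⟨r, m, hr⟩ := hsoc y (hAe hyA) hy0
    refine ⟨m, ?_⟩
    rw [hinn, ← hr]; exact A.smul_mem r hyA
  have a3 : ∀ T : (⨁ i : ℕ × Bool, E i.1) →ₗ[R] (⨁ i : ℕ × Bool, E i.1),
      (∀ x, T (T x) = T x) → (∀ x, e (T x) = T x) →
      ∀ n, T (inn n (s n)) = 0 ∨ T (inn n (s n)) = inn n (s n) := by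
    intro T hTT heT n
    obtain ⟨c, hc⟩ := hT T n
    have h3 : T (inn n (s n)) = algebraMap k R c • inn n (s n) := by
      rw [← heT]; exact hc
    have h4 := hTT (inn n (s n))
    rw [h3, map_smul, h3] at h4
    have h5 : (algebraMap k R (c * c - c)) • inn n (s n) = 0 := by
      rw [map_sub, map_mul, sub_smul, mul_smul, h4, sub_self]
    have h6 : c * c - c = 0 := by
      by_contra hcc
      apply hne n
      have : (algebraMap k R ((c * c - c)⁻¹)) • (algebraMap k R (c * c - c)) • inn n (s n) = 0 := by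
        rw [h5, smul_zero]
      rwa [← mul_smul, ← map_mul, inv_mul_cancel₀ hcc, map_one, one_smul] at this
    have h7 : c = 0 ∨ c = 1 := by
      have : c * (c - 1) = 0 := by rw [mul_sub, mul_one]; exact h6
      rcases mul_eq_zero.1 this with h | h
      · exact Or.inl h
      · exact Or.inr (sub_eq_zero.1 h)
    rcases h7 with h | h
    · left; rw [h3, h, map_zero, zero_smul]
    · right; rw [h3, h, map_one, one_smul]
  have a4 : ∀ n m, ∀ r : R, inn n (s n) = r • inn m (s m) → n = m := by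
    intro n m r hr
    by_contra hnm
    have h3 := congrArg (fun y : ⨁ i : ℕ × Bool, E i.1 => y (n, false)) hr
    simp only at h3
    rw [← map_smul, hinn, hinn, DirectSum.of_eq_same, DirectSum.of_eq_of_ne] at h3
    · exact hs0 n h3
    · intro h4
      exact hnm (congrArg Prod.fst h4)
  obtain ⟨g, h, h1, h2⟩ := _root_.Matlis.ident (R := R) (E := E) s inn e
    (fun x => LinearMap.congr_fun hee x) hinj a1 hne (fun n => hes n) a2 a3 a4 κ F hF1 hF2 hF3
  exact ⟨g, h, LinearMap.ext h1, LinearMap.ext h2⟩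

end Pool.Agent.Matlis
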