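import Mathlib

/-!
# Matlis' problem (MP_504466_al): definitions for the negative answer

Paper proof: /team-store/MP_504466_PROOF.md
-/

set_option autoImplicit false

open scoped TensorProduct DirectSum
open Module

namespace Pool.Agent.Matlis

/-! ## 1. Pencils -/

/-- A pencil over the variable set `X`, from `D'` to `D`: finitely many linear maps `D' → D`, indexed by
`Option X` (`none` is the constant coefficient). -/
abbrev Pencil (k X D' D : Type) [Field k] [AddCommGroup D'] [Module k D'] [AddCommGroup D]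
    [Module k D] : Type :=
  Option X →₀ (D' →ₗ[k] D)

section Pencils

variable {k : Type} [Field k] {X : Type}
variable {D' D V W : Type} [AddCommGroup D'] [Module k D'] [AddCommGroup D] [Module k D]
  [AddCommGroup V] [Module k V] [AddCommGroup W] [Module k W]

/-- `pre b S = {d' | b_o d' ∈ S for all o}`. -/
def pre (b : Pencil k X D' D) (S : Submodule k D) : Submodule k D' :=
  ⨅ o, S.comap (b o)

/-- The codimension condition which guarantees finite kernels. -/
def CF (b : Pencil k X D' D) : Prop :=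
  ∀ S : Submodule k D, finrank k D + finrank k (pre b S) ≤ finrank k D' + finrank k S

/-- Full (= semistable square) pencils. -/
def Full (b : Pencil k X D' D) : Prop :=
  finrank k D' = finrank k D ∧ ∀ S : Submodule k D, finrank k (pre b S) ≤ finrank k S

/-- Stable pencils. -/
def Stable (b : Pencil k X D' D) : Prop :=
  Full b ∧ 0 < finrank k D ∧
    ∀ S : Submodule k D, S ≠ ⊥ → S ≠ ⊤ → finrank k (pre b S) < finrank k S

/-- `ev b w d' = (o ↦ w (b_o d'))`. -/
noncomputable def ev (b : Pencil k X D' D) (w : D →ₗ[k] V) : D' →ₗ[k] (Option X →₀ V) where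
  toFun d := b.mapRange (fun f => w (f d)) (by simp)
  map_add' := by intro d e; ext o; simp
  map_smul' := by intro c d; ext o; simp

@[simp] lemma ev_apply (b : Pencil k X D' D) (w : D →ₗ[k] V) (d : D') (o : Option X) :
    ev b w d o = w (b o d) := by simp [ev]

/-- Kernel of a pencil with respect to a space `Rl` of decreed relations. -/
noncomputable def Ker (Rl : Submodule k (Option X →₀ V)) (b : Pencil k X D' D) :
    Submodule k (D →ₗ[k] V) where
  carrier := {w | ∀ d, ev b w d ∈ Rl}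
  add_mem' := by
    intro w w' hw hw' d
    have : ev b (w + w') d = ev b w d + ev b w' d := by ext o; simp
    rw [this]; exact Rl.add_mem (hw d) (hw' d)
  zero_mem' := by
    intro d
    have : ev b (0 : D →ₗ[k] V) d = 0 := by ext o; simp
    rw [this]; exact Rl.zero_mem
  smul_mem' := by
    intro c w hw d
    have : ev b (c • w) d = c • ev b w d := by ext o; simp
    rw [this]; exact Rl.smul_mem c (hw d)

@[simp] lemma mem_Ker (Rl : Submodule k (Option X →₀ V)) (b : Pencil k X D' D) (w : D →ₗ[k] V) :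
    w ∈ Ker Rl b ↔ ∀ d, ev b w d ∈ Rl := Iff.rfl

/-- Single-valuedness of a relation space. -/
def SV (Rl : Submodule k (Option X →₀ V)) : Prop :=
  ∀ v : V, Finsupp.single none v ∈ Rl → v = 0

/-- Push a formal relation forward along a linear map. -/
noncomputable abbrev push (i : V →ₗ[k] W) : (Option X →₀ V) →ₗ[k] (Option X →₀ W) :=
  Finsupp.mapRange.linearMap i

/-- Operators indexed by `Option X`: `none` acts as the identity. -/
noncomputable def opt (x : X → Module.End k V) (o : Option X) : V →ₗ[k] V :=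
  o.elim LinearMap.id x

@[simp] lemma opt_none (x : X → Module.End k V) : opt x none = LinearMap.id := rfl
@[simp] lemma opt_some (x : X → Module.End k V) (t : X) : opt x (some t) = x t := rfl

/-- Value of a formal expression under total operators. -/
noncomputable def val (x : X → Module.End k V) : (Option X →₀ V) →ₗ[k] V :=
  Finsupp.lsum k (fun o => opt x o)

/-- Action of a pencil: `act x b w d' = w (b_none d') + ∑ₜ xₜ (w (bₜ d'))`. -/
noncomputable def act (x : X → Module.End k V) (b : Pencil k X D' D) (w : D →ₗ[k] V) :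
    D' →ₗ[k] V :=
  (val x).comp (ev b w)

/-- Restricted pencil `pre b S → S`. -/
noncomputable def resP (b : Pencil k X D' D) (S : Submodule k D) :
    Pencil k X (pre b S) S :=
  Finsupp.onFinset b.support
    (fun o => (b o).restrict (p := pre b S) (q := S)
      (fun _ hx => by simpa using (Submodule.mem_iInf _).1 hx o))
    (by
      intro o ho
      by_contra h
      apply ho
      ext x
      simp [Finsupp.notMem_support_iff.1 h])

@[simp] lemma resP_apply_coe (b : Pencil k X D' D) (S : Submodule k D) (o : Option X)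
    (d : pre b S) : ((resP b S o d : S) : D) = b o (d : D') := rfl

/-- Quotient pencil `D' ⧸ pre b S → D ⧸ S`. -/
noncomputable def quoP (b : Pencil k X D' D) (S : Submodule k D) :
    Pencil k X (D' ⧸ pre b S) (D ⧸ S) :=
  Finsupp.onFinset b.support
    (fun o => (pre b S).mapQ S (b o)
      (fun _ hx => by simpa using (Submodule.mem_iInf _).1 hx o))
    (by
      intro o ho
      by_contra h
      apply ho
      ext x
      simp [Finsupp.notMem_support_iff.1 h])

@[simp] lemma quoP_apply_mk (b : Pencil k X D' D) (S : Submodule k D) (o : Option X) (d : D') :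
    quoP b S o (Submodule.Quotient.mk d) = Submodule.Quotient.mk (b o d) := rfl

end Pencils

/-- A family of subspaces which is finite dimensional and almost everywhere zero. -/
def FinFam {k : Type} [Field k] {Z : Type} {M : Z → Type} [∀ z, AddCommGroup (M z)]
    [∀ z, Module k (M z)] (U : ∀ z, Submodule k (M z)) : Prop :=
  {z | U z ≠ ⊥}.Finite ∧ ∀ z, (U z).FG

/-! ## 2. Statements of Part I -/

/-- Elementary facts on restricted and quotient pencils. -/
def Stmt_Tight : Prop :=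
  ∀ (k : Type) [Field k] (X D' D : Type) [AddCommGroup D'] [Module k D'] [AddCommGroup D]
    [Module k D] [FiniteDimensional k D'] [FiniteDimensional k D] (b : Pencil k X D' D)
    (S : Submodule k D),
    (CF b → finrank k D + finrank k (pre b S) = finrank k D' + finrank k S →
      CF (resP b S) ∧ CF (quoP b S)) ∧
    (Full b → finrank k (pre b S) = finrank k S → Full (resP b S) ∧ Full (quoP b S)) ∧
    (Full b → CF b)

/-- Block triangular pencils: `tri b₁ b₂ g (d₁, d₂) = (b₁ d₁ + g d₂, b₂ d₂)`. -/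
noncomputable def tri {k : Type} [Field k] {X D₁' D₁ D₂' D₂ : Type}
    [AddCommGroup D₁'] [Module k D₁'] [AddCommGroup D₁] [Module k D₁]
    [AddCommGroup D₂'] [Module k D₂'] [AddCommGroup D₂] [Module k D₂]
    (b₁ : Pencil k X D₁' D₁) (b₂ : Pencil k X D₂' D₂) (g : Pencil k X D₂' D₁) :
    Pencil k X (D₁' × D₂') (D₁ × D₂) :=
  b₁.mapRange (fun f => (LinearMap.inl k D₁ D₂) ∘ₗ f ∘ₗ (LinearMap.fst k D₁' D₂')) (by simp) +
  b₂.mapRange (fun f => (LinearMap.inr k D₁ D₂) ∘ₗ f ∘ₗ (LinearMap.snd k D₁' D₂')) (by simp) +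
  g.mapRange (fun f => (LinearMap.inl k D₁ D₂) ∘ₗ f ∘ₗ (LinearMap.snd k D₁' D₂')) (by simp)

def Stmt_Tri : Prop :=
  ∀ (k : Type) [Field k] (X D₁' D₁ D₂' D₂ : Type)
    [AddCommGroup D₁'] [Module k D₁'] [AddCommGroup D₁] [Module k D₁]
    [AddCommGroup D₂'] [Module k D₂'] [AddCommGroup D₂] [Module k D₂]
    [FiniteDimensional k D₁'] [FiniteDimensional k D₁] [FiniteDimensional k D₂']
    [FiniteDimensional k D₂]
    (b₁ : Pencil k X D₁' D₁) (b₂ : Pencil k X D₂' D₂) (g : Pencil k X D₂' D₁),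
    Full b₁ → Full b₂ → Full (tri b₁ b₂ g)

/-- Lemma R: finite kernels for stable pencils on `k^n` imply finite kernels for all CF pencils. -/
def Stmt_R : Prop :=
  ∀ (k : Type) [Field k] (X Z : Type) (V : Z → Type) [∀ z, AddCommGroup (V z)]
    [∀ z, Module k (V z)] (Rl : ∀ z, Submodule k (Option X →₀ V z)),
    (∀ z, SV (Rl z)) →
    (∀ (n : ℕ) (b : Pencil k X (Fin n → k) (Fin n → k)), Stable b →
      FinFam (fun z => Ker (Rl z) b)) →
    ∀ (D' D : Type) [AddCommGroup D'] [Module k D'] [AddCommGroup D] [Module k D]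
      [FiniteDimensional k D'] [FiniteDimensional k D] (b : Pencil k X D' D), CF b →
      FinFam (fun z => Ker (Rl z) b)

/-- Surjectivity for stable pencils on `k^n` implies surjectivity for all full pencils. -/
def Stmt_Surj : Prop :=
  ∀ (k : Type) [Field k] (X V : Type) [AddCommGroup V] [Module k V] (x : X → Module.End k V),
    (∀ (n : ℕ) (b : Pencil k X (Fin n → k) (Fin n → k)), Stable b →
      ∀ y : (Fin n → k) →ₗ[k] V, ∃ w, act x b w = y) →
    ∀ (D' D : Type) [AddCommGroup D'] [Module k D'] [AddCommGroup D] [Module k D]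
      [FiniteDimensional k D'] [FiniteDimensional k D] (b : Pencil k X D' D), Full b →
      ∀ y : D' →ₗ[k] V, ∃ w, act x b w = y

/-- Step (a): totality. -/
def Stmt_StepA : Prop :=
  ∀ (k : Type) [Field k] (X V : Type) [AddCommGroup V] [Module k V]
    (Rl : Submodule k (Option X →₀ V)), SV Rl →
    ∃ (W : Type) (_ : AddCommGroup W) (_ : Module k W) (i : V →ₗ[k] W)
      (Rl' : Submodule k (Option X →₀ W)),
      Function.Injective i ∧ SV Rl' ∧ (∀ ξ, push i ξ ∈ Rl' ↔ ξ ∈ Rl) ∧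
      (∀ (t : X) (v : V), ∃ v' : W,
        Finsupp.single (some t) (i v) - Finsupp.single none v' ∈ Rl') ∧
      (∀ (n : ℕ) (b : Pencil k X (Fin n → k) (Fin n → k)), Stable b →
        ∀ w ∈ Ker Rl' b, ∃ w₀ : (Fin n → k) →ₗ[k] V, w = i ∘ₗ w₀)

/-- Step (b): solutions. -/
def Stmt_StepB : Prop :=
  ∀ (k : Type) [Field k] [IsAlgClosed k] (X V : Type) [AddCommGroup V] [Module k V]
    (Rl : Submodule k (Option X →₀ V)), SV Rl →
    ∃ (W : Type) (_ : AddCommGroup W) (_ : Module k W) (i : V →ₗ[k] W)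
      (Rl' : Submodule k (Option X →₀ W)),
      Function.Injective i ∧ SV Rl' ∧ (∀ ξ, push i ξ ∈ Rl' ↔ ξ ∈ Rl) ∧
      (∀ (n : ℕ) (b : Pencil k X (Fin n → k) (Fin n → k)), Stable b →
        ∀ v : (Fin n → k) →ₗ[k] V, ∃ w : (Fin n → k) →ₗ[k] W,
          ∀ d, ev b w d - Finsupp.single none (i (v d)) ∈ Rl') ∧
      (∀ (n : ℕ) (b : Pencil k X (Fin n → k) (Fin n → k)), Stable b →
        ∀ w ∈ Ker Rl' b, ∃ w₀ : (Fin n → k) →ₗ[k] V, w = i ∘ₗ w₀)

/-- Tasks: finite family of subspaces, operators, label. -/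
structure Task (k : Type) [Field k] (Z L : Type) (V : Z → Type) [∀ z, AddCommGroup (V z)]
    [∀ z, Module k (V z)] where
  U : ∀ z, Submodule k (V z)
  fin : FinFam U
  g : ∀ z, Module.End k (V z)
  l : L

/-- Rename variables in a relation. -/
noncomputable abbrev ren {k : Type} [Field k] {X Y V : Type} [AddCommGroup V] [Module k V]
    (f : X → Y) : (Option X →₀ V) →ₗ[k] (Option Y →₀ V) :=
  Finsupp.lmapDomain V k (Option.map f)

/-- Relations after adding the tasks as new variables. -/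
noncomputable def relC {k : Type} [Field k] {X Z L : Type} {V : Z → Type}
    [∀ z, AddCommGroup (V z)] [∀ z, Module k (V z)] (Rl : ∀ z, Submodule k (Option X →₀ V z))
    (z : Z) : Submodule k (Option (X ⊕ Task k Z L V) →₀ V z) :=
  (Rl z).map (ren (Sum.inl : X → X ⊕ Task k Z L V)) ⊔
  Submodule.span k {ξ | ∃ (y : Task k Z L V) (u : V z), u ∈ y.U z ∧
    ξ = Finsupp.single (some (Sum.inr y)) u - Finsupp.single none (y.g z u)}

/-- Step (c): tasks. -/
def Stmt_StepC : Prop :=
  ∀ (k : Type) [Field k] (X Z L : Type) (V : Z → Type) [∀ z, AddCommGroup (V z)]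
    [∀ z, Module k (V z)] (Rl : ∀ z, Submodule k (Option X →₀ V z)),
    (∀ z, SV (Rl z)) →
    (∀ (n : ℕ) (b : Pencil k X (Fin n → k) (Fin n → k)), Stable b →
      FinFam (fun z => Ker (Rl z) b)) →
    (∀ z, SV (relC (L := L) Rl z)) ∧
    (∀ (z : Z) (ξ : Option X →₀ V z),
      ren (k := k) (V := V z) (Sum.inl : X → X ⊕ Task k Z L V) ξ ∈ relC (L := L) Rl z ↔ ξ ∈ Rl z) ∧
    (∀ (n : ℕ) (b : Pencil k (X ⊕ Task k Z L V) (Fin n → k) (Fin n → k)), Stable b →
      FinFam (fun z => Ker (relC (L := L) Rl z) b))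

/-- A generic system. -/
structure GenSys (k : Type) [Field k] (Z L : Type) where
  V : Z → Type
  [iV : ∀ z, AddCommGroup (V z)]
  [mV : ∀ z, Module k (V z)]
  X : Type
  x : ∀ z, X → Module.End k (V z)
  lab : X → L
  v0 : ∀ z, V z
  v0_ne : ∀ z, v0 z ≠ 0
  dense : ∀ U : ∀ z, Submodule k (V z), FinFam U → ∀ (g : ∀ z, Module.End k (V z)) (l : L),
    ∃ t, lab t = l ∧ ∀ z, ∀ u ∈ U z, x z t u = g z u
  surj : ∀ (n : ℕ) (b : Pencil k X (Fin n → k) (Fin n → k)), Stable b →
    ∀ z (y : (Fin n → k) →ₗ[k] V z), ∃ w, act (x z) b w = y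
  fk : ∀ (n : ℕ) (b : Pencil k X (Fin n → k) (Fin n → k)), Stable b →
    FinFam (fun z => Ker (LinearMap.ker (val (x z))) b)

attribute [instance] GenSys.iV GenSys.mV

/-- A partial system (one stage of the construction of a generic system). -/
structure PS (k : Type) [Field k] (Z L : Type) where
  X : Type
  lab : X → L
  V : Z → Type
  [iV : ∀ z, AddCommGroup (V z)]
  [mV : ∀ z, Module k (V z)]
  Rl : ∀ z, Submodule k (Option X →₀ V z)
  v0 : ∀ z, V z
  v0_ne : ∀ z, v0 z ≠ 0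
  sv : ∀ z, SV (Rl z)
  inv : ∀ (n : ℕ) (b : Pencil k X (Fin n → k) (Fin n → k)), Stable b →
    FinFam (fun z => Ker (Rl z) b)

attribute [instance] PS.iV PS.mV

/-- Renaming the variables of a pencil. -/
noncomputable def renP {k : Type} [Field k] {X Y D' D : Type} [AddCommGroup D'] [Module k D']
    [AddCommGroup D] [Module k D] (f : X → Y) (b : Pencil k X D' D) : Pencil k Y D' D :=
  Finsupp.mapDomain (Option.map f) b

/-- Embeddings of partial systems. -/
structure PSHom {k : Type} [Field k] {Z L : Type} (P P' : PS k Z L) where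
  f : P.X → P'.X
  f_inj : Function.Injective f
  i : ∀ z, P.V z →ₗ[k] P'.V z
  i_inj : ∀ z, Function.Injective (i z)
  lab_f : ∀ t, P'.lab (f t) = P.lab t
  i_v0 : ∀ z, i z (P.v0 z) = P'.v0 z
  rel : ∀ z (ξ : Option P.X →₀ P.V z),
    ren (k := k) (V := P'.V z) f (push (i z) ξ) ∈ P'.Rl z ↔ ξ ∈ P.Rl z

/-- Good embeddings: solutions, totality, tasks, no new kernels. -/
structure PSHom.Good {k : Type} [Field k] {Z L : Type} {P P' : PS k Z L} (φ : PSHom P P') :
    Prop where
  sol : ∀ (n : ℕ) (b : Pencil k P.X (Fin n → k) (Fin n → k)), Stable b →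
    ∀ z (v : (Fin n → k) →ₗ[k] P.V z), ∃ w : (Fin n → k) →ₗ[k] P'.V z,
      ∀ d, ev (renP φ.f b) w d - Finsupp.single none (φ.i z (v d)) ∈ P'.Rl z
  tot : ∀ z (t : P.X) (v : P.V z), ∃ v' : P'.V z,
    Finsupp.single (some (φ.f t)) (φ.i z v) - Finsupp.single none v' ∈ P'.Rl z
  task : ∀ U : ∀ z, Submodule k (P.V z), FinFam U → ∀ (g : ∀ z, Module.End k (P.V z)) (l : L),
    ∃ t', P'.lab t' = l ∧ ∀ z, ∀ u ∈ U z,
      Finsupp.single (some t') (φ.i z u) - Finsupp.single none (φ.i z (g z u)) ∈ P'.Rl z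
  ker : ∀ (n : ℕ) (b : Pencil k P.X (Fin n → k) (Fin n → k)), Stable b →
    ∀ z, ∀ w ∈ Ker (P'.Rl z) (renP φ.f b), ∃ w₀ : (Fin n → k) →ₗ[k] P.V z, w = φ.i z ∘ₗ w₀

/-- One step (b), (a), (c) of the construction. -/
def Stmt_Next : Prop :=
  ∀ (k : Type) [Field k] [IsAlgClosed k] (Z L : Type) (P : PS k Z L),
    ∃ (P' : PS k Z L) (φ : PSHom P P'), φ.Good

/-- The limit of a chain of good embeddings is a generic system. -/
def Stmt_Lim : Prop :=
  ∀ (k : Type) [Field k] (Z L : Type) (P : ℕ → PS k Z L) (φ : ∀ n, PSHom (P n) (P (n + 1))),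
    (∀ n, (φ n).Good) → Nonempty (GenSys k Z L)

/-- Theorem I. -/
def Stmt_I : Prop :=
  ∀ (k : Type) [Field k] [IsAlgClosed k] (Z L : Type), Nonempty (GenSys k Z L)

/-! ## 3. Quiver representations and hat modules -/

/-- A quiver with a well founded arrow relation. -/
structure Quiv (Z : Type) where
  Arr : Type
  src : Arr → Z
  tgt : Arr → Z
  wf : WellFounded (fun z' z : Z => ∃ a : Arr, src a = z ∧ tgt a = z')

/-- Representations. -/
structure Rep (k : Type) [Field k] {Z : Type} (Q : Quiv Z) where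
  N : Z → Type
  [iN : ∀ z, AddCommGroup (N z)]
  [mN : ∀ z, Module k (N z)]
  map : ∀ a : Q.Arr, N (Q.src a) →ₗ[k] N (Q.tgt a)

attribute [instance] Rep.iN Rep.mN

/-- A functional with value `1` on `v0 z`. -/
noncomputable def GenSys.psi {k : Type} [Field k] {Z L : Type} (G : GenSys k Z L) (z : Z) :
    G.V z →ₗ[k] k :=
  Classical.choose (Module.Projective.exists_dual_eq_one k (G.v0_ne z))

lemma GenSys.psi_v0 {k : Type} [Field k] {Z L : Type} (G : GenSys k Z L) (z : Z) :
    G.psi z (G.v0 z) = 1 :=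
  Classical.choose_spec (Module.Projective.exists_dual_eq_one k (G.v0_ne z))

section Hat

variable {k : Type} [Field k] {Z : Type} {Q : Quiv Z}

/-- `Hat G N = ⨁ z, N z ⊗ V z`. -/
def Hat (G : GenSys k Z (Option Q.Arr)) (N : Rep k Q) : Type :=
  ⨁ z, (N.N z ⊗[k] G.V z)

noncomputable instance (G : GenSys k Z (Option Q.Arr)) (N : Rep k Q) : AddCommGroup (Hat G N) :=
  inferInstanceAs (AddCommGroup (⨁ z, (N.N z ⊗[k] G.V z)))

noncomputable instance (G : GenSys k Z (Option Q.Arr)) (N : Rep k Q) : Module k (Hat G N) :=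
  inferInstanceAs (Module k (⨁ z, (N.N z ⊗[k] G.V z)))

variable [DecidableEq Z]

/-- Inclusion of the summand `z`. -/
noncomputable def hι (G : GenSys k Z (Option Q.Arr)) (N : Rep k Q) (z : Z) :
    (N.N z ⊗[k] G.V z) →ₗ[k] Hat G N :=
  DirectSum.lof k Z (fun z => N.N z ⊗[k] G.V z) z

/-- Projection onto the summand `z`. -/
noncomputable def hπ (G : GenSys k Z (Option Q.Arr)) (N : Rep k Q) (z : Z) :
    Hat G N →ₗ[k] (N.N z ⊗[k] G.V z) :=
  DirectSum.component k Z (fun z => N.N z ⊗[k] G.V z) z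

@[simp] lemma hπ_hι_same (G : GenSys k Z (Option Q.Arr)) (N : Rep k Q) (z : Z)
    (y : N.N z ⊗[k] G.V z) : hπ G N z (hι G N z y) = y :=
  DirectSum.component.lof_self k (M := fun z => N.N z ⊗[k] G.V z) z y

lemma hπ_hι_ne (G : GenSys k Z (Option Q.Arr)) (N : Rep k Q) {z z' : Z} (h : z ≠ z')
    (y : N.N z ⊗[k] G.V z) : hπ G N z' (hι G N z y) = 0 := by
  have := DirectSum.component.of k (M := fun z => N.N z ⊗[k] G.V z) z' z y
  rw [dif_neg h] at this
  exact this

lemma hat_ext (G : GenSys k Z (Option Q.Arr)) (N : Rep k Q) {y y' : Hat G N}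
    (h : ∀ z, hπ G N z y = hπ G N z y') : y = y' :=
  DirectSum.ext_component k (M := fun z => N.N z ⊗[k] G.V z) h

/-- Induction principle: elements are sums of `hι z (n ⊗ v)`. -/
lemma hat_induction (G : GenSys k Z (Option Q.Arr)) (N : Rep k Q) {p : Hat G N → Prop}
    (h0 : p 0) (hadd : ∀ y y', p y → p y' → p (y + y'))
    (h : ∀ z (n : N.N z) (v : G.V z), p (hι G N z (n ⊗ₜ[k] v))) (y : Hat G N) : p y := by
  refine DirectSum.induction_on (β := fun z => N.N z ⊗[k] G.V z) (motive := p) y h0 ?_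
    (fun x y hx hy => hadd x y hx hy)
  intro z t
  have : ∀ t : N.N z ⊗[k] G.V z, p (hι G N z t) := by
    intro t
    induction t using TensorProduct.induction_on with
    | zero => rw [map_zero]; exact h0
    | tmul n v => exact h z n v
    | add a b ha hb => rw [map_add]; exact hadd _ _ ha hb
  exact this t

lemma hat_hom_ext {M : Type} [AddCommGroup M] [Module k M] (G : GenSys k Z (Option Q.Arr))
    (N : Rep k Q) {f g : Hat G N →ₗ[k] M}
    (h : ∀ z (n : N.N z) (v : G.V z), f (hι G N z (n ⊗ₜ[k] v)) = g (hι G N z (n ⊗ₜ[k] v))) :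
    f = g := by
  ext y
  induction y using hat_induction G N with
  | h0 => simp
  | hadd y y' hy hy' => rw [map_add, map_add, hy, hy']
  | h z n v => exact h z n v

/-- The diagonal operator `⨁ 1 ⊗ f_z`. -/
noncomputable def hdiag (G : GenSys k Z (Option Q.Arr)) (N : Rep k Q)
    (f : ∀ z, Module.End k (G.V z)) : Module.End k (Hat G N) :=
  DirectSum.lmap (fun z => LinearMap.lTensor (N.N z) (f z))

@[simp] lemma hdiag_hι (G : GenSys k Z (Option Q.Arr)) (N : Rep k Q)
    (f : ∀ z, Module.End k (G.V z)) (z : Z) (n : N.N z) (v : G.V z) :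
    hdiag G N f (hι G N z (n ⊗ₜ[k] v)) = hι G N z (n ⊗ₜ[k] (f z v)) := by
  exact (DirectSum.lmap_lof (R := k) (f := fun z => LinearMap.lTensor (N.N z) (f z)) z
    (n ⊗ₜ[k] v)).trans (congrArg (hι G N z) (LinearMap.lTensor_tmul (N.N z) (f z) n v))

lemma hπ_hdiag (G : GenSys k Z (Option Q.Arr)) (N : Rep k Q)
    (f : ∀ z, Module.End k (G.V z)) (z : Z) (y : Hat G N) :
    hπ G N z (hdiag G N f y) = LinearMap.lTensor (N.N z) (f z) (hπ G N z y) := rfl

/-- The rank one perturbation belonging to an arrow: `n ⊗ v ↦ N(a) n ⊗ ψ(v) v0`. -/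
noncomputable def pert (G : GenSys k Z (Option Q.Arr)) (N : Rep k Q) :
    Option Q.Arr → (Hat G N →ₗ[k] Hat G N)
  | none => 0
  | some a =>
    (hι G N (Q.tgt a)) ∘ₗ
      (TensorProduct.map (N.map a) ((G.psi (Q.src a)).smulRight (G.v0 (Q.tgt a)))) ∘ₗ
      (hπ G N (Q.src a))

lemma pert_some_same (G : GenSys k Z (Option Q.Arr)) (N : Rep k Q) (a : Q.Arr)
    (n : N.N (Q.src a)) (v : G.V (Q.src a)) :
    pert G N (some a) (hι G N (Q.src a) (n ⊗ₜ[k] v)) =
      hι G N (Q.tgt a) (N.map a n ⊗ₜ[k] (G.psi (Q.src a) v • G.v0 (Q.tgt a))) := by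
  simp [pert]

lemma pert_some_ne (G : GenSys k Z (Option Q.Arr)) (N : Rep k Q) (a : Q.Arr) {z : Z}
    (h : z ≠ Q.src a) (y : N.N z ⊗[k] G.V z) :
    pert G N (some a) (hι G N z y) = 0 := by
  simp [pert, hπ_hι_ne G N h]

/-- The operator of the variable `t` on `Hat G N`. -/
noncomputable def xhat (G : GenSys k Z (Option Q.Arr)) (N : Rep k Q) (t : G.X) :
    Module.End k (Hat G N) :=
  hdiag G N (fun z => G.x z t) + pert G N (G.lab t)

/-- `HatU G N U = ⨁ z, N z ⊗ U z`. -/
noncomputable def HatU (G : GenSys k Z (Option Q.Arr)) (N : Rep k Q)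
    (U : ∀ z, Submodule k (G.V z)) : Submodule k (Hat G N) :=
  Submodule.span k {y | ∃ (z : Z) (n : N.N z) (u : G.V z), u ∈ U z ∧ y = hι G N z (n ⊗ₜ[k] u)}

end Hat

/-- Full pencils act surjectively on all hat modules. -/
def Stmt_HatS : Prop :=
  ∀ (k : Type) [Field k] (Z : Type) [DecidableEq Z] (Q : Quiv Z)
    (G : GenSys k Z (Option Q.Arr)) (D' D : Type) [AddCommGroup D'] [Module k D']
    [AddCommGroup D] [Module k D] [FiniteDimensional k D'] [FiniteDimensional k D]
    (b : Pencil k G.X D' D), Full b →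
    ∀ (N : Rep k Q) (y : D' →ₗ[k] Hat G N), ∃ w, act (xhat G N) b w = y

/-- Kernels of full pencils on hat modules live in a fixed finite family. -/
def Stmt_HatK : Prop :=
  ∀ (k : Type) [Field k] (Z : Type) [DecidableEq Z] (Q : Quiv Z)
    (G : GenSys k Z (Option Q.Arr)) (D' D : Type) [AddCommGroup D'] [Module k D']
    [AddCommGroup D] [Module k D] [FiniteDimensional k D'] [FiniteDimensional k D]
    (b : Pencil k G.X D' D), Full b →
    ∃ U : ∀ z, Submodule k (G.V z), FinFam U ∧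
      ∀ (N : Rep k Q) (w : D →ₗ[k] Hat G N), act (xhat G N) b w = 0 → ∀ d, w d ∈ HatU G N U

/-! ## 4. The ring `R` -/

section Ring

variable {k : Type} [Field k] {Z : Type} [DecidableEq Z] {Q : Quiv Z} {I : Type}

/-- The ambient ring. -/
abbrev Big (G : GenSys k Z (Option Q.Arr)) (NN : I → Rep k Q) : Type :=
  ∀ i, Module.End k (Hat G (NN i))

/-- `r` is represented by `(b, c, d)`: `b w = d(·) y ⟹ r y = w c`. -/
def IsRep (G : GenSys k Z (Option Q.Arr)) (NN : I → Rep k Q) {D' D : Type} [AddCommGroup D']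
    [Module k D'] [AddCommGroup D] [Module k D] (b : Pencil k G.X D' D) (c : D)
    (d : D' →ₗ[k] k) (r : Big G NN) : Prop :=
  ∀ (i : I) (y : Hat G (NN i)) (w : D →ₗ[k] Hat G (NN i)),
    act (xhat G (NN i)) b w = d.smulRight y → r i y = w c

/-- Elements represented by a full pencil. -/
def InR (G : GenSys k Z (Option Q.Arr)) (NN : I → Rep k Q) (r : Big G NN) : Prop :=
  ∃ (D' D : Type) (_ : AddCommGroup D') (_ : Module k D') (_ : AddCommGroup D)
    (_ : Module k D) (_ : FiniteDimensional k D') (_ : FiniteDimensional k D)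
    (b : Pencil k G.X D' D) (c : D) (d : D' →ₗ[k] k), Full b ∧ IsRep G NN b c d r

/-- The ring `R` (it equals `{r | InR r}`, see `Stmt_Rmem`). -/
noncomputable def RR (G : GenSys k Z (Option Q.Arr)) (NN : I → Rep k Q) :
    Subalgebra k (Big G NN) :=
  Algebra.adjoin k {r | InR G NN r}

/-- The element of `Big` given by the variable `t`. -/
noncomputable def xbig (G : GenSys k Z (Option Q.Arr)) (NN : I → Rep k Q) (t : G.X) : Big G NN :=
  fun i => xhat G (NN i) t

end Ring

/-- Closure properties of `InR`. -/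
def Stmt_Rmem : Prop :=
  ∀ (k : Type) [Field k] (Z : Type) [DecidableEq Z] (Q : Quiv Z)
    (G : GenSys k Z (Option Q.Arr)) (I : Type) (NN : I → Rep k Q),
    (∀ r : Big G NN, r ∈ RR G NN ↔ InR G NN r) ∧ (∀ t, InR G NN (xbig G NN t))

/-- The bordered pencil `P` of `(b, c, d)`: `P_none (d', κ) = (b_none d' + κ c, - d d')`,
`P_t (d', κ) = (b_t d', 0)`. -/
noncomputable def bord {k : Type} [Field k] {X D' D : Type} [AddCommGroup D'] [Module k D']
    [AddCommGroup D] [Module k D] (b : Pencil k X D' D) (c : D) (d : D' →ₗ[k] k) :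
    Pencil k X (D' × k) (D × k) :=
  b.mapRange (fun f => (LinearMap.inl k D k) ∘ₗ f ∘ₗ (LinearMap.fst k D' k)) (by simp) +
  Finsupp.single none
    ((LinearMap.inl k D k) ∘ₗ ((LinearMap.snd k D' k).smulRight c) -
      (LinearMap.inr k D k) ∘ₗ d ∘ₗ (LinearMap.fst k D' k))

/-- Key Lemma Z: if the bordered pencil is not full then the element is zero. -/
def Stmt_Z : Prop :=
  ∀ (k : Type) [Field k] (Z : Type) [DecidableEq Z] (Q : Quiv Z)
    (G : GenSys k Z (Option Q.Arr)) (I : Type) (NN : I → Rep k Q)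
    (D' D : Type) [AddCommGroup D'] [Module k D']
    [AddCommGroup D] [Module k D] [FiniteDimensional k D'] [FiniteDimensional k D]
    (b : Pencil k G.X D' D) (c : D) (d : D' →ₗ[k] k) (r : Big G NN),
    Full b → IsRep G NN b c d r → ¬ Full (bord b c d) → r = 0

/-- Nonzero elements of `R`: surjectivity, small kernels, division. -/
def Stmt_Div : Prop :=
  ∀ (k : Type) [Field k] (Z : Type) [DecidableEq Z] (Q : Quiv Z)
    (G : GenSys k Z (Option Q.Arr)) (I : Type) (NN : I → Rep k Q) (a : Big G NN),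
    InR G NN a → a ≠ 0 →
    (∀ i, Function.Surjective (a i)) ∧
    ∃ U : ∀ z, Submodule k (G.V z), FinFam U ∧
      (∀ i (y : Hat G (NN i)), a i y = 0 → y ∈ HatU G (NN i) U) ∧
      ∀ r : Big G NN, InR G NN r → (∀ i, ∀ y ∈ HatU G (NN i) U, r i y = 0) →
        ∃ s : Big G NN, InR G NN s ∧ s * a = r

/-- Naturality: maps commuting with all `xhat` are `R`-linear. -/
def Stmt_Nat : Prop :=
  ∀ (k : Type) [Field k] (Z : Type) [DecidableEq Z] (Q : Quiv Z)
    (G : GenSys k Z (Option Q.Arr)) (I : Type) (NN : I → Rep k Q) (i j : I)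
    (φ : Hat G (NN i) →ₗ[k] Hat G (NN j)),
    (∀ t y, φ (xhat G (NN i) t y) = xhat G (NN j) t (φ y)) →
    ∀ r : Big G NN, InR G NN r → ∀ y, φ (r i y) = r j (φ y)

/-- Density. (D1) and (D2). -/
def Stmt_Dens : Prop :=
  ∀ (k : Type) [Field k] (Z : Type) [DecidableEq Z] (Q : Quiv Z)
    (G : GenSys k Z (Option Q.Arr)) (I : Type) (NN : I → Rep k Q),
    (∀ U : ∀ z, Submodule k (G.V z), FinFam U → ∀ g : ∀ z, Module.End k (G.V z),
      ∃ r : Big G NN, InR G NN r ∧ ∀ i z (n : (NN i).N z), ∀ u ∈ U z,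
        r i (hι G (NN i) z (n ⊗ₜ[k] u)) = hι G (NN i) z (n ⊗ₜ[k] (g z u))) ∧
    (∀ a : Q.Arr, ∃ r : Big G NN, InR G NN r ∧ ∀ i (n : (NN i).N (Q.src a)),
        r i (hι G (NN i) (Q.src a) (n ⊗ₜ[k] G.v0 (Q.src a))) =
          hι G (NN i) (Q.tgt a) ((NN i).map a n ⊗ₜ[k] G.v0 (Q.tgt a)))

/-! ## 5. The concrete category -/

/-- Objects: natural numbers and functions `ℕ → ℕ`. -/
inductive Z0 : Type
  | nat (m : ℕ) : Z0
  | fn (φ : ℕ → ℕ) : Z0

noncomputable instance : DecidableEq Z0 := Classical.decEq Z0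

/-- `φ`-bounded finite sets: the successor in `s` of an element `x ∈ s` is at most `φ x`. -/
def Bdd (φ : ℕ → ℕ) (s : Finset ℕ) : Prop :=
  ∀ x ∈ s, ∀ y ∈ s, x < y → ∃ y' ∈ s, x < y' ∧ y' ≤ φ x

/-- Admissible sets: arrows `z → n`. -/
def Adm : Z0 → ℕ → Finset ℕ → Prop
  | Z0.nat m, n, s => n ∈ s ∧ m ∈ s ∧ (∀ x ∈ s, n ≤ x ∧ x ≤ m) ∧ s.card ≠ 2
  | Z0.fn φ, n, s => n ∈ s ∧ (∀ x ∈ s, n ≤ x) ∧ Bdd φ s

/-- Non-identity arrows. -/
structure Arr0 where
  s : Z0
  t : ℕ
  q : Finset ℕ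
  adm : Adm s t q
  ne : s ≠ Z0.nat t

/-- Rank of an object. -/
def Z0.rk : Z0 → WithTop ℕ
  | Z0.nat m => (m : WithTop ℕ)
  | Z0.fn _ => ⊤

/-- The quiver. -/
def Q0 : Quiv Z0 where
  Arr := Arr0
  src a := a.s
  tgt a := Z0.nat a.t
  wf := by
    refine Subrelation.wf (r := InvImage (· < ·) Z0.rk) ?_ (InvImage.wf Z0.rk wellFounded_lt)
    rintro z' z ⟨a, rfl, rfl⟩
    show Z0.rk (Z0.nat a.t) < Z0.rk a.s
    rcases a with ⟨s, t, q, adm, ne⟩
    rcases s with m | φ
    · have h1 : t ≤ m := (adm.2.2.1 m adm.2.1).1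
      have h2 : t ≠ m := fun h => ne (by rw [h])
      exact WithTop.coe_lt_coe.2 (lt_of_le_of_ne h1 h2)
    · exact WithTop.coe_lt_top _

/-- Arrows `z → z'` (including identities). -/
def HomT (z : Z0) : Z0 → Type
  | Z0.nat n => {s : Finset ℕ // Adm z n s}
  | Z0.fn φ => PLift (z = Z0.fn φ)

open Classical in
/-- Composition with an admissible set `q : z' → m`: union, or nothing if it is not admissible. -/
noncomputable def compo (z : Z0) : (z' : Z0) → (m : ℕ) → (q : Finset ℕ) → Adm z' m q →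
    HomT z z' → Option (HomT z (Z0.nat m))
  | Z0.nat _, m, q, _, p => if h : Adm z m (q ∪ p.1) then some ⟨q ∪ p.1, h⟩ else none
  | Z0.fn _, _, q, hq, p => some ⟨q, p.down ▸ hq⟩

open Classical in
/-- The representation `I_n`: functions on arrows `z → n`. -/
noncomputable def Irep (k : Type) [Field k] (n : ℕ) : Rep k Q0 where
  N z := {s : Finset ℕ // Adm z n s} → k
  map a := LinearMap.pi (fun p : {s : Finset ℕ // Adm (Z0.nat a.t) n s} =>
    if h : Adm a.s n (p.1 ∪ a.q) then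
      LinearMap.proj (R := k) (φ := fun _ : {s : Finset ℕ // Adm a.s n s} => k)
        ⟨p.1 ∪ a.q, h⟩
    else 0)

/-- The representation `P_z`: free on arrows `z → z'`. -/
noncomputable def Prep (k : Type) [Field k] (z : Z0) : Rep k Q0 where
  N z' := HomT z z' →₀ k
  map a := Finsupp.lsum k (fun p : HomT z a.s =>
    match compo z a.s a.t a.q a.adm p with
    | none => 0
    | some s => Finsupp.lsingle (M := k) (R := k) (α := HomT z (Z0.nat a.t)) s)

/-- The family of representations. -/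
noncomputable def NN0 (k : Type) [Field k] : Z0 ⊕ ℕ → Rep k Q0
  | Sum.inl z => Prep k z
  | Sum.inr n => Irep k n

/-- The ring. -/
noncomputable abbrev R0 {k : Type} [Field k] (G : GenSys k Z0 (Option Q0.Arr)) :
    Subalgebra k (Big G (NN0 k)) :=
  RR G (NN0 k)

/-- The modules `E_n`. -/
def EE {k : Type} [Field k] (G : GenSys k Z0 (Option Q0.Arr)) (n : ℕ) : Type :=
  Hat G (Irep k n)

noncomputable instance {k : Type} [Field k] (G : GenSys k Z0 (Option Q0.Arr)) (n : ℕ) :
    AddCommGroup (EE G n) :=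
  inferInstanceAs (AddCommGroup (Hat G (Irep k n)))

noncomputable instance {k : Type} [Field k] (G : GenSys k Z0 (Option Q0.Arr)) (n : ℕ) :
    Module k (EE G n) :=
  inferInstanceAs (Module k (Hat G (Irep k n)))

/-- Action of an element of `R`. -/
noncomputable def actE {k : Type} [Field k] (G : GenSys k Z0 (Option Q0.Arr)) (n : ℕ) :
    ↥(R0 G) →+* Module.End k (EE G n) :=
  (Pi.evalRingHom (fun i => Module.End k (Hat G (NN0 k i))) (Sum.inr n)).comp
    (R0 G).val.toRingHom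

noncomputable instance {k : Type} [Field k] (G : GenSys k Z0 (Option Q0.Arr)) (n : ℕ) :
    Module ↥(R0 G) (EE G n) :=
  Module.compHom (EE G n) (actE G n)

/-- The socle generator `δ_n ⊗ v0`. -/
noncomputable def soc {k : Type} [Field k] (G : GenSys k Z0 (Option Q0.Arr)) (n : ℕ) : EE G n :=
  hι G (Irep k n) (Z0.nat n)
    ((fun _ => (1 : k) : (Irep k n).N (Z0.nat n)) ⊗ₜ[k] G.v0 (Z0.nat n))

/-- `E_n` is injective. -/
def Stmt_Inj : Prop :=
  ∀ (k : Type) [Field k] (G : GenSys k Z0 (Option Q0.Arr)) (n : ℕ),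
    Module.Injective ↥(R0 G) (EE G n)

/-- Every nonzero element of `E_n` can be moved onto the socle generator. -/
def Stmt_Ess : Prop :=
  ∀ (k : Type) [Field k] (G : GenSys k Z0 (Option Q0.Arr)),
    (∀ n, soc G n ≠ 0) ∧
    (∀ n (y : EE G n), y ≠ 0 → ∃ r : ↥(R0 G), r • y = soc G n) ∧
    (∀ y : ⨁ i : ℕ × Bool, EE G i.1, y ≠ 0 → ∃ (r : ↥(R0 G)) (m : ℕ) (κ : Bool → k),
      κ ≠ 0 ∧ r • y =
        DirectSum.of (fun i : ℕ × Bool => EE G i.1) (m, false)
          (algebraMap k ↥(R0 G) (κ false) • soc G m) +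
        DirectSum.of (fun i : ℕ × Bool => EE G i.1) (m, true)
          (algebraMap k ↥(R0 G) (κ true) • soc G m)) ∧
    (∀ m m' (T : EE G m →ₗ[↥(R0 G)] EE G m'), m ≠ m' → T (soc G m) = 0) ∧
    (∀ m (T : EE G m →ₗ[↥(R0 G)] EE G m), ∃ κ : k,
      T (soc G m) = algebraMap k ↥(R0 G) κ • soc G m)

/-- The module `M₀ = ⨁ E_n`. -/
abbrev M0 {k : Type} [Field k] (G : GenSys k Z0 (Option Q0.Arr)) : Type := ⨁ n, EE G n

open Classical in
/-- The element `p^* ⊗ v0_m` of `E_n` (`p : m → n` admissible). -/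
noncomputable def pstar {k : Type} [Field k] (G : GenSys k Z0 (Option Q0.Arr)) (n m : ℕ)
    (p : Finset ℕ) : EE G n :=
  hι G (Irep k n) (Z0.nat m)
    ((fun q : {s : Finset ℕ // Adm (Z0.nat m) n s} => if q.1 = p then (1 : k) else 0 :
      (Irep k n).N (Z0.nat m)) ⊗ₜ[k] G.v0 (Z0.nat m))

/-- The functional `χ_m` on `E_m` reading off the coefficient of `δ_m ⊗ v0_m`. -/
noncomputable def chi {k : Type} [Field k] (G : GenSys k Z0 (Option Q0.Arr)) (m : ℕ) :
    EE G m →ₗ[k] k :=
  (LinearMap.mul' k k) ∘ₗ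
    (TensorProduct.map
      (LinearMap.proj (R := k) (φ := fun _ : {s : Finset ℕ // Adm (Z0.nat m) m s} => k)
        ⟨{m}, by simp [Adm]⟩)
      (G.psi (Z0.nat m))) ∘ₗ
    (hπ G (Irep k m) (Z0.nat m))

open Classical in
/-- Coefficient of an endomorphism of `M₀` at a nonempty finite set `p`. -/
noncomputable def coef {k : Type} [Field k] (G : GenSys k Z0 (Option Q0.Arr))
    (T : M0 G →ₗ[↥(R0 G)] M0 G) (p : Finset ℕ) : k :=
  if h : p.Nonempty ∧ p.card ≠ 2 then
    chi G (p.max' h.1)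
      ((T (DirectSum.of (fun n => EE G n) (p.min' h.1) (pstar G (p.min' h.1) (p.max' h.1) p)))
        (p.max' h.1))
  else 0

/-- Well founded support. -/
def WFS {k : Type} [Field k] (A : Finset ℕ → k) : Prop :=
  ∀ H : ℕ → ℕ, StrictMono H → ∃ J : ℕ, ∀ p : Finset ℕ,
    p.filter (· ≤ H J) = (Finset.range (J + 1)).image H → A p = 0

/-- Coefficients of endomorphisms. -/
def Stmt_Coef : Prop :=
  ∀ (k : Type) [Field k] (G : GenSys k Z0 (Option Q0.Arr)),
    (∀ T : M0 G →ₗ[↥(R0 G)] M0 G, WFS (coef G T)) ∧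
    (∀ S T : M0 G →ₗ[↥(R0 G)] M0 G, ∀ p : Finset ℕ, p.Nonempty →
      coef G (S ∘ₗ T) p = ∑ x ∈ p, coef G T (p.filter (· ≤ x)) * coef G S (p.filter (x ≤ ·)))

/-- The endomorphisms `T_j`. -/
def Stmt_Tau : Prop :=
  ∀ (k : Type) [Field k] (G : GenSys k Z0 (Option Q0.Arr)),
    ∃ τ : ℕ → (M0 G →ₗ[↥(R0 G)] M0 G), τ 0 = LinearMap.id ∧
      (∀ i j, i ≠ 1 → j ≠ 1 → τ i ∘ₗ τ j = τ (i + j)) ∧
      (∀ j, 2 ≤ j → ∀ m, τ j (DirectSum.of (fun n => EE G n) m (soc G m)) = 0) ∧
      (∀ j, j ≠ 1 → ∀ p : Finset ℕ, p.Nonempty →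
        coef G (τ j) p = if p.card = j + 1 then 1 else 0)

/-! ## 6. Abstract decomposition lemma and the combinatorial contradiction -/

/-- If `range e` is a direct sum of indecomposables then it is isomorphic to `⨁ E_n`. -/
def Stmt_Decomp : Prop :=
  ∀ (k : Type) [Field k] (R : Type) [Ring R] [Algebra k R] (E : ℕ → Type)
    [∀ n, AddCommGroup (E n)] [∀ n, Module R (E n)] (s : ∀ n, E n)
    (e : (⨁ i : ℕ × Bool, E i.1) →ₗ[R] (⨁ i : ℕ × Bool, E i.1)),
    (∀ n, Module.Injective R (E n)) → (∀ n, s n ≠ 0) →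
    (∀ n (y : E n), y ≠ 0 → ∃ r : R, r • y = s n) →
    e ∘ₗ e = e →
    (∀ (T : (⨁ i : ℕ × Bool, E i.1) →ₗ[R] (⨁ i : ℕ × Bool, E i.1)) (m : ℕ), ∃ κ : k,
      e (T (DirectSum.of (fun i : ℕ × Bool => E i.1) (m, false) (s m))) =
        algebraMap k R κ • DirectSum.of (fun i : ℕ × Bool => E i.1) (m, false) (s m)) →
    (∀ y ∈ LinearMap.range e, y ≠ 0 → ∃ (r : R) (m : ℕ),
      r • y = DirectSum.of (fun i : ℕ × Bool => E i.1) (m, false) (s m)) →
    (∀ m, e (DirectSum.of (fun i : ℕ × Bool => E i.1) (m, false) (s m)) =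
      DirectSum.of (fun i : ℕ × Bool => E i.1) (m, false) (s m)) →
    (∀ m m' (T : (⨁ i : ℕ × Bool, E i.1) →ₗ[R] E m), m ≠ m' →
      T (DirectSum.of (fun i : ℕ × Bool => E i.1) (m', false) (s m')) = 0) →
    (∃ (κ : Type) (F : κ → Submodule R (⨁ i : ℕ × Bool, E i.1)),
      iSupIndep F ∧ (⨆ j, F j) = LinearMap.range e ∧
      ∀ j, Nontrivial ↥(F j) ∧
        ∀ A B : Submodule R ↥(F j), IsCompl A B → A = ⊥ ∨ B = ⊥) →
    ∃ (g : (⨁ n, E n) →ₗ[R] (⨁ i : ℕ × Bool, E i.1))
      (h : (⨁ i : ℕ × Bool, E i.1) →ₗ[R] (⨁ n, E n)),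
      h ∘ₗ g = LinearMap.id ∧ g ∘ₗ h = e

/-- Entries of the idempotent as functions of the path length. -/
def eent (k : Type) [Field k] : Bool → Bool → ℕ → k
  | false, false, l => (if l = 0 then 1 else 0) - (if l = 4 then 1 else 0)
  | false, true, l => if l = 2 ∨ l = 3 ∨ l = 4 ∨ l = 5 then 1 else 0
  | true, false, l => (if l = 2 then 1 else 0) - (if l = 3 then 1 else 0)
  | true, true, l => if l = 4 then 1 else 0

/-- The combinatorial contradiction. -/
def Stmt_Comb : Prop :=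
  ∀ (k : Type) [Field k] (G H : Bool → Finset ℕ → k),
    (∀ b, WFS (G b)) → (∀ b, WFS (H b)) →
    (∀ b p, p.card = 2 → G b p = 0 ∧ H b p = 0) →
    (∀ p : Finset ℕ, p.Nonempty →
      ∑ b : Bool, ∑ x ∈ p, G b (p.filter (· ≤ x)) * H b (p.filter (x ≤ ·)) =
        if p.card = 1 then 1 else 0) →
    (∀ (b b' : Bool) (p : Finset ℕ), p.Nonempty →
      ∑ x ∈ p, H b' (p.filter (· ≤ x)) * G b (p.filter (x ≤ ·)) = eent k b b' (p.card - 1)) →
    False

end Pool.Agent.Matlis
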