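import Pool.Agent.Matlis.Defs

/-!
# Matlis' problem (MP_504466_al): tools and statements for the concrete category
-/

set_option autoImplicit false

open scoped TensorProduct DirectSum
open Module

namespace Pool.Agent.Matlis

section FF

variable {k : Type} [Field k] {Z : Type} {M : Z → Type} [∀ z, AddCommGroup (M z)]
    [∀ z, Module k (M z)]

lemma FinFam.sup {U U' : ∀ z, Submodule k (M z)} (h : FinFam U) (h' : FinFam U') :
    FinFam (fun z => U z ⊔ U' z) := by
  refine ⟨(h.1.union h'.1).subset ?_, fun z => (h.2 z).sup (h'.2 z)⟩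
  intro z hz
  by_contra hc
  simp only [Set.mem_union, Set.mem_ofPred_eq, not_or, not_not] at hc
  apply hz
  simp [hc.1, hc.2]

lemma FinFam.mono {U U' : ∀ z, Submodule k (M z)} (h : FinFam U) (h' : ∀ z, U' z ≤ U z) :
    FinFam U' := by
  refine ⟨h.1.subset ?_, fun z => ?_⟩
  · intro z hz hc
    exact hz (le_bot_iff.1 (hc ▸ h' z))
  · haveI : FiniteDimensional k (U z) := Module.finite_def.2 ((Submodule.fg_top _).2 (h.2 z))
    exact (Submodule.fg_iff_finiteDimensional _).2 (Submodule.finiteDimensional_of_le (h' z))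

lemma FinFam.bot : FinFam (fun z => (⊥ : Submodule k (M z))) :=
  ⟨by simp, fun _ => Submodule.fg_bot⟩

open Classical in
/-- The family which is `W` at `z` and zero elsewhere. -/
noncomputable def famAt (z : Z) (W : Submodule k (M z)) : ∀ z', Submodule k (M z') :=
  Function.update (fun _ => ⊥) z W

lemma famAt_same (z : Z) (W : Submodule k (M z)) : famAt z W z = W := by
  simp [famAt]

lemma famAt_ne {z z' : Z} (h : z' ≠ z) (W : Submodule k (M z)) : famAt z W z' = ⊥ := by
  simp [famAt, h]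

lemma FinFam.at (z : Z) {W : Submodule k (M z)} (h : W.FG) : FinFam (famAt z W) := by
  refine ⟨(Set.finite_singleton z).subset ?_, fun z' => ?_⟩
  · intro z' hz'
    by_contra hc
    exact hz' (famAt_ne hc W)
  · by_cases hz : z' = z
    · subst hz; rw [famAt_same]; exact h
    · rw [famAt_ne hz]; exact Submodule.fg_bot

lemma FinFam.finset {ι : Type} (s : Finset ι) {U : ι → ∀ z, Submodule k (M z)}
    (h : ∀ i ∈ s, FinFam (U i)) : FinFam (fun z => ⨆ i ∈ s, U i z) := by
  classical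
  induction s using Finset.induction_on with
  | empty => simpa using FinFam.bot
  | insert i s hi ih =>
    have := (h i (Finset.mem_insert_self i s)).sup
      (ih (fun j hj => h j (Finset.mem_insert_of_mem hj)))
    refine this.mono (fun z => ?_)
    rw [Finset.iSup_insert]

end FF

section Tools

variable {k : Type} [Field k] {Z : Type} {Q : Quiv Z}

/-- Morphisms of representations. -/
structure RepHom (N N' : Rep k Q) where
  f : ∀ z, N.N z →ₗ[k] N'.N z
  nat : ∀ (a : Q.Arr) (n : N.N (Q.src a)), f (Q.tgt a) (N.map a n) = N'.map a (f (Q.src a) n)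

variable [DecidableEq Z]

/-- The map of hat modules induced by a morphism of representations. -/
noncomputable def Hmap (G : GenSys k Z (Option Q.Arr)) {N N' : Rep k Q} (φ : RepHom N N') :
    Hat G N →ₗ[k] Hat G N' :=
  DirectSum.lmap (fun z => LinearMap.rTensor (G.V z) (φ.f z))

@[simp] lemma Hmap_hι (G : GenSys k Z (Option Q.Arr)) {N N' : Rep k Q} (φ : RepHom N N') (z : Z)
    (n : N.N z) (v : G.V z) :
    Hmap G φ (hι G N z (n ⊗ₜ[k] v)) = hι G N' z (φ.f z n ⊗ₜ[k] v) := by
  exact (DirectSum.lmap_lof (R := k) (f := fun z => LinearMap.rTensor (G.V z) (φ.f z)) z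
    (n ⊗ₜ[k] v)).trans (congrArg (hι G N' z) (LinearMap.rTensor_tmul (G.V z) (φ.f z) v n))

lemma xhat_hι_tmul (G : GenSys k Z (Option Q.Arr)) (N : Rep k Q) (t : G.X) (z : Z)
    (n : N.N z) (v : G.V z) :
    xhat G N t (hι G N z (n ⊗ₜ[k] v)) =
      hι G N z (n ⊗ₜ[k] (G.x z t v)) + pert G N (G.lab t) (hι G N z (n ⊗ₜ[k] v)) := by
  simp [xhat]

lemma Hmap_xhat (G : GenSys k Z (Option Q.Arr)) {N N' : Rep k Q} (φ : RepHom N N') (t : G.X)
    (y : Hat G N) : Hmap G φ (xhat G N t y) = xhat G N' t (Hmap G φ y) := by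
  induction y using hat_induction G N with
  | h0 => simp
  | hadd y y' hy hy' => simp [hy, hy']
  | h z n v =>
    rw [xhat_hι_tmul, Hmap_hι, map_add, Hmap_hι, xhat_hι_tmul]
    congr 1
    generalize G.lab t = l
    rcases l with _ | a
    · simp [pert]
    · by_cases hz : z = Q.src a
      · subst hz
        rw [pert_some_same, pert_some_same, Hmap_hι, φ.nat]
      · rw [pert_some_ne G N a hz, pert_some_ne G N' a hz, map_zero]

/-- Contraction of the component `z` with a functional on `V z`. -/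
noncomputable def ctr (G : GenSys k Z (Option Q.Arr)) (N : Rep k Q) (z : Z)
    (lam : G.V z →ₗ[k] k) : Hat G N →ₗ[k] N.N z :=
  (TensorProduct.rid k (N.N z)).toLinearMap ∘ₗ (LinearMap.lTensor (N.N z) lam) ∘ₗ hπ G N z

@[simp] lemma ctr_hι_same (G : GenSys k Z (Option Q.Arr)) (N : Rep k Q) (z : Z)
    (lam : G.V z →ₗ[k] k) (n : N.N z) (v : G.V z) :
    ctr G N z lam (hι G N z (n ⊗ₜ[k] v)) = lam v • n := by
  simp [ctr]

lemma ctr_hι_ne (G : GenSys k Z (Option Q.Arr)) (N : Rep k Q) {z z' : Z} (h : z ≠ z')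
    (lam : G.V z' →ₗ[k] k) (y : N.N z ⊗[k] G.V z) :
    ctr G N z' lam (hι G N z y) = 0 := by
  simp [ctr, hπ_hι_ne G N h]

lemma ctr_Hmap (G : GenSys k Z (Option Q.Arr)) {N N' : Rep k Q} (φ : RepHom N N') (z : Z)
    (lam : G.V z →ₗ[k] k) (y : Hat G N) :
    ctr G N' z lam (Hmap G φ y) = φ.f z (ctr G N z lam y) := by
  induction y using hat_induction G N with
  | h0 => simp
  | hadd y y' hy hy' => simp [hy, hy']
  | h z' n v =>
    by_cases hz : z' = z
    · subst hz; simp
    · rw [Hmap_hι, ctr_hι_ne G N' hz, ctr_hι_ne G N hz, map_zero]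

/-- An element of `N ⊗ V` killed by all contractions is zero. -/
lemma tensor_eq_zero_of_contractions {N V : Type} [AddCommGroup N] [Module k N]
    [AddCommGroup V] [Module k V] (y : N ⊗[k] V)
    (h : ∀ lam : V →ₗ[k] k, (TensorProduct.rid k N) (LinearMap.lTensor N lam y) = 0) :
    y = 0 := by
  classical
  let B := Basis.ofVectorSpace k V
  have key : ∀ (i) (y : N ⊗[k] V), (TensorProduct.equivFinsuppOfBasisRight (M := N) B y) i =
      (TensorProduct.rid k N) (LinearMap.lTensor N (B.coord i) y) := by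
    intro i y
    induction y using TensorProduct.induction_on with
    | zero => simp
    | tmul n v => simp
    | add a b ha hb => rw [map_add, map_add, map_add, Finsupp.add_apply, ha, hb]
  have : TensorProduct.equivFinsuppOfBasisRight (M := N) B y = 0 := by
    ext i
    rw [key, h (B.coord i)]; rfl
  exact (LinearEquiv.map_eq_zero_iff _).1 this

/-- Nonzero elements have a nonzero contraction. -/
lemma exists_ctr_ne_zero (G : GenSys k Z (Option Q.Arr)) (N : Rep k Q) (y : Hat G N)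
    (h : y ≠ 0) : ∃ (z : Z) (lam : G.V z →ₗ[k] k), ctr G N z lam y ≠ 0 := by
  by_contra hc
  push Not at hc
  apply h
  refine hat_ext G N ?_
  intro z
  rw [map_zero]
  exact tensor_eq_zero_of_contractions _ (fun lam => hc z lam)

lemma HatU_mono (G : GenSys k Z (Option Q.Arr)) (N : Rep k Q) {U U' : ∀ z, Submodule k (G.V z)}
    (h : ∀ z, U z ≤ U' z) : HatU G N U ≤ HatU G N U' := by
  refine Submodule.span_mono ?_
  rintro y ⟨z, n, u, hu, rfl⟩
  exact ⟨z, n, u, h z hu, rfl⟩

lemma hι_mem_HatU (G : GenSys k Z (Option Q.Arr)) (N : Rep k Q) (U : ∀ z, Submodule k (G.V z))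
    {z : Z} (n : N.N z) {u : G.V z} (hu : u ∈ U z) : hι G N z (n ⊗ₜ[k] u) ∈ HatU G N U :=
  Submodule.subset_span ⟨z, n, u, hu, rfl⟩

/-- Two linear maps which agree on the generators of `HatU` agree on `HatU`. -/
lemma HatU_eqOn {M : Type} [AddCommGroup M] [Module k M] (G : GenSys k Z (Option Q.Arr))
    (N : Rep k Q) (U : ∀ z, Submodule k (G.V z)) {f g : Hat G N →ₗ[k] M}
    (h : ∀ z (n : N.N z), ∀ u ∈ U z, f (hι G N z (n ⊗ₜ[k] u)) = g (hι G N z (n ⊗ₜ[k] u))) :
    ∀ y ∈ HatU G N U, f y = g y := by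
  intro y hy
  refine Submodule.span_induction (p := fun y _ => f y = g y) ?_ (by simp) ?_ ?_ hy
  · rintro y ⟨z, n, u, hu, rfl⟩; exact h z n u hu
  · intro a b _ _ ha hb; rw [map_add, map_add, ha, hb]
  · intro c a _ ha; rw [map_smul, map_smul, ha]

/-- Every element lies in some `HatU` for a finite family. -/
lemma exists_HatU (G : GenSys k Z (Option Q.Arr)) (N : Rep k Q) (y : Hat G N) :
    ∃ U : ∀ z, Submodule k (G.V z), FinFam U ∧ y ∈ HatU G N U := by
  induction y using hat_induction G N with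
  | h0 => exact ⟨_, FinFam.bot, Submodule.zero_mem _⟩
  | hadd y y' hy hy' =>
    obtain ⟨U, hU, hyU⟩ := hy
    obtain ⟨U', hU', hyU'⟩ := hy'
    exact ⟨_, hU.sup hU', Submodule.add_mem _
      (HatU_mono G N (fun z => le_sup_left) hyU) (HatU_mono G N (fun z => le_sup_right) hyU')⟩
  | h z n v =>
    refine ⟨famAt z (Submodule.span k {v}), FinFam.at z (Submodule.fg_span_singleton v), ?_⟩
    refine hι_mem_HatU G N _ n ?_
    rw [famAt_same]
    exact Submodule.mem_span_singleton_self v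

end Tools

/-! ## The concrete category -/

section Cat

variable {k : Type} [Field k]

/-- Action of an admissible set `c : z → n` (identities included). -/
noncomputable def actc (N : Rep k Q0) (z : Z0) (n : ℕ) (c : Finset ℕ) (hc : Adm z n c) :
    N.N z →ₗ[k] N.N (Z0.nat n) :=
  if h : z = Z0.nat n then
    Eq.rec (motive := fun z' _ => N.N z →ₗ[k] N.N z') LinearMap.id h
  else N.map (⟨z, n, c, hc, h⟩ : Arr0)

lemma actc_self (N : Rep k Q0) (n : ℕ) (c : Finset ℕ) (hc : Adm (Z0.nat n) n c) :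
    actc N (Z0.nat n) n c hc = LinearMap.id := by
  simp [actc]

lemma actc_ne (N : Rep k Q0) (z : Z0) (n : ℕ) (c : Finset ℕ) (hc : Adm z n c)
    (h : z ≠ Z0.nat n) : actc N z n c hc = N.map (⟨z, n, c, hc, h⟩ : Arr0) :=
  dif_neg h

lemma map_eq_actc (N : Rep k Q0) (a : Arr0) :
    N.map a = actc N a.s a.t a.q a.adm := by
  rw [actc_ne N a.s a.t a.q a.adm a.ne]

lemma adm_self {n : ℕ} {c : Finset ℕ} (hc : Adm (Z0.nat n) n c) : c = {n} := by
  ext x
  constructor
  · intro hx
    have := hc.2.2.1 x hx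
    simp; omega
  · intro hx
    rw [Finset.mem_singleton] at hx
    rw [hx]; exact hc.1

lemma adm_singleton (n : ℕ) : Adm (Z0.nat n) n {n} := by simp [Adm]

lemma adm_fn_singleton (φ : ℕ → ℕ) (n : ℕ) : Adm (Z0.fn φ) n {n} := by
  refine ⟨by simp, by simp, ?_⟩
  intro x hx y hy hxy
  simp at hx hy
  omega

/-- `n ∈ s` and `n ≤ x` for all `x ∈ s`. -/
lemma Adm.mem {z : Z0} {n : ℕ} {s : Finset ℕ} (h : Adm z n s) : n ∈ s := by
  rcases z with m | φ
  · exact h.1
  · exact h.1

lemma Adm.le {z : Z0} {n : ℕ} {s : Finset ℕ} (h : Adm z n s) : ∀ x ∈ s, n ≤ x := by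
  rcases z with m | φ
  · exact fun x hx => (h.2.2.1 x hx).1
  · exact h.2.1

/-- Union of composable admissible sets from a number. -/
lemma Adm.union_nat {m l n : ℕ} {p q : Finset ℕ} (hp : Adm (Z0.nat m) l p)
    (hq : Adm (Z0.nat l) n q) : Adm (Z0.nat m) n (q ∪ p) := by
  have hlm : l ≤ m := (hp.2.2.1 m hp.2.1).1
  have hnl : n ≤ l := (hq.2.2.1 l hq.2.1).1
  refine ⟨Finset.mem_union_left _ hq.1, Finset.mem_union_right _ hp.2.1, ?_, ?_⟩
  · intro x hx
    rcases Finset.mem_union.1 hx with hx | hx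
    · have := hq.2.2.1 x hx; omega
    · have := hp.2.2.1 x hx; omega
  · rcases eq_or_ne l m with rfl | h1
    · rw [adm_self hp, Finset.union_eq_left.2 (by simpa using hq.2.1)]
      exact hq.2.2.2
    · have h2 := Finset.card_le_card (Finset.subset_union_right (s₁ := q) (s₂ := p))
      have h3 : 1 < p.card := Finset.one_lt_card.2 ⟨l, hp.1, m, hp.2.1, h1⟩
      have h4 := hp.2.2.2
      omega

/-- Union of composable admissible sets from a function: `q ∪ p` is admissible iff `q` is `φ`-bounded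
(given that `p` is admissible). -/
lemma adm_union_fn {φ : ℕ → ℕ} {l n : ℕ} {p q : Finset ℕ} (hp : Adm (Z0.fn φ) l p)
    (hq : Adm (Z0.nat l) n q) : Adm (Z0.fn φ) n (q ∪ p) ↔ Bdd φ q := by
  constructor
  · rintro ⟨_, _, hB⟩ x hx y hy hxy
    obtain ⟨y', hy', h1, h2⟩ := hB x (Finset.mem_union_left _ hx) y (Finset.mem_union_left _ hy) hxy
    rcases Finset.mem_union.1 hy' with h3 | h3
    · exact ⟨y', h3, h1, h2⟩
    · refine ⟨l, hq.2.1, ?_, ?_⟩
      · have := (hq.2.2.1 y hy).2; omega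
      · have := hp.2.1 y' h3; omega
  · intro hB
    refine ⟨Finset.mem_union_left _ hq.1, ?_, ?_⟩
    · intro x hx
      rcases Finset.mem_union.1 hx with hx | hx
      · exact (hq.2.2.1 x hx).1
      · have := hp.2.1 x hx
        have := (hq.2.2.1 l hq.2.1).1
        omega
    · intro x hx y hy hxy
      have key : x ∈ q → x < l → ∃ y' ∈ q ∪ p, x < y' ∧ y' ≤ φ x := by
        intro hxq hxl
        obtain ⟨y', h1, h2, h3⟩ := hB x hxq l hq.2.1 hxl
        exact ⟨y', Finset.mem_union_left _ h1, h2, h3⟩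
      have key2 : x ∈ p → y ∈ p → ∃ y' ∈ q ∪ p, x < y' ∧ y' ≤ φ x := by
        intro hxp hyp
        obtain ⟨y', h1, h2, h3⟩ := hp.2.2 x hxp y hyp hxy
        exact ⟨y', Finset.mem_union_right _ h1, h2, h3⟩
      rcases Finset.mem_union.1 hx with hxq | hxp
      · rcases lt_or_ge x l with h | h
        · exact key hxq h
        · have : x = l := le_antisymm (hq.2.2.1 x hxq).2 h
          subst this
          refine key2 hp.1 ?_
          rcases Finset.mem_union.1 hy with hyq | hyp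
          · have := (hq.2.2.1 y hyq).2; omega
          · exact hyp
      · refine key2 hxp ?_
        rcases Finset.mem_union.1 hy with hyq | hyp
        · have := (hq.2.2.1 y hyq).2
          have := hp.2.1 x hxp
          omega
        · exact hyp

/-- Associativity of admissibility. -/
lemma adm_assoc {z : Z0} {m l n : ℕ} {p q r : Finset ℕ} (hp : Adm z m p)
    (hq : Adm (Z0.nat m) l q) (hr : Adm (Z0.nat l) n r) :
    Adm z n (r ∪ (q ∪ p)) ↔ (Adm z l (q ∪ p) ∧ Adm z n (r ∪ (q ∪ p))) := by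
  constructor
  · intro h
    refine ⟨?_, h⟩
    rcases z with m' | φ
    · exact Adm.union_nat hp hq
    · rw [adm_union_fn hp hq]
      rw [← Finset.union_assoc] at h
      have h2 := (adm_union_fn hp (Adm.union_nat hq hr)).1 h
      intro x hx y hy hxy
      obtain ⟨y', h3, h4, h5⟩ := h2 x (Finset.mem_union_right _ hx) y
        (Finset.mem_union_right _ hy) hxy
      rcases Finset.mem_union.1 h3 with h6 | h6
      · have := (hr.2.2.1 y' h6).2
        have := (hq.2.2.1 x hx).1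
        omega
      · exact ⟨y', h6, h4, h5⟩
  · exact fun h => h.2

/-- The action of admissible sets on `I_n`. -/
lemma actc_Irep (n' : ℕ) (z : Z0) (n : ℕ) (c : Finset ℕ) (hc : Adm z n c)
    (f : (Irep k n').N z) (p : {s : Finset ℕ // Adm (Z0.nat n) n' s}) :
    (show {s : Finset ℕ // Adm (Z0.nat n) n' s} → k from actc (Irep k n') z n c hc f) p =
      (open Classical in if h : Adm z n' (p.1 ∪ c) then
        (show {s : Finset ℕ // Adm z n' s} → k from f) ⟨p.1 ∪ c, h⟩ else 0) := by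
  classical
  by_cases hz : z = Z0.nat n
  · subst hz
    have hcc := adm_self hc
    have h1 : p.1 ∪ c = p.1 := by
      rw [hcc]; exact Finset.union_eq_left.2 (by simpa using p.2.2.1)
    rw [actc_self]
    have h2 : Adm (Z0.nat n) n' (p.1 ∪ c) := h1.symm ▸ p.2
    rw [dif_pos h2]
    show (show {s : Finset ℕ // Adm (Z0.nat n) n' s} → k from f) p = _
    congr 1
    exact Subtype.ext h1.symm
  · rw [actc_ne _ _ _ _ _ hz]
    change (if h : Adm z n' (p.1 ∪ c) then
        (LinearMap.proj (R := k) (φ := fun _ : {s : Finset ℕ // Adm z n' s} => k)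
          ⟨p.1 ∪ c, h⟩) else (0 : ({s : Finset ℕ // Adm z n' s} → k) →ₗ[k] k)) f = _
    split_ifs with h
    · rfl
    · rfl

/-- The identity arrow. -/
def idArr : (z : Z0) → HomT z z
  | Z0.nat n => ⟨{n}, adm_singleton n⟩
  | Z0.fn _ => ⟨rfl⟩

/-- Functoriality of a representation of `Q0`. -/
def Fct (N : Rep k Q0) : Prop :=
  ∀ (z : Z0) (m : ℕ) (p : Finset ℕ) (hp : Adm z m p) (n : ℕ) (q : Finset ℕ)
    (hq : Adm (Z0.nat m) n q) (x : N.N z),
    actc N (Z0.nat m) n q hq (actc N z m p hp x) =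
      open Classical in if h : Adm z n (q ∪ p) then actc N z n (q ∪ p) h x else 0

/-- Value of an element of `I_n(z)` at a finite set (`0` if the set is not admissible). -/
noncomputable def iv {n : ℕ} {z : Z0} (s : Finset ℕ) : (Irep k n).N z →ₗ[k] k :=
  open Classical in
  if h : Adm z n s then
    LinearMap.proj (R := k) (φ := fun _ : {s : Finset ℕ // Adm z n s} => k) ⟨s, h⟩
  else 0

/-- The element of `I_n(z)` given by a function on finite sets. -/
def ifun {n : ℕ} {z : Z0} (g : Finset ℕ → k) : (Irep k n).N z :=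
  fun s : {s : Finset ℕ // Adm z n s} => g s.1

lemma iv_not_adm {n : ℕ} {z : Z0} {s : Finset ℕ} (h : ¬ Adm z n s) (f : (Irep k n).N z) :
    iv s f = 0 :=
  LinearMap.congr_fun (dif_neg h : (iv s : (Irep k n).N z →ₗ[k] k) = 0) f

/-- Values of elements of `I_n(z)`. -/
def ival {n : ℕ} {z : Z0} (f : (Irep k n).N z) : {s : Finset ℕ // Adm z n s} → k := f

lemma iv_adm {n : ℕ} {z : Z0} {s : Finset ℕ} (h : Adm z n s) (f : (Irep k n).N z) :
    iv s f = ival f ⟨s, h⟩ :=
  LinearMap.congr_fun (dif_pos h : (iv s : (Irep k n).N z →ₗ[k] k) = 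
    LinearMap.proj (R := k) (φ := fun _ : {s : Finset ℕ // Adm z n s} => k) ⟨s, h⟩) f

open Classical in
lemma iv_ifun {n : ℕ} {z : Z0} (s : Finset ℕ) (g : Finset ℕ → k) :
    iv s (ifun g : (Irep k n).N z) = if Adm z n s then g s else 0 := by
  by_cases h : Adm z n s
  · rw [iv_adm h, if_pos h]; rfl
  · rw [iv_not_adm h, if_neg h]

lemma iv_ext {n : ℕ} {z : Z0} {f g : (Irep k n).N z} (h : ∀ s, Adm z n s → iv s f = iv s g) :
    f = g := by
  refine funext (α := {s : Finset ℕ // Adm z n s}) (β := fun _ => k) ?_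
  rintro ⟨s, hs⟩
  have := h s hs
  rw [iv_adm hs, iv_adm hs] at this
  exact this

open Classical in
lemma iv_actc (n' : ℕ) (z : Z0) (n : ℕ) (c : Finset ℕ) (hc : Adm z n c)
    (f : (Irep k n').N z) (s : Finset ℕ) :
    iv s (actc (Irep k n') z n c hc f) = if Adm (Z0.nat n) n' s then iv (s ∪ c) f else 0 := by
  by_cases h : Adm (Z0.nat n) n' s
  · rw [if_pos h, iv_adm h]
    refine (actc_Irep n' z n c hc f ⟨s, h⟩).trans ?_
    by_cases h2 : Adm z n' (s ∪ c)
    · rw [dif_pos h2, iv_adm h2]; rfl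
    · rw [dif_neg h2, iv_not_adm h2]
  · rw [if_neg h, iv_not_adm h]

lemma fct_Irep (n' : ℕ) : Fct (Irep k n') := by
  classical
  intro z m p hp n q hq x
  refine iv_ext (n := n') (z := Z0.nat n) ?_
  intro s hs
  rw [iv_actc, if_pos hs, iv_actc, if_pos (Adm.union_nat hq hs)]
  by_cases h : Adm z n (q ∪ p)
  · rw [dif_pos h, iv_actc, if_pos hs, Finset.union_assoc]
  · rw [dif_neg h, map_zero, Finset.union_assoc]
    refine iv_not_adm ?_ x
    intro h2
    exact h ((adm_assoc hp hq hs).1 h2).1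

/-- The basis element of `P_w(z)` given by an arrow. -/
noncomputable def ps {w z : Z0} (p : HomT w z) : (Prep k w).N z :=
  (Finsupp.single p (1 : k) : HomT w z →₀ k)

/-- `(Prep k w).map a` with explicit types. -/
noncomputable def prepMap (w : Z0) (a : Arr0) :
    (HomT w a.s →₀ k) →ₗ[k] (HomT w (Z0.nat a.t) →₀ k) :=
  Finsupp.lsum k (fun p : HomT w a.s =>
    (match compo w a.s a.t a.q a.adm p with
    | none => 0
    | some s => Finsupp.lsingle (M := k) (R := k) (α := HomT w (Z0.nat a.t)) s :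
      k →ₗ[k] (HomT w (Z0.nat a.t) →₀ k)))

lemma prepMap_eq (w : Z0) (a : Arr0) :
    (prepMap w a : (HomT w a.s →₀ k) →ₗ[k] (HomT w (Z0.nat a.t) →₀ k)) = (Prep k w).map a := rfl

lemma prepMap_some {w : Z0} (a : Arr0) {p : HomT w a.s} {s : HomT w (Z0.nat a.t)}
    (h : compo w a.s a.t a.q a.adm p = some s) :
    prepMap (k := k) w a (Finsupp.single p 1) = Finsupp.single s 1 := by
  rw [prepMap, Finsupp.lsum_single, h]
  rfl

lemma prepMap_none {w : Z0} (a : Arr0) {p : HomT w a.s}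
    (h : compo w a.s a.t a.q a.adm p = none) :
    prepMap (k := k) w a (Finsupp.single p 1) = 0 := by
  rw [prepMap, Finsupp.lsum_single, h]
  rfl

lemma map_ps_some {w : Z0} (a : Arr0) {p : HomT w a.s} {s : HomT w (Z0.nat a.t)}
    (h : compo w a.s a.t a.q a.adm p = some s) :
    ((Prep k w).map a : (Prep k w).N a.s →ₗ[k] (Prep k w).N (Z0.nat a.t)) (ps p) = ps s :=
  prepMap_some a h

lemma map_ps_none {w : Z0} (a : Arr0) {p : HomT w a.s}
    (h : compo w a.s a.t a.q a.adm p = none) :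
    ((Prep k w).map a : (Prep k w).N a.s →ₗ[k] (Prep k w).N (Z0.nat a.t)) (ps p) = 0 :=
  prepMap_none a h

open Classical in
/-- The basis element of `P_w(n)` given by a finite set (`0` if not admissible). -/
noncomputable def pb {w : Z0} {n : ℕ} (s : Finset ℕ) : (Prep k w).N (Z0.nat n) :=
  if h : Adm w n s then ps (⟨s, h⟩ : {s : Finset ℕ // Adm w n s}) else 0

/-- The identity element of `P_w(w)`. -/
noncomputable def pid (w : Z0) : (Prep k w).N w := ps (idArr w)

lemma pb_adm {w : Z0} {n : ℕ} {s : Finset ℕ} (h : Adm w n s) :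
    (pb s : (Prep k w).N (Z0.nat n)) = ps (⟨s, h⟩ : {s : Finset ℕ // Adm w n s}) :=
  dif_pos h

lemma pb_not_adm {w : Z0} {n : ℕ} {s : Finset ℕ} (h : ¬ Adm w n s) :
    (pb s : (Prep k w).N (Z0.nat n)) = 0 :=
  dif_neg h

lemma pid_nat (n : ℕ) : (pid (Z0.nat n) : (Prep k (Z0.nat n)).N (Z0.nat n)) = pb {n} := by
  rw [pb_adm (adm_singleton n)]; rfl

/-- The action on basis elements. -/
lemma actc_pb (w : Z0) (l n : ℕ) (c : Finset ℕ) (hc : Adm (Z0.nat l) n c) (s : Finset ℕ)
    (hs : Adm w l s) :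
    actc (Prep k w) (Z0.nat l) n c hc (pb s) = pb (c ∪ s) := by
  classical
  by_cases hz : Z0.nat l = Z0.nat n
  · have hln : l = n := by injection hz
    subst hln
    rw [actc_self]
    have : c ∪ s = s := by
      rw [adm_self hc]; exact Finset.union_eq_right.2 (by simpa using hs.mem)
    rw [this]; rfl
  · rw [actc_ne _ _ _ _ _ hz, pb_adm hs]
    by_cases h : Adm w n (c ∪ s)
    · rw [pb_adm h]
      exact map_ps_some (⟨Z0.nat l, n, c, hc, hz⟩ : Arr0) (dif_pos h)
    · rw [pb_not_adm h]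
      exact map_ps_none (⟨Z0.nat l, n, c, hc, hz⟩ : Arr0) (dif_neg h)

lemma actc_pid (w : Z0) (n : ℕ) (c : Finset ℕ) (hc : Adm w n c) :
    actc (Prep k w) w n c hc (pid w) = pb c := by
  rcases w with m | φ
  · rw [pid_nat, actc_pb (Z0.nat m) m n c hc {m} (adm_singleton m)]
    congr 1
    exact Finset.union_eq_left.2 (by simpa using hc.2.1)
  · have hz : Z0.fn φ ≠ Z0.nat n := by intro h; cases h
    rw [actc_ne _ _ _ _ _ hz, pb_adm hc]
    exact map_ps_some (⟨Z0.fn φ, n, c, hc, hz⟩ : Arr0) rfl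

/-- Induction for `P_w(z)`. -/
lemma prep_induction (w : Z0) {z : Z0} {pr : (Prep k w).N z → Prop} (h0 : pr 0)
    (hadd : ∀ x y, pr x → pr y → pr (x + y))
    (hs : ∀ (κ : k) (p : HomT w z), pr (κ • ps p))
    (x : (Prep k w).N z) : pr x := by
  refine Finsupp.induction_linear (motive := fun x => pr x) (show HomT w z →₀ k from x) h0
    (fun x y hx hy => hadd x y hx hy) ?_
  intro p κ
  have e : (Finsupp.single p κ : HomT w z →₀ k) = κ • (Finsupp.single p (1 : k)) := by
    rw [Finsupp.smul_single, smul_eq_mul, mul_one]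
  rw [e]
  exact hs κ p

lemma ps_eq_pb {w : Z0} {n : ℕ} (p : HomT w (Z0.nat n)) :
    (ps p : (Prep k w).N (Z0.nat n)) = pb p.1 := by
  rw [pb_adm p.2]
  rfl

lemma fct_Prep (w : Z0) : Fct (Prep k w) := by
  classical
  intro z m p hp n q hq x
  have hlin : ∀ x : (Prep k w).N z, (if h : Adm z n (q ∪ p) then
      actc (Prep k w) z n (q ∪ p) h x else 0) =
      (if h : Adm z n (q ∪ p) then actc (Prep k w) z n (q ∪ p) h else 0) x := by
    intro x; split_ifs <;> rfl
  rw [hlin]
  induction x using prep_induction w with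
  | h0 => simp
  | hadd x y hx hy => simp only [map_add, hx, hy]
  | hs κ s =>
    rw [map_smul, map_smul, map_smul]
    congr 1
    rcases z with l | φ
    · rw [ps_eq_pb, actc_pb w l m p hp s.1 s.2, dif_pos (Adm.union_nat hp hq),
        actc_pb w l n (q ∪ p) _ s.1 s.2]
      by_cases h1 : Adm w m (p ∪ s.1)
      · rw [actc_pb w m n q hq _ h1, Finset.union_assoc]
      · rw [pb_not_adm h1, map_zero, pb_not_adm]
        intro h2
        rw [Finset.union_assoc] at h2
        exact h1 ((adm_assoc s.2 hp hq).1 h2).1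
    · obtain ⟨hw⟩ := s
      subst hw
      have e1 : (ps (⟨rfl⟩ : HomT (Z0.fn φ) (Z0.fn φ)) : (Prep k (Z0.fn φ)).N (Z0.fn φ)) =
        pid (Z0.fn φ) := rfl
      rw [e1, actc_pid (Z0.fn φ) m p hp, actc_pb _ _ _ _ hq _ hp]
      by_cases h : Adm (Z0.fn φ) n (q ∪ p)
      · rw [dif_pos h, actc_pid]
      · rw [dif_neg h, pb_not_adm h]; rfl

lemma fct_NN0 (i : Z0 ⊕ ℕ) : Fct (NN0 k i) := by
  rcases i with z | n
  · exact fct_Prep z
  · exact fct_Irep n

/-- Action of an arrow. -/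
noncomputable def arrAct (N : Rep k Q0) (z : Z0) : (z' : Z0) → HomT z z' → (N.N z →ₗ[k] N.N z')
  | Z0.nat n, p => actc N z n p.1 p.2
  | Z0.fn _, p => Eq.rec (motive := fun z' _ => N.N z →ₗ[k] N.N z') LinearMap.id p.down

/-- The components of the Yoneda morphism. -/
noncomputable def yonf (N : Rep k Q0) (z : Z0) (x : N.N z) (z' : Z0) :
    (HomT z z' →₀ k) →ₗ[k] N.N z' :=
  Finsupp.linearCombination k (fun p : HomT z z' => arrAct N z z' p x)

lemma yonf_single (N : Rep k Q0) (z : Z0) (x : N.N z) (z' : Z0) (p : HomT z z') :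
    yonf N z x z' (Finsupp.single p 1) = arrAct N z z' p x := by
  simp [yonf]

lemma yonf_nat_aux1 (N : Rep k Q0) (hN : Fct N) (z : Z0) (x : N.N z) (m t : ℕ) (q : Finset ℕ)
    (adm : Adm (Z0.nat m) t q) (ne : Z0.nat m ≠ Z0.nat t) (p : HomT z (Z0.nat m)) :
    yonf N z x (Z0.nat t) (prepMap z (⟨Z0.nat m, t, q, adm, ne⟩ : Arr0) (Finsupp.single p 1)) =
      actc N (Z0.nat m) t q adm (arrAct N z (Z0.nat m) p x) := by
  have e1 : arrAct N z (Z0.nat m) p x = actc N z m p.1 p.2 x := rfl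
  rw [e1, hN z m p.1 p.2 t q adm x]
  by_cases h : Adm z t (q ∪ p.1)
  · have h1 := prepMap_some (k := k) (⟨Z0.nat m, t, q, adm, ne⟩ : Arr0) (p := p)
      (s := (⟨q ∪ p.1, h⟩ : {s : Finset ℕ // Adm z t s})) (dif_pos h)
    have h2 := yonf_single N z x (Z0.nat t) (⟨q ∪ p.1, h⟩ : {s : Finset ℕ // Adm z t s})
    rw [dif_pos h]
    exact (congrArg _ h1).trans h2
  · have h1 := prepMap_none (k := k) (⟨Z0.nat m, t, q, adm, ne⟩ : Arr0) (p := p) (dif_neg h)
    rw [dif_neg h]
    exact (congrArg _ h1).trans (map_zero _)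

lemma yonf_nat_aux2 (N : Rep k Q0) (φ : ℕ → ℕ) (x : N.N (Z0.fn φ)) (t : ℕ)
    (q : Finset ℕ) (adm : Adm (Z0.fn φ) t q) (ne : Z0.fn φ ≠ Z0.nat t)
    (p : HomT (Z0.fn φ) (Z0.fn φ)) :
    yonf N (Z0.fn φ) x (Z0.nat t)
        (prepMap (Z0.fn φ) (⟨Z0.fn φ, t, q, adm, ne⟩ : Arr0) (Finsupp.single p 1)) =
      actc N (Z0.fn φ) t q adm (arrAct N (Z0.fn φ) (Z0.fn φ) p x) := by
  have h1 := prepMap_some (k := k) (w := Z0.fn φ) (⟨Z0.fn φ, t, q, adm, ne⟩ : Arr0) (p := p)
      (s := (⟨q, adm⟩ : {s : Finset ℕ // Adm (Z0.fn φ) t s})) rfl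
  have h2 := yonf_single N (Z0.fn φ) x (Z0.nat t)
    (⟨q, adm⟩ : {s : Finset ℕ // Adm (Z0.fn φ) t s})
  exact (congrArg _ h1).trans h2

lemma yonf_nat (N : Rep k Q0) (hN : Fct N) (z : Z0) (x : N.N z) (a : Arr0) :
    (yonf N z x (Z0.nat a.t)) ∘ₗ (prepMap z a) =
      (actc N a.s a.t a.q a.adm) ∘ₗ (yonf N z x a.s) := by
  refine Finsupp.lhom_ext' (fun p => LinearMap.ext_ring ?_)
  simp only [LinearMap.comp_apply, Finsupp.lsingle_apply]
  rw [yonf_single]
  rcases a with ⟨za, t, q, adm, ne⟩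
  rcases za with m | φ
  · exact yonf_nat_aux1 N hN z x m t q adm ne p
  · obtain ⟨hw⟩ := p
    subst hw
    exact yonf_nat_aux2 N φ x t q adm ne ⟨rfl⟩

/-- Yoneda. -/
noncomputable def yon (N : Rep k Q0) (hN : Fct N) (z : Z0) (x : N.N z) : RepHom (Prep k z) N where
  f z' := yonf N z x z'
  nat a y := (LinearMap.congr_fun (yonf_nat N hN z x a) y).trans
    (LinearMap.congr_fun (map_eq_actc N a).symm _)

lemma yon_pid (N : Rep k Q0) (hN : Fct N) (z : Z0) (x : N.N z) :
    (yon N hN z x).f z (pid z) = x := by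
  refine (yonf_single N z x z (idArr z)).trans ?_
  rcases z with m | φ
  · exact LinearMap.congr_fun (actc_self N m {m} (adm_singleton m)) x
  · rfl

end Cat

/-! ## Statements -/

/-- Linear forms and arrows as elements of the ring. -/
def Stmt_Unit : Prop :=
  ∀ (k : Type) [Field k] (G : GenSys k Z0 (Option Q0.Arr)) (z : Z0) (n : ℕ) (c : Finset ℕ)
    (hc : Adm z n c) (lam : G.V z →ₗ[k] k) (U : ∀ z, Submodule k (G.V z)), FinFam U →
    ∃ r : Big G (NN0 k), InR G (NN0 k) r ∧ ∀ i, ∀ y ∈ HatU G (NN0 k i) U,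
      r i y = hι G (NN0 k i) (Z0.nat n)
        (actc (NN0 k i) z n c hc (ctr G (NN0 k i) z lam y) ⊗ₜ[k] G.v0 (Z0.nat n))

/-- Division by a nonzero element, with control of the quotient on a finite family. -/
def Stmt_Yon : Prop :=
  ∀ (k : Type) [Field k] (G : GenSys k Z0 (Option Q0.Arr)) (a : Big G (NN0 k)),
    InR G (NN0 k) a → a ≠ 0 → ∀ U : ∀ z, Submodule k (G.V z), FinFam U →
    ∃ U' : ∀ z, Submodule k (G.V z), FinFam U' ∧ ∀ r : Big G (NN0 k), InR G (NN0 k) r →
      (∀ i, ∀ y ∈ HatU G (NN0 k i) U', r i y = 0) →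
      ∃ s : Big G (NN0 k), InR G (NN0 k) s ∧ (∀ i, ∀ y ∈ HatU G (NN0 k i) U, s i y = 0) ∧
        s * a = r

/-- The map `I_n(z) → I_m(z)` induced by an endomorphism of `M₀`. -/
noncomputable def loc {k : Type} [Field k] (G : GenSys k Z0 (Option Q0.Arr))
    (T : M0 G →ₗ[↥(R0 G)] M0 G) (z : Z0) (n m : ℕ) (f : (Irep k n).N z) : (Irep k m).N z :=
  ctr G (Irep k m) z (G.psi z)
    ((T (DirectSum.of (fun n => EE G n) n (hι G (Irep k n) z (f ⊗ₜ[k] G.v0 z)))) m)

/-- Endomorphisms of `M₀` are local and commute with arrows. -/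
def Stmt_Local : Prop :=
  ∀ (k : Type) [Field k] (G : GenSys k Z0 (Option Q0.Arr)) (T : M0 G →ₗ[↥(R0 G)] M0 G) (z : Z0)
    (n m : ℕ) (f : (Irep k n).N z),
    (T (DirectSum.of (fun n => EE G n) n (hι G (Irep k n) z (f ⊗ₜ[k] G.v0 z)))) m =
      hι G (Irep k m) z (loc G T z n m f ⊗ₜ[k] G.v0 z) ∧
    ∀ (l : ℕ) (c : Finset ℕ) (hc : Adm z l c),
      loc G T (Z0.nat l) n m (actc (Irep k n) z l c hc f) =
        actc (Irep k m) z l c hc (loc G T z n m f)

end Pool.Agent.Matlis
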