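import Pool.Agent.Matlis.Defs

/-!
# Density of the ring (MP_504466_al)
-/

set_option autoImplicit false

open scoped TensorProduct DirectSum
open Module

namespace Pool.Agent.Matlis

theorem dens_proof (hR : Stmt_Rmem) : Stmt_Dens := by
  intro k _ Z _ Q G I NN
  obtain ⟨-, hx⟩ := hR k Z Q G I NN
  constructor
  · intro U hU g
    obtain ⟨t, hl, ht⟩ := G.dense U hU g none
    refine ⟨xbig G NN t, hx t, ?_⟩
    intro i z n u hu
    change xhat G (NN i) t (hι G (NN i) z (n ⊗ₜ[k] u)) = _
    rw [xhat, LinearMap.add_apply, hdiag_hι, hl, ht z u hu]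
    simp [pert]
  · intro a
    let U : ∀ z, Submodule k (G.V z) := fun z =>
      if z = Q.src a then Submodule.span k {G.v0 z} else ⊥
    have hU : FinFam U := by
      constructor
      · refine (Set.finite_singleton (Q.src a)).subset ?_
        intro z hz
        by_contra h
        exact hz (if_neg h)
      · intro z
        change (if z = Q.src a then Submodule.span k {G.v0 z} else ⊥ : Submodule k (G.V z)).FG
        split_ifs
        · exact Submodule.fg_span (Set.finite_singleton _)
        · exact Submodule.fg_bot
    obtain ⟨t, hl, ht⟩ := G.dense U hU (fun _ => 0) (some a)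
    refine ⟨xbig G NN t, hx t, ?_⟩
    intro i n
    change xhat G (NN i) t (hι G (NN i) (Q.src a) (n ⊗ₜ[k] G.v0 (Q.src a))) = _
    have h0 : G.x (Q.src a) t (G.v0 (Q.src a)) = 0 := by
      rw [ht (Q.src a) (G.v0 (Q.src a)) ?_]
      · rfl
      · change G.v0 (Q.src a) ∈ (if Q.src a = Q.src a then Submodule.span k {G.v0 (Q.src a)}
          else ⊥ : Submodule k (G.V (Q.src a)))
        rw [if_pos rfl]
        exact Submodule.mem_span_singleton_self _
    rw [xhat, LinearMap.add_apply, hdiag_hι, hl, pert_some_same, h0, G.psi_v0, one_smul,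
      TensorProduct.tmul_zero, map_zero, zero_add]

end Pool.Agent.Matlis
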