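import Pool.Agent.Matlis.KeyZ

/-!
# Nonzero elements of `R` (module DIV)
-/

set_option autoImplicit false

open scoped TensorProduct DirectSum
open Module

namespace Pool.Agent.Matlis

namespace DivAux

variable {k : Type} [Field k]

/-- factor a linear map through a surjection -/
theorem exists_factor {V W U : Type} [AddCommGroup V] [Module k V] [AddCommGroup W] [Module k W]
    [AddCommGroup U] [Module k U] (a : V →ₗ[k] W) (ha : Function.Surjective a) (r : V →ₗ[k] U)
    (h : ∀ v, a v = 0 → r v = 0) : ∃ s : W →ₗ[k] U, ∀ v, s (a v) = r v := by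
  have hle : LinearMap.ker a ≤ LinearMap.ker r := fun v hv => h v hv
  refine ⟨(LinearMap.ker a).liftQ r hle ∘ₗ
    (LinearMap.quotKerEquivOfSurjective a ha).symm.toLinearMap, fun v => ?_⟩
  change (LinearMap.ker a).liftQ r hle ((LinearMap.quotKerEquivOfSurjective a ha).symm (a v)) = r v
  rw [LinearMap.quotKerEquivOfSurjective_symm_apply]
  rfl

end DivAux

open KeyZ DivAux in
theorem div_proof (hZ : Stmt_Z) (hHatS : Stmt_HatS) (hHatK : Stmt_HatK) (hTri : Stmt_Tri) :
    Stmt_Div := by
  intro k _ Z _ Q G I NN a ha hane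
  obtain ⟨D', D, _, _, _, _, _, _, b, c, d, hb, hrep⟩ := ha
  have hP : Full (bord b c d) := by
    by_contra hcon
    exact hane (hZ k Z Q G I NN D' D b c d a hb hrep hcon)
  -- surjectivity
  have hsurj : ∀ i, Function.Surjective (a i) := by
    intro i y
    obtain ⟨W, hW⟩ := hHatS k Z Q G _ _ (bord b c d) hP (NN i)
      ((LinearMap.snd k D' k).smulRight y)
    have key : ∀ (d' : D') (κ : k), act (xhat G (NN i)) b (W ∘ₗ LinearMap.inl k D k) d' + κ • W (c, 0) -
        d d' • W (0, 1) = κ • y := by
      intro d' κ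
      rw [← Act.act_bord, hW]
      rfl
    refine ⟨W (0, 1), ?_⟩
    rw [hrep i (W (0, 1)) (W ∘ₗ LinearMap.inl k D k) (by
      ext d'
      have := key d' 0
      rw [zero_smul, zero_smul, add_zero, sub_eq_zero] at this
      exact this)]
    have := key 0 1
    rw [map_zero, map_zero, zero_smul, one_smul, one_smul, zero_add, sub_zero] at this
    exact this
  obtain ⟨U, hU, hK⟩ := hHatK k Z Q G _ _ (bord b c d) hP
  have hker : ∀ i (y : Hat G (NN i)), a i y = 0 → y ∈ HatU G (NN i) U := by
    intro i y hy
    obtain ⟨w, hw⟩ := hHatS k Z Q G D' D b hb (NN i) (d.smulRight y)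
    have hc : w c = 0 := by
      rw [← hrep i y w hw, hy]
    have h1 := hK (NN i) (comb w y) (by
      apply LinearMap.ext
      rintro ⟨d', κ⟩
      rw [act_bord_comb _ b c d w y hw, hc, smul_zero]
      rfl) (0, 1)
    rw [comb_apply, map_zero, one_smul, zero_add] at h1
    exact h1
  refine ⟨hsurj, U, hU, hker, ?_⟩
  intro r hr hrU
  have hs : ∀ i, ∃ s : Module.End k (Hat G (NN i)), ∀ v, s (a i v) = r i v := by
    intro i
    exact exists_factor (a i) (hsurj i) (r i) fun v hv => hrU i v (hker i v hv)
  choose s hs using hs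
  refine ⟨s, ?_, ?_⟩
  · obtain ⟨D2', D2, _, _, _, _, _, _, b2, c2, d2, hb2, hrep2⟩ := hr
    refine ⟨(D' × k) × D2', (D × k) × D2, inferInstance, inferInstance, inferInstance,
      inferInstance, inferInstance, inferInstance,
      tri (bord b c d) b2 (Finsupp.single none (-(d2.smulRight ((0 : D), (1 : k))))), (0, c2),
      LinearMap.snd k D' k ∘ₗ LinearMap.fst k (D' × k) D2',
      hTri k G.X _ _ _ _ _ _ _ hP hb2, ?_⟩
    intro i y W hW
    set w1 := W ∘ₗ LinearMap.inl k (D × k) D2 with hw1
    set w2 := W ∘ₗ LinearMap.inr k (D × k) D2 with hw2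
    have key : ∀ (d' : D') (κ : k) (a2 : D2'), (act (xhat G (NN i)) b (w1 ∘ₗ LinearMap.inl k D k) d' +
        κ • w1 (c, 0) - d d' • w1 (0, 1)) + act (xhat G (NN i)) b2 w2 a2 -
          d2 a2 • w1 (0, 1) = κ • y := by
      intro d' κ a2
      have h3 := LinearMap.congr_fun hW ((d', κ), a2)
      rw [Act.act_tri, Act.act_single_none, Act.act_bord] at h3
      have h4 : (w1 ∘ₗ (-(d2.smulRight ((0 : D), (1 : k))))) a2 = - (d2 a2 • w1 (0, 1)) := by
        simp only [LinearMap.comp_apply, LinearMap.neg_apply, LinearMap.smulRight_apply, map_neg,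
          map_smul]
      rw [← hw1, ← hw2, h4] at h3
      rw [sub_eq_add_neg _ (d2 a2 • w1 (0, 1))]
      exact h3
    have e1 : a i (w1 (0, 1)) = y := by
      rw [hrep i (w1 (0, 1)) (w1 ∘ₗ LinearMap.inl k D k) (by
        ext d'
        have := key d' 0 0
        rw [map_zero, map_zero, zero_smul, zero_smul, zero_smul, add_zero, add_zero, sub_zero,
          sub_eq_zero] at this
        exact this)]
      have := key 0 1 0
      rw [map_zero, map_zero, map_zero, map_zero, zero_smul, one_smul, one_smul,
        zero_add, sub_zero, add_zero, sub_zero] at this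
      exact this
    have e2 : r i (w1 (0, 1)) = w2 c2 := by
      refine hrep2 i (w1 (0, 1)) w2 ?_
      ext a2
      have := key 0 0 a2
      rw [map_zero, map_zero, zero_smul, zero_smul, zero_smul, add_zero, sub_zero, zero_add,
        sub_eq_zero] at this
      exact this
    have h5 : s i y = r i (w1 (0, 1)) := by
      rw [← hs i (w1 (0, 1)), e1]
    rw [h5, e2]
    rfl
  · funext i
    apply LinearMap.ext
    intro v
    exact hs i v

end Pool.Agent.Matlis
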