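import Pool.Agent.Matlis.Tau

/-!
# Matlis' problem: socle elements (`Stmt_Ess`)
-/

set_option autoImplicit false

open scoped TensorProduct DirectSum
open Module

namespace Pool.Agent.Matlis

namespace Cusp

section general

variable {k : Type} [Field k] {Z : Type} [DecidableEq Z] {Q : Quiv Z}

/-- a functional applied to the second factor -/
noncomputable def rdl (G : GenSys k Z (Option Q.Arr)) (N : Rep k Q) (z : Z)
    (lam : G.V z →ₗ[k] k) : Hat G N →ₗ[k] N.N z :=
  (TensorProduct.rid k (N.N z)).toLinearMap ∘ₗ (LinearMap.lTensor (N.N z) lam) ∘ₗ (hπ G N z)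

theorem rdl_same (G : GenSys k Z (Option Q.Arr)) (N : Rep k Q) (z : Z)
    (lam : G.V z →ₗ[k] k) (n : N.N z) (v : G.V z) :
    rdl G N z lam (hι G N z (n ⊗ₜ[k] v)) = lam v • n := by
  simp [rdl]

theorem rdl_ne (G : GenSys k Z (Option Q.Arr)) (N : Rep k Q) {z z' : Z} (h : z' ≠ z)
    (lam : G.V z →ₗ[k] k) (y : N.N z' ⊗[k] G.V z') : rdl G N z lam (hι G N z' y) = 0 := by
  simp [rdl, hπ_hι_ne G N h]

theorem exists_rdl (G : GenSys k Z (Option Q.Arr)) (N : Rep k Q) (y : Hat G N) (hy : y ≠ 0) :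
    ∃ z lam, rdl G N z lam y ≠ 0 := by
  classical
  by_contra hcon
  push Not at hcon
  apply hy
  apply hat_ext
  intro z
  rw [map_zero]
  let e := Basis.ofVectorSpace k (G.V z)
  apply (TensorProduct.equivFinsuppOfBasisRight (M := N.N z) e).injective
  rw [map_zero]
  ext i
  rw [TensorProduct.equivFinsuppOfBasisRight_apply]
  exact hcon z (e.coord i)

/-- the operator `v ↦ lam v • v0` at `z`, zero elsewhere -/
noncomputable def pic (G : GenSys k Z (Option Q.Arr)) (z : Z) (lam : G.V z →ₗ[k] k) (z' : Z) :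
    Module.End k (G.V z') :=
  if h : z' = z then (h ▸ lam : G.V z' →ₗ[k] k).smulRight (G.v0 z') else 0

theorem hdiag_pic (G : GenSys k Z (Option Q.Arr)) (N : Rep k Q) (z : Z)
    (lam : G.V z →ₗ[k] k) (y : Hat G N) :
    hdiag G N (pic G z lam) y = hι G N z (rdl G N z lam y ⊗ₜ[k] G.v0 z) := by
  induction y using hat_induction G N with
  | h0 => rw [map_zero, map_zero, TensorProduct.zero_tmul, map_zero]
  | hadd y y' hy hy' => rw [map_add, map_add, TensorProduct.add_tmul, map_add, hy, hy']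
  | h z' n v =>
    rw [hdiag_hι]
    by_cases h : z' = z
    · subst h
      rw [rdl_same]
      have : pic G z' lam z' v = lam v • G.v0 z' := by simp [pic]
      rw [this, TensorProduct.tmul_smul, TensorProduct.smul_tmul']
    · rw [rdl_ne G N h]
      have : pic G z lam z' v = 0 := by simp [pic, h]
      rw [this, TensorProduct.tmul_zero, map_zero, TensorProduct.zero_tmul, map_zero]

end general

section ess

variable {k : Type} [Field k]

theorem ex_oneI (m : ℕ) {s : Finset ℕ} (hs : Adm (Z0.nat m) m s) : ex (oneI k m) s = 1 := by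
  rw [ex_of _ hs]; rfl

theorem adm_self (m : ℕ) : Adm (Z0.nat m) m {m} := by simp [Adm]

theorem eq_single_of_adm {m : ℕ} {s : Finset ℕ} (hs : Adm (Z0.nat m) m s) : s = {m} := by
  ext x
  rw [Finset.mem_singleton]
  constructor
  · intro hx
    have := hs.2.2.1 x hx
    omega
  · rintro rfl; exact hs.1

theorem eq_smul_oneI (m : ℕ) (f : (Irep k m).N (Z0.nat m)) : f = ex f {m} • oneI k m := by
  apply ex_ext
  intro s hs
  rw [ex_smul, ex_oneI m hs, mul_one, eq_single_of_adm hs]

theorem soc_ne (G : GenSys k Z0 (Option Q0.Arr)) (n : ℕ) : soc G n ≠ 0 := by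
  intro h
  rw [soc_eq] at h
  have h1 := congrArg (rdE G n (Z0.nat n)) h
  rw [rdE_v0, map_zero] at h1
  have h2 := ex_oneI (k := k) n (adm_self n)
  rw [h1, ex_of _ (adm_self n)] at h2
  exact zero_ne_one h2

theorem inE_smul_oneI (G : GenSys k Z0 (Option Q0.Arr)) (m : ℕ) (f : (Irep k m).N (Z0.nat m)) :
    inE G m (Z0.nat m) (f ⊗ₜ[k] G.v0 (Z0.nat m)) =
      (algebraMap k ↥(R0 G) (ex f {m})) • soc G m := by
  rw [alg_EE, soc_eq, ← map_smul (inE G m (Z0.nat m)), TensorProduct.smul_tmul',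
    ← eq_smul_oneI]

/-- `E_n(U)` -/
noncomputable def famE (G : GenSys k Z0 (Option Q0.Arr)) (n : ℕ)
    (U : ∀ z, Submodule k (G.V z)) : Submodule k (EE G n) :=
  HatU G (Irep k n) U

theorem famE_mono (G : GenSys k Z0 (Option Q0.Arr)) (n : ℕ)
    {U U' : ∀ z, Submodule k (G.V z)} (h : ∀ z, U z ≤ U' z) : famE G n U ≤ famE G n U' :=
  HatU_mono G (Irep k n) h

theorem exists_famE (G : GenSys k Z0 (Option Q0.Arr)) (n : ℕ) (y : EE G n) :
    ∃ U : ∀ z, Submodule k (G.V z), FinFam U ∧ y ∈ famE G n U :=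
  exists_fam G (Irep k n) y

/-- coefficient maps on `E_n` -/
noncomputable def rdlE (G : GenSys k Z0 (Option Q0.Arr)) (n : ℕ) (z : Z0)
    (lam : G.V z →ₗ[k] k) : EE G n →ₗ[k] (Irep k n).N z :=
  rdl G (Irep k n) z lam

theorem exists_rdlE (G : GenSys k Z0 (Option Q0.Arr)) (n : ℕ) (y : EE G n) (hy : y ≠ 0) :
    ∃ z lam, rdlE G n z lam y ≠ 0 :=
  exists_rdl G (Irep k n) y hy

theorem dens_pic (G : GenSys k Z0 (Option Q0.Arr)) (m : ℕ)
    (U : ∀ z, Submodule k (G.V z)) (z : Z0) (lam : G.V z →ₗ[k] k) (r : ↥(R0 G))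
    (hr : ∀ z' (f : (Irep k m).N z'), ∀ u ∈ U z',
      r • (inE G m z' (f ⊗ₜ[k] u)) = inE G m z' (f ⊗ₜ[k] pic G z lam z' u))
    (y : EE G m) (hy : y ∈ famE G m U) :
    r • y = inE G m z (rdlE G m z lam y ⊗ₜ[k] G.v0 z) := by
  rw [dens_hdiag G m U (pic G z lam) r hr y hy]
  exact hdiag_pic G (Irep k m) z lam y

/-- all components in a common finite family -/
theorem exists_fam_sum (G : GenSys k Z0 (Option Q0.Arr)) (y : ⨁ i : ℕ × Bool, EE G i.1) :
    ∃ U : ∀ z, Submodule k (G.V z), FinFam U ∧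
      ∀ i, y i ∈ famE G i.1 U := by
  classical
  induction y using DirectSum.induction_on with
  | zero => exact ⟨_, finFam_bot G, fun i => Submodule.zero_mem _⟩
  | of i x =>
    obtain ⟨U, hU, hx⟩ := exists_famE G i.1 x
    refine ⟨U, hU, fun j => ?_⟩
    by_cases h : j = i
    · subst h
      have h1 : (DirectSum.of (fun i : ℕ × Bool => EE G i.1) j x) j = x :=
        DirectSum.of_eq_same (β := fun i : ℕ × Bool => EE G i.1) j x
      rw [h1]; exact hx
    · have h1 : (DirectSum.of (fun i : ℕ × Bool => EE G i.1) i x) j = 0 :=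
        DirectSum.of_eq_of_ne (β := fun i : ℕ × Bool => EE G i.1) i j x h
      rw [h1]; exact Submodule.zero_mem _
  | add y y' hy hy' =>
    obtain ⟨U, hU, hy⟩ := hy
    obtain ⟨U', hU', hy'⟩ := hy'
    refine ⟨_, finFam_sup G hU hU', fun i => ?_⟩
    have h1 : (y + y') i = y i + y' i := rfl
    rw [h1]
    exact Submodule.add_mem _
      (famE_mono G i.1 (fun z => le_sup_left) (hy i))
      (famE_mono G i.1 (fun z => le_sup_right) (hy' i))

theorem ess_main (hRm : Stmt_Rmem) (hD : Stmt_Dens) (G : GenSys k Z0 (Option Q0.Arr))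
    (y : ⨁ i : ℕ × Bool, EE G i.1) (hy : y ≠ 0) :
    ∃ (r : ↥(R0 G)) (m : ℕ) (κ : Bool → k),
      κ ≠ 0 ∧ r • y =
        DirectSum.of (fun i : ℕ × Bool => EE G i.1) (m, false)
          (algebraMap k ↥(R0 G) (κ false) • soc G m) +
        DirectSum.of (fun i : ℕ × Bool => EE G i.1) (m, true)
          (algebraMap k ↥(R0 G) (κ true) • soc G m) := by
  classical
  -- a nonzero component
  obtain ⟨i0, hi0⟩ : ∃ i, y i ≠ 0 := by
    by_contra hcon
    push Not at hcon
    exact hy (DFinsupp.ext hcon)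
  obtain ⟨z, lam, hlam⟩ := exists_rdlE G i0.1 (y i0) hi0
  let g : ∀ i : ℕ × Bool, (Irep k i.1).N z := fun i => rdlE G i.1 z lam (y i)
  obtain ⟨U, hU, hyU⟩ := exists_fam_sum G y
  obtain ⟨r1, hr1⟩ := dens1 hRm hD G U hU (pic G z lam)
  have h1 : ∀ i, (r1 • y) i = inE G i.1 z (g i ⊗ₜ[k] G.v0 z) := by
    intro i
    rw [DirectSum.smul_apply]
    exact dens_pic G i.1 U z lam r1 (fun z f u hu => hr1 i.1 z f u hu) (y i) (hyU i)
  -- the minimal index
  have hex : ∃ n, ∃ b, g (n, b) ≠ 0 := ⟨i0.1, i0.2, hlam⟩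
  obtain ⟨m, hm⟩ : ∃ m, m = Nat.find hex := ⟨_, rfl⟩
  have hm1 : ∃ b, g (m, b) ≠ 0 := by rw [hm]; exact Nat.find_spec hex
  have hm2 : ∀ n b, n < m → g (n, b) = 0 := by
    intro n b hn
    by_contra hne
    rw [hm] at hn
    exact Nat.find_min hex hn ⟨b, hne⟩
  obtain ⟨b, hb⟩ := hm1
  have hp : ∃ p, Adm z m p ∧ ex (g (m, b)) p ≠ 0 := by
    by_contra hcon
    push Not at hcon
    apply hb
    apply ex_ext
    intro s hs
    rw [hcon s hs, ex_of _ hs]
    rfl
  obtain ⟨p, hadm, hpne⟩ := hp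
  refine (?_ : ∃ r : ↥(R0 G), ∀ i : ℕ × Bool, (r • y) i =
      if h : i.1 = m then (algebraMap k ↥(R0 G) (ex (g (m, i.2)) p)) • (h ▸ soc G m : EE G i.1)
      else 0).elim ?_
  · by_cases hz : z = Z0.nat m
    · subst hz
      refine ⟨r1, fun i => ?_⟩
      rw [h1]
      obtain ⟨n, b'⟩ := i
      by_cases hn : n = m
      · subst hn
        simp only [dif_pos]
        rw [inE_smul_oneI, eq_single_of_adm hadm]
      · simp only [hn, dif_neg, not_false_eq_true]
        rcases lt_or_gt_of_ne hn with hlt | hgt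
        · rw [hm2 n b' hlt, TensorProduct.zero_tmul, map_zero]
        · rw [irep_empty hgt (g (n, b')), TensorProduct.zero_tmul, map_zero]
    · obtain ⟨r2, hr2⟩ := dens2 hRm hD G ⟨z, m, p, hadm, hz⟩
      refine ⟨r2 * r1, fun i => ?_⟩
      rw [mul_smul, DirectSum.smul_apply, h1]
      obtain ⟨n, b'⟩ := i
      have h2 := hr2 n (g (n, b'))
      change r2 • inE G n z (g (n, b') ⊗ₜ[k] G.v0 z) = inE G n (Z0.nat m)
        (mapA k n ⟨z, m, p, hadm, hz⟩ (g (n, b')) ⊗ₜ[k] G.v0 (Z0.nat m)) at h2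
      rw [h2]
      by_cases hn : n = m
      · subst hn
        simp only [dif_pos]
        rw [inE_smul_oneI]
        have h3 := ex_map (k := k) ⟨z, n, p, hadm, hz⟩ (g (n, b')) (adm_self n)
        rw [Finset.union_eq_right.2 (by simpa using adm_mem hadm)] at h3
        change ex (mapA k n ⟨z, n, p, hadm, hz⟩ (g (n, b'))) {n} = ex (g (n, b')) p at h3
        rw [h3]
      · simp only [hn, dif_neg, not_false_eq_true]
        rcases lt_or_gt_of_ne hn with hlt | hgt
        · rw [hm2 n b' hlt, map_zero, TensorProduct.zero_tmul, map_zero]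
        · have h4 : mapA k n ⟨z, m, p, hadm, hz⟩ (g (n, b')) = 0 := irep_empty hgt _
          rw [h4, TensorProduct.zero_tmul, map_zero]
  · intro r hr
    refine ⟨r, m, fun b' => ex (g (m, b')) p, ?_, ?_⟩
    · intro h
      exact hpne (congrFun h b)
    · apply DFinsupp.ext
      intro i
      rw [hr i]
      obtain ⟨n, b'⟩ := i
      rw [DirectSum.add_apply]
      by_cases hn : n = m
      · subst hn
        simp only [dif_pos]
        rcases b' with _ | _
        · rw [DirectSum.of_eq_same]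
          have h5 : (DirectSum.of (fun i : ℕ × Bool => EE G i.1) (n, true)
              ((algebraMap k ↥(R0 G) (ex (g (n, true)) p)) • soc G n)) (n, false) = 0 :=
            DirectSum.of_eq_of_ne _ _ _ (by simp)
          rw [h5, add_zero]
        · rw [DirectSum.of_eq_same]
          have h5 : (DirectSum.of (fun i : ℕ × Bool => EE G i.1) (n, false)
              ((algebraMap k ↥(R0 G) (ex (g (n, false)) p)) • soc G n)) (n, true) = 0 :=
            DirectSum.of_eq_of_ne _ _ _ (by simp)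
          rw [h5, zero_add]
      · simp only [hn, dif_neg, not_false_eq_true]
        have h5 : ∀ c x, (DirectSum.of (fun i : ℕ × Bool => EE G i.1) (m, c) x) (n, b') = 0 :=
          fun c x => DirectSum.of_eq_of_ne _ _ _ (by simp [hn])
        rw [h5, h5, add_zero]

end ess

end Cusp

theorem ess_proof (hRm : Stmt_Rmem) (hD : Stmt_Dens) : Stmt_Ess := by
  classical
  intro k _ G
  refine ⟨Cusp.soc_ne G, ?_, ?_, ?_, ?_⟩
  · intro n y hy
    have hY : DirectSum.of (fun i : ℕ × Bool => EE G i.1) (n, false) y ≠ 0 := by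
      intro h
      exact hy ((DirectSum.of_injective (β := fun i : ℕ × Bool => EE G i.1) (n, false))
        (h.trans (map_zero _).symm))
    obtain ⟨r, m, κ, hκ, hr⟩ := Cusp.ess_main hRm hD G _ hY
    have hcomp : ∀ i, (r • DirectSum.of (fun i : ℕ × Bool => EE G i.1) (n, false) y) i =
        (DirectSum.of (fun i : ℕ × Bool => EE G i.1) (m, false)
          (algebraMap k ↥(R0 G) (κ false) • soc G m) +
        DirectSum.of (fun i : ℕ × Bool => EE G i.1) (m, true)
          (algebraMap k ↥(R0 G) (κ true) • soc G m)) i := fun i => by rw [hr]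
    have htrue := hcomp (m, true)
    rw [DirectSum.smul_apply, DirectSum.add_apply, DirectSum.of_eq_same] at htrue
    have e1 : (DirectSum.of (fun i : ℕ × Bool => EE G i.1) (n, false) y) (m, true) = 0 :=
      DirectSum.of_eq_of_ne _ _ _ (by simp)
    have e2 : (DirectSum.of (fun i : ℕ × Bool => EE G i.1) (m, false)
          (algebraMap k ↥(R0 G) (κ false) • soc G m)) (m, true) = 0 :=
      DirectSum.of_eq_of_ne _ _ _ (by simp)
    rw [e1, e2, smul_zero, zero_add] at htrue
    have hk0 : ∀ a : k, algebraMap k ↥(R0 G) a • soc G m = 0 → a = 0 := by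
      intro a ha
      by_contra hne
      apply Cusp.soc_ne G m
      have : (algebraMap k ↥(R0 G) a⁻¹) • (algebraMap k ↥(R0 G) a) • soc G m = 0 := by
        rw [ha, smul_zero]
      rwa [← mul_smul, ← map_mul, inv_mul_cancel₀ hne, map_one, one_smul] at this
    have hkt : κ true = 0 := hk0 _ htrue.symm
    have hkf : κ false ≠ 0 := by
      intro h
      apply hκ
      funext b
      cases b
      · exact h
      · exact hkt
    have hmn : m = n := by
      by_contra hne
      have h1 := hcomp (m, false)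
      rw [DirectSum.smul_apply, DirectSum.add_apply, DirectSum.of_eq_same] at h1
      have e1 : (DirectSum.of (fun i : ℕ × Bool => EE G i.1) (n, false) y) (m, false) = 0 :=
        DirectSum.of_eq_of_ne _ _ _ (by simpa using hne)
      have e2 : (DirectSum.of (fun i : ℕ × Bool => EE G i.1) (m, true)
            (algebraMap k ↥(R0 G) (κ true) • soc G m)) (m, false) = 0 :=
        DirectSum.of_eq_of_ne _ _ _ (by simp)
      rw [e1, e2, smul_zero, add_zero] at h1
      exact hkf (hk0 _ h1.symm)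
    subst hmn
    have h1 := hcomp (m, false)
    rw [DirectSum.smul_apply, DirectSum.add_apply, DirectSum.of_eq_same,
      DirectSum.of_eq_same] at h1
    have e2 : (DirectSum.of (fun i : ℕ × Bool => EE G i.1) (m, true)
          (algebraMap k ↥(R0 G) (κ true) • soc G m)) (m, false) = 0 :=
      DirectSum.of_eq_of_ne _ _ _ (by simp)
    rw [e2, add_zero] at h1
    refine ⟨algebraMap k ↥(R0 G) (κ false)⁻¹ * r, ?_⟩
    rw [mul_smul, h1, ← mul_smul, ← map_mul, inv_mul_cancel₀ hkf, map_one, one_smul]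
  · intro y hy
    exact Cusp.ess_main hRm hD G y hy
  · intro m m' T hne
    rw [Cusp.soc_eq, Cusp.fullness hRm hD]
    have h1 : Cusp.Nm (Cusp.tcoef G m m' T) m m' (Z0.nat m) (Cusp.oneI k m) = 0 := by
      apply Cusp.ex_ext
      intro q hq
      rw [Cusp.ex_Nm _ _ _ _ _ hq, Finset.sum_eq_zero]
      · rw [Cusp.ex_of _ hq]; rfl
      · intro p hp
        have hp' := Cusp.mem_AF.1 hp
        have h2 := (hp'.2.2.1 m hp'.1).2
        have h3 := (hq.2.2.1 m' hq.1).2
        omega
    rw [h1, TensorProduct.zero_tmul, map_zero]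
  · intro m T
    refine ⟨Cusp.ex (Cusp.Nm (Cusp.tcoef G m m T) m m (Z0.nat m) (Cusp.oneI k m)) {m}, ?_⟩
    conv_lhs => rw [Cusp.soc_eq, Cusp.fullness hRm hD]
    rw [Cusp.inE_smul_oneI]

end Pool.Agent.Matlis
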