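import Pool.Agent.Matlis.Coef

/-!
# Matlis' problem: final assembly
-/

set_option autoImplicit false

open Module
open scoped DirectSum

namespace Pool.Agent.Matlis

section Two

variable {R : Type} [Ring R] (E : ℕ → Type) [∀ n, AddCommGroup (E n)] [∀ n, Module R (E n)]

/-- Inclusion of the `b`-th copy. -/
noncomputable def inj2 (b : Bool) : (⨁ n, E n) →ₗ[R] (⨁ i : ℕ × Bool, E i.1) :=
  DirectSum.toModule R ℕ _ (fun n => DirectSum.lof R (ℕ × Bool) (fun i => E i.1) (n, b))

/-- Projection to the `b`-th copy. -/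
noncomputable def prj2 (b : Bool) : (⨁ i : ℕ × Bool, E i.1) →ₗ[R] (⨁ n, E n) :=
  DirectSum.toModule R (ℕ × Bool) _
    (fun i => if i.2 = b then DirectSum.lof R ℕ (fun n => E n) i.1 else 0)

lemma inj2_lof (b : Bool) (n : ℕ) (x : E n) :
    inj2 (R := R) E b (DirectSum.lof R ℕ (fun n => E n) n x) =
      DirectSum.lof R (ℕ × Bool) (fun i => E i.1) (n, b) x := by
  simp [inj2]

lemma prj2_lof_same (b : Bool) (n : ℕ) (x : E n) :
    prj2 (R := R) E b (DirectSum.lof R (ℕ × Bool) (fun i => E i.1) (n, b) x) =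
      DirectSum.lof R ℕ (fun n => E n) n x := by
  rw [prj2, DirectSum.toModule_lof]
  simp

lemma prj2_lof_ne (b b' : Bool) (h : b' ≠ b) (n : ℕ) (x : E n) :
    prj2 (R := R) E b (DirectSum.lof R (ℕ × Bool) (fun i => E i.1) (n, b') x) = 0 := by
  rw [prj2, DirectSum.toModule_lof]
  simp [h]

lemma prj2_inj2_same (b : Bool) : prj2 (R := R) E b ∘ₗ inj2 E b = LinearMap.id := by
  refine DirectSum.linearMap_ext R (fun n => LinearMap.ext (fun x => ?_))
  simp only [LinearMap.comp_apply, LinearMap.id_apply]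
  rw [inj2_lof, prj2_lof_same]

lemma prj2_inj2_ne (b b' : Bool) (h : b' ≠ b) : prj2 (R := R) E b ∘ₗ inj2 E b' = 0 := by
  refine DirectSum.linearMap_ext R (fun n => LinearMap.ext (fun x => ?_))
  simp only [LinearMap.comp_apply, LinearMap.zero_apply]
  rw [inj2_lof, prj2_lof_ne E b b' h]

lemma sum_inj2_prj2 :
    inj2 (R := R) E false ∘ₗ prj2 E false + inj2 E true ∘ₗ prj2 E true = LinearMap.id := by
  refine DirectSum.linearMap_ext R (fun i => LinearMap.ext (fun x => ?_))
  obtain ⟨n, b⟩ := i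
  simp only [LinearMap.comp_apply, LinearMap.id_apply, LinearMap.add_apply]
  rcases b with _ | _
  · rw [prj2_lof_same, prj2_lof_ne E true false (by simp), inj2_lof, map_zero, add_zero]
  · rw [prj2_lof_same, prj2_lof_ne E false true (by simp), inj2_lof, map_zero, zero_add]

/-- The endomorphism with the given matrix. -/
noncomputable def mat2 (e : Bool → Bool → ((⨁ n, E n) →ₗ[R] (⨁ n, E n))) :
    (⨁ i : ℕ × Bool, E i.1) →ₗ[R] (⨁ i : ℕ × Bool, E i.1) :=
  inj2 E false ∘ₗ (e false false ∘ₗ prj2 E false + e false true ∘ₗ prj2 E true) +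
  inj2 E true ∘ₗ (e true false ∘ₗ prj2 E false + e true true ∘ₗ prj2 E true)

lemma prj2_mat2 (e : Bool → Bool → ((⨁ n, E n) →ₗ[R] (⨁ n, E n))) (b : Bool) :
    prj2 E b ∘ₗ mat2 E e = e b false ∘ₗ prj2 E false + e b true ∘ₗ prj2 E true := by
  rcases b with _ | _
  · rw [mat2, LinearMap.comp_add, ← LinearMap.comp_assoc, ← LinearMap.comp_assoc,
      prj2_inj2_same, prj2_inj2_ne E false true (by simp), LinearMap.zero_comp, add_zero,
      LinearMap.id_comp]
  · rw [mat2, LinearMap.comp_add, ← LinearMap.comp_assoc, ← LinearMap.comp_assoc,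
      prj2_inj2_same, prj2_inj2_ne E true false (by simp), LinearMap.zero_comp, zero_add,
      LinearMap.id_comp]

lemma prj2_mat2_inj2 (e : Bool → Bool → ((⨁ n, E n) →ₗ[R] (⨁ n, E n))) (b b' : Bool) :
    prj2 E b ∘ₗ mat2 E e ∘ₗ inj2 E b' = e b b' := by
  rw [← LinearMap.comp_assoc, prj2_mat2, LinearMap.add_comp, LinearMap.comp_assoc,
    LinearMap.comp_assoc]
  rcases b' with _ | _
  · rw [prj2_inj2_same, prj2_inj2_ne E true false (by simp)]; simp
  · rw [prj2_inj2_same, prj2_inj2_ne E false true (by simp)]; simp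

lemma mat2_ext {f g : (⨁ i : ℕ × Bool, E i.1) →ₗ[R] (⨁ i : ℕ × Bool, E i.1)}
    (h : ∀ b, prj2 E b ∘ₗ f = prj2 E b ∘ₗ g) : f = g := by
  have h1 : ∀ f : (⨁ i : ℕ × Bool, E i.1) →ₗ[R] (⨁ i : ℕ × Bool, E i.1),
      f = inj2 E false ∘ₗ (prj2 E false ∘ₗ f) + inj2 E true ∘ₗ (prj2 E true ∘ₗ f) := by
    intro f
    rw [← LinearMap.comp_assoc, ← LinearMap.comp_assoc, ← LinearMap.add_comp, sum_inj2_prj2,
      LinearMap.id_comp]
  rw [h1 f, h1 g, h false, h true]

lemma mat2_idem (e : Bool → Bool → ((⨁ n, E n) →ₗ[R] (⨁ n, E n)))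
    (he : ∀ b b', e b false ∘ₗ e false b' + e b true ∘ₗ e true b' = e b b') :
    mat2 E e ∘ₗ mat2 E e = mat2 E e := by
  refine mat2_ext E (fun b => ?_)
  have h0 := he b false
  have h1 := he b true
  calc prj2 E b ∘ₗ mat2 E e ∘ₗ mat2 E e
      = e b false ∘ₗ (prj2 E false ∘ₗ mat2 E e) + e b true ∘ₗ (prj2 E true ∘ₗ mat2 E e) := by
        rw [← LinearMap.comp_assoc, prj2_mat2, LinearMap.add_comp, LinearMap.comp_assoc,
          LinearMap.comp_assoc]
    _ = (e b false ∘ₗ e false false + e b true ∘ₗ e true false) ∘ₗ prj2 E false +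
        (e b false ∘ₗ e false true + e b true ∘ₗ e true true) ∘ₗ prj2 E true := by
        rw [prj2_mat2, prj2_mat2]
        simp only [LinearMap.comp_add, LinearMap.add_comp, LinearMap.comp_assoc]
        abel
    _ = prj2 E b ∘ₗ mat2 E e := by rw [h0, h1, prj2_mat2]

end Two

section Coefs

variable {k : Type} [Field k]

lemma coef_add (G : GenSys k Z0 (Option Q0.Arr)) (S T : M0 G →ₗ[↥(R0 G)] M0 G)
    (p : Finset ℕ) : coef G (S + T) p = coef G S p + coef G T p := by
  unfold coef
  by_cases h : p.Nonempty ∧ p.card ≠ 2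
  · rw [dif_pos h, dif_pos h, dif_pos h, LinearMap.add_apply, DirectSum.add_apply, map_add]
  · rw [dif_neg h, dif_neg h, dif_neg h, add_zero]

lemma coef_sub (G : GenSys k Z0 (Option Q0.Arr)) (S T : M0 G →ₗ[↥(R0 G)] M0 G)
    (p : Finset ℕ) : coef G (S - T) p = coef G S p - coef G T p := by
  have := coef_add G (S - T) T p
  rw [sub_add_cancel] at this
  rw [this, add_sub_cancel_right]

/-- The entries of the idempotent. -/
noncomputable def ent {M : Type} [AddCommGroup M] (τ : ℕ → M) : Bool → Bool → M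
  | false, false => τ 0 - τ 4
  | false, true => τ 2 + τ 3 + τ 4 + τ 5
  | true, false => τ 2 - τ 3
  | true, true => τ 4

lemma ent_idem {R M : Type} [Ring R] [AddCommGroup M] [Module R M] (τ : ℕ → (M →ₗ[R] M))
    (h : ∀ i j, i ≠ 1 → j ≠ 1 → τ i ∘ₗ τ j = τ (i + j)) (b b' : Bool) :
    ent τ b false ∘ₗ ent τ false b' + ent τ b true ∘ₗ ent τ true b' = ent τ b b' := by
  rcases b with _ | _ <;> rcases b' with _ | _ <;>
    simp only [ent, LinearMap.comp_add, LinearMap.add_comp, LinearMap.comp_sub,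
      LinearMap.sub_comp, h 0 0 (by norm_num) (by norm_num), h 0 2 (by norm_num) (by norm_num),
      h 0 3 (by norm_num) (by norm_num), h 0 4 (by norm_num) (by norm_num),
      h 0 5 (by norm_num) (by norm_num), h 4 0 (by norm_num) (by norm_num),
      h 2 0 (by norm_num) (by norm_num), h 3 0 (by norm_num) (by norm_num),
      h 5 0 (by norm_num) (by norm_num), h 2 2 (by norm_num) (by norm_num),
      h 2 3 (by norm_num) (by norm_num), h 2 4 (by norm_num) (by norm_num),
      h 2 5 (by norm_num) (by norm_num), h 3 2 (by norm_num) (by norm_num),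
      h 3 3 (by norm_num) (by norm_num), h 3 4 (by norm_num) (by norm_num),
      h 3 5 (by norm_num) (by norm_num), h 4 2 (by norm_num) (by norm_num),
      h 4 3 (by norm_num) (by norm_num), h 4 4 (by norm_num) (by norm_num),
      h 4 5 (by norm_num) (by norm_num), h 5 2 (by norm_num) (by norm_num),
      h 5 3 (by norm_num) (by norm_num), h 5 4 (by norm_num) (by norm_num),
      h 5 5 (by norm_num) (by norm_num)] <;>
    norm_num <;> abel

/-- Coefficients of the entries of the idempotent. -/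
lemma coef_ent (G : GenSys k Z0 (Option Q0.Arr)) (τ : ℕ → (M0 G →ₗ[↥(R0 G)] M0 G))
    (h : ∀ j, j ≠ 1 → ∀ p : Finset ℕ, p.Nonempty →
        coef G (τ j) p = if p.card = j + 1 then 1 else 0) (b b' : Bool) (p : Finset ℕ)
    (hp : p.Nonempty) : coef G (ent τ b b') p = eent k b b' (p.card - 1) := by
  have hc : p.card ≠ 0 := Finset.card_ne_zero.2 hp
  obtain ⟨l, hl⟩ := Nat.exists_eq_succ_of_ne_zero hc
  have hj : ∀ j, j ≠ 1 → coef G (τ j) p = if l = j then 1 else 0 := by
    intro j hj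
    rw [h j hj p hp, hl]
    simp
  have hl' : p.card - 1 = l := by omega
  rw [hl']
  rcases b with _ | _ <;> rcases b' with _ | _ <;>
    simp only [ent, eent, coef_add, coef_sub, hj 0 (by norm_num), hj 2 (by norm_num),
      hj 3 (by norm_num), hj 4 (by norm_num), hj 5 (by norm_num)]
  by_cases h2 : l = 2
  · subst h2; simp
  by_cases h3 : l = 3
  · subst h3; simp
  by_cases h4 : l = 4
  · subst h4; simp
  by_cases h5 : l = 5
  · subst h5; simp
  simp [h2, h3, h4, h5]

end Coefs

/-- Final assembly. -/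
theorem final (hI : Stmt_I) (hInj : Stmt_Inj) (hEss : Stmt_Ess) (hCoef : Stmt_Coef)
    (hTau : Stmt_Tau) (hDecomp : Stmt_Decomp) (hComb : Stmt_Comb) :
    ¬ (∀ (R : Type) [Ring R] (ι : Type) (E : ι → Type)
      [∀ i, AddCommGroup (E i)] [∀ i, Module R (E i)],
      (∀ i, Module.Injective R (E i)) →
      (∀ i, Nontrivial (E i) ∧
        ∀ A B : Submodule R (E i), IsCompl A B → A = ⊥ ∨ B = ⊥) →
      ∀ N : Submodule R (⨁ i, E i), (∃ N' : Submodule R (⨁ i, E i), IsCompl N N') →
        ∃ (κ : Type) (F : κ → Submodule R (⨁ i, E i)),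
          iSupIndep F ∧ (⨆ j, F j) = N ∧
          ∀ j, Nontrivial ↥(F j) ∧
            ∀ A B : Submodule R ↥(F j), IsCompl A B → A = ⊥ ∨ B = ⊥) := by
  intro H
  obtain ⟨G⟩ := hI ℂ Z0 (Option Q0.Arr)
  obtain ⟨hs0, hs1, hs2, hs3, hs4⟩ := hEss ℂ G
  obtain ⟨τ, hτ0, hτc, hτs, hτp⟩ := hTau ℂ G
  obtain ⟨hC1, hC2⟩ := hCoef ℂ G
  -- the idempotent
  set e := mat2 (R := ↥(R0 G)) (EE G) (ent τ) with he
  have hee : e ∘ₗ e = e := mat2_idem (EE G) (ent τ) (ent_idem τ hτc)
  have hindec : ∀ i : ℕ × Bool, Nontrivial (EE G i.1) ∧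
      ∀ A B : Submodule ↥(R0 G) (EE G i.1), IsCompl A B → A = ⊥ ∨ B = ⊥ := by
    rintro ⟨n, b⟩
    refine ⟨⟨⟨soc G n, 0, hs0 n⟩⟩, ?_⟩
    intro A B hAB
    by_contra hc
    push Not at hc
    obtain ⟨hA, hB⟩ := hc
    obtain ⟨a, haA, ha0⟩ := Submodule.exists_mem_ne_zero_of_ne_bot hA
    obtain ⟨b, hbB, hb0⟩ := Submodule.exists_mem_ne_zero_of_ne_bot hB
    obtain ⟨r, hr⟩ := hs1 n a ha0
    obtain ⟨r', hr'⟩ := hs1 n b hb0
    have h1 : soc G n ∈ A := hr ▸ A.smul_mem r haA
    have h2 : soc G n ∈ B := hr' ▸ B.smul_mem r' hbB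
    exact hs0 n (Submodule.disjoint_def.1 hAB.disjoint _ h1 h2)
  -- values of `e` on the socle generators
  have heF : ∀ m, e (DirectSum.of (fun i : ℕ × Bool => EE G i.1) (m, false) (soc G m)) =
      DirectSum.of (fun i : ℕ × Bool => EE G i.1) (m, false) (soc G m) := by
    intro m
    have h1 : prj2 (R := ↥(R0 G)) (EE G) false
        (DirectSum.of (fun i : ℕ × Bool => EE G i.1) (m, false) (soc G m)) =
        DirectSum.of (fun n => EE G n) m (soc G m) := prj2_lof_same (EE G) false m (soc G m)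
    have h2 : prj2 (R := ↥(R0 G)) (EE G) true
        (DirectSum.of (fun i : ℕ × Bool => EE G i.1) (m, false) (soc G m)) = 0 :=
      prj2_lof_ne (EE G) true false (by simp) m (soc G m)
    have h3 : inj2 (R := ↥(R0 G)) (EE G) false (DirectSum.of (fun n => EE G n) m (soc G m)) =
        DirectSum.of (fun i : ℕ × Bool => EE G i.1) (m, false) (soc G m) :=
      inj2_lof (EE G) false m (soc G m)
    rw [he]
    simp only [mat2, LinearMap.add_apply, LinearMap.comp_apply, h1, h2, map_zero, add_zero, ent,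
      LinearMap.sub_apply, hτ0, LinearMap.id_apply, hτs 4 (by norm_num) m,
      hτs 2 (by norm_num) m, hτs 3 (by norm_num) m, sub_zero, h3]
  have heT : ∀ m, e (DirectSum.of (fun i : ℕ × Bool => EE G i.1) (m, true) (soc G m)) = 0 := by
    intro m
    have h1 : prj2 (R := ↥(R0 G)) (EE G) true
        (DirectSum.of (fun i : ℕ × Bool => EE G i.1) (m, true) (soc G m)) =
        DirectSum.of (fun n => EE G n) m (soc G m) := prj2_lof_same (EE G) true m (soc G m)
    have h2 : prj2 (R := ↥(R0 G)) (EE G) false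
        (DirectSum.of (fun i : ℕ × Bool => EE G i.1) (m, true) (soc G m)) = 0 :=
      prj2_lof_ne (EE G) false true (by simp) m (soc G m)
    rw [he]
    simp only [mat2, LinearMap.add_apply, LinearMap.comp_apply, h1, h2, map_zero, add_zero, ent,
      hτs 4 (by norm_num) m, hτs 2 (by norm_num) m, hτs 3 (by norm_num) m,
      hτs 5 (by norm_num) m]
  have hF := H ↥(R0 G) (ℕ × Bool) (fun i => EE G i.1) (fun i => hInj ℂ G i.1) hindec
    (LinearMap.range e) ⟨LinearMap.ker e, LinearMap.IsIdempotentElem.isCompl hee⟩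
  have hD := hDecomp ℂ ↥(R0 G) (EE G) (soc G) e (hInj ℂ G) hs0 hs1 hee
    (by
      intro T m
      choose κ hκ using fun b : Bool => hs4 m
        ((DirectSum.component ↥(R0 G) (ℕ × Bool) (fun i => EE G i.1) (m, b)) ∘ₗ T ∘ₗ
          (DirectSum.lof ↥(R0 G) (ℕ × Bool) (fun i => EE G i.1) (m, false)))
      have h0 : ∀ (n : ℕ) (b : Bool), m ≠ n →
          (T (DirectSum.of (fun i : ℕ × Bool => EE G i.1) (m, false) (soc G m))) (n, b) = 0 :=
        fun n b hmn => hs3 m n
          ((DirectSum.component ↥(R0 G) (ℕ × Bool) (fun i => EE G i.1) (n, b)) ∘ₗ T ∘ₗ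
            (DirectSum.lof ↥(R0 G) (ℕ × Bool) (fun i => EE G i.1) (m, false))) hmn
      have h1 : ∀ b : Bool,
          (T (DirectSum.of (fun i : ℕ × Bool => EE G i.1) (m, false) (soc G m))) (m, b) =
          algebraMap ℂ ↥(R0 G) (κ b) • soc G m := fun b => hκ b
      have h2 : T (DirectSum.of (fun i : ℕ × Bool => EE G i.1) (m, false) (soc G m)) =
          algebraMap ℂ ↥(R0 G) (κ false) •
            DirectSum.of (fun i : ℕ × Bool => EE G i.1) (m, false) (soc G m) +
          algebraMap ℂ ↥(R0 G) (κ true) •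
            DirectSum.of (fun i : ℕ × Bool => EE G i.1) (m, true) (soc G m) := by
        refine DFinsupp.ext (fun i => ?_)
        obtain ⟨n, b⟩ := i
        rw [DirectSum.add_apply, DirectSum.smul_apply, DirectSum.smul_apply]
        by_cases hn : m = n
        · subst hn
          rw [h1 b]
          rcases b with _ | _
          · rw [DirectSum.of_eq_same, DirectSum.of_eq_of_ne _ _ _ (by simp), smul_zero, add_zero]
          · rw [DirectSum.of_eq_same, DirectSum.of_eq_of_ne _ _ _ (by simp), smul_zero, zero_add]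
        · rw [h0 n b hn, DirectSum.of_eq_of_ne _ _ _ (by simp [Ne.symm hn]),
            DirectSum.of_eq_of_ne _ _ _ (by simp [Ne.symm hn]), smul_zero, smul_zero, add_zero]
      refine ⟨κ false, ?_⟩
      rw [h2, map_add, map_smul, map_smul, heF, heT, smul_zero, add_zero])
    (by
      intro y hy hy0
      obtain ⟨r, m, κ, hκ, hr⟩ := hs2 y hy0
      have hr' : r • y = algebraMap ℂ ↥(R0 G) (κ false) •
            DirectSum.of (fun i : ℕ × Bool => EE G i.1) (m, false) (soc G m) +
          algebraMap ℂ ↥(R0 G) (κ true) •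
            DirectSum.of (fun i : ℕ × Bool => EE G i.1) (m, true) (soc G m) := by
        rw [hr]
        congr 1
        · exact (DirectSum.lof ↥(R0 G) (ℕ × Bool) (fun i => EE G i.1) (m, false)).map_smul _ _
        · exact (DirectSum.lof ↥(R0 G) (ℕ × Bool) (fun i => EE G i.1) (m, true)).map_smul _ _
      obtain ⟨x, hx⟩ := hy
      have he1 : e (r • y) = r • y := by
        rw [map_smul, ← hx]
        congr 1
        exact LinearMap.congr_fun hee x
      have he2 : r • y = algebraMap ℂ ↥(R0 G) (κ false) •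
            DirectSum.of (fun i : ℕ × Bool => EE G i.1) (m, false) (soc G m) := by
        rw [← he1, hr', map_add, map_smul, map_smul, heF, heT, smul_zero, add_zero]
      have hκt : κ true = 0 := by
        by_contra hne
        rw [he2] at hr'
        have h3 : algebraMap ℂ ↥(R0 G) (κ true) •
            DirectSum.of (fun i : ℕ × Bool => EE G i.1) (m, true) (soc G m) = 0 := by
          have := hr'.symm
          rwa [add_eq_left] at this
        have h4 : DirectSum.of (fun i : ℕ × Bool => EE G i.1) (m, true) (soc G m) = 0 := by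
          have := congrArg (fun y => algebraMap ℂ ↥(R0 G) (κ true)⁻¹ • y) h3
          simp only [smul_smul, ← map_mul, inv_mul_cancel₀ hne, map_one, one_smul,
            smul_zero] at this
          exact this
        have h5 := DFunLike.congr_fun h4 (m, true)
        rw [DirectSum.of_eq_same] at h5
        exact hs0 m h5
      have hκf : κ false ≠ 0 := by
        intro h0
        apply hκ
        funext b
        rcases b with _ | _
        · exact h0
        · exact hκt
      refine ⟨algebraMap ℂ ↥(R0 G) (κ false)⁻¹ * r, m, ?_⟩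
      rw [mul_smul, he2, smul_smul, ← map_mul, inv_mul_cancel₀ hκf, map_one, one_smul])
    heF
    (by
      intro m m' T hmm
      exact hs3 m' m (T ∘ₗ DirectSum.lof ↥(R0 G) (ℕ × Bool) (fun i => EE G i.1) (m', false))
        (Ne.symm hmm))
    hF
  obtain ⟨g, h, hhg, hgh⟩ := hD
  refine hComb ℂ (fun b => coef G (prj2 (EE G) b ∘ₗ g)) (fun b => coef G (h ∘ₗ inj2 (EE G) b))
    (fun b => hC1 _) (fun b => hC1 _) (fun b p hp => ⟨Cusp.coef_card_two G _ hp,
      Cusp.coef_card_two G _ hp⟩) ?_ ?_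
  · intro p hp
    have h1 : ∀ b : Bool, coef G ((h ∘ₗ inj2 (EE G) b) ∘ₗ (prj2 (EE G) b ∘ₗ g)) p =
        ∑ x ∈ p, coef G (prj2 (EE G) b ∘ₗ g) (p.filter (· ≤ x)) *
          coef G (h ∘ₗ inj2 (EE G) b) (p.filter (x ≤ ·)) := fun b => hC2 _ _ p hp
    have h2 : (h ∘ₗ inj2 (EE G) false) ∘ₗ (prj2 (EE G) false ∘ₗ g) +
        (h ∘ₗ inj2 (EE G) true) ∘ₗ (prj2 (EE G) true ∘ₗ g) = τ 0 := by
      rw [hτ0, ← hhg]
      have := sum_inj2_prj2 (R := ↥(R0 G)) (EE G)
      calc _ = h ∘ₗ (inj2 (EE G) false ∘ₗ prj2 (EE G) false +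
            inj2 (EE G) true ∘ₗ prj2 (EE G) true) ∘ₗ g := by
            simp only [LinearMap.comp_add, LinearMap.add_comp, LinearMap.comp_assoc]
        _ = h ∘ₗ g := by rw [this, LinearMap.id_comp]
    have h3 := congrArg (fun T => coef G T p) h2
    simp only [coef_add] at h3
    rw [hτp 0 (by norm_num) p hp] at h3
    rw [Fintype.sum_bool, ← h1 true, ← h1 false, add_comm]
    simpa using h3
  · intro b b' p hp
    have h1 := hC2 (prj2 (EE G) b ∘ₗ g) (h ∘ₗ inj2 (EE G) b') p hp
    have h2 : (prj2 (EE G) b ∘ₗ g) ∘ₗ (h ∘ₗ inj2 (EE G) b') = ent τ b b' := by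
      rw [← prj2_mat2_inj2 (EE G) (ent τ) b b', ← he, ← hgh]
      simp only [LinearMap.comp_assoc]
    rw [← h1, h2, coef_ent G τ hτp b b' p hp]

end Pool.Agent.Matlis
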