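import Pool.Agent.Matlis.Cusp

/-!
# Matlis' problem: `R`-linear maps between the `E_n` on elements `f ⊗ v0`
-/

set_option autoImplicit false

open scoped TensorProduct DirectSum
open Module

namespace Pool.Agent.Matlis

namespace Cusp

section general

variable {k : Type} [Field k] {Z : Type} [DecidableEq Z] {Q : Quiv Z}

omit [DecidableEq Z] in
theorem finFam_bot (G : GenSys k Z (Option Q.Arr)) :
    FinFam (fun z => (⊥ : Submodule k (G.V z))) :=
  ⟨by simp, fun _ => Submodule.fg_bot⟩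

omit [DecidableEq Z] in
theorem finFam_sup (G : GenSys k Z (Option Q.Arr)) {U U' : ∀ z, Submodule k (G.V z)}
    (h : FinFam U) (h' : FinFam U') : FinFam (fun z => U z ⊔ U' z) := by
  refine ⟨(h.1.union h'.1).subset ?_, fun z => (h.2 z).sup (h'.2 z)⟩
  intro z hz
  by_contra hcon
  simp only [Set.mem_union, not_or] at hcon
  have h1 : U z = ⊥ := by by_contra h; exact hcon.1 h
  have h2 : U' z = ⊥ := by by_contra h; exact hcon.2 h
  exact hz (by simp only [h1, h2, sup_bot_eq])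

theorem finFam_single (G : GenSys k Z (Option Q.Arr)) (z : Z) (v : G.V z) :
    FinFam (fun z' => if h : z' = z then Submodule.span k {(h ▸ v : G.V z')} else ⊥) := by
  refine ⟨(Set.finite_singleton z).subset ?_, ?_⟩
  · intro z' hz'
    by_contra hne
    apply hz'
    have hne' : ¬ z' = z := hne
    simp only [hne', dif_neg, not_false_eq_true]
  · intro z'
    by_cases h : z' = z
    · simp only [h, dif_pos]
      exact Submodule.fg_span_singleton _
    · simp only [h, dif_neg, not_false_eq_true]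
      exact Submodule.fg_bot

theorem HatU_mono (G : GenSys k Z (Option Q.Arr)) (N : Rep k Q)
    {U U' : ∀ z, Submodule k (G.V z)} (h : ∀ z, U z ≤ U' z) : HatU G N U ≤ HatU G N U' := by
  refine Submodule.span_mono ?_
  rintro y ⟨z, n, u, hu, rfl⟩
  exact ⟨z, n, u, h z hu, rfl⟩

/-- every element lies in `HatU` for a finite family -/
theorem exists_fam (G : GenSys k Z (Option Q.Arr)) (N : Rep k Q) (y : Hat G N) :
    ∃ U : ∀ z, Submodule k (G.V z), FinFam U ∧ y ∈ HatU G N U := by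
  induction y using hat_induction G N with
  | h0 => exact ⟨_, finFam_bot G, Submodule.zero_mem _⟩
  | hadd y y' hy hy' =>
    obtain ⟨U, hU, hyU⟩ := hy
    obtain ⟨U', hU', hyU'⟩ := hy'
    exact ⟨_, finFam_sup G hU hU', Submodule.add_mem _
      (HatU_mono G N (fun z => le_sup_left) hyU) (HatU_mono G N (fun z => le_sup_right) hyU')⟩
  | h z n v =>
    refine ⟨_, finFam_single G z v, Submodule.subset_span ⟨z, n, v, ?_, rfl⟩⟩
    simp only [dif_pos]
    exact Submodule.mem_span_singleton_self _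

/-- the functional `ψ` applied to the second factor -/
noncomputable def rd (G : GenSys k Z (Option Q.Arr)) (N : Rep k Q) (z : Z) :
    Hat G N →ₗ[k] N.N z :=
  (TensorProduct.rid k (N.N z)).toLinearMap ∘ₗ (LinearMap.lTensor (N.N z) (G.psi z)) ∘ₗ
    (hπ G N z)

theorem rd_same (G : GenSys k Z (Option Q.Arr)) (N : Rep k Q) (z : Z) (n : N.N z) (v : G.V z) :
    rd G N z (hι G N z (n ⊗ₜ[k] v)) = G.psi z v • n := by
  simp [rd]

theorem rd_v0 (G : GenSys k Z (Option Q.Arr)) (N : Rep k Q) (z : Z) (n : N.N z) :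
    rd G N z (hι G N z (n ⊗ₜ[k] G.v0 z)) = n := by
  rw [rd_same, G.psi_v0, one_smul]

/-- the operator killing `v0 z` only -/
noncomputable def kil (G : GenSys k Z (Option Q.Arr)) (z : Z) (z' : Z) :
    Module.End k (G.V z') :=
  if z' = z then LinearMap.id - (G.psi z').smulRight (G.v0 z') else LinearMap.id

theorem kil_same (G : GenSys k Z (Option Q.Arr)) (z : Z) (v : G.V z) :
    kil G z z v = v - G.psi z v • G.v0 z := by
  simp [kil]

theorem kil_ne (G : GenSys k Z (Option Q.Arr)) {z z' : Z} (h : z' ≠ z) :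
    kil G z z' = LinearMap.id := by
  simp [kil, h]

/-- an element killed by `kil` is of the form `n ⊗ v0` -/
theorem eq_of_kil (G : GenSys k Z (Option Q.Arr)) (N : Rep k Q) (z : Z) (y : Hat G N)
    (h : hdiag G N (kil G z) y = 0) : y = hι G N z (rd G N z y ⊗ₜ[k] G.v0 z) := by
  apply hat_ext
  intro z'
  by_cases hz : z' = z
  · subst hz
    rw [hπ_hι_same]
    have h1 : ∀ t : N.N z' ⊗[k] G.V z', LinearMap.lTensor (N.N z') (kil G z' z') t =
        t - ((TensorProduct.rid k (N.N z')) (LinearMap.lTensor (N.N z') (G.psi z') t))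
          ⊗ₜ[k] G.v0 z' := by
      intro t
      induction t using TensorProduct.induction_on with
      | zero => simp
      | tmul n v =>
        rw [LinearMap.lTensor_tmul, kil_same, LinearMap.lTensor_tmul, TensorProduct.rid_tmul,
          TensorProduct.tmul_sub, TensorProduct.tmul_smul, TensorProduct.smul_tmul']
      | add a b ha hb =>
        rw [map_add, ha, hb, map_add, map_add, TensorProduct.add_tmul]
        abel
    have h2 : hπ G N z' (hdiag G N (kil G z') y) = 0 := by rw [h, map_zero]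
    rw [hπ_hdiag, h1] at h2
    exact sub_eq_zero.1 h2
  · rw [hπ_hι_ne G N (Ne.symm hz)]
    have h2 : hπ G N z' (hdiag G N (kil G z) y) = 0 := by rw [h, map_zero]
    rw [hπ_hdiag, kil_ne G hz, LinearMap.lTensor_id] at h2
    exact h2

end general

section concrete

variable {k : Type} [Field k]

/-- inclusion of the component `z` in `E_n` -/
noncomputable def inE (G : GenSys k Z0 (Option Q0.Arr)) (n : ℕ) (z : Z0) :
    ((Irep k n).N z ⊗[k] G.V z) →ₗ[k] EE G n :=
  hι G (Irep k n) z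

/-- the operator of `r ∈ R` on `E_n` -/
noncomputable def opE (G : GenSys k Z0 (Option Q0.Arr)) (n : ℕ) (r : ↥(R0 G)) :
    Module.End k (EE G n) :=
  actE G n r

theorem smul_EE (G : GenSys k Z0 (Option Q0.Arr)) (n : ℕ) (r : ↥(R0 G)) (y : EE G n) :
    r • y = opE G n r y := rfl

theorem alg_EE (G : GenSys k Z0 (Option Q0.Arr)) (n : ℕ) (a : k) (y : EE G n) :
    (algebraMap k ↥(R0 G) a) • y = a • y := rfl

theorem lin_k (G : GenSys k Z0 (Option Q0.Arr)) (n m : ℕ)
    (T : EE G n →ₗ[↥(R0 G)] EE G m) (a : k) (y : EE G n) : T (a • y) = a • T y := by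
  rw [← alg_EE, ← alg_EE, map_smul]

theorem dens1 (hRm : Stmt_Rmem) (hD : Stmt_Dens) (G : GenSys k Z0 (Option Q0.Arr))
    (U : ∀ z, Submodule k (G.V z)) (hU : FinFam U) (g : ∀ z, Module.End k (G.V z)) :
    ∃ r : ↥(R0 G), ∀ n z (f : (Irep k n).N z), ∀ u ∈ U z,
      r • (inE G n z (f ⊗ₜ[k] u)) = inE G n z (f ⊗ₜ[k] g z u) := by
  obtain ⟨r, hr, hrg⟩ := (hD k Z0 Q0 G (Z0 ⊕ ℕ) (NN0 k)).1 U hU g
  exact ⟨⟨r, ((hRm k Z0 Q0 G (Z0 ⊕ ℕ) (NN0 k)).1 r).2 hr⟩, fun n z f u hu =>
    hrg (Sum.inr n) z f u hu⟩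

theorem dens2 (hRm : Stmt_Rmem) (hD : Stmt_Dens) (G : GenSys k Z0 (Option Q0.Arr))
    (a : Arr0) : ∃ r : ↥(R0 G), ∀ n (f : (Irep k n).N a.s),
      r • (inE G n a.s (f ⊗ₜ[k] G.v0 a.s)) =
        inE G n (Z0.nat a.t) (mapA k n a f ⊗ₜ[k] G.v0 (Z0.nat a.t)) := by
  obtain ⟨r, hr, hra⟩ := (hD k Z0 Q0 G (Z0 ⊕ ℕ) (NN0 k)).2 a
  exact ⟨⟨r, ((hRm k Z0 Q0 G (Z0 ⊕ ℕ) (NN0 k)).1 r).2 hr⟩, fun n f => hra (Sum.inr n) f⟩

theorem dens_hdiag (G : GenSys k Z0 (Option Q0.Arr)) (m : ℕ)
    (U : ∀ z, Submodule k (G.V z)) (g : ∀ z, Module.End k (G.V z)) (r : ↥(R0 G))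
    (hr : ∀ z (f : (Irep k m).N z), ∀ u ∈ U z,
      r • (inE G m z (f ⊗ₜ[k] u)) = inE G m z (f ⊗ₜ[k] g z u))
    (y : EE G m) (hy : (y : Hat G (Irep k m)) ∈ HatU G (Irep k m) U) :
    r • y = (hdiag G (Irep k m) g y : Hat G (Irep k m)) := by
  have h4 : ∀ y' ∈ HatU G (Irep k m) U, opE G m r y' = hdiag G (Irep k m) g y' := by
    intro y' hy'
    induction hy' using Submodule.span_induction with
    | mem x hx =>
      obtain ⟨z', n', u, hu, rfl⟩ := hx
      rw [hdiag_hι]
      exact hr z' n' u hu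
    | zero => rw [map_zero]; exact map_zero _
    | add x x' _ _ hx hx' =>
      rw [map_add (hdiag G (Irep k m) g), ← hx, ← hx']; exact map_add (opE G m r) x x'
    | smul c x _ hx =>
      rw [map_smul (hdiag G (Irep k m) g), ← hx]; exact map_smul (opE G m r) c x
  exact h4 y hy

/-- the coefficient function of an element `f ⊗ v0` -/
noncomputable def rdE (G : GenSys k Z0 (Option Q0.Arr)) (m : ℕ) (z : Z0) :
    EE G m →ₗ[k] (Irep k m).N z :=
  rd G (Irep k m) z

theorem rdE_v0 (G : GenSys k Z0 (Option Q0.Arr)) (m : ℕ) (z : Z0) (f : (Irep k m).N z) :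
    rdE G m z (inE G m z (f ⊗ₜ[k] G.v0 z)) = f := rd_v0 G (Irep k m) z f

/-- `R`-linear maps preserve the elements `f ⊗ v0`. -/
theorem lin_v0 (hRm : Stmt_Rmem) (hD : Stmt_Dens) (G : GenSys k Z0 (Option Q0.Arr)) (n m : ℕ)
    (T : EE G n →ₗ[↥(R0 G)] EE G m) (z : Z0) (f : (Irep k n).N z) :
    T (inE G n z (f ⊗ₜ[k] G.v0 z)) =
      inE G m z (rdE G m z (T (inE G n z (f ⊗ₜ[k] G.v0 z))) ⊗ₜ[k] G.v0 z) := by
  classical
  apply eq_of_kil
  obtain ⟨y, hy⟩ : ∃ y : EE G m, y = T (inE G n z (f ⊗ₜ[k] G.v0 z)) := ⟨_, rfl⟩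
  rw [← hy]
  obtain ⟨U, hU, hyU⟩ := exists_fam G (Irep k m) y
  obtain ⟨r, hr⟩ := dens1 hRm hD G _ (finFam_sup G hU (finFam_single G z (G.v0 z))) (kil G z)
  have h1 : r • (inE G n z (f ⊗ₜ[k] G.v0 z)) = 0 := by
    rw [hr n z f (G.v0 z) (by
      apply Submodule.mem_sup_right
      simp only [dif_pos]
      exact Submodule.mem_span_singleton_self _)]
    rw [kil_same, G.psi_v0, one_smul, sub_self, TensorProduct.tmul_zero, map_zero]
  have h3 : r • y = 0 := by
    rw [hy, ← map_smul, h1, map_zero]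
  have h4 := dens_hdiag G m U (kil G z) r
    (fun z' f' u hu => hr m z' f' u (Submodule.mem_sup_left hu)) y hyU
  exact h4.symm.trans h3

/-- The coefficient function of `T`. -/
noncomputable def tcoef (G : GenSys k Z0 (Option Q0.Arr)) (n m : ℕ)
    (T : EE G n →ₗ[↥(R0 G)] EE G m) (p : Finset ℕ) : k :=
  chi G m (T (pstar G n m p))

theorem chi_v0 (G : GenSys k Z0 (Option Q0.Arr)) (m : ℕ) (f : (Irep k m).N (Z0.nat m)) :
    chi G m (inE G m (Z0.nat m) (f ⊗ₜ[k] G.v0 (Z0.nat m))) = ex f {m} := by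
  have hadm : Adm (Z0.nat m) m {m} := by simp [Adm]
  rw [ex_of f hadm]
  have h1 : chi G m (inE G m (Z0.nat m) (f ⊗ₜ[k] G.v0 (Z0.nat m))) =
      (LinearMap.mul' k k) (TensorProduct.map
        (LinearMap.proj (R := k) (φ := fun _ : {s : Finset ℕ // Adm (Z0.nat m) m s} => k)
        ⟨{m}, hadm⟩) (G.psi (Z0.nat m))
        (hπ G (Irep k m) (Z0.nat m) (hι G (Irep k m) (Z0.nat m) (f ⊗ₜ[k] G.v0 (Z0.nat m))))) :=
    rfl
  rw [h1, hπ_hι_same]
  have h2 : (TensorProduct.map
        (LinearMap.proj (R := k) (φ := fun _ : {s : Finset ℕ // Adm (Z0.nat m) m s} => k)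
        ⟨{m}, hadm⟩) (G.psi (Z0.nat m))) (f ⊗ₜ[k] G.v0 (Z0.nat m)) =
      ((f : {s : Finset ℕ // Adm (Z0.nat m) m s} → k) ⟨{m}, hadm⟩) ⊗ₜ[k]
        (G.psi (Z0.nat m) (G.v0 (Z0.nat m))) := rfl
  refine (congrArg (LinearMap.mul' k k) h2).trans ?_
  rw [LinearMap.mul'_apply, G.psi_v0, mul_one]

/-- indicator functions -/
noncomputable def ind (k : Type) [Field k] (n m : ℕ) (p : Finset ℕ) :
    (Irep k n).N (Z0.nat m) :=
  open Classical in
  (fun q : {s : Finset ℕ // Adm (Z0.nat m) n s} => if q.1 = p then (1 : k) else 0)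

theorem pstar_eq (G : GenSys k Z0 (Option Q0.Arr)) (n m : ℕ) (p : Finset ℕ) :
    pstar G n m p = inE G n (Z0.nat m) (ind k n m p ⊗ₜ[k] G.v0 (Z0.nat m)) := rfl

theorem ex_ind (n m : ℕ) (p s : Finset ℕ) (hs : Adm (Z0.nat m) n s) :
    ex (ind k n m p) s = if s = p then 1 else 0 := by
  classical
  rw [ex_of _ hs]
  simp [ind]

theorem ex_sum {z : Z0} {n : ℕ} (A : Finset (Finset ℕ)) (g : Finset ℕ → (Irep k n).N z)
    (s : Finset ℕ) : ex (∑ p ∈ A, g p) s = ∑ p ∈ A, ex (g p) s := by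
  classical
  induction A using Finset.induction_on with
  | empty =>
    simp only [Finset.sum_empty]
    by_cases h : Adm z n s
    · rw [ex_of _ h]; rfl
    · rw [ex_not _ h]
  | insert a t ha ih => rw [Finset.sum_insert ha, Finset.sum_insert ha, ex_add, ih]

theorem sum_ind (n m : ℕ) (f : (Irep k n).N (Z0.nat m)) :
    f = ∑ p ∈ AF m n, ex f p • ind k n m p := by
  classical
  apply ex_ext
  intro s hs
  rw [ex_sum, Finset.sum_eq_single s]
  · rw [ex_smul, ex_ind n m s s hs, if_pos rfl, mul_one]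
  · intro b _ hb
    rw [ex_smul, ex_ind n m b s hs, if_neg (Ne.symm hb), mul_zero]
  · intro h; exact absurd (mem_AF.2 hs) h

/-- Fullness: `T` acts on `f ⊗ v0` by the natural map with its coefficient function. -/
theorem fullness (hRm : Stmt_Rmem) (hD : Stmt_Dens) (G : GenSys k Z0 (Option Q0.Arr)) (n m : ℕ)
    (T : EE G n →ₗ[↥(R0 G)] EE G m) (z : Z0) (f : (Irep k n).N z) :
    T (inE G n z (f ⊗ₜ[k] G.v0 z)) =
      inE G m z (Nm (tcoef G n m T) n m z f ⊗ₜ[k] G.v0 z) := by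
  classical
  let tau : ∀ z, (Irep k n).N z → (Irep k m).N z := fun z f =>
    rdE G m z (T (inE G n z (f ⊗ₜ[k] G.v0 z)))
  have htau : ∀ z f, T (inE G n z (f ⊗ₜ[k] G.v0 z)) =
      inE G m z (tau z f ⊗ₜ[k] G.v0 z) := fun z f => lin_v0 hRm hD G n m T z f
  have tau_uniq : ∀ z f g, T (inE G n z (f ⊗ₜ[k] G.v0 z)) =
      inE G m z (g ⊗ₜ[k] G.v0 z) → tau z f = g := by
    intro z f g h
    change rdE G m z (T (inE G n z (f ⊗ₜ[k] G.v0 z))) = g
    rw [h]; exact rdE_v0 G m z g
  -- linearity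
  have tau_sum : ∀ (A : Finset (Finset ℕ)) (c : Finset ℕ → k)
      (g : Finset ℕ → (Irep k n).N (Z0.nat m)),
      tau (Z0.nat m) (∑ p ∈ A, c p • g p) = ∑ p ∈ A, c p • tau (Z0.nat m) (g p) := by
    intro A c g
    apply tau_uniq
    rw [TensorProduct.sum_tmul, map_sum, TensorProduct.sum_tmul, map_sum, map_sum]
    refine Finset.sum_congr rfl (fun p _ => ?_)
    rw [← TensorProduct.smul_tmul', ← TensorProduct.smul_tmul', map_smul (inE G n (Z0.nat m)),
      map_smul (inE G m (Z0.nat m)), lin_k, htau]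
  -- naturality
  have tau_nat : ∀ (a : Arr0) (f : (Irep k n).N a.s),
      mapA k m a (tau a.s f) = tau (Z0.nat a.t) (mapA k n a f) := by
    intro a f
    symm
    apply tau_uniq
    obtain ⟨r, hr⟩ := dens2 hRm hD G a
    rw [← hr n f, map_smul, htau, hr m]
  -- the coefficient at the identity
  have hadm : Adm (Z0.nat m) m {m} := by simp [Adm]
  have tau_m : ∀ f : (Irep k n).N (Z0.nat m), ex (tau (Z0.nat m) f) {m} =
      ∑ p ∈ AF m n, tcoef G n m T p * ex f p := by
    intro f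
    conv_lhs => rw [sum_ind n m f, tau_sum]
    rw [ex_sum]
    refine Finset.sum_congr rfl (fun p _ => ?_)
    rw [ex_smul]
    have h5 : tcoef G n m T p = ex (tau (Z0.nat m) (ind k n m p)) {m} := by
      rw [← chi_v0 G m, ← htau]; rfl
    rw [h5, mul_comm]
  have main : tau z f = Nm (tcoef G n m T) n m z f := by
    apply ex_ext
    intro q hq
    rw [ex_Nm _ n m z f hq]
    by_cases hz : z = Z0.nat m
    · subst hz
      have hqm : q = {m} := by
        ext x
        rw [Finset.mem_singleton]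
        constructor
        · intro hx
          have := hq.2.2.1 x hx
          omega
        · rintro rfl; exact hq.1
      rw [hqm, tau_m]
      refine Finset.sum_congr rfl (fun p hp => ?_)
      have hp' := mem_AF.1 hp
      rw [Finset.union_eq_left.2 (by simpa using hp'.2.1)]
    · have h1 := tau_nat ⟨z, m, q, hq, hz⟩ f
      have h2 := ex_map (k := k) ⟨z, m, q, hq, hz⟩ (tau z f) hadm
      rw [Finset.union_eq_right.2 (by simpa using adm_mem hq)] at h2
      change ex (mapA k m ⟨z, m, q, hq, hz⟩ (tau z f)) {m} = ex (tau z f) q at h2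
      rw [← h2]
      have h3 := tau_m (mapA k n ⟨z, m, q, hq, hz⟩ f)
      have h4 : ex (mapA k m ⟨z, m, q, hq, hz⟩ (tau z f)) {m} =
          ex (tau (Z0.nat m) (mapA k n ⟨z, m, q, hq, hz⟩ f)) {m} := congrArg (fun g => ex g {m}) h1
      rw [h4, h3]
      refine Finset.sum_congr rfl (fun p hp => ?_)
      rw [ex_map (k := k) ⟨z, m, q, hq, hz⟩ f (mem_AF.1 hp)]
  rw [htau, main]

end concrete

end Cusp

end Pool.Agent.Matlis
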