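import Pool.Agent.Matlis.Defs

/-!
# Matlis' problem: step (c), tasks (`Stmt_StepC`)
-/

set_option autoImplicit false

open Module

namespace Pool.Agent.Matlis

namespace StepC

section

variable {k : Type} [Field k] {X Z L : Type} {V : Z → Type}
    [∀ z, AddCommGroup (V z)] [∀ z, Module k (V z)]

theorem map_inl_inj : Function.Injective (Option.map (Sum.inl : X → X ⊕ Task k Z L V)) :=
  Option.map_injective Sum.inl_injective

/-- the reduction map -/
noncomputable def red (z : Z) : (Option (X ⊕ Task k Z L V) →₀ V z) →ₗ[k] (Option X →₀ V z) :=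
  Finsupp.lsum k (fun o : Option (X ⊕ Task k Z L V) => match o with
    | none => Finsupp.lsingle none
    | some (Sum.inl t) => Finsupp.lsingle (some t)
    | some (Sum.inr y) => (Finsupp.lsingle none) ∘ₗ (y.g z))

theorem red_none (z : Z) (v : V z) :
    red (k := k) (X := X) (L := L) z (Finsupp.single none v) = Finsupp.single none v := by
  simp [red]

theorem red_inl (z : Z) (t : X) (v : V z) :
    red (k := k) (X := X) (L := L) z (Finsupp.single (some (Sum.inl t)) v) =
      Finsupp.single (some t) v := by
  simp [red]

theorem red_inr (z : Z) (y : Task k Z L V) (v : V z) :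
    red (X := X) z (Finsupp.single (some (Sum.inr y)) v) = Finsupp.single none (y.g z v) := by
  simp [red]

theorem red_ren (z : Z) (ξ : Option X →₀ V z) :
    red (L := L) z (ren (k := k) (V := V z) (Sum.inl : X → X ⊕ Task k Z L V) ξ) = ξ := by
  induction ξ using Finsupp.induction_linear with
  | zero => simp
  | add a b ha hb => rw [map_add, map_add, ha, hb]
  | single o v =>
    rw [Finsupp.lmapDomain_apply, Finsupp.mapDomain_single]
    rcases o with _ | t
    · exact red_none z v
    · exact red_inl z t v

theorem red_mem (Rl : ∀ z, Submodule k (Option X →₀ V z)) (z : Z)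
    (ξ : Option (X ⊕ Task k Z L V) →₀ V z) (h : ξ ∈ relC (L := L) Rl z) :
    red z ξ ∈ Rl z ∧ ∀ y : Task k Z L V, ξ (some (Sum.inr y)) ∈ y.U z := by
  unfold relC at h
  rw [Submodule.mem_sup] at h
  obtain ⟨a, ha, b, hb, rfl⟩ := h
  constructor
  · rw [map_add]
    obtain ⟨a', ha', rfl⟩ := ha
    rw [red_ren]
    refine (Rl z).add_mem ha' ?_
    have : red z b = 0 := by
      induction hb using Submodule.span_induction with
      | mem x hx =>
        obtain ⟨y, u, _, rfl⟩ := hx
        rw [map_sub, red_inr, red_none, sub_self]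
      | zero => exact map_zero _
      | add x y _ _ hx hy => rw [map_add, hx, hy, add_zero]
      | smul c x _ hx => rw [map_smul, hx, smul_zero]
    rw [this]; exact (Rl z).zero_mem
  · intro y
    rw [Finsupp.add_apply]
    refine (y.U z).add_mem ?_ ?_
    · obtain ⟨a', _, rfl⟩ := ha
      rw [Finsupp.lmapDomain_apply, Finsupp.mapDomain_of_notMem_range]
      · exact (y.U z).zero_mem
      · rintro ⟨o, ho⟩
        rcases o with _ | t <;> simp at ho
    · induction hb using Submodule.span_induction with
      | mem x hx =>
        obtain ⟨y', u, hu, rfl⟩ := hx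
        have e1 : (Finsupp.single none (y'.g z u) : Option (X ⊕ Task k Z L V) →₀ V z)
            (some (Sum.inr y)) = 0 := Finsupp.single_eq_of_ne (by simp)
        rw [Finsupp.sub_apply, e1, sub_zero]
        by_cases h : y' = y
        · rw [← h, Finsupp.single_eq_same]; exact hu
        · rw [Finsupp.single_eq_of_ne (by simpa using Ne.symm h)]
          exact (y.U z).zero_mem
      | zero => exact (y.U z).zero_mem
      | add x x' _ _ hx hx' => rw [Finsupp.add_apply]; exact (y.U z).add_mem hx hx'
      | smul c x _ hx => rw [Finsupp.smul_apply]; exact (y.U z).smul_mem c hx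

theorem ren_mem (Rl : ∀ z, Submodule k (Option X →₀ V z)) (z : Z) (ξ : Option X →₀ V z) :
    ren (k := k) (V := V z) (Sum.inl : X → X ⊕ Task k Z L V) ξ ∈ relC (L := L) Rl z ↔
      ξ ∈ Rl z := by
  constructor
  · intro h
    have := (red_mem Rl z _ h).1
    rwa [red_ren] at this
  · intro h
    exact Submodule.mem_sup_left ⟨ξ, h, rfl⟩

/-- The reduced pencil. -/
noncomputable def barP {D' D : Type} [AddCommGroup D'] [Module k D'] [AddCommGroup D] [Module k D]
    (b : Pencil k (X ⊕ Task k Z L V) D' D) (S : Submodule k D) : Pencil k X D' (D ⧸ S) :=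
  (Finsupp.comapDomain (Option.map (Sum.inl : X → X ⊕ Task k Z L V)) b
    (map_inl_inj.injOn)).mapRange (fun f => S.mkQ ∘ₗ f) (by simp)

theorem barP_apply {D' D : Type} [AddCommGroup D'] [Module k D'] [AddCommGroup D] [Module k D]
    (b : Pencil k (X ⊕ Task k Z L V) D' D) (S : Submodule k D) (o : Option X) (d : D') :
    barP b S o d = S.mkQ (b (Option.map Sum.inl o) d) := by
  simp [barP]

/-- Maps with values in a finitely generated subspace form a finitely generated space. -/
theorem fg_homs {D' W : Type} [AddCommGroup D'] [Module k D'] [FiniteDimensional k D']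
    [AddCommGroup W] [Module k W] (U : Submodule k W) (hU : U.FG)
    (K : Submodule k (D' →ₗ[k] W)) (hK : ∀ f ∈ K, ∀ d, f d ∈ U) : K.FG := by
  have hfin : Module.Finite k U := Module.Finite.iff_fg.2 hU
  have h1 : (LinearMap.range (LinearMap.compRight k U.subtype :
      (D' →ₗ[k] U) →ₗ[k] (D' →ₗ[k] W))).FG := by
    rw [← Module.Finite.iff_fg]
    infer_instance
  refine Submodule.FG.of_le h1 ?_
  intro f hf
  exact ⟨f.codRestrict U (hK f hf), by ext d; rfl⟩

theorem cf_barP {D' D : Type} [AddCommGroup D'] [Module k D'] [AddCommGroup D] [Module k D]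
    [FiniteDimensional k D'] [FiniteDimensional k D]
    (b : Pencil k (X ⊕ Task k Z L V) D' D) (hb : Full b) (S : Submodule k D)
    (hS : ∀ (y : Task k Z L V) d, b (some (Sum.inr y)) d ∈ S) : CF (barP b S) := by
  intro T
  have hST : S ≤ T.comap S.mkQ := by
    intro x hx
    rw [Submodule.mem_comap, Submodule.mkQ_apply, (Submodule.Quotient.mk_eq_zero S).2 hx]
    exact T.zero_mem
  have h1 : pre (barP b S) T ≤ pre b (T.comap S.mkQ) := by
    intro d hd
    rw [pre, Submodule.mem_iInf] at hd ⊢
    intro o
    rw [Submodule.mem_comap]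
    rcases o with _ | (t | y)
    · have := hd none
      rw [Submodule.mem_comap, barP_apply] at this
      exact this
    · have := hd (some t)
      rw [Submodule.mem_comap, barP_apply] at this
      exact this
    · exact hST (hS y d)
  have h2 := hb.2 (T.comap S.mkQ)
  have h3 : finrank k (pre (barP b S) T) ≤ finrank k (pre b (T.comap S.mkQ)) :=
    Submodule.finrank_mono h1
  have h4 : finrank k (D ⧸ S) + finrank k S = finrank k D := Submodule.finrank_quotient_add_finrank S
  have h5 : finrank k (T.comap S.mkQ) = finrank k T + finrank k S := by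
    have e1 := LinearMap.finrank_range_add_finrank_ker (S.mkQ ∘ₗ (T.comap S.mkQ).subtype)
    have e2 : LinearMap.range (S.mkQ ∘ₗ (T.comap S.mkQ).subtype) = T := by
      rw [LinearMap.range_comp, Submodule.range_subtype]
      exact Submodule.map_comap_eq_of_surjective S.mkQ_surjective T
    have e3 : LinearMap.ker (S.mkQ ∘ₗ (T.comap S.mkQ).subtype) =
        S.comap (T.comap S.mkQ).subtype := by
      rw [LinearMap.ker_comp, Submodule.ker_mkQ]
    have e4 : finrank k (S.comap (T.comap S.mkQ).subtype) = finrank k S :=
      LinearEquiv.finrank_eq (Submodule.comapSubtypeEquivOfLe hST)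
    rw [e2, e3, e4] at e1
    exact e1.symm
  have h6 := hb.1
  omega

end

end StepC

theorem stepC_proof (hR : Stmt_R) : Stmt_StepC := by
  classical
  intro k _ X Z L V _ _ Rl hSV hInv
  refine ⟨?_, ?_, ?_⟩
  · intro z v hv
    have := (StepC.red_mem Rl z _ hv).1
    rw [StepC.red_none] at this
    exact hSV z v this
  · intro z ξ
    exact StepC.ren_mem Rl z ξ
  · intro n b hb
    let S : Submodule k (Fin n → k) := ⨆ y : Task k Z L V, LinearMap.range (b (some (Sum.inr y)))
    have hS : ∀ (y : Task k Z L V) d, b (some (Sum.inr y)) d ∈ S := by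
      intro y d
      exact (le_iSup (fun y : Task k Z L V => LinearMap.range (b (some (Sum.inr y)))) y) ⟨d, rfl⟩
    have hCF := StepC.cf_barP b hb.1 S hS
    obtain ⟨hF1, hF2⟩ := hR k X Z V Rl hSV hInv (Fin n → k) ((Fin n → k) ⧸ S)
      (StepC.barP b S) hCF
    -- maps vanishing on `S`
    have hvan : ∀ z (w : (Fin n → k) →ₗ[k] V z), w ∈ Ker (relC (L := L) Rl z) b →
        (∀ s ∈ S, w s = 0) → ∃ w' ∈ Ker (Rl z) (StepC.barP b S), w = w' ∘ₗ S.mkQ := by
      intro z w hw hwS
      have hle : S ≤ LinearMap.ker w := fun s hs => hwS s hs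
      refine ⟨S.liftQ w hle, ?_, ?_⟩
      · intro d
        have h1 := hw d
        have h2 : ev b w d = ren (k := k) (V := V z) (Sum.inl : X → X ⊕ Task k Z L V)
            (ev (StepC.barP b S) (S.liftQ w hle) d) := by
          ext o
          rw [ev_apply, Finsupp.lmapDomain_apply]
          by_cases ho : o ∈ Set.range (Option.map (Sum.inl : X → X ⊕ Task k Z L V))
          · obtain ⟨o', rfl⟩ := ho
            rw [Finsupp.mapDomain_apply StepC.map_inl_inj, ev_apply, StepC.barP_apply]
            exact (Submodule.liftQ_apply S w _).symm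
          · rw [Finsupp.mapDomain_of_notMem_range _ _ ho]
            rcases o with _ | (t | y)
            · exact absurd ⟨none, rfl⟩ ho
            · exact absurd ⟨some t, rfl⟩ ho
            · exact hwS _ (hS y d)
        rw [h2, StepC.ren_mem] at h1
        exact h1
      · ext x
        simp
    -- support of the task part
    let Yf : Set (Task k Z L V) := {y | b (some (Sum.inr y)) ≠ 0}
    have hYf : Yf.Finite := by
      have h1 : (b.support : Set (Option (X ⊕ Task k Z L V))).Finite := b.support.finite_toSet
      refine Set.Finite.subset (h1.preimage (f := fun y : Task k Z L V => some (Sum.inr y)) ?_) ?_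
      · intro a _ c _ hac
        simpa using hac
      · intro y hy
        have hy' : b (some (Sum.inr y)) ≠ 0 := hy
        simpa using hy'
    have hzero : ∀ (z : Z) (w : (Fin n → k) →ₗ[k] V z), w ∈ Ker (relC (L := L) Rl z) b →
        ∀ (y : Task k Z L V) d, w (b (some (Sum.inr y)) d) ∈ y.U z := by
      intro z w hw y d
      have := (StepC.red_mem Rl z _ (hw d)).2 y
      rwa [ev_apply] at this
    constructor
    · have hfin : (⋃ y ∈ Yf, {z | y.U z ≠ ⊥}).Finite := hYf.biUnion (fun y _ => y.fin.1)
      refine (hfin.union hF1).subset ?_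
      intro z hz
      by_contra hcon
      simp only [Set.mem_union, not_or] at hcon
      obtain ⟨hc1, hc2⟩ := hcon
      have hc2' : Ker (Rl z) (StepC.barP b S) = ⊥ := by
        by_contra h; exact hc2 h
      apply hz
      rw [eq_bot_iff]
      intro w hw
      have hw0 : ∀ s ∈ S, w s = 0 := by
        intro s hs
        have hle : S ≤ LinearMap.ker w := by
          refine iSup_le (fun y => ?_)
          rintro _ ⟨d, rfl⟩
          rw [LinearMap.mem_ker]
          by_cases hy : y ∈ Yf
          · have h3 : y.U z = ⊥ := by
              by_contra h4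
              exact hc1 (Set.mem_iUnion₂.2 ⟨y, hy, h4⟩)
            have h5 := hzero z w hw y d
            rw [h3, Submodule.mem_bot] at h5
            exact h5
          · have : b (some (Sum.inr y)) = 0 := by
              by_contra h; exact hy h
            rw [this]; simp
        exact hle hs
      obtain ⟨w', hw', hww'⟩ := hvan z w hw hw0
      rw [hc2', Submodule.mem_bot] at hw'
      rw [Submodule.mem_bot, hww', hw']
      rfl
    · intro z
      let Yfs : Finset (Task k Z L V) := hYf.toFinset
      let Ψ : ((Fin n → k) →ₗ[k] V z) →ₗ[k] (Yfs → ((Fin n → k) →ₗ[k] V z)) :=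
        LinearMap.pi (fun y => LinearMap.lcomp k (V z) (b (some (Sum.inr y.1))))
      have hΨ : ∀ w (y : Yfs), Ψ w y = w ∘ₗ b (some (Sum.inr y.1)) := fun w y => rfl
      refine Submodule.fg_of_fg_map_of_fg_inf_ker Ψ ?_ ?_
      · -- the image
        have h1 : ∀ y : Yfs, ({f : (Fin n → k) →ₗ[k] V z | ∀ d, f d ∈ y.1.U z} :
            Set ((Fin n → k) →ₗ[k] V z)) = ((LinearMap.range (LinearMap.compRight k
              (y.1.U z).subtype : ((Fin n → k) →ₗ[k] y.1.U z) →ₗ[k] _) :
              Submodule k ((Fin n → k) →ₗ[k] V z)) : Set ((Fin n → k) →ₗ[k] V z)) := by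
          intro y
          ext f
          constructor
          · intro hf
            exact ⟨f.codRestrict _ hf, by ext d; rfl⟩
          · rintro ⟨g, rfl⟩ d
            exact (g d).2
        have h2 : (Submodule.pi Set.univ (fun y : Yfs => LinearMap.range (LinearMap.compRight k
              (y.1.U z).subtype : ((Fin n → k) →ₗ[k] y.1.U z) →ₗ[k]
                ((Fin n → k) →ₗ[k] V z)))).FG := by
          refine Submodule.fg_pi (fun y => ?_)
          have : Module.Finite k (y.1.U z) := Module.Finite.iff_fg.2 (y.1.fin.2 z)
          rw [← Module.Finite.iff_fg]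
          infer_instance
        refine Submodule.FG.of_le h2 ?_
        rintro _ ⟨w, hw, rfl⟩
        intro y _
        have h3 : Ψ w y ∈ ({f : (Fin n → k) →ₗ[k] V z | ∀ d, f d ∈ y.1.U z} :
            Set ((Fin n → k) →ₗ[k] V z)) := by
          intro d
          rw [hΨ]
          exact hzero z w hw y.1 d
        rw [h1 y] at h3
        exact h3
      · -- the kernel
        refine Submodule.FG.of_le (Submodule.FG.map (LinearMap.lcomp k (V z) S.mkQ) (hF2 z)) ?_
        rintro w ⟨hw, hwΨ⟩
        have hw0 : ∀ s ∈ S, w s = 0 := by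
          intro s hs
          have hle : S ≤ LinearMap.ker w := by
            refine iSup_le (fun y => ?_)
            rintro _ ⟨d, rfl⟩
            rw [LinearMap.mem_ker]
            by_cases hy : y ∈ Yf
            · have h5 : Ψ w = 0 := hwΨ
              have h6 := congrFun h5 ⟨y, hYf.mem_toFinset.2 hy⟩
              rw [hΨ] at h6
              exact LinearMap.congr_fun h6 d
            · have : b (some (Sum.inr y)) = 0 := by
                by_contra h; exact hy h
              rw [this]; simp
          exact hle hs
        obtain ⟨w', hw', hww'⟩ := hvan z w hw hw0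
        exact ⟨w', hw', hww'.symm⟩

end Pool.Agent.Matlis
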