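import Pool.Agent.Matlis.Act
import Pool.Agent.Matlis.StepC

/-!
# Matlis' problem: kernels of full pencils on hat modules (`Stmt_HatK`)
-/

set_option autoImplicit false

open scoped TensorProduct DirectSum
open Module

namespace Pool.Agent.Matlis

namespace HatK

variable {k : Type} [Field k] {Z : Type} [DecidableEq Z] {Q : Quiv Z}

/-- slice maps `Hat G N → V z` -/
noncomputable def slice (G : GenSys k Z (Option Q.Arr)) (N : Rep k Q) (z : Z)
    (lam : N.N z →ₗ[k] k) : Hat G N →ₗ[k] G.V z :=
  (TensorProduct.lid k (G.V z)).toLinearMap ∘ₗ (LinearMap.rTensor (G.V z) lam) ∘ₗ (hπ G N z)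

theorem slice_same (G : GenSys k Z (Option Q.Arr)) (N : Rep k Q) (z : Z)
    (lam : N.N z →ₗ[k] k) (n : N.N z) (v : G.V z) :
    slice G N z lam (hι G N z (n ⊗ₜ[k] v)) = lam n • v := by
  simp [slice]

theorem slice_ne (G : GenSys k Z (Option Q.Arr)) (N : Rep k Q) {z z' : Z} (h : z' ≠ z)
    (lam : N.N z →ₗ[k] k) (y : N.N z' ⊗[k] G.V z') :
    slice G N z lam (hι G N z' y) = 0 := by
  simp [slice, hπ_hι_ne G N h]

theorem slice_hdiag (G : GenSys k Z (Option Q.Arr)) (N : Rep k Q) (z : Z)
    (lam : N.N z →ₗ[k] k) (f : ∀ z, Module.End k (G.V z)) (y : Hat G N) :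
    slice G N z lam (hdiag G N f y) = f z (slice G N z lam y) := by
  have : (slice G N z lam) ∘ₗ (hdiag G N f) = (f z) ∘ₗ (slice G N z lam) := by
    apply hat_hom_ext
    intro z' n v
    rw [LinearMap.comp_apply, LinearMap.comp_apply, hdiag_hι]
    by_cases h : z' = z
    · subst h
      rw [slice_same, slice_same, map_smul]
    · rw [slice_ne G N h, slice_ne G N h, map_zero]
  exact LinearMap.congr_fun this y

theorem slice_pert (G : GenSys k Z (Option Q.Arr)) (N : Rep k Q) (z : Z)
    (lam : N.N z →ₗ[k] k) (o : Option Q.Arr) (y : Hat G N) (U : Submodule k (G.V z))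
    (hU : ∀ a, o = some a → Q.tgt a = z → G.v0 z ∈ U) :
    slice G N z lam (pert G N o y) ∈ U := by
  rcases o with _ | a
  · simp only [pert, LinearMap.zero_apply, map_zero]; exact U.zero_mem
  · by_cases h : Q.tgt a = z
    · have hv := hU a rfl h
      subst h
      induction y using hat_induction G N with
      | h0 => rw [map_zero, map_zero]; exact U.zero_mem
      | hadd y y' hy hy' => rw [map_add, map_add]; exact U.add_mem hy hy'
      | h z' n v =>
        by_cases h' : z' = Q.src a
        · subst h'
          rw [pert_some_same, slice_same]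
          exact U.smul_mem _ (U.smul_mem _ hv)
        · rw [pert_some_ne G N a h', map_zero]; exact U.zero_mem
    · have : slice G N z lam (pert G N (some a) y) = 0 := by
        simp only [pert, LinearMap.comp_apply]
        exact slice_ne G N h lam _
      rw [this]; exact U.zero_mem

/-- an element all of whose slices lie in `U` lies in `HatU` -/
theorem mem_HatU (G : GenSys k Z (Option Q.Arr)) (N : Rep k Q)
    (U : ∀ z, Submodule k (G.V z)) (y : Hat G N)
    (h : ∀ z (lam : N.N z →ₗ[k] k), slice G N z lam y ∈ U z) : y ∈ HatU G N U := by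
  classical
  have h1 : ∀ z, hι G N z (hπ G N z y) ∈ HatU G N U := by
    intro z
    let e := Basis.ofVectorSpace k (N.N z)
    obtain ⟨c, hc⟩ := TensorProduct.eq_repr_basis_left e (hπ G N z y)
    have hci : ∀ i, c i ∈ U z := by
      intro i
      have h2 := h z (e.coord i)
      have h3 : slice G N z (e.coord i) y = c i := by
        simp only [slice, LinearMap.comp_apply, LinearEquiv.coe_coe]
        rw [← hc]
        rw [Finsupp.sum, map_sum, map_sum]
        simp only [LinearMap.rTensor_tmul, TensorProduct.lid_tmul, Basis.coord_apply,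
          Basis.repr_self]
        by_cases hi : i ∈ c.support
        · rw [Finset.sum_eq_single i]
          · simp
          · intro j _ hji
            rw [Finsupp.single_eq_of_ne (Ne.symm hji), zero_smul]
          · intro hcon; exact absurd hi hcon
        · rw [Finset.sum_eq_zero]
          · exact (Finsupp.notMem_support_iff.1 hi).symm
          · intro j hj
            rw [Finsupp.single_eq_of_ne, zero_smul]
            rintro rfl; exact hi hj
      rwa [h3] at h2
    rw [← hc, Finsupp.sum, map_sum]
    refine Submodule.sum_mem _ (fun i _ => Submodule.subset_span ⟨z, e i, c i, hci i, rfl⟩)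
  have h2 : y = ∑ z ∈ DFinsupp.support (β := fun z => N.N z ⊗[k] G.V z) y,
      hι G N z (hπ G N z y) := by
    exact (DirectSum.sum_support_of (β := fun z => N.N z ⊗[k] G.V z) y).symm
  rw [h2]
  exact Submodule.sum_mem _ (fun z _ => h1 z)

end HatK

theorem hatK_proof (hR : Stmt_R) (hTight : Stmt_Tight) : Stmt_HatK := by
  classical
  intro k _ Z _ Q G D' D _ _ _ _ _ _ b hb
  have hCF : CF b := (hTight k G.X D' D b ⊥).2.2 hb
  have hK := hR k G.X Z G.V (fun z => LinearMap.ker (val (G.x z)))
    (by
      intro z v hv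
      rw [LinearMap.mem_ker, val, Finsupp.lsum_single] at hv
      exact hv)
    G.fk D' D b hCF
  -- targets of the perturbations
  let T0 : Set Z := {z | ∃ t a, some t ∈ b.support ∧ G.lab t = some a ∧ Q.tgt a = z}
  have hT0 : T0.Finite := by
    have h1 : (b.support : Set (Option G.X)).Finite := b.support.finite_toSet
    refine Set.Finite.subset (h1.biUnion (t := fun o => {z | ∃ t a, o = some t ∧
      G.lab t = some a ∧ Q.tgt a = z}) ?_) ?_
    · intro o _
      apply Set.Subsingleton.finite
      rintro z ⟨t, a, rfl, h2, h3⟩ z' ⟨t', a', h1', h2', h3'⟩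
      cases h1'
      rw [h2] at h2'
      cases h2'
      rw [← h3, ← h3']
    · rintro z ⟨t, a, ht, hl, hz⟩
      exact Set.mem_iUnion₂.2 ⟨some t, ht, t, a, rfl, hl, hz⟩
  let U0 : ∀ z, Submodule k (G.V z) := fun z =>
    if z ∈ T0 then Submodule.span k {G.v0 z} else ⊥
  have hU0FG : ∀ z, (U0 z).FG := by
    intro z
    by_cases hz : z ∈ T0
    · simp only [U0, hz, if_true]; exact Submodule.fg_span_singleton _
    · simp only [U0, hz, if_false]; exact Submodule.fg_bot
  let H0 : ∀ z, Submodule k (D' →ₗ[k] G.V z) := fun z =>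
    { carrier := {f | ∀ d, f d ∈ U0 z}
      add_mem' := fun hf hg d => (U0 z).add_mem (hf d) (hg d)
      zero_mem' := fun _ => (U0 z).zero_mem
      smul_mem' := fun c _ hf d => (U0 z).smul_mem c (hf d) }
  have hH0FG : ∀ z, (H0 z).FG := fun z => StepC.fg_homs (U0 z) (hU0FG z) (H0 z) (fun f hf => hf)
  let W : ∀ z, Submodule k (D →ₗ[k] G.V z) := fun z => (H0 z).comap (Act.actL (G.x z) b)
  have hkerW : ∀ z, W z ⊓ LinearMap.ker (Act.actL (G.x z) b) ≤
      Ker (LinearMap.ker (val (G.x z))) b := by
    intro z w hw d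
    rw [LinearMap.mem_ker]
    exact LinearMap.congr_fun (show act (G.x z) b w = 0 from hw.2) d
  have hWFG : ∀ z, (W z).FG := by
    intro z
    refine Submodule.fg_of_fg_map_of_fg_inf_ker (Act.actL (G.x z) b) ?_ ?_
    · exact Submodule.FG.of_le (hH0FG z) (Submodule.map_comap_le _ _)
    · exact Submodule.FG.of_le (hK.2 z) (hkerW z)
  have hWbot : {z | W z ≠ ⊥}.Finite := by
    refine (hT0.union hK.1).subset ?_
    intro z hz
    by_contra hcon
    simp only [Set.mem_union, not_or] at hcon
    obtain ⟨hc1, hc2⟩ := hcon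
    have hc2' : Ker (LinearMap.ker (val (G.x z))) b = ⊥ := by
      by_contra h; exact hc2 h
    apply hz
    rw [eq_bot_iff]
    intro w hw
    have h1 : act (G.x z) b w = 0 := by
      ext d
      have : act (G.x z) b w d ∈ U0 z := hw d
      simp only [U0, hc1, if_false, Submodule.mem_bot] at this
      rw [this]; rfl
    have h2 := hkerW z ⟨hw, h1⟩
    rwa [hc2'] at h2
  let U : ∀ z, Submodule k (G.V z) := fun z =>
    Submodule.map₂ (LinearMap.id : (D →ₗ[k] G.V z) →ₗ[k] (D →ₗ[k] G.V z)) (W z) ⊤
  refine ⟨U, ⟨?_, ?_⟩, ?_⟩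
  · refine hWbot.subset ?_
    intro z hz hW
    apply hz
    simp only [U, hW, Submodule.map₂_bot_left]
  · intro z
    exact Submodule.FG.map₂ _ (hWFG z) (Module.Finite.fg_top)
  · intro N w hw d
    apply HatK.mem_HatU
    intro z lam
    have h1 : (HatK.slice G N z lam) ∘ₗ w ∈ W z := by
      intro d'
      change act (G.x z) b ((HatK.slice G N z lam) ∘ₗ w) d' ∈ U0 z
      have h2 : act (xhat G N) b w d' = 0 := by rw [hw]; rfl
      rw [Act.act_apply] at h2 ⊢
      have h3 := congrArg (HatK.slice G N z lam) h2
      rw [map_zero, map_finsuppSum] at h3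
      have h4 : (b.sum fun o f => opt (G.x z) o (((HatK.slice G N z lam) ∘ₗ w) (f d'))) =
          (b.sum fun o f => opt (G.x z) o (((HatK.slice G N z lam) ∘ₗ w) (f d'))) -
          (b.sum fun o f => HatK.slice G N z lam (opt (xhat G N) o (w (f d')))) := by
        rw [h3, sub_zero]
      rw [h4, Finsupp.sum, Finsupp.sum, ← Finset.sum_sub_distrib]
      refine Submodule.sum_mem _ (fun o ho => ?_)
      rcases o with _ | t
      · rw [opt_none, opt_none]
        simp only [LinearMap.id_apply, LinearMap.comp_apply, sub_self]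
        exact (U0 z).zero_mem
      · rw [opt_some, opt_some, xhat, LinearMap.add_apply, map_add, HatK.slice_hdiag,
          LinearMap.comp_apply, sub_add_cancel_left]
        refine (U0 z).neg_mem (HatK.slice_pert G N z lam _ _ _ ?_)
        intro a ha hz
        have hzT : z ∈ T0 := ⟨t, a, ho, ha, hz⟩
        simp only [U0, hzT, if_true]
        exact Submodule.mem_span_singleton_self _
    exact Submodule.apply_mem_map₂ _ h1 (Submodule.mem_top)

end Pool.Agent.Matlis
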