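import Pool.Agent.Matlis.Act

/-!
# Full pencils act surjectively on hat modules (module HATS)
-/

set_option autoImplicit false

open scoped TensorProduct DirectSum
open Module

namespace Pool.Agent.Matlis

namespace HatSAux

variable {k : Type} [Field k] {Z : Type} [DecidableEq Z] {Q : Quiv Z}

/-- the map `v ↦ hι z (n ⊗ v)` -/
noncomputable def T (G : GenSys k Z (Option Q.Arr)) (N : Rep k Q) (z : Z) (n : N.N z) :
    G.V z →ₗ[k] Hat G N :=
  hι G N z ∘ₗ TensorProduct.mk k (N.N z) (G.V z) n

theorem T_apply (G : GenSys k Z (Option Q.Arr)) (N : Rep k Q) (z : Z) (n : N.N z) (v : G.V z) :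
    T G N z n v = hι G N z (n ⊗ₜ[k] v) := rfl

/-- the perturbation, indexed by `Option X` -/
noncomputable def po (G : GenSys k Z (Option Q.Arr)) (N : Rep k Q) :
    Option G.X → (Hat G N →ₗ[k] Hat G N)
  | none => 0
  | some t => pert G N (G.lab t)

theorem opt_xhat (G : GenSys k Z (Option Q.Arr)) (N : Rep k Q) (o : Option G.X) (z : Z)
    (n : N.N z) (v : G.V z) :
    opt (xhat G N) o (T G N z n v) = T G N z n (opt (G.x z) o v) + po G N o (T G N z n v) := by
  cases o with
  | none => simp [po]
  | some t =>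
    change (hdiag G N (fun z => G.x z t) + pert G N (G.lab t)) (T G N z n v) = _
    rw [LinearMap.add_apply, T_apply, hdiag_hι]
    rfl

theorem act_T (G : GenSys k Z (Option Q.Arr)) (N : Rep k Q) {D' D : Type} [AddCommGroup D']
    [Module k D'] [AddCommGroup D] [Module k D] (b : Pencil k G.X D' D) (z : Z) (n : N.N z)
    (w : D →ₗ[k] G.V z) :
    act (xhat G N) b (T G N z n ∘ₗ w) = T G N z n ∘ₗ act (G.x z) b w +
      ∑ o ∈ b.support, po G N o ∘ₗ T G N z n ∘ₗ w ∘ₗ b o := by
  ext d
  rw [Act.act_apply, LinearMap.add_apply, LinearMap.comp_apply, Act.act_apply, map_finsuppSum,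
    LinearMap.sum_apply, Finsupp.sum, Finsupp.sum, ← Finset.sum_add_distrib]
  exact Finset.sum_congr rfl fun o _ => opt_xhat G N o z n (w (b o d))

theorem mem_range (hSurj : Stmt_Surj) (G : GenSys k Z (Option Q.Arr)) (N : Rep k Q)
    {D' D : Type} [AddCommGroup D']
    [Module k D'] [AddCommGroup D] [Module k D] [FiniteDimensional k D'] [FiniteDimensional k D]
    (b : Pencil k G.X D' D) (hb : Full b) (z : Z) :
    ∀ (n : N.N z) (y : D' →ₗ[k] G.V z),
      T G N z n ∘ₗ y ∈ LinearMap.range (Act.actL (xhat G N) b) := by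
  induction z using Q.wf.induction with
  | _ z ih =>
  intro n y
  obtain ⟨w, hw⟩ := hSurj k G.X (G.V z) (G.x z) (fun m b' hb' => G.surj m b' hb' z) D' D b hb y
  have h1 := act_T G N b z n w
  rw [hw] at h1
  rw [← sub_eq_iff_eq_add] at h1
  rw [← h1]
  refine Submodule.sub_mem _ ⟨_, rfl⟩ (Submodule.sum_mem _ fun o _ => ?_)
  cases o with
  | none => exact ⟨0, by rw [Act.actL_apply, Act.act_zero]; rfl⟩
  | some t =>
    change pert G N (G.lab t) ∘ₗ T G N z n ∘ₗ w ∘ₗ b (some t) ∈ _
    cases hlab : G.lab t with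
    | none => exact ⟨0, by rw [Act.actL_apply, Act.act_zero]; rfl⟩
    | some a =>
      by_cases hz : z = Q.src a
      · subst hz
        have h2 : pert G N (some a) ∘ₗ T G N (Q.src a) n ∘ₗ w ∘ₗ b (some t) =
            T G N (Q.tgt a) (N.map a n) ∘ₗ
              (((G.psi (Q.src a)).smulRight (G.v0 (Q.tgt a))) ∘ₗ w ∘ₗ b (some t)) := by
          ext d
          exact pert_some_same G N a n (w (b (some t) d))
        rw [h2]
        exact ih (Q.tgt a) ⟨a, rfl, rfl⟩ _ _
      · refine ⟨0, ?_⟩
        rw [Act.actL_apply, Act.act_zero]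
        ext d
        exact (pert_some_ne G N a hz _).symm

end HatSAux

open HatSAux in
theorem hatS_proof (hSurj : Stmt_Surj) : Stmt_HatS := by
  intro k _ Z _ Q G D' D _ _ _ _ _ _ b hb N y
  have key : ∀ (ξ : D' →ₗ[k] k) (h : Hat G N),
      ξ.smulRight h ∈ LinearMap.range (Act.actL (xhat G N) b) := by
    intro ξ h
    induction h using hat_induction G N with
    | h0 =>
      rw [LinearMap.smulRight_zero]
      exact Submodule.zero_mem _
    | hadd h h' hh hh' =>
      have : ξ.smulRight (h + h') = ξ.smulRight h + ξ.smulRight h' := by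
        ext d
        simp
      rw [this]
      exact Submodule.add_mem _ hh hh'
    | h z n v =>
      have : ξ.smulRight (hι G N z (n ⊗ₜ[k] v)) = T G N z n ∘ₗ (ξ.smulRight v) := by
        ext d
        rw [LinearMap.comp_apply, LinearMap.smulRight_apply, LinearMap.smulRight_apply, map_smul]
        rfl
      rw [this]
      exact mem_range hSurj G N b hb z n _
  let e := Module.finBasis k D'
  have hy : y = ∑ i, (e.coord i).smulRight (y (e i)) := by
    ext d
    rw [LinearMap.sum_apply]
    conv_lhs => rw [← e.sum_repr d, map_sum]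
    refine Finset.sum_congr rfl fun i _ => ?_
    rw [map_smul]
    rfl
  have hmem : y ∈ LinearMap.range (Act.actL (xhat G N) b) := by
    rw [hy]
    exact Submodule.sum_mem _ fun i _ => key _ _
  exact hmem

end Pool.Agent.Matlis
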