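import Pool.Agent.Matlis.Defs2
import Pool.Agent.Matlis.Fullness

/-!
# Matlis' problem: the modules `E_n` are injective
-/

set_option autoImplicit false

open scoped TensorProduct DirectSum
open Module

namespace Pool.Agent.Matlis

namespace Inj

variable {k : Type} [Field k]

/-- A dual system for a finite family of subspaces. -/
theorem exists_dual (G : GenSys k Z0 (Option Q0.Arr)) (U : ∀ z, Submodule k (G.V z))
    (hU : FinFam U) :
    ∃ (J : Type) (_ : Fintype J) (z : J → Z0) (u : ∀ j, G.V (z j))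
      (lam : ∀ j, G.V (z j) →ₗ[k] k),
      (∀ j, u j ∈ U (z j)) ∧
      (∀ (N : Rep k Q0) (g : ∀ j, N.N (z j)) (j : J),
        ctr G N (z j) (lam j) (∑ i, hι G N (z i) (g i ⊗ₜ[k] u i)) = g j) ∧
      (∀ (N : Rep k Q0), ∀ x ∈ HatU G N U,
        x = ∑ j, hι G N (z j) (ctr G N (z j) (lam j) x ⊗ₜ[k] u j)) := by
  classical
  have hfd : ∀ z, FiniteDimensional k (U z) := fun z =>
    (Submodule.fg_iff_finiteDimensional (U z)).mp (hU.2 z)
  have hfin : Finite {z // U z ≠ ⊥} := hU.1.to_subtype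
  have hft : Fintype {z // U z ≠ ⊥} := Fintype.ofFinite _
  let b : ∀ z, Basis (Fin (finrank k (U z))) k (U z) := fun z => Module.finBasis k (U z)
  have hext : ∀ z (i : Fin (finrank k (U z))), ∃ g : G.V z →ₗ[k] k,
      g ∘ₗ (U z).subtype = (b z).coord i := fun z i => LinearMap.exists_extend _
  choose L hL using hext
  have hL' : ∀ z i (x : U z), L z i (x : G.V z) = (b z).coord i x := fun z i x =>
    LinearMap.congr_fun (hL z i) x
  let J := Σ z : {z // U z ≠ ⊥}, Fin (finrank k (U z.1))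
  refine ⟨J, inferInstance, fun j => j.1.1, fun j => (b j.1.1 j.2 : G.V j.1.1),
    fun j => L j.1.1 j.2, fun j => (b j.1.1 j.2).2, ?_, ?_⟩
  · intro N g j
    rw [map_sum, Finset.sum_eq_single j]
    · rw [ctr_hι_same, hL', Basis.coord_apply, Basis.repr_self, Finsupp.single_eq_same, one_smul]
    · rintro ⟨⟨z, hz⟩, a⟩ _ hne
      obtain ⟨⟨z', hz'⟩, a'⟩ := j
      by_cases h : z = z'
      · subst h
        have ha : a ≠ a' := by
          rintro rfl; exact hne rfl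
        simp only
        rw [ctr_hι_same, hL', Basis.coord_apply, Basis.repr_self,
          Finsupp.single_eq_of_ne ha.symm, zero_smul]
      · exact ctr_hι_ne G N h _ _
    · intro h; exact absurd (Finset.mem_univ j) h
  · intro N x hx
    let T : J → (Hat G N →ₗ[k] Hat G N) := fun j =>
      (hι G N j.1.1) ∘ₗ ((TensorProduct.mk k (N.N j.1.1) (G.V j.1.1)).flip (b j.1.1 j.2)) ∘ₗ
        (ctr G N j.1.1 (L j.1.1 j.2))
    have h := HatU_eqOn G N U (f := LinearMap.id) (g := ∑ j, T j) ?_ x hx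
    · rw [LinearMap.id_apply, LinearMap.sum_apply] at h
      exact h
    · intro z n u hu
      rw [LinearMap.id_apply, LinearMap.sum_apply]
      by_cases hz : U z = ⊥
      · rw [hz, Submodule.mem_bot] at hu
        subst hu
        rw [TensorProduct.tmul_zero, map_zero]
        simp
      · rw [Fintype.sum_sigma, Finset.sum_eq_single ⟨z, hz⟩]
        · have h1 : ∀ i : Fin (finrank k (U z)), T ⟨⟨z, hz⟩, i⟩ (hι G N z (n ⊗ₜ[k] u)) =
              hι G N z (n ⊗ₜ[k] (((b z).repr ⟨u, hu⟩ i) • (b z i : G.V z))) := by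
            intro i
            have h2 : T ⟨⟨z, hz⟩, i⟩ (hι G N z (n ⊗ₜ[k] u)) =
              hι G N z (ctr G N z (L z i) (hι G N z (n ⊗ₜ[k] u)) ⊗ₜ[k] (b z i : G.V z)) := rfl
            rw [h2, ctr_hι_same, TensorProduct.smul_tmul]
            have h3 := hL' z i ⟨u, hu⟩
            simp only at h3
            rw [h3, Basis.coord_apply]
          rw [Finset.sum_congr rfl fun i _ => h1 i, ← map_sum, ← TensorProduct.tmul_sum]
          congr 2
          have h4 := congrArg Subtype.val ((b z).sum_repr ⟨u, hu⟩)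
          rw [Submodule.coe_sum] at h4
          simpa using h4.symm
        · rintro ⟨z', hz'⟩ _ hne
          refine Finset.sum_eq_zero fun i _ => ?_
          have h : z ≠ z' := by
            rintro rfl; exact hne rfl
          have h2 : T ⟨⟨z', hz'⟩, i⟩ (hι G N z (n ⊗ₜ[k] u)) =
              hι G N z' (ctr G N z' (L z' i) (hι G N z (n ⊗ₜ[k] u)) ⊗ₜ[k] (b z' i : G.V z')) :=
            rfl
          rw [h2, ctr_hι_ne G N h, TensorProduct.zero_tmul, map_zero]
        · intro h; exact absurd (Finset.mem_univ _) h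

/-- Evaluation at an element of a hat module. -/
noncomputable def evx (G : GenSys k Z0 (Option Q0.Arr)) (i : Z0 ⊕ ℕ) (x : Hat G (NN0 k i)) :
    ↥(R0 G) →ₗ[k] Hat G (NN0 k i) where
  toFun r := (r : Big G (NN0 k)) i x
  map_add' _ _ := rfl
  map_smul' _ _ := rfl

/-- Tensoring with the base vector. -/
noncomputable def tv (G : GenSys k Z0 (Option Q0.Arr)) (N : Rep k Q0) (n : ℕ) :
    N.N (Z0.nat n) →ₗ[k] Hat G N :=
  (hι G N (Z0.nat n)) ∘ₗ
    ((TensorProduct.mk k (N.N (Z0.nat n)) (G.V (Z0.nat n))).flip (G.v0 (Z0.nat n)))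

theorem tv_apply (G : GenSys k Z0 (Option Q0.Arr)) (N : Rep k Q0) (n : ℕ)
    (x : N.N (Z0.nat n)) : tv G N n x = hι G N (Z0.nat n) (x ⊗ₜ[k] G.v0 (Z0.nat n)) := rfl

/-- Values of Yoneda maps. -/
theorem yon_apply (N : Rep k Q0) (hN : Fct N) (z : Z0) (x : N.N z) (n : ℕ)
    (γ : (Prep k z).N (Z0.nat n)) :
    (yon N hN z x).f (Z0.nat n) γ =
      Finsupp.linearCombination k
        (fun p : {c : Finset ℕ // Adm z n c} => actc N z n p.1 p.2 x) γ := rfl

/-- The values of the product of an element with controlled image and an arbitrary element. -/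
theorem prod_value (hNat : Stmt_Nat) (G : GenSys k Z0 (Option Q0.Arr)) (n : ℕ) (z : Z0)
    (u : G.V z) (r : Big G (NN0 k)) (hr : InR G (NN0 k) r)
    (γ : (Prep k z).N (Z0.nat n))
    (hγ : r (Sum.inl z) (hι G (Prep k z) z (pid z ⊗ₜ[k] u)) =
      tv G (Prep k z) n γ) (i : Z0 ⊕ ℕ) (x : (NN0 k i).N z) :
    r i (hι G (NN0 k i) z (x ⊗ₜ[k] u)) =
      Finsupp.linearCombination k (fun p : {c : Finset ℕ // Adm z n c} =>
        tv G (NN0 k i) n (actc (NN0 k i) z n p.1 p.2 x)) γ := by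
  have h1 := hNat k Z0 Q0 G (Z0 ⊕ ℕ) (NN0 k) (Sum.inl z) i
    (Hmap G (yon (NN0 k i) (fct_NN0 i) z x))
    (fun t y => Hmap_xhat G (yon (NN0 k i) (fct_NN0 i) z x) t y) r hr
    (hι G (Prep k z) z (pid z ⊗ₜ[k] u))
  rw [hγ] at h1
  have h2 : Hmap G (yon (NN0 k i) (fct_NN0 i) z x) (hι G (Prep k z) z (pid z ⊗ₜ[k] u)) =
      hι G (NN0 k i) z (x ⊗ₜ[k] u) := by
    rw [Hmap_hι, yon_pid]
  have h3 : Hmap G (yon (NN0 k i) (fct_NN0 i) z x) (tv G (Prep k z) n γ) =
      tv G (NN0 k i) n ((yon (NN0 k i) (fct_NN0 i) z x).f (Z0.nat n) γ) := by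
    rw [tv_apply, Hmap_hι, tv_apply]
  rw [yon_apply, Finsupp.apply_linearCombination] at h3
  refine (congrArg (r i) h2).symm.trans (h1.symm.trans h3)

end Inj

open Inj in
theorem inj_proof (hUnit : Stmt_Unit) (hYon : Stmt_Yon) (hRm : Stmt_Rmem) (hNat : Stmt_Nat) :
    Stmt_Inj := by
  classical
  intro k _ G n
  apply Module.Baer.injective
  intro I f
  suffices h : ∃ e : EE G n, ∀ (a : ↥(R0 G)) (ha : a ∈ I), f ⟨a, ha⟩ = a • e by
    obtain ⟨e, he⟩ := h
    refine ⟨LinearMap.toSpanSingleton ↥(R0 G) (EE G n) e, fun a ha => ?_⟩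
    rw [he a ha, LinearMap.toSpanSingleton_apply]
  by_cases hI : ∀ a ∈ I, a = 0
  · refine ⟨0, fun a ha => ?_⟩
    have h0 : (⟨a, ha⟩ : I) = 0 := Subtype.ext (hI a ha)
    rw [h0, map_zero, smul_zero]
  push Not at hI
  obtain ⟨a0, ha0, ha0ne⟩ := hI
  have mem_iff := (hRm k Z0 Q0 G (Z0 ⊕ ℕ) (NN0 k)).1
  obtain ⟨U', hU', hy0⟩ := exists_HatU G (Irep k n) (f ⟨a0, ha0⟩)
  have ha0R : InR G (NN0 k) (a0 : Big G (NN0 k)) := (mem_iff _).1 a0.2
  have ha0ne' : (a0 : Big G (NN0 k)) ≠ 0 := fun h => ha0ne (Subtype.ext h)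
  obtain ⟨U, hU, hdiv⟩ := hYon k G (a0 : Big G (NN0 k)) ha0R ha0ne' U' hU'
  -- elements killing the family `U` belong to the kernel of `f`
  have claim1 : ∀ r : ↥(R0 G), (∀ i, ∀ y ∈ HatU G (NN0 k i) U, (r : Big G (NN0 k)) i y = 0) →
      ∃ h : r ∈ I, f ⟨r, h⟩ = 0 := by
    intro r hr
    obtain ⟨s, hs, hs0, hsa⟩ := hdiv (r : Big G (NN0 k)) ((mem_iff _).1 r.2) hr
    have hsR : s ∈ RR G (NN0 k) := (mem_iff s).2 hs
    have e1 : (⟨s, hsR⟩ : ↥(R0 G)) * a0 = r := Subtype.ext hsa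
    have hrI : r ∈ I := by rw [← e1]; exact I.mul_mem_left _ ha0
    refine ⟨hrI, ?_⟩
    have e2 : (⟨r, hrI⟩ : I) = (⟨s, hsR⟩ : ↥(R0 G)) • (⟨a0, ha0⟩ : I) := Subtype.ext e1.symm
    rw [e2, map_smul]
    exact hs0 (Sum.inr n) _ hy0
  obtain ⟨J, _, z, u, lam, huU, hdual, hrec⟩ := exists_dual G U hU
  -- matrix units
  have hE : ∀ jc : (Σ j : J, {c : Finset ℕ // Adm (z j) n c}), ∃ r : ↥(R0 G),
      ∀ i, ∀ y ∈ HatU G (NN0 k i) U, (r : Big G (NN0 k)) i y =
        tv G (NN0 k i) n (actc (NN0 k i) (z jc.1) n jc.2.1 jc.2.2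
          (ctr G (NN0 k i) (z jc.1) (lam jc.1) y)) := by
    rintro ⟨j, c, hc⟩
    obtain ⟨r, hr, hr2⟩ := hUnit k G (z j) n c hc (lam j) U hU
    exact ⟨⟨r, (mem_iff r).2 hr⟩, hr2⟩
  choose E hE2 using hE
  let ω : ((Σ j : J, {c : Finset ℕ // Adm (z j) n c}) →₀ k) →ₗ[k] ↥(R0 G) :=
    Finsupp.linearCombination k E
  have hω : ∀ γ i, ∀ y ∈ HatU G (NN0 k i) U, ((ω γ : ↥(R0 G)) : Big G (NN0 k)) i y =
      Finsupp.linearCombination k
        (fun jc : (Σ j : J, {c : Finset ℕ // Adm (z j) n c}) =>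
          tv G (NN0 k i) n (actc (NN0 k i) (z jc.1) n jc.2.1 jc.2.2
            (ctr G (NN0 k i) (z jc.1) (lam jc.1) y))) γ := by
    intro γ i y hy
    have h1 : ((ω γ : ↥(R0 G)) : Big G (NN0 k)) i y = evx G i y (ω γ) := rfl
    rw [h1]
    change evx G i y (Finsupp.linearCombination k E γ) = _
    rw [Finsupp.apply_linearCombination]
    congr 2
    funext jc
    exact hE2 jc i y hy
  -- the functional
  let W : Submodule k ((Σ j : J, {c : Finset ℕ // Adm (z j) n c}) →₀ k) :=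
    (I.restrictScalars k).comap ω
  let fW : W →ₗ[k] k :=
    { toFun := fun γ => chi G n (f ⟨ω γ.1, γ.2⟩)
      map_add' := by
        intro γ γ'
        rw [← map_add, ← map_add]
        congr 2
        exact Subtype.ext (map_add ω _ _)
      map_smul' := by
        intro c γ
        have h1 : (⟨ω (c • γ : W).1, (c • γ : W).2⟩ : I) =
            (algebraMap k ↥(R0 G) c) • (⟨ω γ.1, γ.2⟩ : I) := by
          apply Subtype.ext
          have h2 : ω (c • γ : W).1 = c • ω γ.1 := map_smul ω c γ.1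
          exact h2.trans (Algebra.smul_def c (ω γ.1))
        rw [h1, map_smul, Cusp.alg_EE, map_smul]
        rfl }
  obtain ⟨θ, hθ⟩ := fW.exists_extend
  have hθ' : ∀ (γ : (Σ j : J, {c : Finset ℕ // Adm (z j) n c}) →₀ k) (h : ω γ ∈ I),
      θ γ = chi G n (f ⟨ω γ, h⟩) := fun γ h => LinearMap.congr_fun hθ ⟨γ, h⟩
  let g : ∀ j, (Irep k n).N (z j) := fun j =>
    fun c : {c : Finset ℕ // Adm (z j) n c} => θ (Finsupp.single ⟨j, c⟩ 1)
  let e : EE G n := ∑ j, hι G (Irep k n) (z j) (g j ⊗ₜ[k] u j)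
  have heU : e ∈ HatU G (NN0 k (Sum.inr n)) U :=
    Submodule.sum_mem _ fun j _ => hι_mem_HatU G (Irep k n) U (g j) (huU j)
  have hchi : ∀ x : (Irep k n).N (Z0.nat n), chi G n (tv G (Irep k n) n x) = iv {n} x := by
    intro x
    refine (Cusp.chi_v0 G n x).trans ?_
    have hadm := adm_singleton n
    rw [iv_adm hadm]
    exact Cusp.ex_of x hadm
  -- the functional is given by `e`
  have claim2 : ∀ γ, chi G n (ω γ • e) = θ γ := by
    intro γ
    refine (congrArg (chi G n) (hω γ (Sum.inr n) e heU)).trans ?_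
    refine (Finsupp.apply_linearCombination k (chi G n) _ γ).trans ?_
    have h1 : (⇑(chi G n) ∘ fun jc : (Σ j : J, {c : Finset ℕ // Adm (z j) n c}) =>
          tv G (NN0 k (Sum.inr n)) n (actc (NN0 k (Sum.inr n)) (z jc.1) n jc.2.1 jc.2.2
            (ctr G (NN0 k (Sum.inr n)) (z jc.1) (lam jc.1) e))) =
        fun jc => θ (Finsupp.single jc 1) := by
      funext jc
      obtain ⟨j, c, hc⟩ := jc
      have h2 : ctr G (Irep k n) (z j) (lam j) e = g j := hdual (Irep k n) g j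
      refine (hchi _).trans ?_
      refine (congrArg (fun x => iv {n} (actc (Irep k n) (z j) n c hc x)) h2).trans ?_
      rw [iv_actc, if_pos (adm_singleton n)]
      have h3 : ({n} : Finset ℕ) ∪ c = c :=
        Finset.union_eq_right.2 (by simpa using hc.mem)
      rw [h3, iv_adm hc]
      rfl
    rw [h1]
    have h4 : Finsupp.linearCombination k
        (fun jc : (Σ j : J, {c : Finset ℕ // Adm (z j) n c}) => θ (Finsupp.single jc 1)) = θ := by
      refine Finsupp.lhom_ext fun jc c => ?_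
      rw [Finsupp.linearCombination_single]
      rw [← map_smul, Finsupp.smul_single, smul_eq_mul, mul_one]
    rw [h4]
  refine ⟨e, fun a ha => ?_⟩
  by_contra hne
  have hy : f ⟨a, ha⟩ - a • e ≠ 0 := sub_ne_zero.mpr hne
  obtain ⟨z0, mu, hmu⟩ := exists_ctr_ne_zero G (Irep k n) (f ⟨a, ha⟩ - a • e) hy
  obtain ⟨c, hc, hcv⟩ : ∃ (c : Finset ℕ) (hc : Adm z0 n c),
      iv c (ctr G (Irep k n) z0 mu (f ⟨a, ha⟩ - a • e)) ≠ 0 := by
    by_contra hcon
    push Not at hcon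
    apply hmu
    apply iv_ext
    intro s hs
    rw [hcon s hs, map_zero]
  obtain ⟨W1, hW1, hyW1⟩ := exists_HatU G (Irep k n) (f ⟨a, ha⟩ - a • e)
  have hW2 : ∀ j, ∃ W2 : ∀ z, Submodule k (G.V z), FinFam W2 ∧
      (a : Big G (NN0 k)) (Sum.inl (z j)) (hι G (Prep k (z j)) (z j) (pid (z j) ⊗ₜ[k] u j)) ∈
        HatU G (Prep k (z j)) W2 := fun j => exists_HatU G (Prep k (z j)) _
  choose W2 hW2f hW2m using hW2
  let W0 : ∀ z, Submodule k (G.V z) := fun z => W1 z ⊔ ⨆ j ∈ (Finset.univ : Finset J), W2 j z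
  have hW0 : FinFam W0 := hW1.sup (FinFam.finset Finset.univ fun j _ => hW2f j)
  have hW1le : ∀ z, W1 z ≤ W0 z := fun z => le_sup_left
  have hW2le : ∀ j z, W2 j z ≤ W0 z := fun j z =>
    le_sup_of_le_right (le_iSup₂_of_le j (Finset.mem_univ j) le_rfl)
  obtain ⟨r, hr, hr2⟩ := hUnit k G z0 n c hc mu W0 hW0
  let rr : ↥(R0 G) := ⟨r, (mem_iff r).2 hr⟩
  -- the coefficients
  let γ : ∀ j, (Prep k (z j)).N (Z0.nat n) := fun j =>
    actc (Prep k (z j)) z0 n c hc (ctr G (Prep k (z j)) z0 mu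
      ((a : Big G (NN0 k)) (Sum.inl (z j))
        (hι G (Prep k (z j)) (z j) (pid (z j) ⊗ₜ[k] u j))))
  let Γ : (Σ j : J, {c : Finset ℕ // Adm (z j) n c}) →₀ k :=
    ∑ j, Finsupp.mapDomain (Sigma.mk j) (γ j : {c : Finset ℕ // Adm (z j) n c} →₀ k)
  have hprodR : InR G (NN0 k) ((rr * a : ↥(R0 G)) : Big G (NN0 k)) := (mem_iff _).1 (rr * a).2
  have claim3 : ∀ i, ∀ y ∈ HatU G (NN0 k i) U,
      ((rr * a - ω Γ : ↥(R0 G)) : Big G (NN0 k)) i y = 0 := by
    intro i y hy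
    have h1 : ((rr * a - ω Γ : ↥(R0 G)) : Big G (NN0 k)) i y =
        ((rr * a : ↥(R0 G)) : Big G (NN0 k)) i y - ((ω Γ : ↥(R0 G)) : Big G (NN0 k)) i y := rfl
    rw [h1, sub_eq_zero, hω Γ i y hy]
    have h2 : ((rr * a : ↥(R0 G)) : Big G (NN0 k)) i y =
        ∑ j, ((rr * a : ↥(R0 G)) : Big G (NN0 k)) i
          (hι G (NN0 k i) (z j) (ctr G (NN0 k i) (z j) (lam j) y ⊗ₜ[k] u j)) := by
      rw [← map_sum, ← hrec (NN0 k i) y hy]
    have h3 : Finsupp.linearCombination k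
        (fun jc : (Σ j : J, {c : Finset ℕ // Adm (z j) n c}) =>
          tv G (NN0 k i) n (actc (NN0 k i) (z jc.1) n jc.2.1 jc.2.2
            (ctr G (NN0 k i) (z jc.1) (lam jc.1) y))) Γ =
        ∑ j, Finsupp.linearCombination k (fun p : {c : Finset ℕ // Adm (z j) n c} =>
          tv G (NN0 k i) n (actc (NN0 k i) (z j) n p.1 p.2
            (ctr G (NN0 k i) (z j) (lam j) y))) (γ j) := by
      change Finsupp.linearCombination k _ (∑ j, Finsupp.mapDomain (Sigma.mk j)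
        (γ j : {c : Finset ℕ // Adm (z j) n c} →₀ k)) = _
      rw [map_sum]
      refine Finset.sum_congr rfl fun j _ => ?_
      rw [Finsupp.linearCombination_mapDomain]
      rfl
    rw [h2, h3]
    refine Finset.sum_congr rfl fun j _ => ?_
    refine prod_value hNat G n (z j) (u j) _ hprodR (γ j) ?_ i _
    exact hr2 (Sum.inl (z j)) _ (HatU_mono G (Prep k (z j)) (hW2le j) (hW2m j))
  obtain ⟨hmem, hf0⟩ := claim1 _ claim3
  have hra : rr * a ∈ I := I.mul_mem_left _ ha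
  have hωI : ω Γ ∈ I := by
    have := I.sub_mem hra hmem
    rwa [sub_sub_cancel] at this
  -- compare
  have e1 : f ⟨ω Γ, hωI⟩ = rr • f ⟨a, ha⟩ := by
    have h1 : (⟨rr * a - ω Γ, hmem⟩ : I) = rr • (⟨a, ha⟩ : I) - ⟨ω Γ, hωI⟩ := Subtype.ext rfl
    rw [h1, map_sub, map_smul, sub_eq_zero] at hf0
    exact hf0.symm
  have e2 : rr • (a • e) = ω Γ • e := by
    have h1 : (rr * a - ω Γ) • e = 0 := claim3 (Sum.inr n) e heU
    rw [sub_smul, mul_smul, sub_eq_zero] at h1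
    exact h1
  have e3 : chi G n (rr • (f ⟨a, ha⟩ - a • e)) = 0 := by
    rw [smul_sub, map_sub, e2, claim2, ← e1, ← hθ' Γ hωI, sub_self]
  apply hcv
  have e4 : rr • (f ⟨a, ha⟩ - a • e) =
      tv G (Irep k n) n (actc (Irep k n) z0 n c hc
        (ctr G (Irep k n) z0 mu (f ⟨a, ha⟩ - a • e))) :=
    hr2 (Sum.inr n) _ (HatU_mono G (Irep k n) hW1le hyW1)
  rw [e4] at e3
  have e5 := (hchi _).symm.trans e3
  rw [iv_actc, if_pos (adm_singleton n)] at e5
  have h3 : ({n} : Finset ℕ) ∪ c = c := Finset.union_eq_right.2 (by simpa using hc.mem)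
  rw [h3] at e5
  exact e5

end Pool.Agent.Matlis
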