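import Pool.Agent.Matlis.Act

/-!
# The key lemma Z (module Z)
-/

set_option autoImplicit false

open scoped TensorProduct DirectSum
open Module

namespace Pool.Agent.Matlis

namespace KeyZ

variable {k : Type} [Field k] {X : Type}
variable {D' D V : Type} [AddCommGroup D'] [Module k D'] [AddCommGroup D] [Module k D]
  [AddCommGroup V] [Module k V]

/-- the combination of `w` and `y` -/
noncomputable def comb (w : D →ₗ[k] V) (y : V) : (D × k) →ₗ[k] V :=
  w.coprod (LinearMap.toSpanSingleton k V y)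

theorem comb_apply (w : D →ₗ[k] V) (y : V) (δ : D) (κ : k) : comb w y (δ, κ) = w δ + κ • y := by
  simp [comb]

theorem comb_inl (w : D →ₗ[k] V) (y : V) : comb w y ∘ₗ LinearMap.inl k D k = w := by
  ext δ
  simp [comb]

theorem act_comb (x : X → Module.End k V) (b : Pencil k X D' D) (c : D) (d : D' →ₗ[k] k)
    (w : D →ₗ[k] V) (y : V) (d' : D') (κ : k) :
    act x (bord b c d) (comb w y) (d', κ) = act x b w d' + κ • w c - d d' • y := by
  rw [Act.act_bord, comb_inl, comb_apply, comb_apply]
  simp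

theorem act_bord_comb (x : X → Module.End k V) (b : Pencil k X D' D) (c : D) (d : D' →ₗ[k] k)
    (w : D →ₗ[k] V) (y : V) (h : act x b w = d.smulRight y) (d' : D') (κ : k) :
    act x (bord b c d) (comb w y) (d', κ) = κ • w c := by
  rw [act_comb, h, LinearMap.smulRight_apply]
  abel

/-- Numerical part: the subspace `Sh` which violates fullness is a graph. -/
theorem numeric [FiniteDimensional k D'] [FiniteDimensional k D] (b : Pencil k X D' D) (c : D)
    (d : D' →ₗ[k] k) (hb : Full b) (hP : ¬ Full (bord b c d)) :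
    ∃ Sh : Submodule k (D × k),
      finrank k (pre b (Sh.map (LinearMap.fst k D k))) =
        finrank k (Sh.map (LinearMap.fst k D k)) ∧
      (∀ s ∈ Sh, ∀ s' ∈ Sh, s.1 = s'.1 → s = s') ∧
      (∀ d' ∈ pre b (Sh.map (LinearMap.fst k D k)), ∀ o, bord b c d o (d', 0) ∈ Sh) ∧
      ∃ d1 : D', ∀ o, bord b c d o (d1, 1) ∈ Sh := by
  classical
  have hdim : finrank k (D' × k) = finrank k (D × k) := by
    rw [Module.finrank_prod, Module.finrank_prod, hb.1]
  have h1 : ∃ Sh : Submodule k (D × k), finrank k Sh < finrank k (pre (bord b c d) Sh) := by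
    by_contra hcon
    push Not at hcon
    exact hP ⟨hdim, hcon⟩
  obtain ⟨Sh, hSh⟩ := h1
  refine ⟨Sh, ?_⟩
  set T := pre (bord b c d) Sh with hT
  set S := Sh.map (LinearMap.fst k D k) with hS
  set T0 := T.comap (LinearMap.inl k D' k) with hT0
  have hT0le : T0 ≤ pre b S := by
    intro d' hd'
    rw [Act.mem_pre]
    intro o
    have h2 : ∀ o, bord b c d o (d', 0) ∈ Sh := (Act.mem_pre _ _ _).1 hd'
    have h3 := h2 o
    cases o with
    | none =>
      rw [Act.bord_none, zero_smul, add_zero] at h3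
      exact ⟨_, h3, rfl⟩
    | some t =>
      rw [Act.bord_some] at h3
      exact ⟨_, h3, rfl⟩
  -- rank-nullity for the second coordinate on `T`
  let f : T →ₗ[k] k := LinearMap.snd k D' k ∘ₗ T.subtype
  have hf := LinearMap.finrank_range_add_finrank_ker f
  have hker : finrank k (LinearMap.ker f) ≤ finrank k T0 := by
    let g : LinearMap.ker f →ₗ[k] T0 :=
      LinearMap.codRestrict T0 (LinearMap.fst k D' k ∘ₗ T.subtype ∘ₗ (LinearMap.ker f).subtype) (by
        intro x
        have h4 : x.1.1.2 = 0 := x.2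
        change ((x.1.1.1, (0 : k)) : D' × k) ∈ T
        rw [← h4]
        exact x.1.2)
    refine LinearMap.finrank_le_finrank_of_injective (f := g) ?_
    intro x y hxy
    have h5 : x.1.1.1 = y.1.1.1 := congrArg Subtype.val hxy
    have h6 : x.1.1.2 = 0 := x.2
    have h7 : y.1.1.2 = 0 := y.2
    exact Subtype.ext (Subtype.ext (Prod.ext h5 (h6.trans h7.symm)))
  have hrange : finrank k (LinearMap.range f) ≤ 1 := by
    refine (Submodule.finrank_le _).trans ?_
    rw [Module.finrank_self]
  have hmono : finrank k T0 ≤ finrank k (pre b S) := Submodule.finrank_mono hT0le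
  have hfull : finrank k (pre b S) ≤ finrank k S := hb.2 S
  have hmap : finrank k S ≤ finrank k Sh := Submodule.finrank_map_le _ _
  have e1 : finrank k T0 = finrank k (pre b S) := by omega
  have e2 : finrank k (pre b S) = finrank k S := by omega
  have e3 : finrank k Sh = finrank k S := by omega
  have e4 : finrank k (LinearMap.range f) = 1 := by omega
  have hT0eq : T0 = pre b S := Submodule.eq_of_le_of_finrank_eq hT0le e1
  refine ⟨e2, ?_, ?_, ?_⟩
  · have hsurj : Function.Surjective ((LinearMap.fst k D k).submoduleMap Sh) :=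
      LinearMap.submoduleMap_surjective _ _
    have hinj := (LinearMap.injective_iff_surjective_of_finrank_eq_finrank e3).2 hsurj
    intro s hs s' hs' hss
    have h8 := @hinj ⟨s, hs⟩ ⟨s', hs'⟩ (Subtype.ext hss)
    exact congrArg Subtype.val h8
  · intro d' hd'
    rw [← hT0eq] at hd'
    exact (Act.mem_pre _ _ _).1 hd'
  · have h9 : LinearMap.range f = ⊤ := Submodule.eq_top_of_finrank_eq (by
      rw [e4, Module.finrank_self])
    obtain ⟨t, ht⟩ := LinearMap.range_eq_top.1 h9 1
    refine ⟨t.1.1, ?_⟩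
    have h10 : t.1 = (t.1.1, (1 : k)) := Prod.ext rfl ht
    have h11 : (t.1.1, (1 : k)) ∈ T := by
      rw [← h10]
      exact t.2
    exact (Act.mem_pre _ _ _).1 h11

end KeyZ

open KeyZ in
theorem z_proof (hHat : Stmt_HatS) (hTight : Stmt_Tight) : Stmt_Z := by
  intro k _ Z _ Q G I NN D' D _ _ _ _ _ _ b c d r hb hr hP
  obtain ⟨Sh, hdim, hgraph, h0, d1, h1⟩ := numeric b c d hb hP
  set S := Sh.map (LinearMap.fst k D k) with hS
  funext i
  apply LinearMap.ext
  intro y
  set x := xhat G (NN i) with hx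
  obtain ⟨w, hw⟩ := hHat k Z Q G D' D b hb (NN i) (d.smulRight y)
  -- the map on `S`
  have hbij : Function.Bijective ((LinearMap.fst k D k).submoduleMap Sh) := by
    refine ⟨?_, LinearMap.submoduleMap_surjective _ _⟩
    intro s s' hss
    exact Subtype.ext (hgraph _ s.2 _ s'.2 (congrArg Subtype.val hss))
  let E : Sh ≃ₗ[k] S := LinearEquiv.ofBijective _ hbij
  obtain ⟨w3', hw3'⟩ := LinearMap.exists_extend
    ((comb w y) ∘ₗ Sh.subtype ∘ₗ E.symm.toLinearMap)
  have hval : ∀ s ∈ Sh, w3' s.1 = comb w y s := by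
    intro s hs
    have h2 : (⟨s.1, ⟨s, hs, rfl⟩⟩ : S) = E ⟨s, hs⟩ := rfl
    have h3 := LinearMap.congr_fun hw3' ⟨s.1, ⟨s, hs, rfl⟩⟩
    rw [h2] at h3
    have h4 : E.symm (E ⟨s, hs⟩) = ⟨s, hs⟩ := E.symm_apply_apply _
    change w3' s.1 = comb w y ((E.symm (E ⟨s, hs⟩) : Sh) : D × k) at h3
    rw [h4] at h3
    exact h3
  have hfst : ∀ o (d' : D'), (bord b c d o (d', 0)).1 = b o d' := by
    intro o d'
    cases o with
    | none => rw [Act.bord_none]; simp
    | some t => rw [Act.bord_some]
  have hvan : pre b S ≤ LinearMap.ker (act x b w3') := by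
    intro d' hd'
    rw [LinearMap.mem_ker]
    have h5 : act x b w3' d' = act x (bord b c d) (comb w y) (d', 0) := by
      refine Act.act_congr x _ _ _ _ _ _ fun o => ?_
      rw [← hval _ (h0 d' hd' o), hfst]
    rw [h5, act_bord_comb x b c d w y hw, zero_smul]
  have hq : Full (quoP b S) := ((hTight k G.X D' D b S).2.1 hb hdim).2
  obtain ⟨w4, hw4⟩ := hHat k Z Q G _ _ (quoP b S) hq (NN i) ((pre b S).liftQ _ hvan)
  set w3 : D →ₗ[k] Hat G (NN i) := w3' - w4 ∘ₗ S.mkQ with hw3
  have hact3 : act x b w3 = 0 := by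
    rw [hw3, Act.act_sub, Act.act_quoP, hw4, Submodule.liftQ_mkQ, sub_self]
  have hval3 : ∀ s ∈ Sh, w3 s.1 = comb w y s := by
    intro s hs
    have h6 : s.1 ∈ S := ⟨s, hs, rfl⟩
    rw [hw3, LinearMap.sub_apply, LinearMap.comp_apply, Submodule.mkQ_apply,
      (Submodule.Quotient.mk_eq_zero S).2 h6, map_zero, sub_zero, hval s hs]
  have hc : w3 c = 0 := by
    have h7 := hr i 0 w3 (by
      rw [← hx, hact3]
      ext d'
      simp)
    rw [← h7, map_zero]
  have h8 : act x (bord b c d) (comb w y) (d1, 1) =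
      act x (bord b c d) (w3 ∘ₗ LinearMap.fst k D k) (d1, 1) := by
    refine Act.act_congr x _ _ _ _ _ _ fun o => ?_
    exact (hval3 _ (h1 o)).symm
  rw [act_bord_comb x b c d w y hw, one_smul, Act.act_bord] at h8
  have h9 : (w3 ∘ₗ LinearMap.fst k D k) ∘ₗ LinearMap.inl k D k = w3 := by
    ext δ
    simp
  rw [h9, hact3] at h8
  have h10 : w c = 0 := by
    rw [h8]
    simp [hc]
  rw [hr i y w hw, h10]
  rfl

end Pool.Agent.Matlis
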