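import Pool.Agent.Matlis.TransLib

/-!
# Module LEMMAR: finite kernels for all CF pencils
-/

set_option autoImplicit false

open Module

namespace Pool.Agent.Matlis

open Pool.Agent.Matlis.TL

namespace LemmaR

section FinFamLib

variable {k : Type} [Field k] {Z : Type} {M N P : Z → Type}
  [∀ z, AddCommGroup (M z)] [∀ z, Module k (M z)]
  [∀ z, AddCommGroup (N z)] [∀ z, Module k (N z)]
  [∀ z, AddCommGroup (P z)] [∀ z, Module k (P z)]

lemma fg_mono {M : Type} [AddCommGroup M] [Module k M] {U U' : Submodule k M} (hU : U.FG)
    (h : U' ≤ U) : U'.FG := hU.of_le h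

lemma finFam_mono {U U' : ∀ z, Submodule k (M z)} (hU : FinFam U) (h : ∀ z, U' z ≤ U z) :
    FinFam U' := by
  refine ⟨hU.1.subset ?_, fun z => fg_mono (hU.2 z) (h z)⟩
  intro z hz hz'
  apply hz
  rw [eq_bot_iff, ← hz']
  exact h z

lemma finFam_map {U : ∀ z, Submodule k (M z)} (hU : FinFam U) (f : ∀ z, M z →ₗ[k] N z) :
    FinFam (fun z => (U z).map (f z)) := by
  refine ⟨hU.1.subset ?_, fun z => (hU.2 z).map (f z)⟩
  intro z hz hz'
  apply hz
  change (U z).map (f z) = ⊥
  rw [hz', Submodule.map_bot]

lemma finFam_ext {U : ∀ z, Submodule k (M z)} {A : ∀ z, Submodule k (N z)}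
    {B : ∀ z, Submodule k (P z)} (f : ∀ z, M z →ₗ[k] N z) (g : ∀ z, P z →ₗ[k] M z)
    (hA : FinFam A) (hB : FinFam B) (h1 : ∀ z, (U z).map (f z) ≤ A z)
    (h2 : ∀ z, U z ⊓ LinearMap.ker (f z) ≤ (B z).map (g z)) : FinFam U := by
  refine ⟨(hA.1.union hB.1).subset ?_, fun z => ?_⟩
  · intro z hz
    by_contra hc
    rw [Set.mem_union, not_or] at hc
    obtain ⟨hc1, hc2⟩ := hc
    have hA0 : A z = ⊥ := by simpa using hc1
    have hB0 : B z = ⊥ := by simpa using hc2
    apply hz
    have h1' := h1 z
    have h2' := h2 z
    rw [hA0] at h1'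
    rw [hB0, Submodule.map_bot] at h2'
    rw [eq_bot_iff]
    refine le_trans ?_ h2'
    refine le_inf le_rfl ?_
    intro u hu
    have := h1' (Submodule.mem_map_of_mem hu)
    exact (Submodule.mem_bot k).1 this
  · exact Submodule.fg_of_fg_map_of_fg_inf_ker (f z) (fg_mono (hA.2 z) (h1 z))
      (fg_mono ((hB.2 z).map (g z)) (h2 z))

lemma finFam_bot : FinFam (fun z => (⊥ : Submodule k (M z))) := by
  refine ⟨?_, fun z => Submodule.fg_bot⟩
  convert Set.finite_empty
  ext z
  simp

end FinFamLib

section

variable {k : Type} [Field k] {X : Type}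
variable {D' D E' E V : Type} [AddCommGroup D'] [Module k D'] [AddCommGroup D] [Module k D]
  [AddCommGroup E'] [Module k E'] [AddCommGroup E] [Module k E]
  [AddCommGroup V] [Module k V]

/-- Restriction of maps to a submodule. -/
noncomputable def resHom (V : Type) [AddCommGroup V] [Module k V] (S : Submodule k D) :
    (D →ₗ[k] V) →ₗ[k] (S →ₗ[k] V) where
  toFun w := w ∘ₗ S.subtype
  map_add' := by intro w w'; ext s; rfl
  map_smul' := by intro c w; ext s; rfl

/-- Precomposition with a linear map. -/
noncomputable def preHom (V : Type) [AddCommGroup V] [Module k V] (q : D →ₗ[k] E) :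
    (E →ₗ[k] V) →ₗ[k] (D →ₗ[k] V) where
  toFun w := w ∘ₗ q
  map_add' := by intro w w'; ext s; rfl
  map_smul' := by intro c w; ext s; rfl

lemma CF_dom (b : Pencil k X D' D) [FiniteDimensional k D'] (H : Submodule k D')
    (hb : CF b) (hH : finrank k H + 1 = finrank k D')
    (ht : ∀ S : Submodule k D, S ≠ ⊤ →
      finrank k D + finrank k (pre b S) ≠ finrank k D' + finrank k S) :
    CF (conjP H.subtype (LinearMap.id : D →ₗ[k] D) b) := by
  intro S
  have h1 : finrank k (pre (conjP H.subtype (LinearMap.id : D →ₗ[k] D) b) S) ≤
      finrank k (pre b S) := by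
    rw [pre_conjP, Submodule.comap_id, ← Submodule.finrank_map_subtype_eq]
    apply Submodule.finrank_mono
    rw [Submodule.map_comap_subtype]
    exact inf_le_right
  by_cases hS : S = ⊤
  · subst hS
    rw [pre_top, finrank_top, finrank_top]
    omega
  · have h2 := hb S
    have h3 := ht S hS
    omega

end

lemma lemmaR_aux (k : Type) [Field k] (X Z : Type) (V : Z → Type) [∀ z, AddCommGroup (V z)]
    [∀ z, Module k (V z)] (Rl : ∀ z, Submodule k (Option X →₀ V z))
    (H : ∀ (n : ℕ) (b : Pencil k X (Fin n → k) (Fin n → k)), Stable b →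
      FinFam (fun z => Ker (Rl z) b)) (n : ℕ) :
    ∀ (D' D : Type) [AddCommGroup D'] [Module k D'] [AddCommGroup D] [Module k D]
      [FiniteDimensional k D'] [FiniteDimensional k D] (b : Pencil k X D' D), CF b →
      finrank k D + finrank k D' = n → FinFam (fun z => Ker (Rl z) b) := by
  induction n using Nat.strong_induction_on with
  | _ n ih =>
    intro D' D _ _ _ _ _ _ b hb hn
    by_cases h0 : finrank k D = 0
    · have hs : Subsingleton D := finrank_zero_iff.1 h0
      refine finFam_mono finFam_bot ?_
      intro z w _
      rw [Submodule.mem_bot]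
      ext d
      rw [Subsingleton.elim d 0, map_zero, map_zero]
    · by_cases ht : ∃ S : Submodule k D, S ≠ ⊤ ∧ (S ≠ ⊥ ∨ pre b S ≠ ⊥) ∧
        finrank k D + finrank k (pre b S) = finrank k D' + finrank k S
      · obtain ⟨S, hS1, hS2, hS3⟩ := ht
        obtain ⟨hres, hquo⟩ := (tight_tl k X D' D b S).1 hb hS3
        have hlt : finrank k S < finrank k D := Submodule.finrank_lt hS1
        have hle : finrank k (pre b S) ≤ finrank k D' := Submodule.finrank_le _
        have hpos : 0 < finrank k S + finrank k (pre b S) := by
          rw [Nat.pos_iff_ne_zero]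
          intro h
          have hz1 : finrank k S = 0 := by omega
          have hz2 : finrank k (pre b S) = 0 := by omega
          rcases hS2 with h' | h'
          · exact h' (Submodule.finrank_eq_zero.1 hz1)
          · exact h' (Submodule.finrank_eq_zero.1 hz2)
        have hq1 := S.finrank_quotient_add_finrank
        have hq2 := (pre b S).finrank_quotient_add_finrank
        have hA := ih (finrank k S + finrank k (pre b S)) (by omega) (pre b S) S (resP b S)
          hres rfl
        have hB := ih (finrank k (D ⧸ S) + finrank k (D' ⧸ pre b S)) (by omega)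
          (D' ⧸ pre b S) (D ⧸ S) (quoP b S) hquo rfl
        refine finFam_ext (fun z => resHom (V z) S) (fun z => preHom (V z) S.mkQ) hA hB ?_ ?_
        · rintro z _ ⟨w, hw, rfl⟩ d
          have : ev (resP b S) (resHom (V z) S w) d = ev b w (d : D') := ev_res b S w d
          rw [this]
          exact hw _
        · rintro z w ⟨hw, hw'⟩
          have hw0 : ∀ s : S, w s = 0 := fun s => LinearMap.congr_fun (LinearMap.mem_ker.1 hw') s
          have hk : S ≤ LinearMap.ker w := fun s hs => hw0 ⟨s, hs⟩
          have hwq : S.liftQ w hk ∘ₗ S.mkQ = w := Submodule.liftQ_mkQ S w hk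
          refine ⟨S.liftQ w hk, ?_, hwq⟩
          intro d
          obtain ⟨d, rfl⟩ := (pre b S).mkQ_surjective d
          have : ev (quoP b S) (S.liftQ w hk) ((pre b S).mkQ d) =
              ev b (S.liftQ w hk ∘ₗ S.mkQ) d := ev_quo b S (S.liftQ w hk) d
          rw [this, hwq]
          exact hw d
      · push Not at ht
        by_cases hbt : finrank k D + finrank k (pre b ⊥) = finrank k D' + finrank k (⊥ : Submodule k D)
        · -- then `b` is stable
          have hbot : (⊥ : Submodule k D) ≠ ⊤ := by
            intro h
            apply h0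
            have h1 := finrank_bot k D
            rw [h, finrank_top] at h1
            exact h1
          have hp : pre b ⊥ = ⊥ := by
            by_contra hc
            exact ht ⊥ hbot (Or.inr hc) hbt
          have hdim : finrank k D' = finrank k D := by
            rw [hp, finrank_bot, finrank_bot] at hbt
            omega
          have hS : Stable b := by
            refine ⟨⟨hdim, fun S => ?_⟩, Nat.pos_of_ne_zero h0, fun S hS0 hS1 => ?_⟩
            · have := hb S
              omega
            · have := hb S
              have h2 := ht S hS1 (Or.inl hS0)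
              omega
          obtain ⟨e⟩ := exists_equiv_fin k D (rfl : finrank k D = finrank k D)
          obtain ⟨e'⟩ := exists_equiv_fin k D' hdim
          have hK := H _ _ (stable_conjP e'.symm e b hS)
          refine finFam_mono (finFam_map hK (fun z => preHom (V z) (e : D →ₗ[k] (Fin (finrank k D) → k)))) ?_
          intro z w hw
          refine ⟨w ∘ₗ (e.symm : (Fin (finrank k D) → k) →ₗ[k] D), ?_, ?_⟩
          · intro d
            rw [ev_conjP]
            have : (w ∘ₗ (e.symm : (Fin (finrank k D) → k) →ₗ[k] D)) ∘ₗ (e : D →ₗ[k] (Fin (finrank k D) → k)) = w := by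
              ext x; simp
            rw [this]
            exact hw _
          · change (w ∘ₗ (e.symm : (Fin (finrank k D) → k) →ₗ[k] D)) ∘ₗ (e : D →ₗ[k] (Fin (finrank k D) → k)) = w
            ext x; simp
        · -- restrict to a hyperplane
          have hb0 := hb ⊥
          rw [finrank_bot] at hb0 hbt
          have hD' : 0 < finrank k D' := by omega
          have : Nontrivial D' := Module.finrank_pos_iff.1 hD'
          obtain ⟨x, hx⟩ := exists_ne (0 : D')
          obtain ⟨φ, hφ⟩ := Module.Projective.exists_dual_ne_zero k hx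
          have hφ0 : φ ≠ 0 := by
            rintro rfl
            exact hφ rfl
          have hker := Module.Dual.finrank_ker_add_one_of_ne_zero hφ0
          have hcf := CF_dom b (LinearMap.ker φ) hb hker (by
            intro S hS1
            by_cases hS0 : S = ⊥
            · subst hS0
              rw [finrank_bot]
              exact hbt
            · exact ht S hS1 (Or.inl hS0))
          have hK := ih (finrank k D + finrank k (LinearMap.ker φ)) (by omega)
            (LinearMap.ker φ) D _ hcf rfl
          refine finFam_mono hK ?_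
          intro z w hw d
          rw [ev_conjP, LinearMap.comp_id]
          exact hw _

end LemmaR

open Pool.Agent.Matlis.LemmaR in
theorem lemmaR_proof : Stmt_R := by
  intro k _ X Z V _ _ Rl _ H D' D _ _ _ _ _ _ b hb
  exact lemmaR_aux k X Z V Rl H _ D' D b hb rfl

end Pool.Agent.Matlis
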