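import Pool.Agent.Matlis.Defs

/-!
# Matlis' problem (MP_504466_al): the limit of a chain of good embeddings (module LIM)
-/

set_option autoImplicit false

open Module

namespace Pool.Agent.Matlis.Lim

/-! ### Limits of chains of sets and of vector spaces -/

lemma setLim (A : ℕ → Type) (g : ∀ n, A n → A (n + 1)) (hg : ∀ n, Function.Injective (g n))
    {L : Type} (lab : ∀ n, A n → L) (hl : ∀ n t, lab (n + 1) (g n t) = lab n t) :
    ∃ (X : Type) (a : ∀ n, A n → X) (l : X → L), (∀ n, Function.Injective (a n)) ∧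
      (∀ n t, a (n + 1) (g n t) = a n t) ∧ (∀ x, ∃ n t, a n t = x) ∧
      ∀ n t, l (a n t) = lab n t := by
  let T₀ : ∀ m n, m ≤ n → A m → A n := fun m n h => Nat.leRecOn h (fun {k} => g k)
  let T : ∀ m n, m ≤ n → A m ↪ A n := fun m n h => ⟨T₀ m n h, Nat.leRecOn_injective h _ hg⟩
  have hD : DirectedSystem A (fun m n h => T m n h) :=
    ⟨fun i x => Nat.leRecOn_self x, fun k j i hij hjk x => (Nat.leRecOn_trans hij hjk x).symm⟩
  have hT : ∀ m n h, Function.Injective (T m n h) := fun m n h => (T m n h).injective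
  have hlab : ∀ m n h x, lab m x = lab n (T m n h x) := by
    intro m n h
    induction n, h using Nat.le_induction with
    | base => intro x; exact (congrArg (lab m) (Nat.leRecOn_self x)).symm
    | succ n h ih =>
      intro x
      have : T m (n + 1) (h.trans (Nat.le_succ n)) x = g n (T m n h x) := Nat.leRecOn_succ h x
      rw [this, hl, ← ih]
  refine ⟨_root_.DirectLimit A (fun m n h => T m n h), fun n t => ⟦⟨n, t⟩⟧,
    DirectLimit.lift (fun m n h => T m n h) lab hlab, ?_, ?_, ?_, ?_⟩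
  · exact fun n => DirectLimit.mk_injective (fun m n h => T m n h) hT n
  · intro n t
    have h1 : T n (n + 1) (Nat.le_succ n) t = g n t := Nat.leRecOn_succ' t
    have h2 := DirectLimit.mk_apply (f := fun m n h => T m n h) n (n + 1) t (Nat.le_succ n)
    rw [← h1]
    exact h2
  · intro x
    obtain ⟨i, t, h⟩ := DirectLimit.exists_eq_mk (fun m n h => T m n h) x
    exact ⟨i, t, h.symm⟩
  · intro n t
    rfl

lemma modLim {k : Type} [Field k] (A : ℕ → Type) [∀ n, AddCommGroup (A n)]
    [∀ n, Module k (A n)] (g : ∀ n, A n →ₗ[k] A (n + 1)) (hg : ∀ n, Function.Injective (g n)) :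
    ∃ (V : Type) (_ : AddCommGroup V) (_ : Module k V) (c : ∀ n, A n →ₗ[k] V),
      (∀ n, Function.Injective (c n)) ∧ (∀ n t, c (n + 1) (g n t) = c n t) ∧
      (∀ x, ∃ n t, c n t = x) := by
  let T : ∀ m n, m ≤ n → A m →ₗ[k] A n := fun m n h =>
    Nat.leRecOn (C := fun n => A m →ₗ[k] A n) h (fun {j} f => g j ∘ₗ f) LinearMap.id
  have T_self : ∀ m (x : A m), T m m le_rfl x = x := by
    intro m x
    have : T m m le_rfl = LinearMap.id := Nat.leRecOn_self _
    rw [this]; rfl
  have T_succ : ∀ m n (h : m ≤ n) (h' : m ≤ n + 1) (x : A m),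
      T m (n + 1) h' x = g n (T m n h x) := by
    intro m n h h' x
    have : T m (n + 1) h' = g n ∘ₗ T m n h := Nat.leRecOn_succ h _
    rw [this]; rfl
  have T_trans : ∀ m n (h : m ≤ n) p (h' : n ≤ p) (x : A m),
      T n p h' (T m n h x) = T m p (h.trans h') x := by
    intro m n h p h'
    induction p, h' using Nat.le_induction with
    | base => intro x; exact T_self n _
    | succ p h' ih =>
      intro x
      rw [T_succ n p h' _, T_succ m p (h.trans h') _, ih]
  have hT : ∀ m n h, Function.Injective (T m n h) := by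
    intro m n h
    induction n, h using Nat.le_induction with
    | base => intro x y hxy; rwa [T_self, T_self] at hxy
    | succ n h ih =>
      intro x y hxy
      rw [T_succ m n h _, T_succ m n h _] at hxy
      exact ih (hg n hxy)
  have hD : DirectedSystem A (fun m n h => T m n h) :=
    ⟨fun i x => T_self i x, fun p n m h h' x => T_trans m n h p h' x⟩
  refine ⟨Module.DirectLimit A T, inferInstance, inferInstance,
    fun n => Module.DirectLimit.of k ℕ A T n, ?_, ?_, ?_⟩
  · intro n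
    rw [← LinearMap.ker_eq_bot, LinearMap.ker_eq_bot']
    intro x hx
    obtain ⟨j, h, hj⟩ := Module.DirectLimit.of.zero_exact hx
    exact hT n j h (by rw [hj, map_zero])
  · intro n t
    have h1 : T n (n + 1) (Nat.le_succ n) t = g n t := by
      rw [T_succ n n le_rfl _, T_self]
    rw [← h1]
    exact Module.DirectLimit.of_f
  · intro x
    obtain ⟨i, t, h⟩ := Module.DirectLimit.exists_of x
    exact ⟨i, t, h⟩

/-! ### Renaming of pencils -/

section Ren

variable {k : Type} [Field k] {X Y Y' D' D V W : Type} [AddCommGroup D'] [Module k D']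
  [AddCommGroup D] [Module k D] [AddCommGroup V] [Module k V] [AddCommGroup W] [Module k W]

lemma renP_comp (f : X → Y) (g : Y → Y') (b : Pencil k X D' D) :
    renP (g ∘ f) b = renP g (renP f b) := by
  unfold renP
  rw [← Finsupp.mapDomain_comp, Option.map_comp_map]

lemma pre_renP {f : X → Y} (hf : Function.Injective f) (b : Pencil k X D' D)
    (S : Submodule k D) : pre (renP f b) S = pre b S := by
  ext d
  simp only [pre, Submodule.mem_iInf, Submodule.mem_comap]
  constructor
  · intro h o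
    have := h (Option.map f o)
    rwa [renP, Finsupp.mapDomain_apply (Option.map_injective hf)] at this
  · intro h o
    by_cases ho : o ∈ Set.range (Option.map f)
    · obtain ⟨o', rfl⟩ := ho
      rw [renP, Finsupp.mapDomain_apply (Option.map_injective hf)]
      exact h o'
    · rw [renP, Finsupp.mapDomain_of_notMem_range _ _ ho]
      exact S.zero_mem

lemma stable_renP {f : X → Y} (hf : Function.Injective f) (b : Pencil k X D' D) :
    Stable (renP f b) ↔ Stable b := by
  have h : ∀ S, finrank k (pre (renP f b) S) = finrank k (pre b S) :=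
    fun S => by rw [pre_renP hf]
  simp only [Stable, Full, h]

lemma ev_renP (f : X → Y) (i : V →ₗ[k] W) (b : Pencil k X D' D) (w : D →ₗ[k] V) (d : D') :
    ev (renP f b) (i ∘ₗ w) d = ren (k := k) (V := W) f (push i (ev b w d)) := by
  have h : ev b w d = b.mapRange (fun f => w (f d)) (by simp) := rfl
  have h' : ev (renP f b) (i ∘ₗ w) d
      = (renP f b).mapRange (fun f => (i ∘ₗ w) (f d)) (by simp) := rfl
  rw [h, h', renP]
  show _ = Finsupp.mapDomain (Option.map f) (Finsupp.mapRange i (map_zero i) _)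
  rw [← Finsupp.mapRange_comp, Finsupp.mapDomain_mapRange]
  · rfl
  · intro x y; simp

end Ren

/-! ### The limit of a chain -/

section Main

variable {k : Type} [Field k] {Z L : Type} (P : ℕ → PS k Z L)
  (φ : ∀ n, PSHom (P n) (P (n + 1)))

/-- Limit data: the colimits of the sets of variables and of the vector spaces. -/
structure LD where
  X : Type
  V : Z → Type
  [iV : ∀ z, AddCommGroup (V z)]
  [mV : ∀ z, Module k (V z)]
  a : ∀ n, (P n).X → X
  c : ∀ n z, (P n).V z →ₗ[k] V z
  a_inj : ∀ n, Function.Injective (a n)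
  c_inj : ∀ n z, Function.Injective (c n z)
  a_s : ∀ n t, a (n + 1) ((φ n).f t) = a n t
  c_s : ∀ n z v, c (n + 1) z ((φ n).i z v) = c n z v
  a_ex : ∀ x, ∃ n t, a n t = x
  c_ex : ∀ z v, ∃ n u, c n z u = v
  lab : X → L
  lab_a : ∀ n t, lab (a n t) = (P n).lab t

attribute [instance] LD.iV LD.mV

lemma exists_LD : Nonempty (LD P φ) := by
  obtain ⟨X, a, l, h1, h2, h3, h4⟩ := setLim (fun n => (P n).X) (fun n => (φ n).f)
    (fun n => (φ n).f_inj) (fun n => (P n).lab) (fun n t => (φ n).lab_f t)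
  have h := fun z => modLim (k := k) (fun n => (P n).V z) (fun n => (φ n).i z)
    (fun n => (φ n).i_inj z)
  choose V iV mV c c1 c2 c3 using h
  exact ⟨⟨X, V, a, fun n z => c z n, h1, fun n z => c1 z n, h2, fun n z v => c2 z n v, h3, c3,
    l, h4⟩⟩

variable {P φ} (D : LD P φ)

/-- The map from relations of stage `n` to relations in the limit. -/
noncomputable def E (n : ℕ) (z : Z) : (Option (P n).X →₀ (P n).V z) →ₗ[k] (Option D.X →₀ D.V z) :=
  ren (k := k) (V := D.V z) (D.a n) ∘ₗ push (D.c n z)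

lemma E_inj (n : ℕ) (z : Z) : Function.Injective (E D n z) := by
  intro ξ η h
  have h1 : Finsupp.mapDomain (Option.map (D.a n)) (Finsupp.mapRange (D.c n z) (map_zero _) ξ)
      = Finsupp.mapDomain (Option.map (D.a n)) (Finsupp.mapRange (D.c n z) (map_zero _) η) := h
  have h2 := Finsupp.mapDomain_injective (Option.map_injective (D.a_inj n)) h1
  exact Finsupp.mapRange_injective _ (map_zero _) (D.c_inj n z) h2

lemma E_single_none (n : ℕ) (z : Z) (v : (P n).V z) :
    E D n z (Finsupp.single none v) = Finsupp.single none (D.c n z v) := by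
  simp [E, Finsupp.mapDomain_single]

lemma E_single_some (n : ℕ) (z : Z) (t : (P n).X) (v : (P n).V z) :
    E D n z (Finsupp.single (some t) v) = Finsupp.single (some (D.a n t)) (D.c n z v) := by
  simp [E, Finsupp.mapDomain_single]

/-- Compatibility of the maps `E` with a compatible embedding. -/
lemma E_trans {m n : ℕ} (ψ : PSHom (P m) (P n)) (h1 : ∀ t, D.a n (ψ.f t) = D.a m t)
    (h2 : ∀ z v, D.c n z (ψ.i z v) = D.c m z v) (z : Z) (ξ : Option (P m).X →₀ (P m).V z) :
    E D n z (ren (k := k) (V := (P n).V z) ψ.f (push (ψ.i z) ξ)) = E D m z ξ := by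
  induction ξ using Finsupp.induction_linear with
  | zero => simp
  | add ξ η hξ hη => simp only [map_add, hξ, hη]
  | single o v =>
    rcases o with _ | t
    · rw [E_single_none, ← h2, ← E_single_none]
      congr 1
      simp [Finsupp.mapDomain_single]
    · rw [E_single_some, ← h2, ← h1, ← E_single_some]
      congr 1
      simp [Finsupp.mapDomain_single]

/-- Transport embeddings. -/
lemma tr (hg : ∀ n, (φ n).Good) (m n : ℕ) (h : m ≤ n) : ∃ ψ : PSHom (P m) (P n),
    (∀ t, D.a n (ψ.f t) = D.a m t) ∧ (∀ z v, D.c n z (ψ.i z v) = D.c m z v) ∧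
    (∀ (r : ℕ) (b : Pencil k (P m).X (Fin r → k) (Fin r → k)), Stable b →
      ∀ z, ∀ w ∈ Ker ((P n).Rl z) (renP ψ.f b),
        ∃ w₀ : (Fin r → k) →ₗ[k] (P m).V z, w = ψ.i z ∘ₗ w₀) := by
  induction n, h using Nat.le_induction with
  | base =>
    refine ⟨⟨id, Function.injective_id, fun z => LinearMap.id, fun z => Function.injective_id,
      fun t => rfl, fun z => rfl, ?_⟩, fun t => rfl, fun z v => rfl, ?_⟩
    · intro z ξ
      have : ren (k := k) (V := (P m).V z) (id : (P m).X → (P m).X)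
          (push (LinearMap.id : (P m).V z →ₗ[k] (P m).V z) ξ) = ξ := by
        simp
      rw [this]
    · intro r b hb z w hw
      exact ⟨w, rfl⟩
  | succ n h ih =>
    obtain ⟨ψ, h1, h2, h3⟩ := ih
    have hcomp : ∀ z (ξ : Option (P m).X →₀ (P m).V z),
        ren (k := k) (V := (P (n + 1)).V z) ((φ n).f ∘ ψ.f) (push ((φ n).i z ∘ₗ ψ.i z) ξ)
        = ren (k := k) (V := (P (n + 1)).V z) (φ n).f (push ((φ n).i z)
          (ren (k := k) (V := (P n).V z) ψ.f (push (ψ.i z) ξ))) := by
      intro z ξ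
      induction ξ using Finsupp.induction_linear with
      | zero => simp
      | add ξ η hξ hη => simp only [map_add, hξ, hη]
      | single o v =>
        rcases o with _ | t <;> simp [Finsupp.mapDomain_single]
    refine ⟨⟨(φ n).f ∘ ψ.f, (φ n).f_inj.comp ψ.f_inj, fun z => (φ n).i z ∘ₗ ψ.i z,
      fun z => ((φ n).i_inj z).comp (ψ.i_inj z), fun t => ?_, fun z => ?_, fun z ξ => ?_⟩,
      fun t => ?_, fun z v => ?_, ?_⟩
    · exact ((φ n).lab_f _).trans (ψ.lab_f t)
    · show (φ n).i z (ψ.i z _) = _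
      rw [ψ.i_v0, (φ n).i_v0]
    · rw [hcomp, (φ n).rel, ψ.rel]
    · exact (D.a_s n _).trans (h1 t)
    · exact (D.c_s n z _).trans (h2 z v)
    · intro r b hb z w hw
      rw [renP_comp] at hw
      obtain ⟨w₁, rfl⟩ := (hg n).ker r (renP ψ.f b) ((stable_renP ψ.f_inj b).2 hb) z w hw
      have hw₁ : w₁ ∈ Ker ((P n).Rl z) (renP ψ.f b) := by
        intro d
        have := hw d
        rw [ev_renP, (φ n).rel] at this
        exact this
      obtain ⟨w₀, rfl⟩ := h3 r b hb z w₁ hw₁
      exact ⟨w₀, rfl⟩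

/-- The relations of the limit. -/
noncomputable def RL (z : Z) : Submodule k (Option D.X →₀ D.V z) :=
  ⨆ n, ((P n).Rl z).map (E D n z)

variable (hg : ∀ n, (φ n).Good)

include hg

lemma mem_RL (z : Z) (ξ : Option D.X →₀ D.V z) :
    ξ ∈ RL D z ↔ ∃ n, ∃ η ∈ (P n).Rl z, E D n z η = ξ := by
  have hmono : Monotone (fun n => ((P n).Rl z).map (E D n z)) := by
    intro m n h
    obtain ⟨ψ, h1, h2, -⟩ := tr D hg m n h
    rintro _ ⟨η, hη, rfl⟩
    exact ⟨_, (ψ.rel z η).2 hη, E_trans D ψ h1 h2 z η⟩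
  rw [RL, Submodule.mem_iSup_of_directed _ hmono.directed_le]
  constructor
  · rintro ⟨n, η, hη, h⟩
    exact ⟨n, η, hη, h⟩
  · rintro ⟨n, η, hη, h⟩
    exact ⟨n, η, hη, h⟩

lemma E_mem_RL (n : ℕ) (z : Z) (ξ : Option (P n).X →₀ (P n).V z) :
    E D n z ξ ∈ RL D z ↔ ξ ∈ (P n).Rl z := by
  constructor
  · intro h
    obtain ⟨m, η, hη, h⟩ := (mem_RL D hg z _).1 h
    obtain ⟨ψ, h1, h2, -⟩ := tr D hg m (max m n) (le_max_left _ _)
    obtain ⟨ψ', h1', h2', -⟩ := tr D hg n (max m n) (le_max_right _ _)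
    rw [← E_trans D ψ h1 h2, ← E_trans D ψ' h1' h2'] at h
    have := E_inj D _ z h
    rw [← ψ'.rel, ← this, ψ.rel]
    exact hη
  · intro h
    exact (mem_RL D hg z _).2 ⟨n, ξ, h, rfl⟩

lemma sv_RL (z : Z) : SV (RL D z) := by
  intro v hv
  obtain ⟨n, u, rfl⟩ := D.c_ex z v
  rw [← E_single_none, E_mem_RL D hg] at hv
  rw [(P n).sv z u hv, map_zero]

lemma tot_RL (z : Z) (t : D.X) (v : D.V z) :
    ∃ v' : D.V z, Finsupp.single (some t) v - Finsupp.single none v' ∈ RL D z := by
  obtain ⟨m, t', rfl⟩ := D.a_ex t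
  obtain ⟨n, u, rfl⟩ := D.c_ex z v
  obtain ⟨ψ, h1, h2, -⟩ := tr D hg m (max m n) (le_max_left _ _)
  obtain ⟨ψ', h1', h2', -⟩ := tr D hg n (max m n) (le_max_right _ _)
  obtain ⟨v', hv'⟩ := (hg (max m n)).tot z (ψ.f t') (ψ'.i z u)
  refine ⟨D.c (max m n + 1) z v', ?_⟩
  rw [← E_mem_RL D hg, map_sub, E_single_some, E_single_none, D.a_s, D.c_s, h1, h2'] at hv'
  exact hv'

/-- The operators of the limit. -/
noncomputable def op (z : Z) (t : D.X) : Module.End k (D.V z) where
  toFun v := Classical.choose (tot_RL D hg z t v)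
  map_add' v w := by
    have h1 := Classical.choose_spec (tot_RL D hg z t (v + w))
    have h2 := Classical.choose_spec (tot_RL D hg z t v)
    have h3 := Classical.choose_spec (tot_RL D hg z t w)
    have h := (RL D z).sub_mem ((RL D z).add_mem h2 h3) h1
    rw [← sub_eq_zero]
    apply sv_RL D hg z
    convert h using 1
    simp only [Finsupp.single_sub, Finsupp.single_add]
    abel
  map_smul' r v := by
    have h1 := Classical.choose_spec (tot_RL D hg z t (r • v))
    have h2 := Classical.choose_spec (tot_RL D hg z t v)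
    have h := (RL D z).sub_mem ((RL D z).smul_mem r h2) h1
    rw [← sub_eq_zero]
    apply sv_RL D hg z
    convert h using 1
    simp only [Finsupp.single_sub, smul_sub, Finsupp.smul_single, RingHom.id_apply]
    abel

lemma op_spec (z : Z) (t : D.X) (v : D.V z) :
    Finsupp.single (some t) v - Finsupp.single none (op D hg z t v) ∈ RL D z :=
  Classical.choose_spec (tot_RL D hg z t v)

lemma op_unique (z : Z) (t : D.X) (v v' : D.V z)
    (h : Finsupp.single (some t) v - Finsupp.single none v' ∈ RL D z) : op D hg z t v = v' := by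
  have h' := (RL D z).sub_mem h (op_spec D hg z t v)
  rw [← sub_eq_zero]
  apply sv_RL D hg z
  convert h' using 1
  simp only [Finsupp.single_sub]
  abel

lemma sub_val_mem (z : Z) (ξ : Option D.X →₀ D.V z) :
    ξ - Finsupp.single none (val (op D hg z) ξ) ∈ RL D z := by
  induction ξ using Finsupp.induction_linear with
  | zero => simp
  | add ξ η hξ hη =>
    have := (RL D z).add_mem hξ hη
    convert this using 1
    simp only [map_add, Finsupp.single_add]
    abel
  | single o v =>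
    have hv : val (op D hg z) (Finsupp.single o v) = opt (op D hg z) o v := by
      rw [val, Finsupp.lsum_single]
    rw [hv]
    rcases o with _ | t
    · simp
    · exact op_spec D hg z t v

lemma ker_val (z : Z) : LinearMap.ker (val (op D hg z)) = RL D z := by
  ext ξ
  have h := sub_val_mem D hg z ξ
  rw [LinearMap.mem_ker]
  constructor
  · intro h0
    rw [h0, Finsupp.single_zero, sub_zero] at h
    exact h
  · intro h0
    apply sv_RL D hg z
    have := (RL D z).sub_mem h0 h
    rwa [sub_sub_cancel] at this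

/-! ### Passage to finite stages -/

omit hg in
lemma c_range_mono {m n : ℕ} (h : m ≤ n) (hg : ∀ n, (φ n).Good) (z : Z) :
    LinearMap.range (D.c m z) ≤ LinearMap.range (D.c n z) := by
  obtain ⟨ψ, -, h2, -⟩ := tr D hg m n h
  rintro _ ⟨u, rfl⟩
  exact ⟨ψ.i z u, h2 z u⟩

lemma fg_stage (z : Z) (W : Submodule k (D.V z)) (hW : W.FG) :
    ∃ N, ∀ n, N ≤ n → W ≤ LinearMap.range (D.c n z) := by
  induction W, hW using Submodule.fg_induction with
  | singleton v =>
    obtain ⟨N, u, rfl⟩ := D.c_ex z v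
    refine ⟨N, fun n hn => ?_⟩
    rw [Submodule.span_singleton_le_iff_mem]
    exact c_range_mono D hn hg z ⟨u, rfl⟩
  | sup W₁ _ W₂ _ h₁ h₂ =>
    obtain ⟨N₁, h₁⟩ := h₁
    obtain ⟨N₂, h₂⟩ := h₂
    refine ⟨max N₁ N₂, fun n hn => sup_le (h₁ n ?_) (h₂ n ?_)⟩
    · exact (le_max_left _ _).trans hn
    · exact (le_max_right _ _).trans hn

lemma map_stage (r : ℕ) (z : Z) (w : (Fin r → k) →ₗ[k] D.V z) :
    ∃ N, ∀ n, N ≤ n → ∃ w' : (Fin r → k) →ₗ[k] (P n).V z, w = D.c n z ∘ₗ w' := by
  obtain ⟨N, hN⟩ := fg_stage D hg z (LinearMap.range w) (by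
    rw [LinearMap.range_eq_map]
    exact (Module.finite_def.1 inferInstance).map w)
  refine ⟨N, fun n hn => ?_⟩
  obtain ⟨ρ, hρ⟩ := LinearMap.exists_leftInverse_of_injective (D.c n z)
    (LinearMap.ker_eq_bot.2 (D.c_inj n z))
  refine ⟨ρ ∘ₗ w, LinearMap.ext fun y => ?_⟩
  obtain ⟨u, hu⟩ := hN n hn ⟨y, rfl⟩
  have h := LinearMap.congr_fun hρ u
  simp only [LinearMap.comp_apply, LinearMap.id_apply] at h ⊢
  rw [← hu, h]

lemma pencil_stage (r : ℕ) (b : Pencil k D.X (Fin r → k) (Fin r → k)) :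
    ∃ N, ∀ n, N ≤ n → ∃ b' : Pencil k (P n).X (Fin r → k) (Fin r → k), renP (D.a n) b' = b := by
  have h : ∀ s : Finset (Option D.X), ∃ N, ∀ n, N ≤ n →
      (s : Set (Option D.X)) ⊆ Set.range (Option.map (D.a n)) := by
    classical
    intro s
    induction s using Finset.induction_on with
    | empty => exact ⟨0, fun n _ => by simp⟩
    | insert o s _ ih =>
      obtain ⟨N, hN⟩ := ih
      rcases o with _ | t
      · refine ⟨N, fun n hn => ?_⟩
        rw [Finset.coe_insert, Set.insert_subset_iff]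
        exact ⟨⟨none, rfl⟩, hN n hn⟩
      · obtain ⟨M, t', rfl⟩ := D.a_ex t
        refine ⟨max N M, fun n hn => ?_⟩
        rw [Finset.coe_insert, Set.insert_subset_iff]
        refine ⟨?_, hN n ((le_max_left _ _).trans hn)⟩
        obtain ⟨ψ, h1, -⟩ := tr D hg M n ((le_max_right _ _).trans hn)
        exact ⟨some (ψ.f t'), congrArg some (h1 t')⟩
  obtain ⟨N, hN⟩ := h b.support
  refine ⟨N, fun n hn => ?_⟩
  exact ⟨_, Finsupp.mapDomain_comapDomain _ (Option.map_injective (D.a_inj n)) b (hN n hn)⟩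

/-! ### The three properties of the limit -/

lemma lim_surj (r : ℕ) (b : Pencil k D.X (Fin r → k) (Fin r → k)) (hb : Stable b) (z : Z)
    (y : (Fin r → k) →ₗ[k] D.V z) : ∃ w, act (op D hg z) b w = y := by
  obtain ⟨N₁, h₁⟩ := pencil_stage D hg r b
  obtain ⟨N₂, h₂⟩ := map_stage D hg r z y
  obtain ⟨b', rfl⟩ := h₁ (max N₁ N₂) (le_max_left _ _)
  obtain ⟨y', rfl⟩ := h₂ (max N₁ N₂) (le_max_right _ _)
  generalize max N₁ N₂ = N at b' y' hb
  obtain ⟨w, hw⟩ := (hg N).sol r b' ((stable_renP (D.a_inj N) b').1 hb) z y'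
  refine ⟨D.c (N + 1) z ∘ₗ w, LinearMap.ext fun d => ?_⟩
  have h1 : D.a (N + 1) ∘ (φ N).f = D.a N := funext fun t => D.a_s N t
  have h2 := (E_mem_RL D hg _ _ _).2 (hw d)
  have h3 : E D (N + 1) z (ev (renP (φ N).f b') w d) = ev (renP (D.a N) b')
      (D.c (N + 1) z ∘ₗ w) d := by
    rw [← h1, renP_comp, ev_renP]
    rfl
  rw [map_sub, h3, E_single_none, D.c_s, ← ker_val D hg, LinearMap.mem_ker, map_sub,
    sub_eq_zero] at h2
  show val (op D hg z) (ev (renP (D.a N) b') (D.c (N + 1) z ∘ₗ w) d) = _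
  rw [h2, val, Finsupp.lsum_single]
  rfl

lemma Ker_stage (N r : ℕ) (b : Pencil k (P N).X (Fin r → k) (Fin r → k)) (hb : Stable b)
    (z : Z) (w : (Fin r → k) →ₗ[k] D.V z) (hw : w ∈ Ker (RL D z) (renP (D.a N) b)) :
    ∃ w₀ ∈ Ker ((P N).Rl z) b, w = D.c N z ∘ₗ w₀ := by
  obtain ⟨M, hM⟩ := map_stage D hg r z w
  obtain ⟨w', rfl⟩ := hM (max M N) (le_max_left _ _)
  obtain ⟨ψ, h1, h2, h3⟩ := tr D hg N (max M N) (le_max_right _ _)
  have ha : D.a (max M N) ∘ ψ.f = D.a N := funext h1
  have hw' : w' ∈ Ker ((P (max M N)).Rl z) (renP ψ.f b) := by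
    intro d
    have := hw d
    rw [← ha, renP_comp, ev_renP] at this
    exact (E_mem_RL D hg _ _ _).1 this
  obtain ⟨w₀, rfl⟩ := h3 r b hb z w' hw'
  refine ⟨w₀, ?_, LinearMap.ext fun d => h2 z _⟩
  intro d
  have := hw' d
  rw [ev_renP, ψ.rel] at this
  exact this

lemma lim_fk (r : ℕ) (b : Pencil k D.X (Fin r → k) (Fin r → k)) (hb : Stable b) :
    FinFam (fun z => Ker (LinearMap.ker (val (op D hg z))) b) := by
  obtain ⟨N, h⟩ := pencil_stage D hg r b
  obtain ⟨b', rfl⟩ := h N le_rfl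
  have hb' := (stable_renP (D.a_inj N) b').1 hb
  have hle : ∀ z, Ker (LinearMap.ker (val (op D hg z))) (renP (D.a N) b') ≤
      (Ker ((P N).Rl z) b').map (LinearMap.compRight k (D.c N z)) := by
    intro z w hw
    rw [ker_val] at hw
    obtain ⟨w₀, hw₀, rfl⟩ := Ker_stage D hg N r b' hb' z w hw
    exact ⟨w₀, hw₀, rfl⟩
  obtain ⟨hf, hfg⟩ := (P N).inv r b' hb'
  refine ⟨hf.subset ?_, fun z => ?_⟩
  · intro z hz h0
    apply hz
    have h0' : Ker ((P N).Rl z) b' = ⊥ := h0
    have := hle z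
    rw [h0', Submodule.map_bot] at this
    exact le_bot_iff.1 this
  · exact ((hfg z).map _).of_le (hle z)

lemma lim_dense (U : ∀ z, Submodule k (D.V z)) (hU : FinFam U)
    (g : ∀ z, Module.End k (D.V z)) (l : L) :
    ∃ t, D.lab t = l ∧ ∀ z, ∀ u ∈ U z, op D hg z t u = g z u := by
  obtain ⟨hfin, hfg⟩ := hU
  have hst : ∀ z, ∃ N, ∀ n, N ≤ n → U z ⊔ (U z).map (g z) ≤ LinearMap.range (D.c n z) :=
    fun z => fg_stage D hg z _ ((hfg z).sup ((hfg z).map _))
  choose N₀ hN₀ using hst
  obtain ⟨N, hN⟩ : ∃ N, ∀ z ∈ {z | U z ≠ ⊥}, N₀ z ≤ N := by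
    obtain ⟨N, hN⟩ := (hfin.image N₀).bddAbove
    exact ⟨N, fun z hz => hN ⟨z, hz, rfl⟩⟩
  have hr : ∀ z, U z ⊔ (U z).map (g z) ≤ LinearMap.range (D.c N z) := by
    intro z
    by_cases hz : U z = ⊥
    · rw [hz]; simp
    · exact hN₀ z N (hN z hz)
  have hρ := fun z => LinearMap.exists_leftInverse_of_injective (D.c N z)
    (LinearMap.ker_eq_bot.2 (D.c_inj N z))
  choose ρ hρ using hρ
  have hρ' : ∀ z u, ρ z (D.c N z u) = u := fun z u => LinearMap.congr_fun (hρ z) u
  have hUf : FinFam (fun z => (U z).map (ρ z)) := by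
    refine ⟨hfin.subset fun z hz h0 => hz ?_, fun z => (hfg z).map _⟩
    show (U z).map (ρ z) = ⊥
    rw [h0, Submodule.map_bot]
  obtain ⟨t', ht', h⟩ := (hg N).task (fun z => (U z).map (ρ z)) hUf
    (fun z => ρ z ∘ₗ g z ∘ₗ D.c N z) l
  · refine ⟨D.a (N + 1) t', (D.lab_a _ _).trans ht', fun z u hu => ?_⟩
    apply op_unique
    obtain ⟨u', rfl⟩ := hr z (Submodule.mem_sup_left hu)
    obtain ⟨v', hv'⟩ := hr z (Submodule.mem_sup_right (Submodule.mem_map_of_mem hu))
    have h1 := (E_mem_RL D hg _ _ _).2 (h z u' ⟨_, hu, hρ' z u'⟩)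
    rw [map_sub, E_single_some, E_single_none, D.c_s, D.c_s] at h1
    have h2 : (ρ z ∘ₗ g z ∘ₗ D.c N z) u' = v' := by
      show ρ z (g z (D.c N z u')) = v'
      rw [← hv', hρ']
    rw [h2, hv'] at h1
    exact h1

end Main

end Pool.Agent.Matlis.Lim

namespace Pool.Agent.Matlis

theorem lim_proof : Stmt_Lim := by
  intro k _ Z L P φ hg
  obtain ⟨D⟩ := Lim.exists_LD P φ
  exact ⟨{
    V := D.V
    X := D.X
    x := Lim.op D hg
    lab := D.lab
    v0 := fun z => D.c 0 z ((P 0).v0 z)
    v0_ne := fun z h => (P 0).v0_ne z (D.c_inj 0 z (h.trans (map_zero _).symm))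
    dense := Lim.lim_dense D hg
    surj := fun r b hb z y => Lim.lim_surj D hg r b hb z y
    fk := Lim.lim_fk D hg }⟩

end Pool.Agent.Matlis
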