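import Mathlib

/-!
# Matlis' problem: linear pencils

A pencil with variables in `X` from `D'` to `D` is a linear map `b : D' → (Option X →₀ D)`; the
coordinate `none` is the constant coefficient.
-/

set_option linter.unusedSectionVars false

namespace Pool.Agent.Matlis.Lin

open Module

variable {k : Type} [Field k] {X : Type}

section Basic

variable {D' D E' E V : Type} [AddCommGroup D'] [Module k D'] [AddCommGroup D] [Module k D]
  [AddCommGroup E'] [Module k E'] [AddCommGroup E] [Module k E] [AddCommGroup V] [Module k V]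

/-- Coefficientwise application of a linear map. -/
noncomputable def fm (X : Type) (p : D →ₗ[k] E) : (Option X →₀ D) →ₗ[k] (Option X →₀ E) :=
  Finsupp.mapRange.linearMap p

@[simp] theorem fm_apply (p : D →ₗ[k] E) (ξ : Option X →₀ D) (o : Option X) :
    fm X p ξ o = p (ξ o) := rfl

@[simp] theorem fm_single (p : D →ₗ[k] E) (o : Option X) (d : D) :
    fm X p (Finsupp.single o d) = Finsupp.single o (p d) := by
  ext o'
  rw [fm_apply]
  by_cases h : o = o'
  · subst h; simp
  · rw [Finsupp.single_eq_of_ne' h, Finsupp.single_eq_of_ne' h, map_zero]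

theorem fm_comp (p : E →ₗ[k] V) (q : D →ₗ[k] E) (ξ : Option X →₀ D) :
    fm X (p ∘ₗ q) ξ = fm X p (fm X q ξ) := by ext o; rfl

theorem fm_id (ξ : Option X →₀ D) : fm X (LinearMap.id : D →ₗ[k] D) ξ = ξ := by ext o; rfl

theorem fm_add (p q : D →ₗ[k] E) (ξ : Option X →₀ D) : fm X (p + q) ξ = fm X p ξ + fm X q ξ := by
  ext o; rfl

theorem fm_sub (p q : D →ₗ[k] E) (ξ : Option X →₀ D) : fm X (p - q) ξ = fm X p ξ - fm X q ξ := by
  ext o; rfl

theorem fm_smul (c : k) (p : D →ₗ[k] E) (ξ : Option X →₀ D) : fm X (c • p) ξ = c • fm X p ξ := by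
  ext o; rfl

theorem fm_zero (ξ : Option X →₀ D) : fm X (0 : D →ₗ[k] E) ξ = 0 := by ext o; rfl

theorem fm_congr {p q : D →ₗ[k] E} {ξ : Option X →₀ D} (h : ∀ o, p (ξ o) = q (ξ o)) :
    fm X p ξ = fm X q ξ := by ext o; exact h o

theorem fm_injective {p : D →ₗ[k] E} (hp : Function.Injective p) :
    Function.Injective (fm X p) := by
  intro ξ η h
  ext o
  exact hp (DFunLike.congr_fun h o)

theorem fm_sum {ι : Type} (s : Finset ι) (p : ι → D →ₗ[k] E) (ξ : Option X →₀ D) :
    fm X (∑ i ∈ s, p i) ξ = ∑ i ∈ s, fm X (p i) ξ := by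
  ext o
  simp [Finsupp.finsetSum_apply, LinearMap.sum_apply]

/-- The vectors all of whose coefficients are mapped to `S`. -/
def pre (b : D' →ₗ[k] (Option X →₀ D)) (S : Submodule k D) : Submodule k D' where
  carrier := {d | ∀ o, b d o ∈ S}
  add_mem' := by
    intro x y hx hy o
    rw [map_add, Finsupp.add_apply]
    exact S.add_mem (hx o) (hy o)
  zero_mem' := by
    intro o
    rw [map_zero, Finsupp.zero_apply]
    exact S.zero_mem
  smul_mem' := by
    intro c x hx o
    rw [map_smul, Finsupp.smul_apply]
    exact S.smul_mem c (hx o)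

theorem mem_pre {b : D' →ₗ[k] (Option X →₀ D)} {S : Submodule k D} {d : D'} :
    d ∈ pre b S ↔ ∀ o, b d o ∈ S := Iff.rfl

theorem pre_mono (b : D' →ₗ[k] (Option X →₀ D)) {S T : Submodule k D} (h : S ≤ T) :
    pre b S ≤ pre b T := fun _ hd o => h (hd o)

theorem pre_top (b : D' →ₗ[k] (Option X →₀ D)) : pre b ⊤ = ⊤ :=
  eq_top_iff.mpr fun _ _ _ => Submodule.mem_top

theorem pre_bot (b : D' →ₗ[k] (Option X →₀ D)) : pre b ⊥ = LinearMap.ker b := by
  ext d
  rw [mem_pre, LinearMap.mem_ker]
  constructor
  · intro h; ext o; exact (Submodule.mem_bot k).mp (h o)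
  · intro h o; rw [h]; exact (Submodule.mem_bot k).mpr rfl

/-- The number of equations is generically at least the number of unknowns. -/
def CF (b : D' →ₗ[k] (Option X →₀ D)) : Prop :=
  ∀ S : Submodule k D, finrank k D + finrank k (pre b S) ≤ finrank k D' + finrank k S

/-- Full pencils. -/
def Full (b : D' →ₗ[k] (Option X →₀ D)) : Prop :=
  finrank k D = finrank k D' ∧ ∀ S : Submodule k D, finrank k (pre b S) ≤ finrank k S

/-- Stable pencils. -/
def Stable (b : D' →ₗ[k] (Option X →₀ D)) : Prop :=
  Full b ∧ 0 < finrank k D ∧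
    ∀ S : Submodule k D, S ≠ ⊥ → S ≠ ⊤ → finrank k (pre b S) < finrank k S

theorem Full.cf {b : D' →ₗ[k] (Option X →₀ D)} (h : Full b) : CF b := by
  intro S
  have := h.2 S
  have := h.1
  omega

theorem CF.full {b : D' →ₗ[k] (Option X →₀ D)} (h : CF b) (he : finrank k D = finrank k D') :
    Full b := ⟨he, fun S => by have := h S; omega⟩

/-- The quotient pencil. -/
noncomputable def quoP (b : D' →ₗ[k] (Option X →₀ D)) (S : Submodule k D) :
    (D' ⧸ pre b S) →ₗ[k] (Option X →₀ D ⧸ S) :=
  (pre b S).liftQ (fm X S.mkQ ∘ₗ b) (by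
    intro d hd
    rw [LinearMap.mem_ker]
    ext o
    rw [LinearMap.comp_apply, fm_apply, Submodule.mkQ_apply, Finsupp.zero_apply,
      Submodule.Quotient.mk_eq_zero]
    exact hd o)

theorem quo_mk (b : D' →ₗ[k] (Option X →₀ D)) (S : Submodule k D) (d : D') :
    quoP b S ((pre b S).mkQ d) = fm X S.mkQ (b d) := rfl

/-- The restricted pencil. -/
noncomputable def subP (b : D' →ₗ[k] (Option X →₀ D)) (S : Submodule k D) :
    pre b S →ₗ[k] (Option X →₀ S) :=
  fm X (Classical.choose (S.subtype.exists_leftInverse_of_injective S.ker_subtype)) ∘ₗ b ∘ₗ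
    (pre b S).subtype

theorem sub_apply (b : D' →ₗ[k] (Option X →₀ D)) (S : Submodule k D) (d : pre b S)
    (o : Option X) : ((subP b S d) o : D) = b (d : D') o := by
  have h := Classical.choose_spec (S.subtype.exists_leftInverse_of_injective S.ker_subtype)
  have h2 := LinearMap.congr_fun h ⟨b (d : D') o, d.2 o⟩
  have h3 : (subP b S d) o =
      (Classical.choose (S.subtype.exists_leftInverse_of_injective S.ker_subtype))
        (b (d : D') o) := rfl
  rw [h3]
  have h4 : (Classical.choose (S.subtype.exists_leftInverse_of_injective S.ker_subtype))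
        (b (d : D') o) = ⟨b (d : D') o, d.2 o⟩ := h2
  rw [h4]

theorem fm_sub_subtype (b : D' →ₗ[k] (Option X →₀ D)) (S : Submodule k D) (d : pre b S) :
    fm X S.subtype (subP b S d) = b (d : D') := by
  ext o
  exact sub_apply b S d o

section Fin

variable [FiniteDimensional k D'] [FiniteDimensional k D]

theorem finrank_comap_mkQ (S : Submodule k D) (T : Submodule k (D ⧸ S)) :
    finrank k (T.comap S.mkQ) = finrank k T + finrank k S := by
  have h1 := LinearMap.finrank_range_add_finrank_ker (S.mkQ.domRestrict (T.comap S.mkQ))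
  have h2 : LinearMap.range (S.mkQ.domRestrict (T.comap S.mkQ)) = T := by
    ext x
    constructor
    · rintro ⟨y, rfl⟩; exact y.2
    · intro hx
      obtain ⟨y, rfl⟩ := S.mkQ_surjective x
      exact ⟨⟨y, hx⟩, rfl⟩
  have h3 : finrank k (LinearMap.ker (S.mkQ.domRestrict (T.comap S.mkQ))) = finrank k S := by
    have h4 : (LinearMap.ker (S.mkQ.domRestrict (T.comap S.mkQ))).map
        (T.comap S.mkQ).subtype = S := by
      ext x
      simp only [Submodule.mem_map, LinearMap.mem_ker, LinearMap.domRestrict_apply,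
        Submodule.subtype_apply, Subtype.exists, exists_and_right, exists_eq_right,
        Submodule.mkQ_apply, Submodule.Quotient.mk_eq_zero, Submodule.mem_comap]
      constructor
      · rintro ⟨_, h⟩; exact h
      · intro h
        refine ⟨?_, h⟩
        have h5 : S.mkQ x = 0 := by rw [Submodule.mkQ_apply, Submodule.Quotient.mk_eq_zero]; exact h
        rw [Submodule.mem_comap, h5]
        exact T.zero_mem
    conv_rhs => rw [← h4]
    exact (LinearEquiv.finrank_eq (Submodule.equivMapOfInjective _
      (T.comap S.mkQ).injective_subtype _))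
  rw [h2, h3] at h1
  exact h1.symm

theorem pre_quo (b : D' →ₗ[k] (Option X →₀ D)) (S : Submodule k D) (T : Submodule k (D ⧸ S)) :
    (pre (quoP b S) T).comap (pre b S).mkQ = pre b (T.comap S.mkQ) := by
  ext d
  rw [Submodule.mem_comap, mem_pre, mem_pre]
  refine forall_congr' fun o => ?_
  rw [quo_mk, fm_apply]
  rfl

theorem finrank_pre_quo (b : D' →ₗ[k] (Option X →₀ D)) (S : Submodule k D)
    (T : Submodule k (D ⧸ S)) :
    finrank k (pre b (T.comap S.mkQ)) = finrank k (pre (quoP b S) T) + finrank k (pre b S) := by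
  rw [← pre_quo, finrank_comap_mkQ]

theorem finrank_pre_sub (b : D' →ₗ[k] (Option X →₀ D)) (S : Submodule k D)
    (T : Submodule k S) :
    finrank k (pre (subP b S) T) = finrank k (pre b (T.map S.subtype)) := by
  have h : (pre (subP b S) T).map (pre b S).subtype = pre b (T.map S.subtype) := by
    ext d
    simp only [Submodule.mem_map, Submodule.subtype_apply, Subtype.exists, exists_and_right,
      exists_eq_right]
    constructor
    · rintro ⟨hd, h⟩ o
      have := h o
      exact ⟨_, this, sub_apply b S ⟨d, hd⟩ o⟩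
    · intro h
      have hd : d ∈ pre b S := by
        intro o
        obtain ⟨x, _, hx⟩ := h o
        rw [← hx]; exact x.2
      refine ⟨hd, fun o => ?_⟩
      obtain ⟨x, hxT, hx⟩ := h o
      have : subP b S ⟨d, hd⟩ o = x := Subtype.ext ((sub_apply b S ⟨d, hd⟩ o).trans hx.symm)
      rw [this]; exact hxT
  rw [← h]
  exact (LinearEquiv.finrank_eq (Submodule.equivMapOfInjective _
      (pre b S).injective_subtype _))

theorem finrank_map_subtype (S : Submodule k D) (T : Submodule k S) :
    finrank k (T.map S.subtype) = finrank k T :=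
  (LinearEquiv.finrank_eq (Submodule.equivMapOfInjective _ S.injective_subtype _)).symm

/-- Tightness for `CF` pencils. -/
def Tight (b : D' →ₗ[k] (Option X →₀ D)) (S : Submodule k D) : Prop :=
  finrank k D + finrank k (pre b S) = finrank k D' + finrank k S

theorem CF.sub {b : D' →ₗ[k] (Option X →₀ D)} (h : CF b) {S : Submodule k D}
    (hS : Tight b S) : CF (subP b S) := by
  intro T
  have h1 := h (T.map S.subtype)
  rw [finrank_map_subtype, ← finrank_pre_sub] at h1
  unfold Tight at hS
  omega

theorem CF.quo {b : D' →ₗ[k] (Option X →₀ D)} (h : CF b) (S : Submodule k D)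
    (hS : Tight b S) : CF (quoP b S) := by
  intro T
  have h1 := h (T.comap S.mkQ)
  rw [finrank_comap_mkQ, finrank_pre_quo] at h1
  have h2 := S.finrank_quotient_add_finrank
  have h3 := (pre b S).finrank_quotient_add_finrank
  unfold Tight at hS
  omega

theorem Full.sub {b : D' →ₗ[k] (Option X →₀ D)} (h : Full b) {S : Submodule k D}
    (hS : finrank k (pre b S) = finrank k S) : Full (subP b S) := by
  have h1 := h.1
  have ht : Tight b S := by unfold Tight; omega
  exact (h.cf.sub ht).full hS.symm

theorem Full.quo {b : D' →ₗ[k] (Option X →₀ D)} (h : Full b) {S : Submodule k D}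
    (hS : finrank k (pre b S) = finrank k S) : Full (quoP b S) := by
  have h1 := h.1
  have ht : Tight b S := by unfold Tight; omega
  refine (h.cf.quo S ht).full ?_
  have h2 := S.finrank_quotient_add_finrank
  have h3 := (pre b S).finrank_quotient_add_finrank
  omega

theorem Stable.pre_bot {b : D' →ₗ[k] (Option X →₀ D)} (h : Stable b) : pre b ⊥ = ⊥ := by
  have := h.1.2 ⊥
  rw [finrank_bot] at this
  exact Submodule.finrank_eq_zero.mp (by omega)

theorem Full.injective {b : D' →ₗ[k] (Option X →₀ D)} (h : Full b) : Function.Injective b := by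
  have := h.2 ⊥
  rw [finrank_bot] at this
  rw [← LinearMap.ker_eq_bot, ← Lin.pre_bot]
  exact Submodule.finrank_eq_zero.mp (by omega)

/-- Schur's lemma. -/
theorem schur [FiniteDimensional k E'] [FiniteDimensional k E] {b : D' →ₗ[k] (Option X →₀ D)}
    {c : E' →ₗ[k] (Option X →₀ E)} (hb : Stable b) (hc : Stable c) {p : E →ₗ[k] D}
    {r : E' →ₗ[k] D'} (h : ∀ e, fm X p (c e) = b (r e)) :
    (p = 0 ∧ r = 0) ∨ (Function.Bijective p ∧ Function.Bijective r) := by
  have h1 : LinearMap.ker r ≤ pre c (LinearMap.ker p) := by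
    intro e he o
    have := DFunLike.congr_fun (h e) o
    rw [LinearMap.mem_ker.mp he, map_zero] at this
    exact this
  have h2 : LinearMap.range r ≤ pre b (LinearMap.range p) := by
    rintro _ ⟨e, rfl⟩ o
    exact ⟨_, DFunLike.congr_fun (h e) o⟩
  have h3 := Submodule.finrank_mono h1
  have h4 := Submodule.finrank_mono h2
  have h5 := hb.1.2 (LinearMap.range p)
  have h6 := hc.1.2 (LinearMap.ker p)
  have h7 := LinearMap.finrank_range_add_finrank_ker p
  have h8 := LinearMap.finrank_range_add_finrank_ker r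
  have h9 := hc.1.1
  have h10 := hb.1.1
  have hk : LinearMap.ker p = ⊥ ∨ LinearMap.ker p = ⊤ := by
    by_contra hcon
    rw [not_or] at hcon
    have := hc.2.2 _ hcon.1 hcon.2
    omega
  rcases hk with hk | hk
  · right
    have hr : LinearMap.range p = ⊤ := by
      by_contra hcon
      have hr0 : LinearMap.range p ≠ ⊥ := by
        intro h0
        rw [h0, hk, finrank_bot, finrank_bot] at h7
        have := hc.2.1
        omega
      have := hb.2.2 _ hr0 hcon
      omega
    refine ⟨⟨LinearMap.ker_eq_bot.mp hk, LinearMap.range_eq_top.mp hr⟩, ?_⟩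
    rw [hk] at h3 h7
    rw [hr] at h7
    rw [hc.pre_bot, finrank_bot] at h3
    rw [finrank_bot, finrank_top] at h7
    have hkr : LinearMap.ker r = ⊥ := Submodule.finrank_eq_zero.mp (by omega)
    refine ⟨LinearMap.ker_eq_bot.mp hkr, LinearMap.range_eq_top.mp ?_⟩
    apply Submodule.eq_top_of_finrank_eq
    omega
  · left
    have hp : p = 0 := LinearMap.ker_eq_top.mp hk
    refine ⟨hp, ?_⟩
    have hr : LinearMap.range p = ⊥ := LinearMap.range_eq_bot.mpr hp
    rw [hr, hb.pre_bot, finrank_bot] at h4
    exact LinearMap.range_eq_bot.mp (Submodule.finrank_eq_zero.mp (by omega))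

/-- Endomorphisms of stable pencils are scalars. -/
theorem schur_end [IsAlgClosed k] {b : D' →ₗ[k] (Option X →₀ D)} (hb : Stable b)
    {p : D →ₗ[k] D} {r : D' →ₗ[k] D'} (h : ∀ e, fm X p (b e) = b (r e)) :
    ∃ c : k, p = c • LinearMap.id ∧ r = c • LinearMap.id := by
  have hnt : Nontrivial D := finrank_pos_iff.mp hb.2.1
  obtain ⟨c, hc⟩ := Module.End.exists_eigenvalue (K := k) (V := D) p
  refine ⟨c, ?_⟩
  have h1 : ∀ e, fm X (p - c • (LinearMap.id : D →ₗ[k] D)) (b e) =
      b ((r - c • (LinearMap.id : D' →ₗ[k] D')) e) := by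
    intro e
    rw [fm_sub, fm_smul, fm_id, h, LinearMap.sub_apply, map_sub, LinearMap.smul_apply, map_smul,
      LinearMap.id_apply]
  rcases schur hb hb h1 with h2 | h2
  · exact ⟨sub_eq_zero.mp h2.1, sub_eq_zero.mp h2.2⟩
  · exfalso
    obtain ⟨v, hv⟩ := hc.exists_hasEigenvector
    apply hv.2
    apply h2.1.1
    rw [map_zero, LinearMap.sub_apply, hv.apply_eq_smul, LinearMap.smul_apply, LinearMap.id_apply,
      sub_self]

theorem schur_one [IsAlgClosed k] [FiniteDimensional k E'] [FiniteDimensional k E]
    {b : D' →ₗ[k] (Option X →₀ D)} {c : E' →ₗ[k] (Option X →₀ E)} (hb : Stable b)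
    {p₀ : E ≃ₗ[k] D} {r₀ : E' ≃ₗ[k] D'} (h₀ : ∀ e, fm X (p₀ : E →ₗ[k] D) (c e) = b (r₀ e))
    {p : E →ₗ[k] D} {r : E' →ₗ[k] D'} (h : ∀ e, fm X p (c e) = b (r e)) :
    ∃ t : k, p = t • (p₀ : E →ₗ[k] D) ∧ r = t • (r₀ : E' →ₗ[k] D') := by
  have h1 : ∀ e, fm X (p ∘ₗ (p₀.symm : D →ₗ[k] E)) (b e) =
      b ((r ∘ₗ (r₀.symm : D' →ₗ[k] E')) e) := by
    intro e
    have h2 := h₀ (r₀.symm e)
    rw [LinearEquiv.apply_symm_apply] at h2
    rw [← h2, fm_comp, ← fm_comp (p₀.symm : D →ₗ[k] E)]
    have h3 : (p₀.symm : D →ₗ[k] E) ∘ₗ (p₀ : E →ₗ[k] D) = LinearMap.id := by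
      ext x; simp
    rw [h3, fm_id, h]
    rfl
  obtain ⟨t, ht1, ht2⟩ := schur_end hb h1
  refine ⟨t, ?_, ?_⟩
  · ext x
    have := LinearMap.congr_fun ht1 (p₀ x)
    simpa using this
  · ext x
    have := LinearMap.congr_fun ht2 (r₀ x)
    simpa using this

/-- The variable coefficients of a stable pencil which is not constant generate. -/
theorem Stable.span_top {b : D' →ₗ[k] (Option X →₀ D)} (hb : Stable b) {t : X} {d : D'}
    (hd : b d (some t) ≠ 0) : Submodule.span k {x | ∃ (t : X) (d : D'), b d (some t) = x} = ⊤ := by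
  by_contra hcon
  set S := Submodule.span k {x | ∃ (t : X) (d : D'), b d (some t) = x} with hS
  have hS0 : S ≠ ⊥ := by
    intro h0
    have : b d (some t) ∈ S := Submodule.subset_span ⟨t, d, rfl⟩
    rw [h0] at this
    exact hd ((Submodule.mem_bot k).mp this)
  have h1 := hb.2.2 S hS0 hcon
  let f : D' →ₗ[k] D := (Finsupp.lapply none) ∘ₗ b
  have h2 : pre b S = S.comap f := by
    ext e
    rw [mem_pre, Submodule.mem_comap]
    constructor
    · intro h; exact h none
    · intro h o
      cases o with
      | none => exact h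
      | some t => exact Submodule.subset_span ⟨t, e, rfl⟩
  have h3 := LinearMap.finrank_range_add_finrank_ker (S.mkQ ∘ₗ f)
  have h4 : LinearMap.ker (S.mkQ ∘ₗ f) = S.comap f := by
    rw [LinearMap.ker_comp, Submodule.ker_mkQ]
  rw [h4, ← h2] at h3
  have h5 := Submodule.finrank_le (LinearMap.range (S.mkQ ∘ₗ f))
  have h6 := S.finrank_quotient_add_finrank
  have h7 := hb.1.1
  omega

theorem Stable.finrank_one {b : D' →ₗ[k] (Option X →₀ D)} (hb : Stable b)
    (hd : ∀ (d : D') (t : X), b d (some t) = 0) :
    finrank k D = 1 := by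
  let f : D' →ₗ[k] D := (Finsupp.lapply none) ∘ₗ b
  have hf : ∀ d, b d = Finsupp.single none (f d) := by
    intro d
    ext o
    cases o with
    | none => simp [f]
    | some t => rw [hd, Finsupp.single_eq_of_ne (by simp)]
  have hinj : Function.Injective f := by
    intro x y h
    exact hb.1.injective (by rw [hf, hf, h])
  by_contra hne
  have hpos := hb.2.1
  obtain ⟨v, hv⟩ : ∃ v : D, v ≠ 0 := by
    have hnt : Nontrivial D := finrank_pos_iff.mp hpos
    exact exists_ne 0
  have h1 : finrank k (Submodule.span k {v}) = 1 := finrank_span_singleton hv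
  have h2 : Submodule.span k {v} ≠ ⊥ := by
    intro h; rw [h, finrank_bot] at h1; omega
  have h3 : Submodule.span k {v} ≠ ⊤ := by
    intro h; rw [h, finrank_top] at h1; omega
  have h4 := hb.2.2 _ h2 h3
  have hsurj : Function.Surjective f :=
    (LinearMap.injective_iff_surjective_of_finrank_eq_finrank hb.1.1.symm).mp hinj
  obtain ⟨d, hdv⟩ := hsurj v
  have h5 : pre b (Submodule.span k {v}) = ⊥ := Submodule.finrank_eq_zero.mp (by omega)
  have h6 : d ∈ pre b (Submodule.span k {v}) := by
    intro o
    rw [hf, hdv]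
    cases o with
    | none => rw [Finsupp.single_eq_same]; exact Submodule.mem_span_singleton_self v
    | some t => rw [Finsupp.single_eq_of_ne (by simp)]; exact Submodule.zero_mem _
  rw [h5] at h6
  rw [(Submodule.mem_bot k).mp h6, map_zero] at hdv
  exact hv hdv.symm

end Fin

/-! ### Total systems -/

/-- The action of a pencil on a total system `ev`. -/
noncomputable def act (ev : (Option X →₀ V) →ₗ[k] V) (b : D' →ₗ[k] (Option X →₀ D)) :
    (D →ₗ[k] V) →ₗ[k] (D' →ₗ[k] V) where
  toFun w := ev ∘ₗ fm X w ∘ₗ b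
  map_add' := by
    intro w w'
    ext d
    rw [LinearMap.add_apply, LinearMap.comp_apply, LinearMap.comp_apply, fm_add, map_add]
    rfl
  map_smul' := by
    intro c w
    ext d
    rw [LinearMap.comp_apply, LinearMap.comp_apply, fm_smul, map_smul]
    rfl

theorem act_apply (ev : (Option X →₀ V) →ₗ[k] V) (b : D' →ₗ[k] (Option X →₀ D)) (w : D →ₗ[k] V)
    (d : D') : act ev b w d = ev (fm X w (b d)) := rfl

end Basic

/-- If all stable pencils act surjectively then all full pencils do. -/
theorem Full.surjective {V : Type} [AddCommGroup V] [Module k V]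
    (ev : (Option X →₀ V) →ₗ[k] V)
    (hst : ∀ (D' D : Type) [AddCommGroup D'] [Module k D'] [AddCommGroup D] [Module k D]
      [FiniteDimensional k D'] [FiniteDimensional k D] (b : D' →ₗ[k] (Option X →₀ D)),
      Stable b → Function.Surjective (act ev b)) :
    ∀ (n : ℕ) (D' D : Type) [AddCommGroup D'] [Module k D'] [AddCommGroup D] [Module k D]
      [FiniteDimensional k D'] [FiniteDimensional k D] (b : D' →ₗ[k] (Option X →₀ D)),
      finrank k D ≤ n → Full b → Function.Surjective (act ev b) := by
  intro n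
  induction n with
  | zero =>
    intro D' D _ _ _ _ _ _ b hn hb v
    have h1 := hb.1
    have h2 : finrank k D' = 0 := by omega
    have h3 : Subsingleton D' := finrank_zero_iff.mp h2
    exact ⟨0, LinearMap.ext fun d => by rw [Subsingleton.elim d 0, map_zero, map_zero]⟩
  | succ n ih =>
    intro D' D _ _ _ _ _ _ b hn hb
    by_cases hst' : Stable b
    · exact hst D' D b hst'
    · by_cases h0 : finrank k D = 0
      · exact ih D' D b (by omega) hb
      · obtain ⟨S, hS0, hS1, hS⟩ : ∃ S : Submodule k D, S ≠ ⊥ ∧ S ≠ ⊤ ∧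
            finrank k (pre b S) = finrank k S := by
          by_contra hcon
          apply hst'
          refine ⟨hb, by omega, fun S h1 h2 => ?_⟩
          have h3 := hb.2 S
          rcases Nat.lt_or_ge (finrank k (pre b S)) (finrank k S) with h4 | h4
          · exact h4
          · exact absurd ⟨S, h1, h2, by omega⟩ hcon
        have hlt1 : finrank k S < finrank k D := Submodule.finrank_lt hS1
        have hlt2 : 0 < finrank k S := by
          rw [Nat.pos_iff_ne_zero]
          intro h
          exact hS0 (Submodule.finrank_eq_zero.mp h)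
        have hq := S.finrank_quotient_add_finrank
        intro v
        obtain ⟨w1, hw1⟩ := ih (pre b S) S (subP b S) (by omega) (hb.sub hS)
          (v ∘ₗ (pre b S).subtype)
        obtain ⟨w2, hw2⟩ := w1.exists_extend
        have hker : pre b S ≤ LinearMap.ker (v - act ev b w2) := by
          intro d hd
          rw [LinearMap.mem_ker, LinearMap.sub_apply, act_apply]
          have h1 := LinearMap.congr_fun hw1 ⟨d, hd⟩
          rw [act_apply, ← hw2, fm_comp, fm_sub_subtype] at h1
          rw [h1]
          exact sub_self _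
        obtain ⟨w3, hw3⟩ := ih (D' ⧸ pre b S) (D ⧸ S) (quoP b S) (by omega) (hb.quo hS)
          ((pre b S).liftQ _ hker)
        refine ⟨w2 + w3 ∘ₗ S.mkQ, ?_⟩
        ext d
        have h1 := LinearMap.congr_fun hw3 ((pre b S).mkQ d)
        rw [act_apply, quo_mk, ← fm_comp, Submodule.mkQ_apply, Submodule.liftQ_apply,
          LinearMap.sub_apply] at h1
        rw [act_apply, fm_add, map_add, h1, act_apply]
        abel

/-! ### Relation systems -/

section Rel

variable {D' D V : Type} [AddCommGroup D'] [Module k D'] [AddCommGroup D] [Module k D]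
  [AddCommGroup V] [Module k V]

/-- The solutions of a pencil in a relation system. -/
def K (Rl : Submodule k (Option X →₀ V)) (b : D' →ₗ[k] (Option X →₀ D)) :
    Submodule k (D →ₗ[k] V) where
  carrier := {w | ∀ d, fm X w (b d) ∈ Rl}
  add_mem' := by
    intro w w' h h' d
    rw [fm_add]
    exact Rl.add_mem (h d) (h' d)
  zero_mem' := by
    intro d
    rw [fm_zero]
    exact Rl.zero_mem
  smul_mem' := by
    intro c w h d
    rw [fm_smul]
    exact Rl.smul_mem c (h d)

theorem mem_K {Rl : Submodule k (Option X →₀ V)} {b : D' →ₗ[k] (Option X →₀ D)}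
    {w : D →ₗ[k] V} : w ∈ K Rl b ↔ ∀ d, fm X w (b d) ∈ Rl := Iff.rfl

theorem K_ker (ev : (Option X →₀ V) →ₗ[k] V) (b : D' →ₗ[k] (Option X →₀ D)) :
    K (LinearMap.ker ev) b = LinearMap.ker (act ev b) := by
  ext w
  rw [mem_K, LinearMap.mem_ker]
  constructor
  · intro h; ext d; exact h d
  · intro h d
    exact LinearMap.congr_fun h d

theorem sub_mem_K {Rl : Submodule k (Option X →₀ V)} {b : D' →ₗ[k] (Option X →₀ D)}
    {w : D →ₗ[k] V} (hw : w ∈ K Rl b) (S : Submodule k D) : w ∘ₗ S.subtype ∈ K Rl (subP b S) := by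
  intro d
  rw [fm_comp, fm_sub_subtype]
  exact hw d

theorem quo_mem_K {Rl : Submodule k (Option X →₀ V)} {b : D' →ₗ[k] (Option X →₀ D)}
    {w : D →ₗ[k] V} (hw : w ∈ K Rl b) (S : Submodule k D) (h0 : S ≤ LinearMap.ker w) :
    S.liftQ w h0 ∈ K Rl (quoP b S) := by
  intro d
  obtain ⟨d, rfl⟩ := (pre b S).mkQ_surjective d
  rw [quo_mk, ← fm_comp, Submodule.liftQ_mkQ]
  exact hw d

theorem finite_of_exact {M N P : Type} [AddCommGroup M] [Module k M] [AddCommGroup N]
    [Module k N] [AddCommGroup P] [Module k P] [FiniteDimensional k N] [FiniteDimensional k P]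
    (f : M →ₗ[k] N) (g : LinearMap.ker f →ₗ[k] P) (hg : Function.Injective g) :
    FiniteDimensional k M := by
  have h1 : FiniteDimensional k (LinearMap.ker f) := FiniteDimensional.of_injective g hg
  have h2 : FiniteDimensional k (M ⧸ LinearMap.ker f) :=
    FiniteDimensional.of_injective ((LinearMap.ker f).liftQ f le_rfl)
      (LinearMap.ker_eq_bot.mp (Submodule.ker_liftQ_eq_bot _ _ _ le_rfl))
  exact Module.Finite.of_submodule_quotient (LinearMap.ker f)

theorem K_finite {Rl : Submodule k (Option X →₀ V)} {b : D' →ₗ[k] (Option X →₀ D)}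
    (S : Submodule k D) (h1 : FiniteDimensional k (K Rl (subP b S)))
    (h2 : FiniteDimensional k (K Rl (quoP b S))) : FiniteDimensional k (K Rl b) := by
  let f : K Rl b →ₗ[k] K Rl (subP b S) :=
    { toFun := fun w => ⟨(w : D →ₗ[k] V) ∘ₗ S.subtype, sub_mem_K w.2 S⟩
      map_add' := fun w w' => rfl
      map_smul' := fun c w => rfl }
  have hf : ∀ w ∈ LinearMap.ker f, S ≤ LinearMap.ker (w : D →ₗ[k] V) := by
    intro w hw d hd
    have := congrArg Subtype.val (LinearMap.mem_ker.mp hw)
    exact LinearMap.congr_fun this ⟨d, hd⟩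
  let g : LinearMap.ker f →ₗ[k] K Rl (quoP b S) :=
    { toFun := fun w => ⟨S.liftQ w.1.1 (hf w.1 w.2), quo_mem_K w.1.2 S (hf w.1 w.2)⟩
      map_add' := by
        intro w w'
        apply Subtype.ext
        apply Submodule.linearMap_qext
        rfl
      map_smul' := by
        intro c w
        apply Subtype.ext
        apply Submodule.linearMap_qext
        rfl }
  refine finite_of_exact f g ?_
  intro w w' h
  apply Subtype.ext
  apply Subtype.ext
  have h3 := congrArg Subtype.val h
  ext d
  have h4 := LinearMap.congr_fun h3 (S.mkQ d)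
  exact h4

theorem K_bot {Rl : Submodule k (Option X →₀ V)} {b : D' →ₗ[k] (Option X →₀ D)}
    (S : Submodule k D) (h1 : K Rl (subP b S) = ⊥) (h2 : K Rl (quoP b S) = ⊥) : K Rl b = ⊥ := by
  rw [eq_bot_iff]
  intro w hw
  have h3 := sub_mem_K hw S
  rw [h1, Submodule.mem_bot] at h3
  have h4 : S ≤ LinearMap.ker w := fun d hd => LinearMap.congr_fun h3 ⟨d, hd⟩
  have h5 := quo_mem_K hw S h4
  rw [h2, Submodule.mem_bot] at h5
  rw [Submodule.mem_bot]
  ext d
  have h6 := LinearMap.congr_fun h5 (S.mkQ d)
  exact h6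

theorem K_comp_le {Rl : Submodule k (Option X →₀ V)} {b : D' →ₗ[k] (Option X →₀ D)}
    {E' : Type} [AddCommGroup E'] [Module k E'] (q : E' →ₗ[k] D') : K Rl b ≤ K Rl (b ∘ₗ q) :=
  fun _ hw d => hw (q d)

end Rel

/-- The solution spaces of the pencil `b` in a family of relation systems are finite dimensional
and almost all of them are zero. -/
def FinK {Z : Type} {V : Z → Type} [∀ z, AddCommGroup (V z)] [∀ z, Module k (V z)]
    (Rl : ∀ z, Submodule k (Option X →₀ V z)) {D' D : Type} [AddCommGroup D'] [Module k D']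
    [AddCommGroup D] [Module k D] (b : D' →ₗ[k] (Option X →₀ D)) : Prop :=
  (∀ z, FiniteDimensional k (K (Rl z) b)) ∧ {z | K (Rl z) b ≠ ⊥}.Finite

/-- The invariant of the construction. -/
def Inv {Z : Type} {V : Z → Type} [∀ z, AddCommGroup (V z)] [∀ z, Module k (V z)]
    (Rl : ∀ z, Submodule k (Option X →₀ V z)) : Prop :=
  ∀ (D' D : Type) [AddCommGroup D'] [Module k D'] [AddCommGroup D] [Module k D]
    [FiniteDimensional k D'] [FiniteDimensional k D] (b : D' →ₗ[k] (Option X →₀ D)),
    Stable b → FinK Rl b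

section LemmaR

variable {Z : Type} {V : Z → Type} [∀ z, AddCommGroup (V z)] [∀ z, Module k (V z)]
  {Rl : ∀ z, Submodule k (Option X →₀ V z)}

theorem FinK.mono {D' D E' : Type} [AddCommGroup D'] [Module k D']
    [AddCommGroup D] [Module k D] [AddCommGroup E'] [Module k E']
    {b : D' →ₗ[k] (Option X →₀ D)} (q : E' →ₗ[k] D') (h : FinK Rl (b ∘ₗ q)) : FinK Rl b := by
  refine ⟨fun z => ?_, h.2.subset fun z hz => ?_⟩
  · have := h.1 z
    exact Submodule.finiteDimensional_of_le (K_comp_le q)
  · intro h0
    apply hz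
    rw [eq_bot_iff, ← h0]
    exact K_comp_le q

/-- The lemma on `CF` pencils. -/
theorem finK_of_cf (hinv : Inv Rl) : ∀ (n : ℕ) (D' D : Type) [AddCommGroup D'] [Module k D']
    [AddCommGroup D] [Module k D] [FiniteDimensional k D'] [FiniteDimensional k D]
    (b : D' →ₗ[k] (Option X →₀ D)), finrank k D + finrank k D' ≤ n → CF b → FinK Rl b := by
  intro n
  induction n with
  | zero =>
    intro D' D _ _ _ _ _ _ b hn _
    have h1 : finrank k D = 0 := by omega
    have h2 : Subsingleton D := finrank_zero_iff.mp h1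
    have h3 : ∀ z, K (Rl z) b = ⊥ := by
      intro z
      rw [eq_bot_iff]
      intro w _
      rw [Submodule.mem_bot]
      ext d
      rw [Subsingleton.elim d 0, map_zero, map_zero]
    refine ⟨fun z => ?_, ?_⟩
    · rw [h3]; infer_instance
    · simp [h3]
  | succ n ih =>
    intro D' D _ _ _ _ _ _ b hn hb
    by_cases h0 : finrank k D = 0
    · have h2 : Subsingleton D := finrank_zero_iff.mp h0
      have h3 : ∀ z, K (Rl z) b = ⊥ := by
        intro z
        rw [eq_bot_iff]
        intro w _
        rw [Submodule.mem_bot]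
        ext d
        rw [Subsingleton.elim d 0, map_zero, map_zero]
      refine ⟨fun z => ?_, ?_⟩
      · rw [h3]; infer_instance
      · simp [h3]
    by_cases hex : ∃ S : Submodule k D, S ≠ ⊥ ∧ S ≠ ⊤ ∧ Tight b S
    · obtain ⟨S, hS0, hS1, hS⟩ := hex
      have hlt1 : finrank k S < finrank k D := Submodule.finrank_lt hS1
      have hlt2 : 0 < finrank k S := by
        rw [Nat.pos_iff_ne_zero]
        intro h
        exact hS0 (Submodule.finrank_eq_zero.mp h)
      have hq := S.finrank_quotient_add_finrank
      have hq' := (pre b S).finrank_quotient_add_finrank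
      have h1 := ih (pre b S) S (subP b S) (by omega) (hb.sub hS)
      have h2 := ih (D' ⧸ pre b S) (D ⧸ S) (quoP b S) (by omega) (hb.quo S hS)
      refine ⟨fun z => K_finite S (h1.1 z) (h2.1 z), (h1.2.union h2.2).subset fun z hz => ?_⟩
      by_contra hcon
      simp only [Set.mem_union, Set.mem_ofPred_eq, not_or, not_not] at hcon
      exact hz (K_bot S hcon.1 hcon.2)
    have hnt : ∀ S : Submodule k D, S ≠ ⊥ → S ≠ ⊤ →
        finrank k D + finrank k (pre b S) + 1 ≤ finrank k D' + finrank k S := by
      intro S h1 h2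
      have h3 := hb S
      by_contra hcon
      exact hex ⟨S, h1, h2, by unfold Tight; omega⟩
    by_cases hbot : Tight b ⊥
    · by_cases hpre : pre b ⊥ = ⊥
      · apply hinv
        unfold Tight at hbot
        rw [hpre, finrank_bot, finrank_bot] at hbot
        refine ⟨hb.full hbot, by omega, fun S h1 h2 => ?_⟩
        have := hnt S h1 h2
        omega
      · obtain ⟨H, hH⟩ := (pre b ⊥).exists_isCompl
        apply FinK.mono H.subtype
        have hdim := Submodule.finrank_add_eq_of_isCompl hH
        have hpos : 0 < finrank k (pre b ⊥) := by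
          rw [Nat.pos_iff_ne_zero]
          intro h
          exact hpre (Submodule.finrank_eq_zero.mp h)
        apply ih H D _ (by omega)
        intro S
        have h1 := hb S
        have h2 : finrank k (pre (b ∘ₗ H.subtype) S) + finrank k (pre b ⊥) ≤
            finrank k (pre b S) := by
          rw [← (LinearEquiv.finrank_eq (Submodule.equivMapOfInjective _ H.injective_subtype
            (pre (b ∘ₗ H.subtype) S))).symm]
          have h3 : Disjoint ((pre (b ∘ₗ H.subtype) S).map H.subtype) (pre b ⊥) := by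
            refine Disjoint.mono_left ?_ hH.disjoint.symm
            rintro _ ⟨x, _, rfl⟩
            exact x.2
          rw [← Submodule.finrank_sup_add_finrank_inf_eq, h3.eq_bot, finrank_bot, add_zero]
          apply Submodule.finrank_mono
          refine sup_le ?_ (pre_mono b bot_le)
          rintro _ ⟨x, hx, rfl⟩
          exact hx
        omega
    · have hlt : finrank k D + finrank k (pre b ⊥) < finrank k D' := by
        have h1 := hb ⊥
        rw [finrank_bot] at h1
        unfold Tight at hbot
        rw [finrank_bot] at hbot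
        omega
      have hpos' : 0 < finrank k D' := by omega
      have hnt' : Nontrivial D' := finrank_pos_iff.mp hpos'
      obtain ⟨v, hv⟩ := exists_ne (0 : D')
      obtain ⟨f, hf⟩ := (LinearMap.toSpanSingleton k D' v).exists_leftInverse_of_injective
        (LinearMap.ker_toSpanSingleton k hv)
      have hfs : LinearMap.range f = ⊤ := by
        rw [LinearMap.range_eq_top]
        intro c
        exact ⟨c • v, by simpa using LinearMap.congr_fun hf c⟩
      have hfr := LinearMap.finrank_range_add_finrank_ker f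
      rw [hfs, finrank_top, finrank_self] at hfr
      apply FinK.mono (LinearMap.ker f).subtype
      apply ih (LinearMap.ker f) D _ (by omega)
      intro S
      have h2 : finrank k (pre (b ∘ₗ (LinearMap.ker f).subtype) S) ≤ finrank k (pre b S) := by
        rw [← (LinearEquiv.finrank_eq (Submodule.equivMapOfInjective _
          (LinearMap.ker f).injective_subtype
          (pre (b ∘ₗ (LinearMap.ker f).subtype) S))).symm]
        apply Submodule.finrank_mono
        rintro _ ⟨x, hx, rfl⟩
        exact hx
      have h3 := Submodule.finrank_le (pre (b ∘ₗ (LinearMap.ker f).subtype) S)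
      by_cases hS0 : S = ⊥
      · subst hS0; omega
      by_cases hS1 : S = ⊤
      · subst hS1
        rw [finrank_top]
        omega
      have := hnt S hS0 hS1
      omega

end LemmaR

end Pool.Agent.Matlis.Lin
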