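import Pool.Agent.Matlis.Defs

/-!
# Naturality (MP_504466_al)
-/

set_option autoImplicit false

open scoped TensorProduct DirectSum
open Module

namespace Pool.Agent.Matlis

namespace NatAux

/-- the action of pencils commutes with intertwiners -/
theorem act_comp {k : Type} [Field k] {X D' D V W : Type} [AddCommGroup D'] [Module k D']
    [AddCommGroup D] [Module k D] [AddCommGroup V] [Module k V] [AddCommGroup W] [Module k W]
    (x : X → Module.End k V) (x' : X → Module.End k W) (φ : V →ₗ[k] W)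
    (h : ∀ t v, φ (x t v) = x' t (φ v)) (b : Pencil k X D' D) (w : D →ₗ[k] V) :
    act x' b (φ ∘ₗ w) = φ ∘ₗ act x b w := by
  have hval : (val x').comp (push φ) = φ ∘ₗ val x := by
    refine Finsupp.lhom_ext fun o v => ?_
    rcases o with _ | t
    · simp [val]
    · simp [val, h]
  ext d
  have hev : ev b (φ ∘ₗ w) d = push φ (ev b w d) := by
    ext o
    simp
  change val x' (ev b (φ ∘ₗ w) d) = φ (val x (ev b w d))
  rw [hev]
  exact LinearMap.congr_fun hval (ev b w d)

end NatAux

theorem nat_proof (hS : Stmt_HatS) : Stmt_Nat := by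
  intro k _ Z _ Q G I NN i j φ hφ r hr y
  obtain ⟨D', D, _, _, _, _, _, _, b, c, d, hb, hrep⟩ := hr
  obtain ⟨w, hw⟩ := hS k Z Q G D' D b hb (NN i) (d.smulRight y)
  have h1 := hrep i y w hw
  have h2 : act (xhat G (NN j)) b (φ ∘ₗ w) = d.smulRight (φ y) := by
    rw [NatAux.act_comp (xhat G (NN i)) (xhat G (NN j)) φ hφ b w, hw]
    ext d'
    simp
  have h3 := hrep j (φ y) (φ ∘ₗ w) h2
  rw [h1, h3]
  rfl

end Pool.Agent.Matlis
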