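import Pool.Agent.Matlis.Defs

/-!
# NEXT: one step of the construction of a generic system
-/

set_option autoImplicit false

open Module

namespace Pool.Agent.Matlis

namespace NextM

section

variable {k : Type} [Field k] {X Y : Type} {D' D V W W' : Type} [AddCommGroup D'] [Module k D']
  [AddCommGroup D] [Module k D] [AddCommGroup V] [Module k V] [AddCommGroup W] [Module k W]
  [AddCommGroup W'] [Module k W']

theorem push_ev (i : V →ₗ[k] W) (b : Pencil k X D' D) (w : D →ₗ[k] V) (d : D') :
    push i (ev b w d) = ev b (i ∘ₗ w) d := by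
  ext o
  simp [push]

theorem push_single (i : V →ₗ[k] W) (o : Option X) (v : V) :
    push i (Finsupp.single o v) = Finsupp.single o (i v) := by
  simp [push]

theorem push_push (i : V →ₗ[k] W) (j : W →ₗ[k] W') (ξ : Option X →₀ V) :
    push j (push i ξ) = push (j ∘ₗ i) ξ := by
  ext o
  simp [push]

theorem ren_single (f : X → Y) (o : Option X) (v : V) :
    ren (k := k) (V := V) f (Finsupp.single o v) = Finsupp.single (o.map f) v := by
  simp [ren]

theorem ren_ev (f : X → Y) (hf : Function.Injective f) (b : Pencil k X D' D) (w : D →ₗ[k] V)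
    (d : D') : ren (k := k) (V := V) f (ev b w d) = ev (renP f b) w d := by
  have hf' : Function.Injective (Option.map f) := Option.map_injective hf
  ext o
  simp only [ren, Finsupp.lmapDomain_apply, ev_apply, renP]
  by_cases ho : o ∈ Set.range (Option.map f)
  · obtain ⟨o', rfl⟩ := ho
    rw [Finsupp.mapDomain_apply hf', Finsupp.mapDomain_apply hf', ev_apply]
  · rw [Finsupp.mapDomain_notin_range _ _ ho, Finsupp.mapDomain_notin_range _ _ ho]
    simp

/-- Steps (b) and (a) together. -/
theorem stepAB [IsAlgClosed k] (hA : Stmt_StepA) (hB : Stmt_StepB)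
    (Rl : Submodule k (Option X →₀ V)) (hsv : SV Rl) :
    ∃ (W : Type) (_ : AddCommGroup W) (_ : Module k W) (i : V →ₗ[k] W)
      (Rl' : Submodule k (Option X →₀ W)),
      Function.Injective i ∧ SV Rl' ∧ (∀ ξ, push i ξ ∈ Rl' ↔ ξ ∈ Rl) ∧
      (∀ (n : ℕ) (b : Pencil k X (Fin n → k) (Fin n → k)), Stable b →
        ∀ v : (Fin n → k) →ₗ[k] V, ∃ w : (Fin n → k) →ₗ[k] W,
          ∀ d, ev b w d - Finsupp.single none (i (v d)) ∈ Rl') ∧
      (∀ (t : X) (v : V), ∃ v' : W,
        Finsupp.single (some t) (i v) - Finsupp.single none v' ∈ Rl') ∧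
      (∀ (n : ℕ) (b : Pencil k X (Fin n → k) (Fin n → k)), Stable b →
        ∀ w ∈ Ker Rl' b, ∃ w₀ : (Fin n → k) →ₗ[k] V, w₀ ∈ Ker Rl b ∧ w = i ∘ₗ w₀) := by
  obtain ⟨W1, a1, m1, i1, Rl1, inj1, sv1, push1, sol1, ker1⟩ := hB k X V Rl hsv
  obtain ⟨W2, a2, m2, i2, Rl2, inj2, sv2, push2, tot2, ker2⟩ := hA k X W1 Rl1 sv1
  refine ⟨W2, a2, m2, i2 ∘ₗ i1, Rl2, ?_, sv2, ?_, ?_, ?_, ?_⟩
  · intro x y hxy
    exact inj1 (inj2 hxy)
  · intro ξ
    rw [← push_push, push2, push1]
  · intro n b hb v
    obtain ⟨w, hw⟩ := sol1 n b hb v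
    refine ⟨i2 ∘ₗ w, fun d => ?_⟩
    have := (push2 _).2 (hw d)
    rw [map_sub, push_ev, push_single] at this
    exact this
  · intro t v
    exact tot2 t (i1 v)
  · intro n b hb w hw
    obtain ⟨w1, rfl⟩ := ker2 n b hb w hw
    have h1 : w1 ∈ Ker Rl1 b := by
      intro d
      have := hw d
      rw [← push_ev, push2] at this
      exact this
    obtain ⟨w0, rfl⟩ := ker1 n b hb w1 h1
    refine ⟨w0, ?_, rfl⟩
    intro d
    have := h1 d
    rw [← push_ev, push1] at this
    exact this

end

end NextM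

open NextM in
theorem next_proof (hA : Stmt_StepA) (hB : Stmt_StepB) (hC : Stmt_StepC) : Stmt_Next := by
  intro k _ _ Z L P
  choose W aW mW i Rl' hinj hsv hpush hsol htot hker using
    fun z => stepAB (k := k) (X := P.X) (V := P.V z) hA hB (P.Rl z) (P.sv z)
  -- finite kernels
  have hfin : ∀ (n : ℕ) (b : Pencil k P.X (Fin n → k) (Fin n → k)), Stable b →
      FinFam (fun z => Ker (Rl' z) b) := by
    intro n b hb
    obtain ⟨h1, h2⟩ := P.inv n b hb
    have hle : ∀ z, Ker (Rl' z) b ≤ (Ker (P.Rl z) b).map (LinearMap.compRight k (i z)) := by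
      intro z w hw
      obtain ⟨w0, hw0, rfl⟩ := hker z n b hb w hw
      exact ⟨w0, hw0, rfl⟩
    refine ⟨h1.subset ?_, fun z => ?_⟩
    · intro z hz hz'
      apply hz
      have h3 : Ker (P.Rl z) b = ⊥ := hz'
      have := hle z
      rw [h3, Submodule.map_bot] at this
      exact le_bot_iff.1 this
    · have hfg : (Ker (P.Rl z) b).map (LinearMap.compRight k (i z)) |>.FG := (h2 z).map _
      exact Submodule.FG.of_le hfg (hle z)
  obtain ⟨c1, c2, c3⟩ := hC k P.X Z L W Rl' hsv hfin
  let P' : PS k Z L :=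
    { X := P.X ⊕ Task k Z L W
      lab := Sum.elim P.lab Task.l
      V := W
      Rl := fun z => relC Rl' z
      v0 := fun z => i z (P.v0 z)
      v0_ne := fun z h => P.v0_ne z (hinj z (by rw [h, map_zero]))
      sv := c1
      inv := c3 }
  let φ : PSHom P P' :=
    { f := Sum.inl
      f_inj := Sum.inl_injective
      i := i
      i_inj := hinj
      lab_f := fun t => rfl
      i_v0 := fun z => rfl
      rel := fun z ξ => by rw [c2, hpush] }
  refine ⟨P', φ, ?_, ?_, ?_, ?_⟩
  · intro n b hb z v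
    obtain ⟨w, hw⟩ := hsol z n b hb v
    refine ⟨w, fun d => ?_⟩
    have := (c2 z _).2 (hw d)
    rw [map_sub, ren_ev _ Sum.inl_injective, ren_single] at this
    exact this
  · intro z t v
    obtain ⟨v', hv'⟩ := htot z t v
    refine ⟨v', ?_⟩
    have := (c2 z _).2 hv'
    rw [map_sub, ren_single, ren_single] at this
    exact this
  · intro U hU g l
    have hex : ∀ z, ∃ r : W z →ₗ[k] P.V z, r ∘ₗ i z = LinearMap.id := fun z =>
      (i z).exists_leftInverse_of_injective (LinearMap.ker_eq_bot.2 (hinj z))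
    choose r hr using hex
    have hr' : ∀ z v, r z (i z v) = v := fun z v => by
      have := LinearMap.congr_fun (hr z) v
      simpa using this
    let y : Task k Z L W :=
      { U := fun z => (U z).map (i z)
        fin := by
          refine ⟨hU.1.subset ?_, fun z => (hU.2 z).map _⟩
          intro z hz hz'
          apply hz
          show Submodule.map (i z) (U z) = ⊥
          rw [hz', Submodule.map_bot]
        g := fun z => i z ∘ₗ g z ∘ₗ r z
        l := l }
    refine ⟨Sum.inr y, rfl, fun z u hu => ?_⟩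
    refine Submodule.mem_sup_right (Submodule.subset_span ⟨y, i z u, ⟨u, hu, rfl⟩, ?_⟩)
    simp only [y, LinearMap.comp_apply, hr']
    rfl
  · intro n b hb z w hw
    have hw' : w ∈ Ker (Rl' z) b := by
      intro d
      have := hw d
      rw [show φ.f = Sum.inl from rfl, ← ren_ev _ Sum.inl_injective] at this
      exact (c2 z _).1 this
    obtain ⟨w0, _, h⟩ := hker z n b hb w hw'
    exact ⟨w0, h⟩

end Pool.Agent.Matlis
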