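import Pool.Agent.Matlis.Act

/-!
# Closure properties of the ring `R` (module RMEM)
-/

set_option autoImplicit false

open scoped TensorProduct DirectSum
open Module

namespace Pool.Agent.Matlis

namespace Rmem

variable {k : Type} [Field k] {Z : Type} [DecidableEq Z] {Q : Quiv Z} {I : Type}

/-- a pencil with `b_none = id` is full -/
theorem full_of_none {X D : Type} [AddCommGroup D] [Module k D] [FiniteDimensional k D]
    (b : Pencil k X D D) (h : b none = LinearMap.id) : Full b := by
  refine ⟨rfl, fun S => Submodule.finrank_mono fun d hd => ?_⟩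
  have h1 := (Act.mem_pre b S d).1 hd none
  rwa [h] at h1

theorem inR_algebraMap (G : GenSys k Z (Option Q.Arr)) (NN : I → Rep k Q) (κ : k) :
    InR G NN (algebraMap k (Big G NN) κ) := by
  refine ⟨k, k, inferInstance, inferInstance, inferInstance, inferInstance, inferInstance,
    inferInstance, Finsupp.single none LinearMap.id, κ, LinearMap.id,
    full_of_none _ (Finsupp.single_eq_same), ?_⟩
  intro i y w hw
  rw [Act.act_single_none] at hw
  have h1 := LinearMap.congr_fun hw κ
  change w κ = κ • y at h1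
  rw [h1]
  rfl

theorem inR_x (G : GenSys k Z (Option Q.Arr)) (NN : I → Rep k Q) (t : G.X) :
    InR G NN (xbig G NN t) := by
  classical
  let b : Pencil k G.X (k × k) (k × k) := Finsupp.single none LinearMap.id -
    Finsupp.single (some t) (LinearMap.inl k k k ∘ₗ LinearMap.snd k k k)
  have hb : b none = LinearMap.id := by
    simp [b]
  refine ⟨k × k, k × k, inferInstance, inferInstance, inferInstance, inferInstance, inferInstance,
    inferInstance, b, (0, 1), LinearMap.fst k k k, full_of_none b hb, ?_⟩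
  intro i y w hw
  have hact : act (xhat G (NN i)) b w =
      w - xhat G (NN i) t ∘ₗ w ∘ₗ LinearMap.inl k k k ∘ₗ LinearMap.snd k k k := by
    have h0 : act (xhat G (NN i)) b w + act (xhat G (NN i)) (Finsupp.single (some t)
        (LinearMap.inl k k k ∘ₗ LinearMap.snd k k k)) w =
        act (xhat G (NN i)) (Finsupp.single none LinearMap.id) w := by
      have hb2 : b + Finsupp.single (some t) (LinearMap.inl k k k ∘ₗ LinearMap.snd k k k) =
          Finsupp.single none LinearMap.id := by
        simp only [b]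
        exact sub_add_cancel (G := Pencil k G.X (k × k) (k × k)) _ _
      rw [← Act.act_add_left, hb2]
    rw [Act.act_single, Act.act_single_none] at h0
    rw [eq_sub_iff_add_eq]
    exact h0
  rw [hact] at hw
  have h1 := LinearMap.congr_fun hw (1, 0)
  have h2 := LinearMap.congr_fun hw (0, 1)
  simp only [LinearMap.sub_apply, LinearMap.comp_apply, LinearMap.snd_apply, LinearMap.inl_apply,
    LinearMap.smulRight_apply, LinearMap.fst_apply, one_smul, zero_smul] at h1 h2
  have h3 : w ((0 : k), (0 : k)) = 0 := map_zero w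
  rw [h3, map_zero, sub_zero] at h1
  rw [h1, sub_eq_zero] at h2
  exact h2.symm

theorem inR_add (hTri : Stmt_Tri) (G : GenSys k Z (Option Q.Arr)) (NN : I → Rep k Q)
    {r r' : Big G NN} (hr : InR G NN r) (hr' : InR G NN r') : InR G NN (r + r') := by
  obtain ⟨D1', D1, _, _, _, _, _, _, b1, c1, d1, hb1, h1⟩ := hr
  obtain ⟨D2', D2, _, _, _, _, _, _, b2, c2, d2, hb2, h2⟩ := hr'
  refine ⟨D1' × D2', D1 × D2, inferInstance, inferInstance, inferInstance, inferInstance,
    inferInstance, inferInstance, tri b1 b2 0, (c1, c2),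
    d1 ∘ₗ LinearMap.fst k D1' D2' + d2 ∘ₗ LinearMap.snd k D1' D2',
    hTri k G.X D1' D1 D2' D2 b1 b2 0 hb1 hb2, ?_⟩
  intro i y w hw
  have key : ∀ a1 a2, act (xhat G (NN i)) b1 (w ∘ₗ LinearMap.inl k D1 D2) a1 +
      act (xhat G (NN i)) b2 (w ∘ₗ LinearMap.inr k D1 D2) a2 = (d1 a1 + d2 a2) • y := by
    intro a1 a2
    have h3 := LinearMap.congr_fun hw (a1, a2)
    rw [Act.act_tri] at h3
    have h4 : act (xhat G (NN i)) (0 : Pencil k G.X D2' D1) (w ∘ₗ LinearMap.inl k D1 D2) a2 = 0 := by
      rw [Act.act_apply]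
      exact Finsupp.sum_zero_index
    rw [h4, add_zero] at h3
    exact h3
  have e1 := h1 i y (w ∘ₗ LinearMap.inl k D1 D2) (by
    ext a
    have := key a 0
    rw [map_zero, map_zero, add_zero, add_zero] at this
    exact this)
  have e2 := h2 i y (w ∘ₗ LinearMap.inr k D1 D2) (by
    ext a
    have := key 0 a
    rw [map_zero, map_zero, zero_add, zero_add] at this
    exact this)
  change r i y + r' i y = w (c1, c2)
  rw [e1, e2, LinearMap.comp_apply, LinearMap.comp_apply, ← map_add]
  simp

theorem inR_mul (hTri : Stmt_Tri) (G : GenSys k Z (Option Q.Arr)) (NN : I → Rep k Q)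
    {r r' : Big G NN} (hr : InR G NN r) (hr' : InR G NN r') : InR G NN (r * r') := by
  obtain ⟨D1', D1, _, _, _, _, _, _, b1, c1, d1, hb1, h1⟩ := hr'
  obtain ⟨D2', D2, _, _, _, _, _, _, b2, c2, d2, hb2, h2⟩ := hr
  -- `b1` represents `r'`, `b2` represents `r`
  refine ⟨D1' × D2', D1 × D2, inferInstance, inferInstance, inferInstance, inferInstance,
    inferInstance, inferInstance, tri b1 b2 (Finsupp.single none (-(d2.smulRight c1))), (0, c2),
    d1 ∘ₗ LinearMap.fst k D1' D2',
    hTri k G.X D1' D1 D2' D2 b1 b2 _ hb1 hb2, ?_⟩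
  intro i y w hw
  have key : ∀ a1 a2, act (xhat G (NN i)) b1 (w ∘ₗ LinearMap.inl k D1 D2) a1 +
      act (xhat G (NN i)) b2 (w ∘ₗ LinearMap.inr k D1 D2) a2 - d2 a2 • w (c1, 0) =
        d1 a1 • y := by
    intro a1 a2
    have h3 := LinearMap.congr_fun hw (a1, a2)
    rw [Act.act_tri, Act.act_single_none] at h3
    have h4 : ((w ∘ₗ LinearMap.inl k D1 D2) ∘ₗ (-(d2.smulRight c1))) a2 =
        - (d2 a2 • w (c1, 0)) := by
      simp only [LinearMap.comp_apply, LinearMap.neg_apply, LinearMap.smulRight_apply, map_neg,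
        map_smul, LinearMap.inl_apply]
    rw [h4] at h3
    rw [sub_eq_add_neg]
    exact h3
  have e1 := h1 i y (w ∘ₗ LinearMap.inl k D1 D2) (by
    ext a
    have := key a 0
    rw [map_zero, map_zero, add_zero, zero_smul, sub_zero] at this
    exact this)
  have e2 := h2 i (r' i y) (w ∘ₗ LinearMap.inr k D1 D2) (by
    ext a
    have := key 0 a
    rw [map_zero, map_zero, zero_add, zero_smul, sub_eq_zero] at this
    rw [e1]
    exact this)
  change r i (r' i y) = w (0, c2)
  exact e2

end Rmem

open Rmem in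
theorem rmem_proof (hTri : Stmt_Tri) : Stmt_Rmem := by
  intro k _ Z _ Q G I NN
  refine ⟨fun r => ⟨fun hr => ?_, fun hr => Algebra.subset_adjoin hr⟩, fun t => inR_x G NN t⟩
  refine Algebra.adjoin_induction (p := fun r _ => InR G NN r) ?_ ?_ ?_ ?_ hr
  · intro r hr
    exact hr
  · intro κ
    exact inR_algebraMap G NN κ
  · intro r r' _ _ h h'
    exact inR_add hTri G NN h h'
  · intro r r' _ _ h h'
    exact inR_mul hTri G NN h h'

end Pool.Agent.Matlis
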