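import Pool.Agent.Matlis.TransLib

/-!
# Module STEPA: totality
-/

set_option autoImplicit false

open Module

namespace Pool.Agent.Matlis

open Pool.Agent.Matlis.TL

namespace StepA

section factN

variable {k : Type} [Field k] {X : Type}
variable {D' D : Type} [AddCommGroup D'] [Module k D'] [AddCommGroup D] [Module k D]

lemma finrank_le_comap [FiniteDimensional k D'] [FiniteDimensional k D] (f : D' →ₗ[k] D)
    (S : Submodule k D) : finrank k D' + finrank k S ≤ finrank k (S.comap f) + finrank k D := by
  have h := LinearMap.finrank_range_add_finrank_ker (S.mkQ ∘ₗ f)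
  have h1 : LinearMap.ker (S.mkQ ∘ₗ f) = S.comap f := by
    rw [LinearMap.ker_comp, Submodule.ker_mkQ]
  have h2 : finrank k (LinearMap.range (S.mkQ ∘ₗ f)) ≤ finrank k (D ⧸ S) :=
    Submodule.finrank_le _
  have h3 := S.finrank_quotient_add_finrank
  rw [h1] at h
  omega

/-- The sum of the ranges of the non-constant coefficients. -/
noncomputable def sumRange (b : Pencil k X D' D) : Submodule k D :=
  ⨆ t : X, LinearMap.range (b (some t))

lemma sumRange_eq_top [FiniteDimensional k D'] [FiniteDimensional k D] (b : Pencil k X D' D)
    (hb : Stable b) (h : ∃ t : X, b (some t) ≠ 0) : sumRange b = ⊤ := by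
  by_contra hc
  have h0 : sumRange b ≠ ⊥ := by
    intro h0
    obtain ⟨t, ht⟩ := h
    apply ht
    have h1 : LinearMap.range (b (some t)) ≤ ⊥ := by
      rw [← h0]
      exact le_iSup (fun t : X => LinearMap.range (b (some t))) t
    rw [← LinearMap.range_eq_bot]
    exact le_bot_iff.1 h1
  have h1 := hb.2.2 _ h0 hc
  have h2 : pre b (sumRange b) = (sumRange b).comap (b none) := by
    ext d
    rw [mem_pre, Submodule.mem_comap]
    constructor
    · intro hd
      exact hd none
    · intro hd o
      cases o with
      | none => exact hd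
      | some t =>
        exact Submodule.mem_iSup_of_mem t (LinearMap.mem_range_self _ d)
  have h3 := finrank_le_comap (b none) (sumRange b)
  rw [← h2] at h3
  have h4 := hb.1.1
  omega

lemma none_surjective [FiniteDimensional k D'] [FiniteDimensional k D] (b : Pencil k X D' D)
    (hb : Full b) (h : ∀ t : X, b (some t) = 0) : Function.Surjective (b none) := by
  have h1 := hb.2 ⊥
  have h2 : pre b ⊥ = LinearMap.ker (b none) := by
    ext d
    rw [mem_pre, LinearMap.mem_ker]
    constructor
    · intro hd
      exact (Submodule.mem_bot k).1 (hd none)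
    · intro hd o
      rw [Submodule.mem_bot]
      cases o with
      | none => exact hd
      | some t => rw [h t]; rfl
  rw [h2, finrank_bot] at h1
  have h3 : LinearMap.ker (b none) = ⊥ := by
    rw [← Submodule.finrank_eq_zero (R := k)]
    omega
  exact (LinearMap.injective_iff_surjective_of_finrank_eq_finrank hb.1).1
    (LinearMap.ker_eq_bot.1 h3)

end factN

section constr

variable {k : Type} [Field k] {X V : Type} [AddCommGroup V] [Module k V]
  (Rl : Submodule k (Option X →₀ V))

/-- The embedding `V → (Option X →₀ V) ⧸ Rl`. -/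
noncomputable def inc : V →ₗ[k] ((Option X →₀ V) ⧸ Rl) :=
  Rl.mkQ ∘ₗ Finsupp.lsingle none

lemma inc_apply (v : V) : inc Rl v = Rl.mkQ (Finsupp.single none v) := rfl

lemma inc_injective (h : SV Rl) : Function.Injective (inc Rl) := by
  rw [injective_iff_map_eq_zero]
  intro v hv
  apply h
  rw [inc_apply, Submodule.mkQ_apply, Submodule.Quotient.mk_eq_zero] at hv
  exact hv

/-- `ξ ↦ push i ξ - single none [ξ]`. -/
noncomputable def rho : (Option X →₀ V) →ₗ[k] (Option X →₀ ((Option X →₀ V) ⧸ Rl)) :=
  push (inc Rl) - Finsupp.lsingle none ∘ₗ Rl.mkQ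

lemma rho_apply (ξ : Option X →₀ V) :
    rho Rl ξ = push (inc Rl) ξ - Finsupp.single none (Rl.mkQ ξ) := rfl

lemma rho_some (ξ : Option X →₀ V) (t : X) : rho Rl ξ (some t) = inc Rl (ξ (some t)) := by
  rw [rho_apply]
  simp

lemma rho_none (ξ : Option X →₀ V) : rho Rl ξ none = inc Rl (ξ none) - Rl.mkQ ξ := by
  rw [rho_apply]
  simp

lemma eq_single_none (ξ : Option X →₀ V) (h : ∀ t : X, ξ (some t) = 0) :
    ξ = Finsupp.single none (ξ none) := by
  ext o
  cases o with
  | none => simp
  | some t => rw [h t]; simp

end constr

end StepA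

open Pool.Agent.Matlis.StepA in
theorem stepA_proof : Stmt_StepA := by
  intro k _ X V _ _ Rl hRl
  have hinj := inc_injective Rl hRl
  have hSV : SV (LinearMap.range (rho Rl)) := by
    rintro w ⟨ξ, hξ⟩
    have h1 : ∀ t : X, ξ (some t) = 0 := by
      intro t
      have h := DFunLike.congr_fun hξ (some t)
      rw [rho_some] at h
      apply hinj
      rw [h, map_zero]
      simp
    have h2 := eq_single_none ξ h1
    have h := DFunLike.congr_fun hξ none
    rw [rho_none, inc_apply, ← h2, sub_self] at h
    simpa using h.symm
  refine ⟨(Option X →₀ V) ⧸ Rl, inferInstance, inferInstance, inc Rl, LinearMap.range (rho Rl),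
    hinj, hSV, ?_, ?_, ?_⟩
  · intro ξ
    constructor
    · rintro ⟨η, hη⟩
      have h1 : ∀ t : X, (η - ξ) (some t) = 0 := by
        intro t
        have h := DFunLike.congr_fun hη (some t)
        rw [rho_some] at h
        have h' : inc Rl (η (some t)) = inc Rl (ξ (some t)) := by rw [h]; simp
        have := hinj h'
        rw [Finsupp.sub_apply, this, sub_self]
      have h2 := eq_single_none (η - ξ) h1
      have h := DFunLike.congr_fun hη none
      rw [rho_none] at h
      have h3 : (push (inc Rl) ξ : Option X →₀ ((Option X →₀ V) ⧸ Rl)) none =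
          inc Rl (ξ none) := by simp
      rw [h3] at h
      have h4 : inc Rl ((η - ξ) none) = Rl.mkQ η := by
        rw [Finsupp.sub_apply, map_sub]
        rw [sub_eq_iff_eq_add] at h
        rw [h]
        abel
      rw [inc_apply, ← h2, map_sub] at h4
      have h5 : Rl.mkQ ξ = 0 := by
        rw [sub_eq_iff_eq_add] at h4
        have := h4.symm
        rw [add_eq_left] at this
        exact this
      rwa [Submodule.mkQ_apply, Submodule.Quotient.mk_eq_zero] at h5
    · intro hξ
      refine ⟨ξ, ?_⟩
      rw [rho_apply]
      have : Rl.mkQ ξ = 0 := by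
        rw [Submodule.mkQ_apply, Submodule.Quotient.mk_eq_zero]
        exact hξ
      rw [this]
      simp
  · intro t v
    refine ⟨Rl.mkQ (Finsupp.single (some t) v), Finsupp.single (some t) v, ?_⟩
    rw [rho_apply]
    congr 1
    simp
  · intro n b hb w hw
    by_cases hX : ∃ t : X, b (some t) ≠ 0
    · have htop := sumRange_eq_top b hb hX
      have hle : sumRange b ≤ (LinearMap.range (inc Rl)).comap w := by
        refine iSup_le fun t => ?_
        rintro _ ⟨d, rfl⟩
        obtain ⟨ξ, hξ⟩ := hw d
        have h := DFunLike.congr_fun hξ (some t)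
        rw [rho_some, ev_apply] at h
        exact ⟨_, h⟩
      have hr : ∀ d, w d ∈ LinearMap.range (inc Rl) := by
        intro d
        have : d ∈ sumRange b := by rw [htop]; trivial
        exact hle this
      refine ⟨(LinearEquiv.ofInjective (inc Rl) hinj).symm ∘ₗ
        w.codRestrict (LinearMap.range (inc Rl)) hr, ?_⟩
      ext1 d
      have := LinearEquiv.apply_symm_apply (LinearEquiv.ofInjective (inc Rl) hinj)
        (w.codRestrict (LinearMap.range (inc Rl)) hr (Pi.single d 1))
      have h2 := congrArg Subtype.val this
      ext1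
      simp only [LinearMap.comp_apply, LinearMap.coe_single, LinearEquiv.coe_coe]
      exact h2.symm
    · push Not at hX
      refine ⟨0, ?_⟩
      have hs := none_surjective b hb.1 hX
      have : ∀ d, w d = 0 := by
        intro d
        obtain ⟨d', rfl⟩ := hs d
        apply hSV
        have h1 := hw d'
        have h2 : ev b w d' = Finsupp.single none (w (b none d')) := by
          rw [eq_single_none (ev b w d') (by
            intro t
            rw [ev_apply, hX t]
            simp), ev_apply]
        rw [← h2]
        exact h1
      apply LinearMap.ext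
      intro d
      rw [this d]
      simp

end Pool.Agent.Matlis
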