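import Pool.Agent.Matlis.Defs

/-!
# MP_504466_al: step (b) of the construction (adjoining solutions)

Schur's lemma for stable pencils, and the free adjunction of solutions of stable pencils.
-/

set_option autoImplicit false
set_option linter.unusedSectionVars false

open Module

namespace Pool.Agent.Matlis

namespace StepB

section Schur

variable {k : Type} [Field k] {X : Type}
variable {C' C D' D : Type} [AddCommGroup C'] [Module k C'] [AddCommGroup C] [Module k C]
  [AddCommGroup D'] [Module k D'] [AddCommGroup D] [Module k D]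
  [FiniteDimensional k C'] [FiniteDimensional k C]
  [FiniteDimensional k D'] [FiniteDimensional k D]

lemma mem_pre (b : Pencil k X D' D) (S : Submodule k D) (d : D') :
    d ∈ pre b S ↔ ∀ o, b o d ∈ S := by
  simp [pre]

lemma pre_bot {b : Pencil k X D' D} (hb : Full b) : pre b ⊥ = ⊥ := by
  have h := hb.2 ⊥
  rw [finrank_bot] at h
  exact Submodule.finrank_eq_zero.1 (Nat.le_zero.1 h)

lemma eq_zero_of {b : Pencil k X D' D} (hb : Full b) {d : D'} (h : ∀ o, b o d = 0) : d = 0 := by
  have : d ∈ pre b ⊥ := (mem_pre b ⊥ d).2 (fun o => by simp [h o])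
  rw [pre_bot hb] at this
  simpa using this

/-- Intertwiners of pencils. -/
def Itw (c : Pencil k X C' C) (b : Pencil k X D' D) (p : C →ₗ[k] D) (r : C' →ₗ[k] D') : Prop :=
  ∀ o d, p (c o d) = b o (r d)

lemma schur {c : Pencil k X C' C} {b : Pencil k X D' D} (hc : Stable c) (hb : Stable b)
    {p : C →ₗ[k] D} {r : C' →ₗ[k] D'} (h : Itw c b p r) :
    (p = 0 ∧ r = 0) ∨ (Function.Bijective p ∧ Function.Bijective r) := by
  have hker : pre c (LinearMap.ker p) = LinearMap.ker r := by
    ext d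
    rw [mem_pre, LinearMap.mem_ker]
    constructor
    · intro hd
      apply eq_zero_of hb.1
      intro o
      rw [← h o d]
      exact hd o
    · intro hd o
      rw [LinearMap.mem_ker, h o d, hd, map_zero]
  have hran : LinearMap.range r ≤ pre b (LinearMap.range p) := by
    rintro _ ⟨d, rfl⟩
    rw [mem_pre]
    intro o
    exact ⟨c o d, h o d⟩
  have e1 := LinearMap.finrank_range_add_finrank_ker p
  have e2 := LinearMap.finrank_range_add_finrank_ker r
  have e3 := hc.1.1
  have e4 := hb.1.1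
  have e5 := hc.1.2 (LinearMap.ker p)
  have e6 := hb.1.2 (LinearMap.range p)
  have e7 := Submodule.finrank_mono hran
  rw [hker] at e5
  have hk : LinearMap.ker p = ⊥ ∨ LinearMap.ker p = ⊤ := by
    by_contra hcon
    push Not at hcon
    have := hc.2.2 _ hcon.1 hcon.2
    rw [hker] at this
    omega
  have hr : LinearMap.range p = ⊥ ∨ LinearMap.range p = ⊤ := by
    by_contra hcon
    push Not at hcon
    have := hb.2.2 _ hcon.1 hcon.2
    omega
  rcases hk with hk | hk
  · right
    have hinj : Function.Injective p := LinearMap.ker_eq_bot.1 hk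
    have hkr : LinearMap.ker r = ⊥ := by
      rw [← hker, hk]; exact pre_bot hc.1
    have hinjr : Function.Injective r := LinearMap.ker_eq_bot.1 hkr
    have hpos := hc.2.1
    have hk0 : finrank k (LinearMap.ker p) = 0 := by rw [hk]; simp
    have hkr0 : finrank k (LinearMap.ker r) = 0 := by rw [hkr]; simp
    have hne : LinearMap.range p ≠ ⊥ := by
      intro h0
      have : finrank k (LinearMap.range p) = 0 := by rw [h0]; simp
      omega
    have htop : LinearMap.range p = ⊤ := by
      rcases hr with hr | hr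
      · exact absurd hr hne
      · exact hr
    refine ⟨⟨hinj, LinearMap.range_eq_top.1 htop⟩, hinjr, ?_⟩
    have hd : finrank k (LinearMap.range p) = finrank k D := by rw [htop]; simp
    apply LinearMap.range_eq_top.1
    apply Submodule.eq_top_of_finrank_eq
    omega
  · left
    have hp : p = 0 := LinearMap.ker_eq_top.1 hk
    refine ⟨hp, ?_⟩
    ext d
    simp only [LinearMap.zero_apply]
    apply eq_zero_of hb.1
    intro o
    rw [← h o d, hp]
    simp

lemma schur_end [IsAlgClosed k] {b : Pencil k X D' D} (hb : Stable b)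
    {p : D →ₗ[k] D} {r : D' →ₗ[k] D'} (h : Itw b b p r) :
    ∃ μ : k, (∀ d, p d = μ • d) ∧ (∀ d, r d = μ • d) := by
  have : Nontrivial D := Module.nontrivial_of_finrank_pos hb.2.1
  obtain ⟨μ, hμ⟩ := Module.End.exists_eigenvalue p
  obtain ⟨v, hv⟩ := hμ.exists_hasEigenvector
  refine ⟨μ, ?_⟩
  have h' : Itw b b (p - μ • LinearMap.id) (r - μ • LinearMap.id) := by
    intro o d
    simp only [LinearMap.sub_apply, LinearMap.smul_apply, LinearMap.id_apply, map_sub, map_smul]
    rw [h o d]
  rcases schur hb hb h' with ⟨h1, h2⟩ | ⟨h1, _⟩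
  · constructor
    · intro d
      have := congrArg (fun f => f d) h1
      simpa [sub_eq_zero] using this
    · intro d
      have := congrArg (fun f => f d) h2
      simpa [sub_eq_zero] using this
  · exfalso
    apply hv.2
    apply h1.1
    rw [map_zero]
    simp [hv.apply_eq_smul]

/-- Fact (N), second half. -/
lemma factN {b : Pencil k X D' D} (hb : Stable b) (h : ∃ t, b (some t) ≠ 0) {d : D'}
    (hd : ∀ t, b (some t) d = 0) : d = 0 := by
  let K : Submodule k D' := ⨅ t, LinearMap.ker (b (some t))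
  have hK : ∀ x, x ∈ K ↔ ∀ t, b (some t) x = 0 := by
    intro x
    simp [K]
  let S : Submodule k D := K.map (b none)
  have hle : K ≤ pre b S := by
    intro x hx
    rw [mem_pre]
    intro o
    cases o with
    | none => exact ⟨x, hx, rfl⟩
    | some t =>
      rw [(hK x).1 hx t]
      exact S.zero_mem
  have e1 := Submodule.finrank_mono hle
  have e2 : finrank k S ≤ finrank k K := Submodule.finrank_map_le _ _
  by_cases h0 : S = ⊥
  · have := hb.1.2 S
    rw [h0, finrank_bot] at this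
    rw [h0] at e1
    have hK0 : finrank k K = 0 := by omega
    have hK1 : K = ⊥ := Submodule.finrank_eq_zero.1 hK0
    have : d ∈ K := (hK d).2 hd
    rw [hK1] at this
    simpa using this
  · by_cases h1 : S = ⊤
    · exfalso
      have e3 : finrank k S = finrank k D := by rw [h1]; simp
      have e4 := hb.1.1
      have e5 : finrank k K ≤ finrank k D' := Submodule.finrank_le K
      have hKt : K = ⊤ := by
        apply Submodule.eq_top_of_finrank_eq
        omega
      obtain ⟨t, ht⟩ := h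
      apply ht
      ext x
      have : x ∈ K := by rw [hKt]; trivial
      simpa using (hK x).1 this t
    · exfalso
      have := hb.2.2 S h0 h1
      omega

end Schur

/-! ### `f ⊗ 1` on `k^n ⊗ Q = Q^n` -/

section Tens

variable {k : Type} [Field k] {n : ℕ} {Q : Type} [AddCommGroup Q] [Module k Q]

/-- `f ⊗ 1`. -/
noncomputable def tens (f : (Fin n → k) →ₗ[k] (Fin n → k)) : (Fin n → Q) →ₗ[k] (Fin n → Q) where
  toFun η := fun j => ∑ i, f (Pi.single i 1) j • η i
  map_add' := by
    intro η η'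
    funext j
    simp only [Pi.add_apply, smul_add, Finset.sum_add_distrib]
  map_smul' := by
    intro c η
    funext j
    simp only [Pi.smul_apply, RingHom.id_apply, Finset.smul_sum]
    refine Finset.sum_congr rfl fun i _ => ?_
    rw [smul_comm]

lemma tens_apply (f : (Fin n → k) →ₗ[k] (Fin n → k)) (η : Fin n → Q) (j : Fin n) :
    tens f η j = ∑ i, f (Pi.single i 1) j • η i := rfl

lemma vec_eq (x : Fin n → k) : x = ∑ i, x i • (Pi.single i (1 : k) : Fin n → k) := by
  funext j
  simp [Finset.sum_apply, Pi.single_apply]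

lemma map_vec {M : Type} [AddCommGroup M] [Module k M] (f : (Fin n → k) →ₗ[k] M)
    (x : Fin n → k) : f x = ∑ i, x i • f (Pi.single i 1) := by
  conv_lhs => rw [vec_eq x]
  rw [map_sum]
  simp only [map_smul]

@[simp] lemma tens_zero : tens (0 : (Fin n → k) →ₗ[k] (Fin n → k)) = (0 : (Fin n → Q) →ₗ[k] _) := by
  ext η j
  simp [tens_apply]

/-- apply a functional to every coordinate -/
noncomputable def dl (l : Q →ₗ[k] k) : (Fin n → Q) →ₗ[k] (Fin n → k) :=
  LinearMap.pi (fun j => l ∘ₗ LinearMap.proj j)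

@[simp] lemma dl_apply (l : Q →ₗ[k] k) (η : Fin n → Q) (j : Fin n) : dl l η j = l (η j) := rfl

lemma dl_tens (l : Q →ₗ[k] k) (f : (Fin n → k) →ₗ[k] (Fin n → k)) (η : Fin n → Q) :
    dl l (tens f η) = f (dl l η) := by
  funext j
  rw [dl_apply, tens_apply, map_sum, map_vec f (dl l η)]
  rw [Finset.sum_apply]
  refine Finset.sum_congr rfl fun i _ => ?_
  rw [map_smul, Pi.smul_apply, dl_apply, smul_eq_mul, smul_eq_mul, mul_comm]

lemma eq_zero_of_dl {η : Fin n → Q} (h : ∀ l : Q →ₗ[k] k, dl l η = 0) : η = 0 := by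
  funext j
  rw [Pi.zero_apply]
  rw [← Module.forall_dual_apply_eq_zero_iff k]
  intro l
  have := congrFun (h l) j
  simpa using this

lemma lin_eq_zero_of_dl {M : Type} [AddCommGroup M] [Module k M] {f : M →ₗ[k] (Fin n → Q)}
    (h : ∀ l : Q →ₗ[k] k, dl l ∘ₗ f = 0) : f = 0 := by
  ext1 d
  rw [LinearMap.zero_apply]
  apply eq_zero_of_dl (k := k)
  intro l
  have := congrArg (fun g => g d) (h l)
  simpa using this

lemma tq_eq_of {x : Fin n → Q} {q : Q} {y : Fin n → k}
    (h : ∀ l : Q →ₗ[k] k, dl l x = l q • y) : x = fun j => y j • q := by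
  rw [← sub_eq_zero]
  apply eq_zero_of_dl (k := k)
  intro l
  rw [map_sub, h l]
  funext j
  rw [Pi.sub_apply, Pi.smul_apply, dl_apply, map_smul, smul_eq_mul, smul_eq_mul, mul_comm,
    sub_self, Pi.zero_apply]

/-- `d ↦ d ⊗ q` -/
noncomputable def tq (q : Q) : (Fin n → k) →ₗ[k] (Fin n → Q) :=
  LinearMap.pi (fun j => (LinearMap.proj j).smulRight q)

@[simp] lemma tq_apply (q : Q) (d : Fin n → k) (j : Fin n) : tq q d j = d j • q := rfl

lemma tens_tq (f : (Fin n → k) →ₗ[k] (Fin n → k)) (q : Q) (d : Fin n → k) :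
    tens f (tq q d) = tq q (f d) := by
  funext j
  rw [tens_apply, tq_apply, map_vec f d, Finset.sum_apply, Finset.sum_smul]
  refine Finset.sum_congr rfl fun i _ => ?_
  rw [tq_apply, Pi.smul_apply, smul_smul, smul_eq_mul, mul_comm]

end Tens

/-! ### The construction -/

section Main

variable {k : Type} [Field k] {X : Type} {V : Type} [AddCommGroup V] [Module k V]
variable {ι : Type} [DecidableEq ι] (n : ι → ℕ)
  (b : ∀ β, Pencil k X (Fin (n β) → k) (Fin (n β) → k))
  (Q : ∀ β, Submodule k ((Fin (n β) → k) →ₗ[k] V))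

/-- the new space -/
abbrev WW : Type := V × (Π₀ β, (Fin (n β) → Q β))

/-- `η ↦ (o ↦ (b_o ⊗ 1) η)` -/
noncomputable def AA (β : ι) : (Fin (n β) → Q β) →ₗ[k] (Option X →₀ (Fin (n β) → Q β)) where
  toFun η := (b β).mapRange (fun f => tens f η) (by simp)
  map_add' := by
    intro η η'
    ext1 o
    simp
  map_smul' := by
    intro c η
    ext1 o
    simp

lemma AA_apply (β : ι) (η : Fin (n β) → Q β) (o : Option X) :
    AA n b Q β η o = tens (b β o) η := by
  simp [AA]

/-- `d' ⊗ q ↦ q d'` -/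
noncomputable def EE1 (β : ι) : (Fin (n β) → Q β) →ₗ[k] V where
  toFun η := ∑ j, ((η j : (Fin (n β) → k) →ₗ[k] V)) (Pi.single j 1)
  map_add' := by
    intro η η'
    simp [Finset.sum_add_distrib]
  map_smul' := by
    intro c η
    simp [Finset.smul_sum]

lemma EE1_tq (β : ι) (q : Q β) (d : Fin (n β) → k) :
    EE1 n Q β (tq q d) = (q : (Fin (n β) → k) →ₗ[k] V) d := by
  rw [map_vec (q : (Fin (n β) → k) →ₗ[k] V) d]
  simp [EE1]

/-- total evaluation -/
noncomputable def Ev : (Π₀ β, (Fin (n β) → Q β)) →ₗ[k] V :=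
  DFinsupp.lsum k (fun β => EE1 n Q β)

lemma Ev_single (β : ι) (x : Fin (n β) → Q β) : Ev n Q (DFinsupp.single β x) = EE1 n Q β x := by
  simp [Ev]

/-- inclusion of `V` -/
noncomputable def iV : V →ₗ[k] WW n Q := LinearMap.inl k V (Π₀ β, (Fin (n β) → Q β))

/-- inclusion of the summand `β` -/
noncomputable def jB (β : ι) : (Fin (n β) → Q β) →ₗ[k] WW n Q :=
  (LinearMap.inr k V (Π₀ β, (Fin (n β) → Q β))).comp
    (DFinsupp.lsingle (M := fun β => (Fin (n β) → Q β)) β)

omit [DecidableEq ι] in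
@[simp] lemma iV_fst (v : V) : (iV n Q v).1 = v := rfl
omit [DecidableEq ι] in
@[simp] lemma iV_snd (v : V) : (iV n Q v).2 = 0 := rfl
@[simp] lemma jB_fst (β : ι) (x : Fin (n β) → Q β) : (jB n Q β x).1 = 0 := rfl
@[simp] lemma jB_snd (β : ι) (x : Fin (n β) → Q β) :
    (jB n Q β x).2 = DFinsupp.single β x := rfl

/-- the new relations -/
noncomputable def Th : (Π₀ β, (Fin (n β) → Q β)) →ₗ[k] (Option X →₀ WW n Q) :=
  DFinsupp.lsum k (fun β =>
    (push (W := WW n Q) (jB n Q β)) ∘ₗ AA n b Q β - (Finsupp.lsingle none) ∘ₗ (iV n Q) ∘ₗ EE1 n Q β)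

lemma Th_single (β : ι) (x : Fin (n β) → Q β) (o : Option X) :
    Th n b Q (DFinsupp.single β x) o =
      jB n Q β (tens (b β o) x) -
        (Finsupp.single none (iV n Q (EE1 n Q β x)) : Option X →₀ WW n Q) o := by
  rw [Th, DFinsupp.lsum_single]
  rfl

lemma Th_snd (η : Π₀ β, (Fin (n β) → Q β)) (o : Option X) (γ : ι) :
    (Th n b Q η o).2 γ = tens (b γ o) (η γ) := by
  let f1 : (Π₀ β, (Fin (n β) → Q β)) →ₗ[k] (Fin (n γ) → Q γ) :=
    (DFinsupp.lapply γ) ∘ₗ (LinearMap.snd k V _) ∘ₗ (Finsupp.lapply o) ∘ₗ Th n b Q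
  let f2 : (Π₀ β, (Fin (n β) → Q β)) →ₗ[k] (Fin (n γ) → Q γ) :=
    (tens (b γ o)) ∘ₗ (DFinsupp.lapply γ)
  have h : f1 = f2 := by
    refine DFinsupp.lhom_ext fun β x => ?_
    have e1 : f1 (DFinsupp.single β x) = (Th n b Q (DFinsupp.single β x) o).2 γ := rfl
    have e2 : f2 (DFinsupp.single β x) = tens (b γ o)
      ((DFinsupp.single β x : Π₀ β, (Fin (n β) → Q β)) γ) := rfl
    have e3 : ((Finsupp.single none (iV n Q (EE1 n Q β x)) : Option X →₀ WW n Q) o).2 γ = 0 := by
      rw [Finsupp.single_apply]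
      split_ifs <;> rfl
    rw [e1, e2, Th_single, Prod.snd_sub, DFinsupp.sub_apply, jB_snd, e3, sub_zero]
    by_cases hβ : β = γ
    · subst hβ
      rw [DFinsupp.single_eq_same, DFinsupp.single_eq_same]
    · rw [DFinsupp.single_eq_of_ne (Ne.symm hβ), DFinsupp.single_eq_of_ne (Ne.symm hβ), map_zero]
  exact congrArg (fun f => f η) h

lemma Th_fst (η : Π₀ β, (Fin (n β) → Q β)) (o : Option X) :
    (Th n b Q η o).1 = - (Finsupp.single none (Ev n Q η) : Option X →₀ V) o := by
  let f1 : (Π₀ β, (Fin (n β) → Q β)) →ₗ[k] V :=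
    (LinearMap.fst k V _) ∘ₗ (Finsupp.lapply o) ∘ₗ Th n b Q
  let f2 : (Π₀ β, (Fin (n β) → Q β)) →ₗ[k] V :=
    - ((Finsupp.lapply o) ∘ₗ (Finsupp.lsingle none) ∘ₗ Ev n Q)
  have h : f1 = f2 := by
    refine DFinsupp.lhom_ext fun β x => ?_
    have e1 : f1 (DFinsupp.single β x) = (Th n b Q (DFinsupp.single β x) o).1 := rfl
    have e2 : f2 (DFinsupp.single β x) =
      - (Finsupp.single none (Ev n Q (DFinsupp.single β x)) : Option X →₀ V) o := rfl
    rw [e1, e2, Th_single, Prod.fst_sub, jB_fst, zero_sub, Ev_single]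
    rw [Finsupp.single_apply, Finsupp.single_apply]
    split_ifs <;> simp
  exact congrArg (fun f => f η) h

variable (Rl : Submodule k (Option X →₀ V))

/-- the new relation space -/
noncomputable def RN : Submodule k (Option X →₀ WW n Q) :=
  Rl.map (push (W := WW n Q) (iV n Q)) ⊔ LinearMap.range (Th n b Q)

lemma mem_RN (ξ : Option X →₀ WW n Q) :
    ξ ∈ RN n b Q Rl ↔ ∃ ξ₀ ∈ Rl, ∃ η, push (W := WW n Q) (iV n Q) ξ₀ + Th n b Q η = ξ := by
  rw [RN, Submodule.mem_sup]
  constructor
  · rintro ⟨_, ⟨ξ₀, h0, rfl⟩, _, ⟨η, rfl⟩, h⟩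
    exact ⟨ξ₀, h0, η, h⟩
  · rintro ⟨ξ₀, h0, η, h⟩
    exact ⟨_, ⟨ξ₀, h0, rfl⟩, _, ⟨η, rfl⟩, h⟩

/-- the pencil equation `b w = v` has a solution over `V` -/
def Sol {D' D : Type} [AddCommGroup D'] [Module k D'] [AddCommGroup D] [Module k D]
    (c : Pencil k X D' D) : Submodule k (D' →ₗ[k] V) where
  carrier := {v | ∃ w : D →ₗ[k] V, ∀ d, ev c w d - Finsupp.single none (v d) ∈ Rl}
  add_mem' := by
    rintro v v' ⟨w, hw⟩ ⟨w', hw'⟩
    refine ⟨w + w', fun d => ?_⟩
    have : ev c (w + w') d - Finsupp.single none ((v + v') d) =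
        (ev c w d - Finsupp.single none (v d)) + (ev c w' d - Finsupp.single none (v' d)) := by
      ext o
      simp only [Finsupp.sub_apply, Finsupp.add_apply, ev_apply, LinearMap.add_apply,
        Finsupp.single_add]
      abel
    rw [this]
    exact Rl.add_mem (hw d) (hw' d)
  zero_mem' := by
    refine ⟨0, fun d => ?_⟩
    have : ev c (0 : D →ₗ[k] V) d - Finsupp.single none ((0 : D' →ₗ[k] V) d) = 0 := by
      ext o
      simp
    rw [this]
    exact Rl.zero_mem
  smul_mem' := by
    rintro μ v ⟨w, hw⟩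
    refine ⟨μ • w, fun d => ?_⟩
    have : ev c (μ • w) d - Finsupp.single none ((μ • v) d) =
        μ • (ev c w d - Finsupp.single none (v d)) := by
      ext o
      rw [Finsupp.smul_apply, Finsupp.sub_apply, Finsupp.sub_apply, ev_apply, ev_apply, smul_sub,
        LinearMap.smul_apply, LinearMap.smul_apply, ← Finsupp.smul_apply, Finsupp.smul_single]
    rw [this]
    exact Rl.smul_mem μ (hw d)

variable (hst : ∀ β, Stable (b β)) (hQ : ∀ β, IsCompl (Sol Rl (b β)) (Q β)) (hsv : SV Rl)

include hst in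
omit [DecidableEq ι] in
lemma eta_zero (β : ι) {x : Fin (n β) → Q β} (h : ∀ o, tens (b β o) x = 0) : x = 0 := by
  apply eq_zero_of_dl (k := k)
  intro l
  apply eq_zero_of (hst β).1
  intro o
  rw [← dl_tens, h o, map_zero]

include hst hQ in
omit [DecidableEq ι] in
lemma eta_zero' (β : ι) {x : Fin (n β) → Q β} (h : ∀ t, tens (b β (some t)) x = 0) : x = 0 := by
  by_cases hN : ∃ t, b β (some t) ≠ 0
  · apply eq_zero_of_dl (k := k)
    intro l
    apply factN (hst β) hN
    intro t
    rw [← dl_tens, h t, map_zero]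
  · push Not at hN
    have hinj : Function.Injective (b β none) := by
      rw [← LinearMap.ker_eq_bot, LinearMap.ker_eq_bot']
      intro d hd
      apply eq_zero_of (hst β).1
      intro o
      cases o with
      | none => exact hd
      | some t => rw [hN t, LinearMap.zero_apply]
    have hI : Sol Rl (b β) = ⊤ := by
      rw [eq_top_iff]
      intro v _
      let e := LinearEquiv.ofInjectiveEndo (b β none) hinj
      refine ⟨v ∘ₗ e.symm.toLinearMap, fun d => ?_⟩
      have : ev (b β) (v ∘ₗ e.symm.toLinearMap) d - Finsupp.single none (v d) = 0 := by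
        ext o
        cases o with
        | none =>
          have : e.symm (b β none d) = d := by
            rw [LinearEquiv.symm_apply_eq]
            rfl
          simp [this]
        | some t => simp [hN t]
      rw [this]
      exact Rl.zero_mem
    have hQ0 : Q β = ⊥ := by
      have := (hQ β).disjoint
      rw [hI, top_disjoint] at this
      exact this
    funext j
    have h00 : ∀ y ∈ Q β, y = 0 := by
      intro y hy
      rw [hQ0] at hy
      simpa using hy
    exact Subtype.ext (h00 _ (x j).2)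

include hst hQ hsv in
lemma RN_sv : SV (V := WW n Q) (RN n b Q Rl) := by
  intro w hw
  obtain ⟨ξ₀, h0, η, h⟩ := (mem_RN n b Q Rl _).1 hw
  have h2 : ∀ o γ, tens (b γ o) (η γ) = ((Finsupp.single none w : Option X →₀ WW n Q) o).2 γ := by
    intro o γ
    rw [← h, Finsupp.add_apply, Prod.snd_add, DFinsupp.add_apply, Th_snd]
    simp
  have hη : η = 0 := by
    ext1 γ
    apply eta_zero' n b Q Rl hst hQ γ
    intro t
    rw [h2]
    simp
  have h1 : ξ₀ = Finsupp.single none w.1 := by
    ext1 o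
    have := congrArg (fun f : Option X →₀ WW n Q => (f o).1) h
    simp only [hη, map_zero, add_zero] at this
    rw [Finsupp.mapRange.linearMap_apply, Finsupp.mapRange_apply] at this
    rw [← iV_fst n Q (ξ₀ o), this, Finsupp.single_apply, Finsupp.single_apply]
    split_ifs <;> rfl
  have h3 : w.1 = 0 := hsv _ (h1 ▸ h0)
  refine Prod.ext h3 ?_
  ext1 γ
  have := h2 none γ
  rw [hη] at this
  simpa using this.symm

include hst in
lemma RN_push (ξ : Option X →₀ V) :
    push (W := WW n Q) (iV n Q) ξ ∈ RN n b Q Rl ↔ ξ ∈ Rl := by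
  constructor
  · intro hw
    obtain ⟨ξ₀, h0, η, h⟩ := (mem_RN n b Q Rl _).1 hw
    have hη : η = 0 := by
      ext1 γ
      apply eta_zero n b Q hst γ
      intro o
      rw [← Th_snd]
      have := congrArg (fun f : Option X →₀ WW n Q => (f o).2 γ) h
      simpa using this
    rw [hη, map_zero, add_zero] at h
    have : ξ₀ = ξ := by
      ext1 o
      have := congrArg (fun f : Option X →₀ WW n Q => (f o).1) h
      simpa using this
    rw [← this]
    exact h0
  · intro h
    exact (mem_RN n b Q Rl _).2 ⟨ξ, h, 0, by simp⟩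

include hQ in
/-- solutions for the representatives -/
lemma RN_sol (β : ι) (v : (Fin (n β) → k) →ₗ[k] V) :
    ∃ w : (Fin (n β) → k) →ₗ[k] WW n Q,
      ∀ d, ev (V := WW n Q) (b β) w d - Finsupp.single none (iV n Q (v d)) ∈ RN n b Q Rl := by
  have hv : v ∈ Sol Rl (b β) ⊔ Q β := by
    rw [(hQ β).sup_eq_top]; trivial
  obtain ⟨v₁, ⟨w₁, hw₁⟩, q, hq, rfl⟩ := Submodule.mem_sup.1 hv
  refine ⟨(iV n Q) ∘ₗ w₁ + (jB n Q β) ∘ₗ (tq ⟨q, hq⟩), fun d => ?_⟩
  rw [mem_RN]
  refine ⟨_, hw₁ d, DFinsupp.single β (tq ⟨q, hq⟩ d), ?_⟩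
  ext1 o
  rw [Finsupp.add_apply, Th_single, tens_tq, EE1_tq]
  rw [Finsupp.mapRange.linearMap_apply, Finsupp.mapRange_apply, Finsupp.sub_apply,
    Finsupp.sub_apply, ev_apply, ev_apply, Finsupp.single_apply, Finsupp.single_apply,
    Finsupp.single_apply]
  split_ifs
  · simp only [LinearMap.add_apply, map_add, map_sub, LinearMap.comp_apply]
    abel
  · simp only [LinearMap.add_apply, LinearMap.comp_apply, map_sub, map_zero]
    abel

/-- Analysis of one component. -/
lemma comp_analysis [IsAlgClosed k] {m N : ℕ} {QQ : Type} [AddCommGroup QQ] [Module k QQ]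
    (c : Pencil k X (Fin m → k) (Fin m → k)) (hc : Stable c)
    (bb : Pencil k X (Fin N → k) (Fin N → k)) (hb : Stable bb)
    (u : (Fin m → k) →ₗ[k] (Fin N → QQ)) (r : (Fin m → k) →ₗ[k] (Fin N → QQ))
    (h : ∀ o d, tens (bb o) (r d) = u (c o d)) :
    (u = 0 ∧ r = 0) ∨ ∃ (eP eR : (Fin m → k) ≃ₗ[k] (Fin N → k)) (q : QQ),
      (∀ o d, eP (c o d) = bb o (eR d)) ∧ (∀ d, u d = tq q (eP d)) ∧ (∀ d, r d = tq q (eR d)) := by
  have hI : ∀ (l : QQ →ₗ[k] k), Itw c bb (dl l ∘ₗ u) (dl l ∘ₗ r) := by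
    intro l o d
    rw [LinearMap.comp_apply, LinearMap.comp_apply, ← dl_tens, h]
  by_cases hz : ∀ l : QQ →ₗ[k] k, dl l ∘ₗ u = 0 ∧ dl l ∘ₗ r = 0
  · left
    exact ⟨lin_eq_zero_of_dl (fun l => (hz l).1), lin_eq_zero_of_dl (fun l => (hz l).2)⟩
  · right
    push Not at hz
    obtain ⟨l₀, hl₀⟩ := hz
    obtain ⟨hP, hRb⟩ : Function.Bijective (dl l₀ ∘ₗ u) ∧ Function.Bijective (dl l₀ ∘ₗ r) := by
      rcases schur hc hb (hI l₀) with h | h
      · exact absurd h.2 (hl₀ h.1)
      · exact h
    obtain ⟨eP, heP⟩ : ∃ eP : (Fin m → k) ≃ₗ[k] (Fin N → k), ∀ x, eP x = dl l₀ (u x) :=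
      ⟨LinearEquiv.ofBijective (dl l₀ ∘ₗ u) hP, fun x => rfl⟩
    obtain ⟨eR, heR⟩ : ∃ eR : (Fin m → k) ≃ₗ[k] (Fin N → k), ∀ x, eR x = dl l₀ (r x) :=
      ⟨LinearEquiv.ofBijective (dl l₀ ∘ₗ r) hRb, fun x => rfl⟩
    have hPR : ∀ o d, eP (c o d) = bb o (eR d) := by
      intro o d
      rw [heP, heR]
      exact hI l₀ o d
    have hμ : ∀ l : QQ →ₗ[k] k, ∃ μ : k, (∀ d, dl l (u d) = μ • eP d) ∧
        (∀ d, dl l (r d) = μ • eR d) := by
      intro l
      have hJ : Itw c c (eP.symm.toLinearMap ∘ₗ (dl l ∘ₗ u))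
          (eR.symm.toLinearMap ∘ₗ (dl l ∘ₗ r)) := by
        intro o d
        apply eP.injective
        rw [hPR]
        simp only [LinearMap.comp_apply, LinearEquiv.coe_coe, LinearEquiv.apply_symm_apply]
        exact hI l o d
      obtain ⟨μ, h1, h2⟩ := schur_end hc hJ
      refine ⟨μ, fun d => ?_, fun d => ?_⟩
      · have := h1 d
        simp only [LinearMap.comp_apply, LinearEquiv.coe_coe] at this
        rw [LinearEquiv.symm_apply_eq, map_smul] at this
        exact this
      · have := h2 d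
        simp only [LinearMap.comp_apply, LinearEquiv.coe_coe] at this
        rw [LinearEquiv.symm_apply_eq, map_smul] at this
        exact this
    have hpos : 0 < N := by
      have := hb.2.1
      rwa [finrank_fin_fun] at this
    obtain ⟨d₀, hd₀⟩ : ∃ d₀, eP d₀ = Pi.single ⟨0, hpos⟩ 1 :=
      ⟨eP.symm _, eP.apply_symm_apply _⟩
    have hμ' : ∀ (l : QQ →ₗ[k] k) (μ : k), (∀ d, dl l (u d) = μ • eP d) →
        μ = l (u d₀ ⟨0, hpos⟩) := by
      intro l μ h
      have := congrFun (h d₀) ⟨0, hpos⟩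
      rw [dl_apply, Pi.smul_apply, hd₀, Pi.single_eq_same, smul_eq_mul, mul_one] at this
      exact this.symm
    refine ⟨eP, eR, u d₀ ⟨0, hpos⟩, hPR, fun d => ?_, fun d => ?_⟩
    · apply tq_eq_of
      intro l
      obtain ⟨μ, h1, -⟩ := hμ l
      rw [h1 d, hμ' l μ h1]
      rfl
    · apply tq_eq_of
      intro l
      obtain ⟨μ, h1, h2⟩ := hμ l
      rw [h2 d, hμ' l μ h1]
      rfl

include hst hQ in
lemma RN_ker [IsAlgClosed k]
    (hne : ∀ β γ (p : (Fin (n β) → k) →ₗ[k] (Fin (n γ) → k)) (r : (Fin (n β) → k) →ₗ[k] _),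
      Itw (b β) (b γ) p r → Function.Bijective p → Function.Bijective r → β = γ)
    (m : ℕ) (c : Pencil k X (Fin m → k) (Fin m → k)) (hc : Stable c)
    (w : (Fin m → k) →ₗ[k] WW n Q) (hw : w ∈ Ker (V := WW n Q) (RN n b Q Rl) c) :
    ∃ w₀ : (Fin m → k) →ₗ[k] V, w = (iV n Q) ∘ₗ w₀ := by
  have hw' : ∀ d, ∃ ξ₀ ∈ Rl, ∃ η, push (W := WW n Q) (iV n Q) ξ₀ + Th n b Q η =
      ev (V := WW n Q) c w d := fun d => (mem_RN n b Q Rl _).1 (hw d)
  choose ξ hξ η hη using hw'
  obtain ⟨wf, hwf⟩ : ∃ wf : (Fin m → k) →ₗ[k] V, ∀ d, wf d = (w d).1 :=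
    ⟨(LinearMap.fst k V _) ∘ₗ w, fun d => rfl⟩
  obtain ⟨wb, hwb⟩ : ∃ wb : ∀ γ, (Fin m → k) →ₗ[k] (Fin (n γ) → Q γ),
      ∀ γ d, wb γ d = (w d).2 γ :=
    ⟨fun γ => (DFinsupp.lapply γ) ∘ₗ (LinearMap.snd k V _) ∘ₗ w, fun γ d => rfl⟩
  have key : ∀ d o γ, tens (b γ o) (η d γ) = wb γ (c o d) := by
    intro d o γ
    rw [hwb, ← ev_apply (V := WW n Q) c w d o, ← hη d, Finsupp.add_apply, Prod.snd_add,
      DFinsupp.add_apply, Th_snd]
    simp
  obtain ⟨R, hR⟩ : ∃ R : ∀ γ, (Fin m → k) →ₗ[k] (Fin (n γ) → Q γ), ∀ γ d, R γ d = η d γ :=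
    ⟨fun γ =>
      { toFun := fun d => η d γ
        map_add' := by
          intro d d'
          have : η (d + d') γ - (η d γ + η d' γ) = 0 := by
            apply eta_zero n b Q hst γ
            intro o
            rw [map_sub, map_add, key, key, key, map_add, map_add, sub_self]
          exact sub_eq_zero.1 this
        map_smul' := by
          intro μ d
          have : η (μ • d) γ - μ • η d γ = 0 := by
            apply eta_zero n b Q hst γ
            intro o
            rw [map_sub, map_smul, key, key, map_smul, map_smul, sub_self]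
          exact sub_eq_zero.1 this }, fun γ d => rfl⟩
  have hA := fun γ => comp_analysis c hc (b γ) (hst γ) (wb γ) (R γ) (by
    intro o d
    rw [hR, key])
  -- all components vanish
  have hall : ∀ γ, wb γ = 0 := by
    intro γ
    rcases hA γ with h | ⟨eP, eR, q₀, hPR, hw1, hR1⟩
    · exact h.1
    have hother : ∀ δ, δ ≠ γ → R δ = 0 := by
      intro δ hδ
      rcases hA δ with h | ⟨eP', eR', q', hPR', -, -⟩
      · exact h.2
      · exfalso
        apply hδ
        symm
        refine hne γ δ (eP.symm.trans eP').toLinearMap (eR.symm.trans eR').toLinearMap ?_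
          (eP.symm.trans eP').bijective (eR.symm.trans eR').bijective
        intro o d
        obtain ⟨d, rfl⟩ := eR.surjective d
        rw [← hPR]
        simp only [LinearEquiv.coe_coe, LinearEquiv.trans_apply, LinearEquiv.symm_apply_apply]
        exact hPR' o d
    have hη1 : ∀ d, Ev n Q (η d) = (q₀ : (Fin (n γ) → k) →ₗ[k] V) (eR d) := by
      intro d
      have : η d = DFinsupp.single γ (R γ d) := by
        ext1 δ
        by_cases h : δ = γ
        · subst h
          rw [DFinsupp.single_eq_same, hR]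
        · rw [DFinsupp.single_eq_of_ne h, ← hR, hother δ h, LinearMap.zero_apply]
      rw [this, Ev_single, hR1, EE1_tq]
    have hξ1 : ∀ d, ξ d =
        ev c wf d + Finsupp.single none ((q₀ : (Fin (n γ) → k) →ₗ[k] V) (eR d)) := by
      intro d
      ext1 o
      have := congrArg (fun f : Option X →₀ WW n Q => (f o).1) (hη d)
      simp only [Finsupp.add_apply, Prod.fst_add, Th_fst, ev_apply] at this
      rw [Finsupp.mapRange.linearMap_apply, Finsupp.mapRange_apply, iV_fst, hη1] at this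
      rw [Finsupp.add_apply, ev_apply, hwf, ← this]
      abel
    have hsol : (q₀ : (Fin (n γ) → k) →ₗ[k] V) ∈ Sol Rl (b γ) := by
      refine ⟨-(wf ∘ₗ eP.symm.toLinearMap), fun d' => ?_⟩
      obtain ⟨d, rfl⟩ := eR.surjective d'
      have : ev (b γ) (-(wf ∘ₗ eP.symm.toLinearMap)) (eR d) -
          Finsupp.single none ((q₀ : (Fin (n γ) → k) →ₗ[k] V) (eR d)) = - ξ d := by
        rw [hξ1]
        ext1 o
        rw [Finsupp.sub_apply, Finsupp.neg_apply, Finsupp.add_apply, ev_apply, ev_apply, ← hPR]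
        simp only [LinearMap.neg_apply, LinearMap.comp_apply, LinearEquiv.coe_coe,
          LinearEquiv.symm_apply_apply]
        abel
      rw [this]
      exact Rl.neg_mem (hξ d)
    have hq0 : q₀ = 0 := by
      have := Submodule.disjoint_def.1 (hQ γ).disjoint _ hsol q₀.2
      exact Subtype.ext this
    refine LinearMap.ext fun d => ?_
    rw [hw1 d, hq0]
    funext j
    simp
  refine ⟨wf, LinearMap.ext fun d => ?_⟩
  refine Prod.ext ?_ ?_
  · rw [LinearMap.comp_apply, iV_fst, hwf]
  · ext1 γ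
    have := congrArg (fun f => f d) (hall γ)
    rw [LinearMap.comp_apply, iV_snd, ← hwb]
    exact this

end Main

/-! ### Choice of representatives -/

section Final

variable {k : Type} [Field k] {X : Type}

/-- equivalence of pencils -/
def Eqv {m n : ℕ} (c : Pencil k X (Fin m → k) (Fin m → k))
    (b : Pencil k X (Fin n → k) (Fin n → k)) : Prop :=
  ∃ (p : (Fin m → k) ≃ₗ[k] (Fin n → k)) (r : (Fin m → k) ≃ₗ[k] (Fin n → k)),
    ∀ o d, p (c o d) = b o (r d)

variable (k X) in
/-- all stable pencils on coordinate spaces -/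
abbrev SP : Type := Σ n : ℕ, {b : Pencil k X (Fin n → k) (Fin n → k) // Stable b}

variable (k X) in
/-- the setoid of equivalence -/
def spSetoid : Setoid (SP k X) where
  r c b := Eqv c.2.1 b.2.1
  iseqv := by
    refine ⟨?_, ?_, ?_⟩
    · intro c
      exact ⟨LinearEquiv.refl _ _, LinearEquiv.refl _ _, fun o d => rfl⟩
    · rintro c b ⟨p, r, h⟩
      refine ⟨p.symm, r.symm, fun o d => ?_⟩
      obtain ⟨d, rfl⟩ := r.surjective d
      rw [← h]
      simp
    · rintro a b c ⟨p, r, h⟩ ⟨p', r', h'⟩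
      refine ⟨p.trans p', r.trans r', fun o d => ?_⟩
      simp [h, h']

end Final

end StepB

open StepB in
/-- Step (b). -/
theorem StepB_proof : Stmt_StepB := by
  classical
  intro k _ _ X V _ _ Rl hsv
  let ι : Type := Quotient (spSetoid k X)
  let rep : ι → SP k X := Quotient.out
  let n : ι → ℕ := fun β => (rep β).1
  let b : ∀ β, Pencil k X (Fin (n β) → k) (Fin (n β) → k) := fun β => (rep β).2.1
  have hst : ∀ β, Stable (b β) := fun β => (rep β).2.2
  have hex : ∀ β, ∃ Q : Submodule k ((Fin (n β) → k) →ₗ[k] V), IsCompl (Sol Rl (b β)) Q :=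
    fun β => Submodule.exists_isCompl _
  choose Q hQ using hex
  have hne : ∀ β γ (p : (Fin (n β) → k) →ₗ[k] (Fin (n γ) → k)) (r : (Fin (n β) → k) →ₗ[k] _),
      Itw (b β) (b γ) p r → Function.Bijective p → Function.Bijective r → β = γ := by
    intro β γ p r h hp hr
    have : Quotient.mk (spSetoid k X) (rep β) = Quotient.mk (spSetoid k X) (rep γ) := by
      apply Quotient.sound
      exact ⟨LinearEquiv.ofBijective p hp, LinearEquiv.ofBijective r hr, fun o d => h o d⟩
    rwa [Quotient.out_eq, Quotient.out_eq] at this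
  refine ⟨WW n Q, inferInstance, inferInstance, iV n Q, RN n b Q Rl, ?_,
    RN_sv n b Q Rl hst hQ hsv, RN_push n b Q Rl hst, ?_, ?_⟩
  · intro v v' h
    have := congrArg Prod.fst h
    simpa using this
  · intro m c hc v
    let β : ι := Quotient.mk (spSetoid k X) ⟨m, c, hc⟩
    obtain ⟨p, r, h⟩ : Eqv c (b β) := by
      have : (spSetoid k X).r (rep β) ⟨m, c, hc⟩ := Quotient.mk_out (s := spSetoid k X) _
      exact (spSetoid k X).symm this
    obtain ⟨w, hw⟩ := RN_sol n b Q Rl hQ β (v ∘ₗ r.symm.toLinearMap)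
    refine ⟨w ∘ₗ p.toLinearMap, fun d => ?_⟩
    have h1 := hw (r d)
    have h2 : ev (V := WW n Q) c (w ∘ₗ p.toLinearMap) d = ev (V := WW n Q) (b β) w (r d) := by
      ext1 o
      rw [ev_apply, ev_apply, ← h]
      rfl
    rw [h2]
    simpa using h1
  · intro m c hc w hw
    exact RN_ker n b Q Rl hst hQ hne m c hc w hw

end Pool.Agent.Matlis
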