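import Pool.Agent.Matlis.TransLib

/-!
# Module SURJ: full pencils act surjectively as soon as the stable ones do
-/

set_option autoImplicit false

open Module

namespace Pool.Agent.Matlis

open Pool.Agent.Matlis.TL

namespace Surj

section

variable {k : Type} [Field k] {X : Type}
variable {D' D E' E V : Type} [AddCommGroup D'] [Module k D'] [AddCommGroup D] [Module k D]
  [AddCommGroup E'] [Module k E'] [AddCommGroup E] [Module k E]
  [AddCommGroup V] [Module k V]

lemma act_apply (x : X → Module.End k V) (b : Pencil k X D' D) (w : D →ₗ[k] V) (d : D') :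
    act x b w d = val x (ev b w d) := rfl

lemma ev_add (b : Pencil k X D' D) (w w' : D →ₗ[k] V) (d : D') :
    ev b (w + w') d = ev b w d + ev b w' d := by
  ext o; simp

lemma act_add (x : X → Module.End k V) (b : Pencil k X D' D) (w w' : D →ₗ[k] V) (d : D') :
    act x b (w + w') d = act x b w d + act x b w' d := by
  rw [act_apply, ev_add, map_add]; rfl

end

lemma surj_aux (k : Type) [Field k] (X V : Type) [AddCommGroup V] [Module k V]
    (x : X → Module.End k V)
    (H : ∀ (n : ℕ) (b : Pencil k X (Fin n → k) (Fin n → k)), Stable b →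
      ∀ y : (Fin n → k) →ₗ[k] V, ∃ w, act x b w = y) (n : ℕ) :
    ∀ (D' D : Type) [AddCommGroup D'] [Module k D'] [AddCommGroup D] [Module k D]
      [FiniteDimensional k D'] [FiniteDimensional k D] (b : Pencil k X D' D), Full b →
      finrank k D = n → ∀ y : D' →ₗ[k] V, ∃ w, act x b w = y := by
  induction n using Nat.strong_induction_on with
  | _ n ih =>
    intro D' D _ _ _ _ _ _ b hb hn y
    by_cases h0 : finrank k D = 0
    · have h0' : finrank k D' = 0 := hb.1.trans h0
      have : Subsingleton D' := finrank_zero_iff.1 h0'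
      refine ⟨0, ?_⟩
      ext d
      rw [Subsingleton.elim d 0, map_zero, map_zero]
    · by_cases hst : ∀ S : Submodule k D, S ≠ ⊥ → S ≠ ⊤ → finrank k (pre b S) < finrank k S
      · have hS : Stable b := ⟨hb, Nat.pos_of_ne_zero h0, hst⟩
        obtain ⟨e⟩ := exists_equiv_fin k D hn
        obtain ⟨e'⟩ := exists_equiv_fin k D' (hb.1.trans hn)
        obtain ⟨w, hw⟩ := H n _ (stable_conjP e'.symm e b hS) (y ∘ₗ e'.symm)
        refine ⟨w ∘ₗ e, ?_⟩
        ext d
        have h1 := LinearMap.congr_fun hw (e' d)
        rw [act_apply, ev_conjP] at h1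
        rw [act_apply]
        simpa using h1
      · push Not at hst
        obtain ⟨S, hS0, hS1, hS2⟩ := hst
        have heq : finrank k (pre b S) = finrank k S := le_antisymm (hb.2 S) hS2
        obtain ⟨hres, hquo⟩ := (tight_tl k X D' D b S).2.1 hb heq
        have hlt : finrank k S < finrank k D := Submodule.finrank_lt hS1
        have hpos : 0 < finrank k S := by
          rw [Nat.pos_iff_ne_zero]
          intro h
          exact hS0 (Submodule.finrank_eq_zero.1 h)
        have hq1 := S.finrank_quotient_add_finrank
        obtain ⟨w1, hw1⟩ := ih (finrank k S) (by omega) (pre b S) S (resP b S) hres rfl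
          (y ∘ₗ (pre b S).subtype)
        obtain ⟨W1, hW1⟩ := LinearMap.exists_extend w1
        have hker : pre b S ≤ LinearMap.ker (y - act x b W1) := by
          intro d hd
          have h1 := LinearMap.congr_fun hw1 ⟨d, hd⟩
          rw [act_apply, ← hW1, ev_res] at h1
          rw [LinearMap.mem_ker, LinearMap.sub_apply, act_apply]
          have h2 : (y ∘ₗ (pre b S).subtype) ⟨d, hd⟩ = y d := rfl
          rw [h2] at h1
          rw [← h1]
          exact sub_self _
        obtain ⟨w2, hw2⟩ := ih (finrank k (D ⧸ S)) (by omega) (D' ⧸ pre b S) (D ⧸ S)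
          (quoP b S) hquo rfl ((pre b S).liftQ (y - act x b W1) hker)
        refine ⟨W1 + w2 ∘ₗ S.mkQ, ?_⟩
        ext d
        have h1 := LinearMap.congr_fun hw2 (Submodule.Quotient.mk d)
        rw [act_apply, ev_quo] at h1
        rw [act_add]
        have h2 : act x b (w2 ∘ₗ S.mkQ) d = y d - act x b W1 d := h1
        rw [h2]
        abel

end Surj

open Pool.Agent.Matlis.Surj in
theorem surj_proof : Stmt_Surj := by
  intro k _ X V _ _ x H D' D _ _ _ _ _ _ b hb
  exact surj_aux k X V x H _ D' D b hb rfl

end Pool.Agent.Matlis
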