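import Pool.Agent.Matlis.Coef

/-!
# Matlis' problem: the endomorphisms `T_j` of `M₀` (`Stmt_Tau`)
-/

set_option autoImplicit false

open scoped TensorProduct DirectSum
open Module

namespace Pool.Agent.Matlis

namespace Cusp

section general

variable {k : Type} [Field k] {Z : Type} [DecidableEq Z] {Q : Quiv Z}

/-- functoriality of `Hat` -/
noncomputable def hmap (G : GenSys k Z (Option Q.Arr)) (N N' : Rep k Q)
    (φ : ∀ z, N.N z →ₗ[k] N'.N z) : Hat G N →ₗ[k] Hat G N' :=
  DirectSum.lmap (fun z => LinearMap.rTensor (G.V z) (φ z))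

theorem hmap_hι (G : GenSys k Z (Option Q.Arr)) (N N' : Rep k Q)
    (φ : ∀ z, N.N z →ₗ[k] N'.N z) (z : Z) (n : N.N z) (v : G.V z) :
    hmap G N N' φ (hι G N z (n ⊗ₜ[k] v)) = hι G N' z (φ z n ⊗ₜ[k] v) := by
  exact (DirectSum.lmap_lof (R := k) (f := fun z => LinearMap.rTensor (G.V z) (φ z)) z
    (n ⊗ₜ[k] v)).trans (congrArg (hι G N' z) (LinearMap.rTensor_tmul (G.V z) (φ z) v n))

theorem hmap_xhat (G : GenSys k Z (Option Q.Arr)) (N N' : Rep k Q)
    (φ : ∀ z, N.N z →ₗ[k] N'.N z)
    (hφ : ∀ (a : Q.Arr) (n : N.N (Q.src a)), φ (Q.tgt a) (N.map a n) = N'.map a (φ (Q.src a) n))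
    (t : G.X) (y : Hat G N) :
    hmap G N N' φ (xhat G N t y) = xhat G N' t (hmap G N N' φ y) := by
  have : hmap G N N' φ ∘ₗ xhat G N t = xhat G N' t ∘ₗ hmap G N N' φ := by
    apply hat_hom_ext
    intro z n v
    rw [LinearMap.comp_apply, LinearMap.comp_apply, hmap_hι]
    unfold xhat
    rw [LinearMap.add_apply, LinearMap.add_apply, hdiag_hι, hdiag_hι, map_add, hmap_hι]
    congr 1
    rcases G.lab t with _ | a
    · simp [pert]
    · by_cases h : z = Q.src a
      · subst h
        rw [pert_some_same, pert_some_same, hmap_hι, hφ]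
      · rw [pert_some_ne G N a h, pert_some_ne G N' a h, map_zero]
  exact LinearMap.congr_fun this y

end general

/-- a linear map into a direct sum from its components -/
noncomputable def toDS {R E : Type} [Ring R] [AddCommGroup E] [Module R E] {F : ℕ → Type}
    [∀ n, AddCommGroup (F n)] [∀ n, Module R (F n)] (T : ∀ l, E →ₗ[R] F l)
    (h : ∀ y, {l | T l y ≠ 0}.Finite) : E →ₗ[R] (⨁ l, F l) where
  toFun y := DirectSum.mk F (h y).toFinset (fun l => T l y)
  map_add' y y' := by
    apply DFinsupp.ext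
    intro l
    have e : ∀ y, (DirectSum.mk F (h y).toFinset (fun l => T l y)) l = T l y := by
      intro y
      by_cases hl : l ∈ (h y).toFinset
      · exact DirectSum.mk_apply_of_mem hl
      · rw [DirectSum.mk_apply_of_notMem hl]
        by_contra hne
        exact hl ((h y).mem_toFinset.2 (Ne.symm hne))
    rw [DirectSum.add_apply, e, e, e, map_add]
  map_smul' a y := by
    apply DFinsupp.ext
    intro l
    have e : ∀ y, (DirectSum.mk F (h y).toFinset (fun l => T l y)) l = T l y := by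
      intro y
      by_cases hl : l ∈ (h y).toFinset
      · exact DirectSum.mk_apply_of_mem hl
      · rw [DirectSum.mk_apply_of_notMem hl]
        by_contra hne
        exact hl ((h y).mem_toFinset.2 (Ne.symm hne))
    rw [DirectSum.smul_apply, e, e, map_smul]
    rfl

theorem toDS_apply {R E : Type} [Ring R] [AddCommGroup E] [Module R E] {F : ℕ → Type}
    [∀ n, AddCommGroup (F n)] [∀ n, Module R (F n)] (T : ∀ l, E →ₗ[R] F l)
    (h : ∀ y, {l | T l y ≠ 0}.Finite) (y : E) (l : ℕ) : (toDS T h y) l = T l y := by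
  change (DirectSum.mk F (h y).toFinset (fun l => T l y)) l = T l y
  by_cases hl : l ∈ (h y).toFinset
  · exact DirectSum.mk_apply_of_mem hl
  · rw [DirectSum.mk_apply_of_notMem hl]
    by_contra hne
    exact hl ((h y).mem_toFinset.2 (Ne.symm hne))

section taus

variable {k : Type} [Field k]

/-- the map `E_n → E_m` with coefficient function `c` -/
noncomputable def hmapE (G : GenSys k Z0 (Option Q0.Arr)) (c : Finset ℕ → k) (n m : ℕ) :
    EE G n →ₗ[k] EE G m :=
  hmap G (Irep k n) (Irep k m) (Nm c n m)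

theorem hmapE_inE (G : GenSys k Z0 (Option Q0.Arr)) (c : Finset ℕ → k) (n m : ℕ) (z : Z0)
    (f : (Irep k n).N z) (v : G.V z) :
    hmapE G c n m (inE G n z (f ⊗ₜ[k] v)) = inE G m z (Nm c n m z f ⊗ₜ[k] v) :=
  hmap_hι G (Irep k n) (Irep k m) (Nm c n m) z f v

theorem hmapE_smul (hRm : Stmt_Rmem) (hN : Stmt_Nat) (G : GenSys k Z0 (Option Q0.Arr))
    (c : Finset ℕ → k) (n m : ℕ) (r : ↥(R0 G)) (y : EE G n) :
    hmapE G c n m (r • y) = r • hmapE G c n m y :=
  hN k Z0 Q0 G (Z0 ⊕ ℕ) (NN0 k) (Sum.inr n) (Sum.inr m) (hmapE G c n m)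
    (hmap_xhat G (Irep k n) (Irep k m) (Nm c n m) (fun a f => (Nm_nat c n m a f).symm))
    r.1 (((hRm k Z0 Q0 G (Z0 ⊕ ℕ) (NN0 k)).1 r.1).1 r.2) y

/-- the `R`-linear map `E_n → E_m` with coefficient function `c` -/
noncomputable def mapR (hRm : Stmt_Rmem) (hN : Stmt_Nat) (G : GenSys k Z0 (Option Q0.Arr))
    (c : Finset ℕ → k) (n m : ℕ) : EE G n →ₗ[↥(R0 G)] EE G m where
  toFun := hmapE G c n m
  map_add' := map_add _
  map_smul' := hmapE_smul hRm hN G c n m

theorem mapR_inE (hRm : Stmt_Rmem) (hN : Stmt_Nat) (G : GenSys k Z0 (Option Q0.Arr))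
    (c : Finset ℕ → k) (n m : ℕ) (z : Z0) (f : (Irep k n).N z) (v : G.V z) :
    mapR hRm hN G c n m (inE G n z (f ⊗ₜ[k] v)) = inE G m z (Nm c n m z f ⊗ₜ[k] v) :=
  hmapE_inE G c n m z f v

/-- induction principle for `E_n` -/
theorem EE_induction (G : GenSys k Z0 (Option Q0.Arr)) (n : ℕ) {p : EE G n → Prop}
    (h0 : p 0) (hadd : ∀ y y', p y → p y' → p (y + y'))
    (h : ∀ z (f : (Irep k n).N z) (v : G.V z), p (inE G n z (f ⊗ₜ[k] v))) (y : EE G n) : p y :=
  hat_induction G (Irep k n) h0 hadd h y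

theorem Nm_big (c : Finset ℕ → k) {n m : ℕ} (h : m < n) (z : Z0) (f : (Irep k n).N z) :
    Nm c n m z f = 0 := by
  apply ex_ext
  intro q hq
  rw [ex_Nm _ _ _ _ _ hq, Finset.sum_eq_zero]
  · rw [ex_of _ hq]; rfl
  · intro p hp
    have h1 := mem_AF.1 hp
    have := h1.2.2.1 n h1.1
    omega

theorem mapR_big (hRm : Stmt_Rmem) (hN : Stmt_Nat) (G : GenSys k Z0 (Option Q0.Arr))
    (c : Finset ℕ → k) {n m : ℕ} (h : m < n) (y : EE G n) : mapR hRm hN G c n m y = 0 := by
  induction y using EE_induction G n with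
  | h0 => exact map_zero _
  | hadd y y' hy hy' => rw [map_add, hy, hy', add_zero]
  | h z f v => rw [mapR_inE, Nm_big c h, TensorProduct.zero_tmul, map_zero]

/-- locally finite coefficient functions -/
def LF (c : Finset ℕ → k) : Prop :=
  ∀ (φ : ℕ → ℕ) (n : ℕ), {l | ∃ p, Adm (Z0.nat l) n p ∧ Bdd φ p ∧ c p ≠ 0}.Finite

theorem LF_Nm {c : Finset ℕ → k} (hc : LF c) (n : ℕ) (z : Z0) (f : (Irep k n).N z) :
    {l | Nm c n l z f ≠ 0}.Finite := by
  rcases z with m0 | φ
  · refine (Set.finite_le_nat m0).subset ?_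
    intro l hl
    by_contra hlt
    exact hl (irep_empty (by simpa using hlt) _)
  · refine (hc φ n).subset ?_
    intro l hl
    by_contra hcon
    apply hl
    apply ex_ext
    intro q hq
    rw [ex_Nm _ _ _ _ _ hq, Finset.sum_eq_zero]
    · rw [ex_of _ hq]; rfl
    · intro p hp
      have h1 := mem_AF.1 hp
      by_cases h2 : c p = 0
      · rw [h2, zero_mul]
      · by_cases h3 : Adm (Z0.fn φ) n (p ∪ q)
        · exfalso
          apply hcon
          refine ⟨p, h1, ?_, h2⟩
          have h4 := bdd_le h3.2.2 l (Finset.mem_union_left _ h1.2.1)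
          rwa [filter_union_le (fun x hx => (h1.2.2.1 x hx).2) h1.2.1 (adm_le hq)] at h4
        · rw [ex_not _ h3, mul_zero]

theorem LF_mapR (hRm : Stmt_Rmem) (hN : Stmt_Nat) (G : GenSys k Z0 (Option Q0.Arr))
    {c : Finset ℕ → k} (hc : LF c) (n : ℕ) (y : EE G n) :
    {l | mapR hRm hN G c n l y ≠ 0}.Finite := by
  induction y using EE_induction G n with
  | h0 => simp
  | hadd y y' hy hy' =>
    refine (hy.union hy').subset ?_
    intro l hl
    by_contra hcon
    simp only [Set.mem_union, not_or] at hcon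
    have h1 : mapR hRm hN G c n l y = 0 := by by_contra h; exact hcon.1 h
    have h2 : mapR hRm hN G c n l y' = 0 := by by_contra h; exact hcon.2 h
    exact hl (by rw [map_add, h1, h2, add_zero])
  | h z f v =>
    refine (LF_Nm hc n z f).subset ?_
    intro l hl h
    apply hl
    rw [mapR_inE, h, TensorProduct.zero_tmul, map_zero]

/-- component `l` of the endomorphism with coefficient function `c` -/
noncomputable def tauL (hRm : Stmt_Rmem) (hN : Stmt_Nat) (G : GenSys k Z0 (Option Q0.Arr))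
    (c : Finset ℕ → k) (l : ℕ) : M0 G →ₗ[↥(R0 G)] EE G l :=
  ∑ m ∈ Finset.range (l + 1), mapR hRm hN G c m l ∘ₗ
    DirectSum.component ↥(R0 G) ℕ (fun n => EE G n) m

theorem tauL_apply (hRm : Stmt_Rmem) (hN : Stmt_Nat) (G : GenSys k Z0 (Option Q0.Arr))
    (c : Finset ℕ → k) (l : ℕ) (y : M0 G) :
    tauL hRm hN G c l y = ∑ m ∈ Finset.range (l + 1), mapR hRm hN G c m l (y m) := by
  unfold tauL
  rw [LinearMap.sum_apply]
  rfl

theorem tauL_fin (hRm : Stmt_Rmem) (hN : Stmt_Nat) (G : GenSys k Z0 (Option Q0.Arr))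
    {c : Finset ℕ → k} (hc : LF c) (y : M0 G) : {l | tauL hRm hN G c l y ≠ 0}.Finite := by
  classical
  have hfin : {m | y m ≠ 0}.Finite := by
    refine (DFinsupp.support (β := fun n => EE G n) y).finite_toSet.subset ?_
    intro m hm
    exact (DFinsupp.mem_support_iff (β := fun n => EE G n)).2 hm
  refine (hfin.biUnion (t := fun m => {l | mapR hRm hN G c m l (y m) ≠ 0})
    (fun m _ => LF_mapR hRm hN G hc m (y m))).subset ?_
  intro l hl
  rw [Set.mem_ofPred_eq, tauL_apply] at hl
  obtain ⟨m, _, hm⟩ := Finset.exists_ne_zero_of_sum_ne_zero hl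
  refine Set.mem_iUnion₂.2 ⟨m, ?_, hm⟩
  intro h
  apply hm
  rw [h, map_zero]

/-- the endomorphism of `M₀` with coefficient function `c` -/
noncomputable def tauT (hRm : Stmt_Rmem) (hN : Stmt_Nat) (G : GenSys k Z0 (Option Q0.Arr))
    (c : Finset ℕ → k) (hc : LF c) : M0 G →ₗ[↥(R0 G)] M0 G :=
  toDS (tauL hRm hN G c) (tauL_fin hRm hN G hc)

theorem tauT_apply (hRm : Stmt_Rmem) (hN : Stmt_Nat) (G : GenSys k Z0 (Option Q0.Arr))
    (c : Finset ℕ → k) (hc : LF c) (y : M0 G) (l : ℕ) :
    (tauT hRm hN G c hc y) l = ∑ m ∈ Finset.range (l + 1), mapR hRm hN G c m l (y m) := by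
  unfold tauT
  rw [toDS_apply, tauL_apply]

theorem tauT_of (hRm : Stmt_Rmem) (hN : Stmt_Nat) (G : GenSys k Z0 (Option Q0.Arr))
    (c : Finset ℕ → k) (hc : LF c) (n : ℕ) (y : EE G n) (l : ℕ) :
    (tauT hRm hN G c hc (DirectSum.of (fun n => EE G n) n y)) l = mapR hRm hN G c n l y := by
  classical
  rw [tauT_apply]
  by_cases hnl : n ≤ l
  · rw [Finset.sum_eq_single n]
    · rw [DirectSum.of_eq_same]
    · intro m _ hmn
      have h1 : (DirectSum.of (fun n => EE G n) n y) m = 0 :=
        DirectSum.of_eq_of_ne (β := fun n => EE G n) n m y hmn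
      rw [h1, map_zero]
    · intro h; exact absurd (Finset.mem_range.2 (by omega)) h
  · rw [mapR_big hRm hN G c (by omega), Finset.sum_eq_zero]
    intro m hm
    have hm' := Finset.mem_range.1 hm
    have h1 : (DirectSum.of (fun n => EE G n) n y) m = 0 :=
      DirectSum.of_eq_of_ne (β := fun n => EE G n) n m y (by omega)
    rw [h1, map_zero]

/-- extensionality for endomorphisms of `M₀` -/
theorem M0_ext (G : GenSys k Z0 (Option Q0.Arr)) {S T : M0 G →ₗ[↥(R0 G)] M0 G}
    (h : ∀ n z (f : (Irep k n).N z) (v : G.V z) l,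
      (S (DirectSum.of (fun n => EE G n) n (inE G n z (f ⊗ₜ[k] v)))) l =
      (T (DirectSum.of (fun n => EE G n) n (inE G n z (f ⊗ₜ[k] v)))) l) : S = T := by
  classical
  apply DirectSum.linearMap_ext
  intro n
  apply LinearMap.ext
  intro y
  change S (DirectSum.of (fun n => EE G n) n y) = T (DirectSum.of (fun n => EE G n) n y)
  induction y using EE_induction G n with
  | h0 => rw [map_zero, map_zero, map_zero]
  | hadd y y' hy hy' => rw [map_add, map_add, map_add, hy, hy']
  | h z f v =>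
    apply DFinsupp.ext
    intro l
    exact h n z f v l

/-- composition -/
theorem tauT_comp (hRm : Stmt_Rmem) (hN : Stmt_Nat) (G : GenSys k Z0 (Option Q0.Arr))
    (c c' c'' : Finset ℕ → k) (hc : LF c) (hc' : LF c') (hc'' : LF c'')
    (h2 : ∀ p : Finset ℕ, p.card = 2 → c p = 0) (h2' : ∀ p : Finset ℕ, p.card = 2 → c' p = 0)
    (heq : _root_.Matlis.conv c c' = c'') :
    tauT hRm hN G c' hc' ∘ₗ tauT hRm hN G c hc = tauT hRm hN G c'' hc'' := by
  apply M0_ext
  intro n z f v l
  rw [LinearMap.comp_apply, tauT_apply, tauT_of, mapR_inE, ← heq, ← Nm_comp c c' h2 h2',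
    TensorProduct.sum_tmul, map_sum]
  refine Finset.sum_congr rfl (fun m _ => ?_)
  rw [tauT_of, mapR_inE, mapR_inE]

/-- the coefficient function of `T_j` -/
def cj (k : Type) [Field k] (j : ℕ) : Finset ℕ → k := fun p => if p.card = j + 1 then 1 else 0

/-- bound for maxima of bounded sets -/
def Bd (φ : ℕ → ℕ) (n : ℕ) : ℕ → ℕ
  | 0 => n
  | j + 1 => max (Bd φ n j) ((Finset.range (Bd φ n j + 1)).sup φ)

theorem le_Bd (φ : ℕ → ℕ) (n : ℕ) : ∀ (j l : ℕ) (p : Finset ℕ), n ∈ p → l ∈ p →
    (∀ x ∈ p, n ≤ x ∧ x ≤ l) → Bdd φ p → p.card = j + 1 → l ≤ Bd φ n j := by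
  intro j
  induction j with
  | zero =>
    intro l p hn hl _ _ hcard
    have := Finset.card_le_one.1 hcard.le n hn l hl
    rw [← this]; exact le_refl n
  | succ j ih =>
    intro l p hn hl hb hφ hcard
    have hcard' : (p.erase l).card = j + 1 := by
      rw [Finset.card_erase_of_mem hl]; omega
    have hne : (p.erase l).Nonempty := Finset.card_pos.1 (by omega)
    obtain ⟨l', hl'⟩ : ∃ l', l' = (p.erase l).max' hne := ⟨_, rfl⟩
    have hl'mem : l' ∈ p.erase l := by rw [hl']; exact Finset.max'_mem _ _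
    have hl'p : l' ∈ p := Finset.mem_of_mem_erase hl'mem
    have hl'lt : l' < l := by
      have h1 := (hb l' hl'p).2
      have h2 := Finset.ne_of_mem_erase hl'mem
      omega
    have hfil : p.filter (fun y => y ≤ l') = p.erase l := by
      ext x
      rw [Finset.mem_filter, Finset.mem_erase]
      constructor
      · rintro ⟨h1, h2⟩; exact ⟨by omega, h1⟩
      · rintro ⟨h1, h2⟩
        refine ⟨h2, ?_⟩
        rw [hl']; exact Finset.le_max' _ x (Finset.mem_erase.2 ⟨h1, h2⟩)
    have hnl : n ≠ l := by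
      have := (hb l' hl'p).1
      omega
    have h3 := ih l' (p.erase l) (Finset.mem_erase.2 ⟨hnl, hn⟩) hl'mem
      (fun x hx => ⟨(hb x (Finset.mem_of_mem_erase hx)).1, by
        rw [hl']; exact Finset.le_max' _ x hx⟩)
      (by rw [← hfil]; exact bdd_le hφ l' hl'p) hcard'
    obtain ⟨y', hy', hlt, hle⟩ := hφ l' hl'p l hl hl'lt
    have hy'l : y' = l := by
      by_contra hne'
      have : y' ∈ p.erase l := Finset.mem_erase.2 ⟨hne', hy'⟩
      have h4 : y' ≤ l' := by rw [hl']; exact Finset.le_max' _ y' this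
      omega
    rw [hy'l] at hle
    have h5 : φ l' ≤ (Finset.range (Bd φ n j + 1)).sup φ :=
      Finset.le_sup (Finset.mem_range.2 (by omega))
    exact (hle.trans h5).trans (le_max_right _ _)

theorem LF_cj (j : ℕ) : LF (cj k j) := by
  intro φ n
  refine (Set.finite_le_nat (Bd φ n j)).subset ?_
  rintro l ⟨p, hp, hφ, hcp⟩
  have hcard : p.card = j + 1 := by
    by_contra h
    exact hcp (by simp [cj, h])
  exact le_Bd φ n j l p hp.1 hp.2.1 hp.2.2.1 hφ hcard

theorem cj_two {j : ℕ} (hj : j ≠ 1) : ∀ p : Finset ℕ, p.card = 2 → cj k j p = 0 := by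
  intro p hp
  unfold cj
  rw [if_neg (by omega)]

theorem conv_cj (i j : ℕ) : _root_.Matlis.conv (cj k j) (cj k i) = cj k (i + j) := by
  have h : ∀ j, ((_root_.Matlis.Cv.S k) ^ j).1 = cj k j := by
    intro j
    funext p
    exact _root_.Matlis.Cv.S_pow j p
  rw [← h, ← h, ← h, ← _root_.Matlis.Cv.mul_val, ← pow_add, add_comm j i]

/-- the constant function one -/
noncomputable def oneI (k : Type) [Field k] (m : ℕ) : (Irep k m).N (Z0.nat m) :=
  (fun _ => (1 : k) : {s : Finset ℕ // Adm (Z0.nat m) m s} → k)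

theorem soc_eq (G : GenSys k Z0 (Option Q0.Arr)) (m : ℕ) :
    soc G m = inE G m (Z0.nat m) (oneI k m ⊗ₜ[k] G.v0 (Z0.nat m)) := rfl

theorem Nm_cj_soc {j : ℕ} (hj : 2 ≤ j) (m l : ℕ) (f : (Irep k m).N (Z0.nat m)) :
    Nm (cj k j) m l (Z0.nat m) f = 0 := by
  apply ex_ext
  intro q hq
  rw [ex_Nm _ _ _ _ _ hq, Finset.sum_eq_zero]
  · rw [ex_of _ hq]; rfl
  · intro p hp
    have hp' := mem_AF.1 hp
    have h3 := (hq.2.2.1 m hq.2.1).1
    have h2 : p.card ≠ j + 1 := by
      intro h2
      have h4 : p ⊆ {m} := by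
        intro x hx
        have := hp'.2.2.1 x hx
        rw [Finset.mem_singleton]
        omega
      have := Finset.card_le_card h4
      rw [Finset.card_singleton] at this
      omega
    simp [cj, h2]

end taus

end Cusp

theorem tau_proof (hRm : Stmt_Rmem) (hN : Stmt_Nat) : Stmt_Tau := by
  classical
  intro k _ G
  refine ⟨fun j => Cusp.tauT hRm hN G (Cusp.cj k j) (Cusp.LF_cj j), ?_, ?_, ?_, ?_⟩
  · apply Cusp.M0_ext
    intro n z f v l
    rw [Cusp.tauT_of, Cusp.mapR_inE, LinearMap.id_apply]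
    by_cases hnl : n = l
    · subst hnl
      have h1 : Cusp.Nm (Cusp.cj k 0) n n z f = f := by
        apply Cusp.ex_ext
        intro q hq
        rw [Cusp.ex_Nm _ _ _ _ _ hq, Finset.sum_eq_single {n}]
        · rw [Finset.union_eq_right.2 (by simpa using Cusp.adm_mem hq)]
          simp [Cusp.cj]
        · intro p hp hne
          have hp' := Cusp.mem_AF.1 hp
          exfalso
          apply hne
          ext x
          rw [Finset.mem_singleton]
          constructor
          · intro hx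
            have := hp'.2.2.1 x hx
            omega
          · rintro rfl; exact hp'.1
        · intro h
          exact absurd (Cusp.mem_AF.2 (by simp [Adm])) h
      rw [h1, DirectSum.of_eq_same]
    · have h1 : Cusp.Nm (Cusp.cj k 0) n l z f = 0 := by
        apply Cusp.ex_ext
        intro q hq
        rw [Cusp.ex_Nm _ _ _ _ _ hq, Finset.sum_eq_zero]
        · rw [Cusp.ex_of _ hq]; rfl
        · intro p hp
          have hp' := Cusp.mem_AF.1 hp
          have h2 : p.card ≠ 1 := by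
            intro h3
            exact hnl (Finset.card_le_one.1 h3.le n hp'.1 l hp'.2.1)
          simp [Cusp.cj, h2]
      rw [h1, TensorProduct.zero_tmul, map_zero]
      exact (DirectSum.of_eq_of_ne (β := fun n => EE G n) n l _ (Ne.symm hnl)).symm
  · intro i j hi hj
    exact Cusp.tauT_comp hRm hN G (Cusp.cj k j) (Cusp.cj k i) (Cusp.cj k (i + j)) _ _ _
      (Cusp.cj_two hj) (Cusp.cj_two hi) (Cusp.conv_cj i j)
  · intro j hj m
    apply DFinsupp.ext
    intro l
    rw [Cusp.tauT_of]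
    rw [Cusp.soc_eq, Cusp.mapR_inE, Cusp.Nm_cj_soc hj, TensorProduct.zero_tmul, map_zero]
    rfl
  · intro j hj p hp
    by_cases h2 : p.card = 2
    · rw [Cusp.coef_card_two G _ h2, if_neg (by omega)]
    · have hadm := Cusp.adm_of_ne_two hp h2
      rw [Cusp.coef_eq G _ hadm]
      unfold Cusp.tcoef
      rw [Cusp.cmp_apply, Cusp.tauT_of, Cusp.pstar_eq, Cusp.mapR_inE, Cusp.chi_v0,
        Cusp.sum_AF_ind _ _ _ hadm]
      rfl

end Pool.Agent.Matlis
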