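import Pool.Agent.Matlis.Defs

/-!
# Matlis' problem: Theorem I from one step and the limit
-/

set_option autoImplicit false

open Module

namespace Pool.Agent.Matlis

/-- A stable pencil without variables has an injective constant coefficient, hence no kernel. -/
lemma start_ker {k : Type} [Field k] {V : Type} [AddCommGroup V] [Module k V] (n : ℕ)
    (b : Pencil k Empty (Fin n → k) (Fin n → k)) (hb : Stable b) :
    Ker (⊥ : Submodule k (Option Empty →₀ V)) b = ⊥ := by
  have hpre : pre b ⊥ = LinearMap.ker (b none) := by
    ext d
    simp only [pre, Submodule.mem_iInf, Submodule.mem_comap, Submodule.mem_bot, LinearMap.mem_ker]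
    constructor
    · intro h; exact h none
    · intro h o
      rcases o with _ | o
      · exact h
      · exact o.elim
  have h1 : finrank k (pre b ⊥) ≤ finrank k (⊥ : Submodule k (Fin n → k)) := hb.1.2 ⊥
  rw [finrank_bot, Nat.le_zero, Submodule.finrank_eq_zero, hpre] at h1
  have hinj : Function.Injective (b none) := LinearMap.ker_eq_bot.1 h1
  have hsurj : Function.Surjective (b none) := LinearMap.injective_iff_surjective.1 hinj
  rw [eq_bot_iff]
  intro w hw
  rw [mem_Ker] at hw
  rw [Submodule.mem_bot]
  refine LinearMap.ext (fun x => ?_)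
  obtain ⟨d, rfl⟩ := hsurj x
  have := hw d
  rw [Submodule.mem_bot] at this
  have h2 := DFunLike.congr_fun this none
  simpa using h2

/-- The empty partial system. -/
noncomputable def startPS (k : Type) [Field k] (Z L : Type) : PS k Z L where
  X := Empty
  lab := Empty.elim
  V _ := k
  Rl _ := ⊥
  v0 _ := 1
  v0_ne _ := one_ne_zero
  sv _ := by
    intro v hv
    rw [Submodule.mem_bot] at hv
    exact Finsupp.single_eq_zero.1 hv
  inv n b hb := by
    have h : ∀ z : Z, Ker (⊥ : Submodule k (Option Empty →₀ k)) b = ⊥ := fun _ => start_ker n b hb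
    refine ⟨?_, fun z => ?_⟩
    · have : {z : Z | Ker (⊥ : Submodule k (Option Empty →₀ k)) b ≠ ⊥} = ∅ := by
        ext z
        simp [h z]
      rw [this]
      exact Set.finite_empty
    · show (Ker (⊥ : Submodule k (Option Empty →₀ k)) b).FG
      rw [h z]
      exact Submodule.fg_bot

/-- The chain of partial systems. -/
noncomputable def chainPS (hN : Stmt_Next) (k : Type) [Field k] [IsAlgClosed k] (Z L : Type) :
    ℕ → PS k Z L
  | 0 => startPS k Z L
  | n + 1 => (hN k Z L (chainPS hN k Z L n)).choose

theorem i_proof (hN : Stmt_Next) (hL : Stmt_Lim) : Stmt_I := by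
  intro k _ _ Z L
  exact hL k Z L (chainPS hN k Z L)
    (fun n => (hN k Z L (chainPS hN k Z L n)).choose_spec.choose)
    (fun n => (hN k Z L (chainPS hN k Z L n)).choose_spec.choose_spec)

end Pool.Agent.Matlis
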