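import Pool.Agent.Matlis.Defs

/-!
# Matlis' problem: restricted and quotient pencils
-/

set_option autoImplicit false

open Module

namespace Pool.Agent.Matlis

namespace Tight

variable {k : Type} [Field k] {X D' D : Type} [AddCommGroup D'] [Module k D'] [AddCommGroup D]
  [Module k D]

theorem mem_pre {b : Pencil k X D' D} {S : Submodule k D} {d : D'} :
    d ∈ pre b S ↔ ∀ o, b o d ∈ S := by
  unfold pre
  simp [Submodule.mem_iInf]

theorem pre_mono (b : Pencil k X D' D) {S T : Submodule k D} (h : S ≤ T) :
    pre b S ≤ pre b T := fun _ hd => mem_pre.mpr fun o => h (mem_pre.mp hd o)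

theorem pre_top (b : Pencil k X D' D) : pre b ⊤ = ⊤ :=
  eq_top_iff.mpr fun _ _ => mem_pre.mpr fun _ => Submodule.mem_top

theorem full_cf {b : Pencil k X D' D} (h : Full b) : CF b := by
  intro S
  have := h.2 S
  have := h.1
  omega

theorem cf_full {b : Pencil k X D' D} (h : CF b) (he : finrank k D' = finrank k D) : Full b :=
  ⟨he, fun S => by have := h S; omega⟩

variable [FiniteDimensional k D'] [FiniteDimensional k D]

theorem finrank_comap_mkQ (S : Submodule k D) (T : Submodule k (D ⧸ S)) :
    finrank k (T.comap S.mkQ) = finrank k T + finrank k S := by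
  have h1 := LinearMap.finrank_range_add_finrank_ker (S.mkQ.domRestrict (T.comap S.mkQ))
  have h2 : LinearMap.range (S.mkQ.domRestrict (T.comap S.mkQ)) = T := by
    ext x
    constructor
    · rintro ⟨y, rfl⟩; exact y.2
    · intro hx
      obtain ⟨y, rfl⟩ := S.mkQ_surjective x
      exact ⟨⟨y, hx⟩, rfl⟩
  have h3 : finrank k (LinearMap.ker (S.mkQ.domRestrict (T.comap S.mkQ))) = finrank k S := by
    have h4 : (LinearMap.ker (S.mkQ.domRestrict (T.comap S.mkQ))).map
        (T.comap S.mkQ).subtype = S := by
      ext x
      simp only [Submodule.mem_map, LinearMap.mem_ker, LinearMap.domRestrict_apply,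
        Submodule.subtype_apply, Subtype.exists, exists_and_right, exists_eq_right,
        Submodule.mkQ_apply, Submodule.Quotient.mk_eq_zero, Submodule.mem_comap]
      constructor
      · rintro ⟨_, h⟩; exact h
      · intro h
        refine ⟨?_, h⟩
        have h5 : S.mkQ x = 0 := by
          rw [Submodule.mkQ_apply, Submodule.Quotient.mk_eq_zero]; exact h
        show S.mkQ x ∈ T
        rw [h5]
        exact T.zero_mem
    conv_rhs => rw [← h4]
    exact (LinearEquiv.finrank_eq (Submodule.equivMapOfInjective _
      (T.comap S.mkQ).injective_subtype _))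
  rw [h2, h3] at h1
  exact h1.symm

omit [FiniteDimensional k D'] [FiniteDimensional k D] in
theorem pre_quo (b : Pencil k X D' D) (S : Submodule k D) (T : Submodule k (D ⧸ S)) :
    (pre (quoP b S) T).comap (pre b S).mkQ = pre b (T.comap S.mkQ) := by
  ext d
  rw [Submodule.mem_comap, mem_pre, mem_pre]
  rfl

omit [FiniteDimensional k D] in
theorem finrank_pre_quo (b : Pencil k X D' D) (S : Submodule k D)
    (T : Submodule k (D ⧸ S)) :
    finrank k (pre b (T.comap S.mkQ)) = finrank k (pre (quoP b S) T) + finrank k (pre b S) := by
  rw [← pre_quo, finrank_comap_mkQ]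

omit [FiniteDimensional k D'] [FiniteDimensional k D] in
theorem finrank_pre_sub (b : Pencil k X D' D) (S : Submodule k D)
    (T : Submodule k S) :
    finrank k (pre (resP b S) T) = finrank k (pre b (T.map S.subtype)) := by
  have h : (pre (resP b S) T).map (pre b S).subtype = pre b (T.map S.subtype) := by
    ext d
    simp only [Submodule.mem_map, Submodule.subtype_apply, Subtype.exists, exists_and_right,
      exists_eq_right]
    constructor
    · rintro ⟨hd, h⟩
      rw [mem_pre] at h ⊢
      intro o
      exact ⟨_, h o, resP_apply_coe b S o ⟨d, hd⟩⟩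
    · intro h
      rw [mem_pre] at h
      have hd : d ∈ pre b S := by
        rw [mem_pre]
        intro o
        obtain ⟨x, _, hx⟩ := h o
        rw [← hx]; exact x.2
      refine ⟨hd, mem_pre.mpr fun o => ?_⟩
      obtain ⟨x, hxT, hx⟩ := h o
      have : resP b S o ⟨d, hd⟩ = x :=
        Subtype.ext ((resP_apply_coe b S o ⟨d, hd⟩).trans hx.symm)
      rw [this]; exact hxT
  rw [← h]
  exact (LinearEquiv.finrank_eq (Submodule.equivMapOfInjective _
      (pre b S).injective_subtype _))

omit [FiniteDimensional k D] in
theorem finrank_map_subtype (S : Submodule k D) (T : Submodule k S) :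
    finrank k (T.map S.subtype) = finrank k T :=
  (LinearEquiv.finrank_eq (Submodule.equivMapOfInjective _ S.injective_subtype _)).symm

omit [FiniteDimensional k D'] [FiniteDimensional k D] in
theorem cf_res {b : Pencil k X D' D} (h : CF b) {S : Submodule k D}
    (hS : finrank k D + finrank k (pre b S) = finrank k D' + finrank k S) : CF (resP b S) := by
  intro T
  have h1 := h (T.map S.subtype)
  rw [finrank_map_subtype, ← finrank_pre_sub] at h1
  omega

theorem cf_quo {b : Pencil k X D' D} (h : CF b) {S : Submodule k D}
    (hS : finrank k D + finrank k (pre b S) = finrank k D' + finrank k S) : CF (quoP b S) := by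
  intro T
  have h1 := h (T.comap S.mkQ)
  rw [finrank_comap_mkQ, finrank_pre_quo] at h1
  have h2 := S.finrank_quotient_add_finrank
  have h3 := (pre b S).finrank_quotient_add_finrank
  omega

omit [FiniteDimensional k D'] [FiniteDimensional k D] in
theorem full_res {b : Pencil k X D' D} (h : Full b) {S : Submodule k D}
    (hS : finrank k (pre b S) = finrank k S) : Full (resP b S) := by
  have h1 := h.1
  exact cf_full (cf_res (full_cf h) (by omega)) hS

theorem full_quo {b : Pencil k X D' D} (h : Full b) {S : Submodule k D}
    (hS : finrank k (pre b S) = finrank k S) : Full (quoP b S) := by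
  have h1 := h.1
  refine cf_full (cf_quo (full_cf h) (by omega)) ?_
  have h2 := S.finrank_quotient_add_finrank
  have h3 := (pre b S).finrank_quotient_add_finrank
  omega

end Tight

theorem TIGHT_proof : Stmt_Tight := by
  intro k _ X D' D _ _ _ _ _ _ b S
  exact ⟨fun h hS => ⟨Tight.cf_res h hS, Tight.cf_quo h hS⟩,
    fun h hS => ⟨Tight.full_res h hS, Tight.full_quo h hS⟩, Tight.full_cf⟩

end Pool.Agent.Matlis
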