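import Pool.Agent.Matlis.Defs

/-!
# Module TIGHT: restricted and quotient pencils
-/

set_option autoImplicit false

open Module

namespace Pool.Agent.Matlis.TL

section

variable {k : Type} [Field k] {X : Type}
variable {D' D V : Type} [AddCommGroup D'] [Module k D'] [AddCommGroup D] [Module k D]
  [AddCommGroup V] [Module k V]

lemma mem_pre (b : Pencil k X D' D) (S : Submodule k D) (d : D') :
    d ∈ pre b S ↔ ∀ o, b o d ∈ S := by
  simp [pre, Submodule.mem_iInf]

lemma pre_mono (b : Pencil k X D' D) {S T : Submodule k D} (h : S ≤ T) : pre b S ≤ pre b T := by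
  intro d hd
  rw [mem_pre] at hd ⊢
  exact fun o => h (hd o)

lemma pre_top (b : Pencil k X D' D) : pre b ⊤ = ⊤ := by
  rw [eq_top_iff]
  intro d _
  rw [mem_pre]
  exact fun o => trivial

lemma map_pre_res (b : Pencil k X D' D) (S : Submodule k D) (T : Submodule k S) :
    (pre (resP b S) T).map (pre b S).subtype = pre b (T.map S.subtype) := by
  ext d
  constructor
  · rintro ⟨d, hd, rfl⟩
    rw [SetLike.mem_coe, mem_pre] at hd
    rw [mem_pre]
    intro o
    exact ⟨resP b S o d, hd o, rfl⟩
  · intro hd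
    have hd' := hd
    rw [mem_pre] at hd'
    have hS : d ∈ pre b S := by
      rw [mem_pre]
      intro o
      obtain ⟨s, _, hs⟩ := hd' o
      rw [← hs]
      exact s.2
    refine ⟨⟨d, hS⟩, ?_, rfl⟩
    rw [SetLike.mem_coe, mem_pre]
    intro o
    obtain ⟨s, hsT, hs⟩ := hd' o
    have : resP b S o ⟨d, hS⟩ = s := by
      apply Subtype.ext
      rw [resP_apply_coe]
      exact hs.symm
    rw [this]
    exact hsT

lemma finrank_pre_res (b : Pencil k X D' D) (S : Submodule k D) (T : Submodule k S) :
    finrank k (pre (resP b S) T) = finrank k (pre b (T.map S.subtype)) := by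
  rw [← map_pre_res, Submodule.finrank_map_subtype_eq]

lemma comap_pre_quo (b : Pencil k X D' D) (S : Submodule k D) (T : Submodule k (D ⧸ S)) :
    (pre (quoP b S) T).comap (pre b S).mkQ = pre b (T.comap S.mkQ) := by
  ext d
  rw [Submodule.mem_comap, mem_pre, mem_pre]
  rfl

lemma finrank_comap_mkQ {M : Type} [AddCommGroup M] [Module k M] [FiniteDimensional k M]
    (p : Submodule k M) (T : Submodule k (M ⧸ p)) :
    finrank k (T.comap p.mkQ) = finrank k T + finrank k p := by
  have h := LinearMap.finrank_range_add_finrank_ker (p.mkQ.domRestrict (T.comap p.mkQ))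
  have h1 : LinearMap.range (p.mkQ.domRestrict (T.comap p.mkQ)) = T := by
    ext x
    constructor
    · rintro ⟨y, rfl⟩
      exact y.2
    · intro hx
      obtain ⟨y, rfl⟩ := p.mkQ_surjective x
      exact ⟨⟨y, hx⟩, rfl⟩
  have h2 : (LinearMap.ker (p.mkQ.domRestrict (T.comap p.mkQ))).map
      (T.comap p.mkQ).subtype = p := by
    ext x
    constructor
    · rintro ⟨y, hy, rfl⟩
      have : p.mkQ (y : M) = 0 := hy
      rwa [Submodule.mkQ_apply, Submodule.Quotient.mk_eq_zero] at this
    · intro hx
      have hx0 : p.mkQ x = 0 := by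
        rw [Submodule.mkQ_apply, Submodule.Quotient.mk_eq_zero]
        exact hx
      refine ⟨⟨x, ?_⟩, ?_, rfl⟩
      · rw [Submodule.mem_comap, hx0]
        exact T.zero_mem
      · exact hx0
  have h3 : finrank k (LinearMap.ker (p.mkQ.domRestrict (T.comap p.mkQ))) = finrank k p := by
    rw [← Submodule.finrank_map_subtype_eq, h2]
  rw [h1, h3] at h
  exact h.symm

lemma finrank_pre_quo [FiniteDimensional k D'] (b : Pencil k X D' D) (S : Submodule k D)
    (T : Submodule k (D ⧸ S)) :
    finrank k (pre b (T.comap S.mkQ)) = finrank k (pre (quoP b S) T) + finrank k (pre b S) := by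
  rw [← comap_pre_quo, finrank_comap_mkQ]

end

theorem tight_tl : Stmt_Tight := by
  intro k _ X D' D _ _ _ _ _ _ b S
  have hresD : ∀ T : Submodule k S, finrank k (T.map S.subtype) = finrank k T := fun T =>
    Submodule.finrank_map_subtype_eq S T
  have hquoD : ∀ T : Submodule k (D ⧸ S), finrank k (T.comap S.mkQ) = finrank k T + finrank k S :=
    fun T => finrank_comap_mkQ S T
  have hq1 := S.finrank_quotient_add_finrank
  have hq2 := (pre b S).finrank_quotient_add_finrank
  refine ⟨fun hb ht => ⟨fun T => ?_, fun T => ?_⟩,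
    fun hb ht => ⟨⟨ht, fun T => ?_⟩, ⟨?_, fun T => ?_⟩⟩, fun hb T => ?_⟩
  · have h := hb (T.map S.subtype)
    have h1 := finrank_pre_res b S T
    have h2 := hresD T
    omega
  · have h := hb (T.comap S.mkQ)
    have h1 := finrank_pre_quo b S T
    have h2 := hquoD T
    omega
  · have h := hb.2 (T.map S.subtype)
    have h1 := finrank_pre_res b S T
    have h2 := hresD T
    omega
  · have := hb.1
    omega
  · have h := hb.2 (T.comap S.mkQ)
    have h1 := finrank_pre_quo b S T
    have h2 := hquoD T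
    omega
  · have h := hb.2 T
    have := hb.1
    omega

section

variable {k : Type} [Field k] {X : Type}
variable {D' D E' E V : Type} [AddCommGroup D'] [Module k D'] [AddCommGroup D] [Module k D]
  [AddCommGroup E'] [Module k E'] [AddCommGroup E] [Module k E]
  [AddCommGroup V] [Module k V]

/-- Change the source and the target of a pencil: `o ↦ q ∘ b o ∘ j`. -/
noncomputable def conjP (j : E' →ₗ[k] D') (q : D →ₗ[k] E) (b : Pencil k X D' D) :
    Pencil k X E' E :=
  b.mapRange (fun f => q ∘ₗ f ∘ₗ j) (by ext; simp)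

@[simp] lemma conjP_apply (j : E' →ₗ[k] D') (q : D →ₗ[k] E) (b : Pencil k X D' D)
    (o : Option X) (d : E') : conjP j q b o d = q (b o (j d)) := by
  simp [conjP]

lemma ev_conjP (j : E' →ₗ[k] D') (q : D →ₗ[k] E) (b : Pencil k X D' D) (w : E →ₗ[k] V)
    (d : E') : ev (conjP j q b) w d = ev b (w ∘ₗ q) (j d) := by
  ext o
  simp

lemma pre_conjP (j : E' →ₗ[k] D') (q : D →ₗ[k] E) (b : Pencil k X D' D) (S : Submodule k E) :
    pre (conjP j q b) S = (pre b (S.comap q)).comap j := by
  ext d
  rw [Submodule.mem_comap, mem_pre, mem_pre]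
  simp

lemma finrank_pre_conjP (e' : E' ≃ₗ[k] D') (e : D ≃ₗ[k] E) (b : Pencil k X D' D)
    (S : Submodule k E) :
    finrank k (pre (conjP (e' : E' →ₗ[k] D') (e : D →ₗ[k] E) b) S) =
      finrank k (pre b (S.comap (e : D →ₗ[k] E))) := by
  rw [pre_conjP]
  have h : (pre b (S.comap (e : D →ₗ[k] E))).comap (e' : E' →ₗ[k] D') =
      (pre b (S.comap (e : D →ₗ[k] E))).map (e'.symm : D' →ₗ[k] E') := by
    rw [Submodule.map_equiv_eq_comap_symm]
    rfl
  rw [h]
  exact LinearEquiv.finrank_map_eq e'.symm _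

lemma finrank_comap_equiv (e : D ≃ₗ[k] E) (S : Submodule k E) :
    finrank k (S.comap (e : D →ₗ[k] E)) = finrank k S := by
  have h : S.comap (e : D →ₗ[k] E) = S.map (e.symm : E →ₗ[k] D) := by
    rw [Submodule.map_equiv_eq_comap_symm]
    rfl
  rw [h]
  exact LinearEquiv.finrank_map_eq e.symm _

lemma stable_conjP (e' : E' ≃ₗ[k] D') (e : D ≃ₗ[k] E) (b : Pencil k X D' D) (hb : Stable b) :
    Stable (conjP (e' : E' →ₗ[k] D') (e : D →ₗ[k] E) b) := by
  obtain ⟨⟨h1, h2⟩, h3, h4⟩ := hb
  refine ⟨⟨?_, fun S => ?_⟩, ?_, fun S hS hS' => ?_⟩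
  · rw [e'.finrank_eq, h1, e.finrank_eq]
  · rw [finrank_pre_conjP, ← finrank_comap_equiv e S]
    exact h2 _
  · rw [← e.finrank_eq]
    exact h3
  · rw [finrank_pre_conjP, ← finrank_comap_equiv e S]
    refine h4 _ ?_ ?_
    · intro h
      apply hS
      rw [eq_bot_iff]
      intro x hx
      have : e.symm x ∈ S.comap (e : D →ₗ[k] E) := by
        rw [Submodule.mem_comap]
        simpa using hx
      rw [h, Submodule.mem_bot] at this
      have h0 := congrArg e this
      simpa using h0
    · intro h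
      apply hS'
      rw [eq_top_iff]
      intro x _
      have : e.symm x ∈ S.comap (e : D →ₗ[k] E) := by
        rw [h]; trivial
      rw [Submodule.mem_comap] at this
      simpa using this

lemma ev_res (b : Pencil k X D' D) (S : Submodule k D) (w : D →ₗ[k] V) (d : pre b S) :
    ev (resP b S) (w ∘ₗ S.subtype) d = ev b w (d : D') := by
  ext o
  simp

lemma ev_quo (b : Pencil k X D' D) (S : Submodule k D) (w : (D ⧸ S) →ₗ[k] V) (d : D') :
    ev (quoP b S) w (Submodule.Quotient.mk d) = ev b (w ∘ₗ S.mkQ) d := by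
  ext o
  rw [ev_apply, ev_apply, quoP_apply_mk]
  rfl

lemma exists_equiv_fin (k : Type) [Field k] (D : Type) [AddCommGroup D] [Module k D]
    [FiniteDimensional k D] {n : ℕ} (h : finrank k D = n) : Nonempty (D ≃ₗ[k] (Fin n → k)) := by
  apply FiniteDimensional.nonempty_linearEquiv_of_finrank_eq
  rw [h]
  simp

end

end Pool.Agent.Matlis.TL
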