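import Pool.Agent.Matlis.Defs

/-!
# Block triangular pencils (MP_504466_al)
-/

set_option autoImplicit false

open Module

namespace Pool.Agent.Matlis

namespace TriAux

variable {k : Type} [Field k]

theorem finrank_prod_sub {A B : Type} [AddCommGroup A] [Module k A] [AddCommGroup B] [Module k B]
    [FiniteDimensional k A] [FiniteDimensional k B] (P : Submodule k (A × B)) :
    finrank k P = finrank k (P.comap (LinearMap.inl k A B)) +
      finrank k (P.map (LinearMap.snd k A B)) := by
  have h := LinearMap.finrank_range_add_finrank_ker ((LinearMap.snd k A B).domRestrict P)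
  have h1 : LinearMap.range ((LinearMap.snd k A B).domRestrict P) =
      P.map (LinearMap.snd k A B) := by
    rw [LinearMap.range_domRestrict]
  have h2 : finrank k (LinearMap.ker ((LinearMap.snd k A B).domRestrict P)) =
      finrank k (P.comap (LinearMap.inl k A B)) := by
    refine LinearEquiv.finrank_eq ?_
    exact
      { toFun := fun x => ⟨(x : P).1.1, by
          have hx : ((x : P) : A × B).2 = 0 := x.2
          rw [Submodule.mem_comap]
          have : LinearMap.inl k A B ((x : P) : A × B).1 = ((x : P) : A × B) := by
            ext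
            · rfl
            · exact hx.symm
          rw [this]
          exact (x : P).2⟩
        map_add' := fun _ _ => rfl
        map_smul' := fun _ _ => rfl
        invFun := fun a => ⟨⟨(a.1, 0), a.2⟩, rfl⟩
        left_inv := fun x => by
          have hx : ((x : P) : A × B).2 = 0 := x.2
          ext
          · rfl
          · exact hx.symm
        right_inv := fun a => rfl }
  rw [← h, h1, h2, add_comm]

theorem tri_apply {X D₁' D₁ D₂' D₂ : Type}
    [AddCommGroup D₁'] [Module k D₁'] [AddCommGroup D₁] [Module k D₁]
    [AddCommGroup D₂'] [Module k D₂'] [AddCommGroup D₂] [Module k D₂]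
    (b₁ : Pencil k X D₁' D₁) (b₂ : Pencil k X D₂' D₂) (g : Pencil k X D₂' D₁) (o : Option X)
    (d : D₁' × D₂') : tri b₁ b₂ g o d = (b₁ o d.1 + g o d.2, b₂ o d.2) := by
  simp [tri]

end TriAux

open TriAux in
theorem tri_proof : Stmt_Tri := by
  intro k _ X D₁' D₁ D₂' D₂ _ _ _ _ _ _ _ _ _ _ _ _ b₁ b₂ g h₁ h₂
  constructor
  · rw [Module.finrank_prod, Module.finrank_prod, h₁.1, h₂.1]
  · intro S
    rw [finrank_prod_sub S, finrank_prod_sub (pre (tri b₁ b₂ g) S)]
    have e1 : (pre (tri b₁ b₂ g) S).comap (LinearMap.inl k D₁' D₂') ≤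
        pre b₁ (S.comap (LinearMap.inl k D₁ D₂)) := by
      intro d hd
      rw [Submodule.mem_comap, pre, Submodule.mem_iInf] at hd
      rw [pre, Submodule.mem_iInf]
      intro o
      have := hd o
      rw [Submodule.mem_comap, tri_apply] at this
      simpa using this
    have e2 : (pre (tri b₁ b₂ g) S).map (LinearMap.snd k D₁' D₂') ≤
        pre b₂ (S.map (LinearMap.snd k D₁ D₂)) := by
      rintro _ ⟨d, hd, rfl⟩
      have hd' : d ∈ pre (tri b₁ b₂ g) S := hd
      rw [pre, Submodule.mem_iInf] at hd'
      rw [pre, Submodule.mem_iInf]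
      intro o
      have := hd' o
      rw [Submodule.mem_comap, tri_apply] at this
      exact ⟨_, this, rfl⟩
    have f1 := (Submodule.finrank_mono e1).trans (h₁.2 _)
    have f2 := (Submodule.finrank_mono e2).trans (h₂.2 _)
    omega

end Pool.Agent.Matlis
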