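import Pool.Agent.Matlis.Defs2

/-!
# Linear forms and arrows as elements of the ring (`Stmt_Unit`)
-/

set_option autoImplicit false

open scoped TensorProduct DirectSum
open Module

namespace Pool.Agent.Matlis

theorem unit_proof (hRm : Stmt_Rmem) (hD : Stmt_Dens) : Stmt_Unit := by
  intro k _ G z n c hc lam U hU
  obtain ⟨hD1, hD2⟩ := hD k Z0 Q0 G _ (NN0 k)
  obtain ⟨hmem, -⟩ := hRm k Z0 Q0 G _ (NN0 k)
  obtain ⟨r1, hr1, h1⟩ := hD1 U hU (Pi.single z (lam.smulRight (G.v0 z)))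
  have key : ∀ i, ∀ y ∈ HatU G (NN0 k i) U,
      r1 i y = hι G (NN0 k i) z (ctr G (NN0 k i) z lam y ⊗ₜ[k] G.v0 z) := by
    intro i
    refine HatU_eqOn G (NN0 k i) U (f := r1 i)
      (g := (hι G (NN0 k i) z) ∘ₗ ((TensorProduct.mk k _ _).flip (G.v0 z)) ∘ₗ
        ctr G (NN0 k i) z lam) ?_
    intro z' m u hu
    rw [h1 i z' m u hu]
    by_cases hz : z' = z
    · subst hz
      rw [Pi.single_eq_same]
      simp
    · rw [Pi.single_eq_of_ne hz]
      simp [ctr, hπ_hι_ne G _ hz]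
  by_cases hz : z = Z0.nat n
  · subst hz
    refine ⟨r1, hr1, fun i y hy => ?_⟩
    rw [key i y hy, actc_self]
    rfl
  · obtain ⟨r2, hr2, h2⟩ := hD2 (⟨z, n, c, hc, hz⟩ : Arr0)
    refine ⟨r2 * r1, ?_, fun i y hy => ?_⟩
    · rw [← hmem] at hr1 hr2 ⊢
      exact Subalgebra.mul_mem _ hr2 hr1
    · show r2 i (r1 i y) = _
      rw [key i y hy]
      have h3 := h2 i (ctr G (NN0 k i) z lam y)
      rw [actc, dif_neg hz]
      exact h3

end Pool.Agent.Matlis
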