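import Pool.Agent.Matlis.Defs2

set_option autoImplicit false

open scoped TensorProduct DirectSum
open Module

namespace Pool.Agent.Matlis

theorem unit_proof' (hRm : Stmt_Rmem) (hD : Stmt_Dens) : Stmt_Unit := by
  classical
  intro k _ G z n c hc lam U hU
  obtain ⟨hD1, hD2⟩ := hD k Z0 Q0 G (Z0 ⊕ ℕ) (NN0 k)
  obtain ⟨r1, hr1, h1⟩ := hD1 U hU (Function.update (fun _ => 0) z (lam.smulRight (G.v0 z)))
  have key1 : ∀ i, ∀ y ∈ HatU G (NN0 k i) U, r1 i y =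
      hι G (NN0 k i) z (ctr G (NN0 k i) z lam y ⊗ₜ[k] G.v0 z) := by
    intro i y hy
    let g : Hat G (NN0 k i) →ₗ[k] Hat G (NN0 k i) :=
      hι G (NN0 k i) z ∘ₗ ((TensorProduct.mk k _ _).flip (G.v0 z)) ∘ₗ ctr G (NN0 k i) z lam
    show r1 i y = g y
    refine HatU_eqOn G (NN0 k i) U ?_ y hy
    intro z' m u hu
    rw [h1 i z' m u hu]
    show _ = hι G (NN0 k i) z (ctr G (NN0 k i) z lam _ ⊗ₜ[k] G.v0 z)
    by_cases hz : z' = z
    · subst hz
      rw [ctr_hι_same, Function.update_self]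
      congr 1
      show m ⊗ₜ[k] (lam u • G.v0 z') = _
      rw [TensorProduct.smul_tmul]
    · rw [ctr_hι_ne G _ hz, Function.update_of_ne hz]
      simp
  by_cases hz : z = Z0.nat n
  · subst hz
    refine ⟨r1, hr1, ?_⟩
    intro i y hy
    rw [key1 i y hy, actc_self]
    rfl
  · obtain ⟨r2, hr2, h2⟩ := hD2 (⟨z, n, c, hc, hz⟩ : Arr0)
    refine ⟨r2 * r1, ?_, ?_⟩
    · have hm := (hRm k Z0 Q0 G (Z0 ⊕ ℕ) (NN0 k)).1
      exact (hm _).1 ((RR G (NN0 k)).mul_mem ((hm _).2 hr2) ((hm _).2 hr1))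
    · intro i y hy
      show r2 i (r1 i y) = _
      rw [key1 i y hy, actc_ne _ _ _ _ _ hz]
      exact h2 i _

end Pool.Agent.Matlis
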