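import Pool.Agent.Matlis.Defs2

/-!
# Matlis' problem (MP_504466_al): division with control of the quotient (module YONS)
-/

set_option autoImplicit false

open scoped TensorProduct DirectSum
open Module

namespace Pool.Agent.Matlis

theorem yonS_proof (hDiv : Stmt_Div) (hNat : Stmt_Nat) : Stmt_Yon := by
  classical
  intro k _ G a ha ha0 U hU
  obtain ⟨hsurj, Ua, hUa, -, hdiv⟩ := hDiv k Z0 Q0 G (Z0 ⊕ ℕ) (NN0 k) a ha ha0
  have hx : ∀ (z : Z0) (u : G.V z), ∃ x : Hat G (Prep k z),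
      a (Sum.inl z) x = hι G (Prep k z) z (pid z ⊗ₜ[k] u) := fun z u => hsurj (Sum.inl z) _
  choose x hx using hx
  have hW : ∀ (z : Z0) (u : G.V z), ∃ W : ∀ z, Submodule k (G.V z), FinFam W ∧
      x z u ∈ HatU G (Prep k z) W := fun z u => exists_HatU G _ (x z u)
  choose W hWf hWx using hW
  have hS : ∀ z, ∃ S : Finset (G.V z), Submodule.span k (S : Set (G.V z)) = U z :=
    fun z => hU.2 z
  choose S hS using hS
  have hf2 : FinFam (fun z' => ⨆ z ∈ hU.1.toFinset, ⨆ u ∈ S z, W z u z') :=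
    FinFam.finset hU.1.toFinset (U := fun z z' => ⨆ u ∈ S z, W z u z')
      fun z _ => FinFam.finset (S z) (U := fun u z' => W z u z') fun u _ => hWf z u
  refine ⟨_, hUa.sup hf2, fun r hr hr0 => ?_⟩
  obtain ⟨s, hs, hsa⟩ := hdiv r hr fun i y hy =>
    hr0 i y (HatU_mono G _ (fun z => le_sup_left) hy)
  refine ⟨s, hs, fun i y hy => ?_, hsa⟩
  have hle : ∀ z ∈ hU.1.toFinset, ∀ u ∈ S z, ∀ z', W z u z' ≤
      Ua z' ⊔ ⨆ z ∈ hU.1.toFinset, ⨆ u ∈ S z, W z u z' := by
    intro z hz u hu z'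
    refine le_trans ?_ le_sup_right
    refine le_trans ?_ (le_iSup₂ (f := fun z (_ : z ∈ hU.1.toFinset) => ⨆ u ∈ S z, W z u z') z hz)
    exact le_iSup₂ (f := fun u (_ : u ∈ S z) => W z u z') u hu
  have key : ∀ z ∈ hU.1.toFinset, ∀ u ∈ S z,
      s (Sum.inl z) (hι G (Prep k z) z (pid z ⊗ₜ[k] u)) = 0 := by
    intro z hz u hu
    have h1 := hr0 (Sum.inl z) (x z u) (HatU_mono G _ (hle z hz u hu) (hWx z u))
    rw [← hsa] at h1
    rw [← hx z u]
    exact h1
  have key2 : ∀ z (n : (NN0 k i).N z), ∀ u ∈ U z, s i (hι G (NN0 k i) z (n ⊗ₜ[k] u)) = 0 := by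
    intro z n u hu
    by_cases hz : U z = ⊥
    · rw [hz, Submodule.mem_bot] at hu
      rw [hu, TensorProduct.tmul_zero, map_zero, map_zero]
    · have hzF : z ∈ hU.1.toFinset := by simpa using hz
      rw [← hS z] at hu
      induction hu using Submodule.span_induction with
      | mem u hu =>
        have h1 := hNat k Z0 Q0 G (Z0 ⊕ ℕ) (NN0 k) (Sum.inl z) i
          (Hmap G (yon (NN0 k i) (fct_NN0 i) z n))
          (fun t y => Hmap_xhat G (yon (NN0 k i) (fct_NN0 i) z n) t y) s hs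
          (hι G (Prep k z) z (pid z ⊗ₜ[k] u))
        rw [key z hzF u hu, map_zero] at h1
        have h2 : Hmap G (yon (NN0 k i) (fct_NN0 i) z n) (hι G (Prep k z) z (pid z ⊗ₜ[k] u)) =
            hι G (NN0 k i) z (n ⊗ₜ[k] u) := by
          rw [Hmap_hι, yon_pid]
        exact (congrArg (s i) h2.symm).trans h1.symm
      | zero => rw [TensorProduct.tmul_zero, map_zero, map_zero]
      | add u v _ _ hu hv => rw [TensorProduct.tmul_add, map_add, map_add, hu, hv, add_zero]
      | smul c u _ hu => rw [TensorProduct.tmul_smul, map_smul, map_smul, hu, smul_zero]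
  have h3 := HatU_eqOn G (NN0 k i) U (f := s i) (g := 0) (fun z n u hu => by
    rw [key2 z n u hu]; rfl) y hy
  exact h3

end Pool.Agent.Matlis
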